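import Pool.Agent.Helper41.CT.Defs
import Pool.Agent.Helper41.GF.KerDefs

/-!
# The graph with ghosts attached to a reversible chain
-/

set_option autoImplicit false

open scoped ENNReal NNReal Nat
open Finset MeasureTheory ProbabilityTheory
open Pool.Agent.Helper41.GF

namespace Pool.Agent.Helper41.CT

/-- ordered pairs of distinct vertices -/
abbrev CE (V : Type) : Type := {p : V × V // p.1 ≠ p.2}

/-- scaling factor between the two normalisations of the field -/
noncomputable def scl {V : Type} (P : Matrix V V ℝ) (π : V → ℝ) (q : ℝ) (x : V) : ℝ :=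
  Real.sqrt (π x * (1 - q * P x x))

/-- the graph with ghosts of a killed reversible chain, two kinds of ghosts -/
noncomputable def cg {V : Type} (P : Matrix V V ℝ) (π : V → ℝ) (q : ℝ) (φ₀ φ₁ : V → ℝ) :
    GG V (CE V) (V × Bool) where
  src e := e.1.1
  tgt e := e.1.2
  hne e := e.2
  hs g := g.1
  w e := Real.toNNReal (q * (π e.1.1 * P e.1.1 e.1.2)
    / (2 * (scl P π q e.1.1 * scl P π q e.1.2)))
  f g := Real.toNNReal ((if g.2 then φ₁ g.1 else φ₀ g.1) * π g.1 / scl P π q g.1)

/-- remove the ghosts -/
def noghost {V E H : Type} (G : GG V E H) : GG V E H where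
  src := G.src
  tgt := G.tgt
  hne := G.hne
  hs := G.hs
  w := G.w
  f _ := 0

end Pool.Agent.Helper41.CT
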