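import Pool.Agent.Helper41.CT.Defs


/-!
# Definitions for cover times of killed random walks and Gaussian fields
-/

set_option autoImplicit false

open scoped ENNReal NNReal Nat
open Finset MeasureTheory ProbabilityTheory

namespace Pool.Agent.Helper41.CT

/-! ## TARGETS: prove these (statements must not be changed; helper lemmas are welcome) -/

section green

variable {V : Type} [Fintype V] [DecidableEq V] {P : Matrix V V ℝ} {π : V → ℝ}

/-- maximum principle for the killed walk -/
theorem max_pr (h : Rev P π) (q : ℝ) (h0 : 0 < q) (h1 : q < 1) (A : Finset V) (u : V → ℝ)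
    (hu : ∀ x, x ∉ A → u x ≤ q * ∑ z, P x z * u z) (hA : ∀ x ∈ A, u x ≤ 0) (x : V) :
    u x ≤ 0 := by
  haveI : Nonempty V := ⟨x⟩
  obtain ⟨x0, hx0⟩ := Finite.exists_max u
  refine (hx0 x).trans ?_
  by_contra hpos
  push Not at hpos
  have hx0A : x0 ∉ A := fun hmem => absurd (hA x0 hmem) (not_le.2 hpos)
  have h2 := hu x0 hx0A
  have h3 : ∑ z, P x0 z * u z ≤ ∑ z, P x0 z * u x0 :=
    Finset.sum_le_sum fun z _ => mul_le_mul_of_nonneg_left (hx0 z) (h.nn x0 z)
  rw [← Finset.sum_mul, h.row, one_mul] at h3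
  have h4 : q * ∑ z, P x0 z * u z ≤ q * u x0 := mul_le_mul_of_nonneg_left h3 h0.le
  nlinarith

theorem hom_zero (h : Rev P π) (q : ℝ) (h0 : 0 < q) (h1 : q < 1) (u : V → ℝ)
    (hu : ∀ x, u x = q * ∑ z, P x z * u z) (x : V) : u x = 0 := by
  apply le_antisymm
  · exact max_pr h q h0 h1 ∅ u (fun x _ => (hu x).le) (by simp) x
  · have := max_pr h q h0 h1 ∅ (fun x => - u x) (fun x _ => by
      have := hu x
      simp only [mul_neg, Finset.sum_neg_distrib]
      linarith) (by simp) x
    linarith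

theorem Gn_inv (h : Rev P π) (q : ℝ) (h0 : 0 < q) (h1 : q < 1) :
    (1 - q • P) * Gn P q = 1 ∧ Gn P q * (1 - q • P) = 1 := by
  have hdet : IsUnit (1 - q • P).det := by
    rw [isUnit_iff_ne_zero]
    intro hd
    obtain ⟨v, hv, hv0⟩ := Matrix.exists_mulVec_eq_zero_iff.2 hd
    apply hv
    funext x
    apply hom_zero h q h0 h1 v
    intro x
    have h2 := congrFun hv0 x
    rw [Matrix.sub_mulVec, Matrix.one_mulVec, Matrix.smul_mulVec] at h2
    simp only [Pi.sub_apply, Pi.smul_apply, smul_eq_mul, Pi.zero_apply, Matrix.mulVec, dotProduct] at h2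
    linarith
  exact ⟨Matrix.mul_nonsing_inv _ hdet, Matrix.nonsing_inv_mul _ hdet⟩

theorem Gn_left (h : Rev P π) (q : ℝ) (h0 : 0 < q) (h1 : q < 1) (x y : V) :
    Gn P q x y = (if x = y then 1 else 0) + q * ∑ z, P x z * Gn P q z y := by
  have h2 := congrFun (congrFun (Gn_inv h q h0 h1).1 x) y
  rw [sub_mul, one_mul, Matrix.smul_mul, Matrix.sub_apply, Matrix.smul_apply, Matrix.mul_apply,
    Matrix.one_apply, smul_eq_mul] at h2
  linarith

theorem Gn_right (h : Rev P π) (q : ℝ) (h0 : 0 < q) (h1 : q < 1) (x y : V) :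
    Gn P q x y = (if x = y then 1 else 0) + q * ∑ z, Gn P q x z * P z y := by
  have h2 := congrFun (congrFun (Gn_inv h q h0 h1).2 x) y
  rw [mul_sub, mul_one, Matrix.mul_smul, Matrix.sub_apply, Matrix.smul_apply, Matrix.mul_apply,
    Matrix.one_apply, smul_eq_mul] at h2
  linarith

theorem Gn_nonneg (h : Rev P π) (q : ℝ) (h0 : 0 < q) (h1 : q < 1) (x y : V) :
    0 ≤ Gn P q x y := by
  have := max_pr h q h0 h1 ∅ (fun x => - Gn P q x y) (fun x _ => by
    have h2 := Gn_left h q h0 h1 x y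
    simp only [mul_neg, Finset.sum_neg_distrib]
    have h3 : (0:ℝ) ≤ if x = y then 1 else 0 := by split_ifs <;> norm_num
    linarith) (by simp) x
  linarith

theorem Gn_row (h : Rev P π) (q : ℝ) (h0 : 0 < q) (h1 : q < 1) (x : V) :
    ∑ y, Gn P q x y = 1 / (1 - q) := by
  have h2 := hom_zero h q h0 h1 (fun x => ∑ y, Gn P q x y - 1 / (1 - q)) (fun x => by
    have h3 : ∑ y, Gn P q x y = 1 + q * ∑ z, P x z * ∑ y, Gn P q z y := by
      rw [Finset.sum_congr rfl fun y _ => Gn_left h q h0 h1 x y, Finset.sum_add_distrib,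
        ← Finset.mul_sum]
      congr 1
      · simp
      · congr 1
        rw [Finset.sum_comm]
        exact Finset.sum_congr rfl fun z _ => (Finset.mul_sum _ _ _).symm
    have h4 : ∑ z, P x z * (∑ y, Gn P q z y - 1 / (1 - q)) =
        ∑ z, P x z * ∑ y, Gn P q z y - 1 / (1 - q) := by
      simp only [mul_sub, Finset.sum_sub_distrib, ← Finset.sum_mul]
      rw [h.row, one_mul]
    rw [h4, h3]
    have : (1 - q) ≠ 0 := by linarith
    field_simp
    ring) x
  linarith

theorem Gn_symm (h : Rev P π) (q : ℝ) (h0 : 0 < q) (h1 : q < 1) (x y : V) :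
    π x * Gn P q x y = π y * Gn P q y x := by
  have hpx : ∀ x, π x ≠ 0 := fun x => (h.pos x).ne'
  have h2 := hom_zero h q h0 h1 (fun x => Gn P q x y - π y * Gn P q y x / π x) (fun x => by
    have h3 := Gn_left h q h0 h1 x y
    have h4 := Gn_right h q h0 h1 y x
    have h5 : ∑ z, P x z * (Gn P q z y - π y * Gn P q y z / π z) =
        ∑ z, P x z * Gn P q z y - π y / π x * ∑ z, Gn P q y z * P z x := by
      rw [Finset.mul_sum, ← Finset.sum_sub_distrib]
      apply Finset.sum_congr rfl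
      intro z _
      have h6 := h.rev x z
      have h7 : P x z / π z = P z x / π x := by
        rw [div_eq_div_iff (hpx z) (hpx x)]
        linarith
      have h8 : P x z * (π y * Gn P q y z / π z) = π y * Gn P q y z * (P x z / π z) := by ring
      rw [mul_sub, h8, h7]
      ring
    have h9 : π y * Gn P q y x / π x = (if x = y then 1 else 0) +
        q * (π y / π x * ∑ z, Gn P q y z * P z x) := by
      rw [h4]
      by_cases hxy : x = y
      · subst hxy
        simp only [if_true]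
        field_simp [hpx x]
      · rw [if_neg hxy, if_neg (Ne.symm hxy)]
        ring
    rw [h5, h9]
    linarith) x
  have h3 : Gn P q x y = π y * Gn P q y x / π x := by linarith
  rw [h3]
  field_simp [hpx x]

theorem Gn_col (h : Rev P π) (q : ℝ) (h0 : 0 < q) (h1 : q < 1) (y : V) :
    ∑ x, π x * Gn P q x y = π y / (1 - q) := by
  rw [Finset.sum_congr rfl fun x _ => Gn_symm h q h0 h1 x y, ← Finset.mul_sum, Gn_row h q h0 h1]
  ring

theorem gn_symm (h : Rev P π) (q : ℝ) (h0 : 0 < q) (h1 : q < 1) (x y : V) :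
    gn P π q x y = gn P π q y x := by
  unfold gn
  rw [div_eq_div_iff (h.pos y).ne' (h.pos x).ne']
  have := Gn_symm h q h0 h1 x y
  linarith

theorem Gn_diag (h : Rev P π) (q : ℝ) (h0 : 0 < q) (h1 : q < 1) (y : V) :
    1 ≤ Gn P q y y := by
  have h2 := Gn_left h q h0 h1 y y
  rw [if_pos rfl] at h2
  have h3 : 0 ≤ ∑ z, P y z * Gn P q z y :=
    Finset.sum_nonneg fun z _ => mul_nonneg (h.nn y z) (Gn_nonneg h q h0 h1 z y)
  have h4 : 0 ≤ q * ∑ z, P y z * Gn P q z y := mul_nonneg h0.le h3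
  linarith

theorem Gn_le (h : Rev P π) (q : ℝ) (h0 : 0 < q) (h1 : q < 1) (x y : V) :
    Gn P q x y ≤ Gn P q y y := by
  have := max_pr h q h0 h1 {y} (fun x => Gn P q x y - Gn P q y y) (fun x hx => by
    rw [Finset.mem_singleton] at hx
    have h2 := Gn_left h q h0 h1 x y
    rw [if_neg hx] at h2
    have h4 : ∑ z, P x z * (Gn P q z y - Gn P q y y) = ∑ z, P x z * Gn P q z y - Gn P q y y := by
      simp only [mul_sub, Finset.sum_sub_distrib, ← Finset.sum_mul]
      rw [h.row, one_mul]
    rw [h4]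
    have h5 := Gn_diag h q h0 h1 y
    nlinarith) (fun x hx => by
      rw [Finset.mem_singleton] at hx
      subst hx
      simp) x
  linarith

theorem gn_diag_pos (h : Rev P π) (q : ℝ) (h0 : 0 < q) (h1 : q < 1) (y : V) :
    0 < gn P π q y y := by
  unfold gn
  have := Gn_diag h q h0 h1 y
  exact div_pos (by linarith) (h.pos y)

theorem gn_eq_hit (h : Rev P π) (q : ℝ) (h0 : 0 < q) (h1 : q < 1) (x y : V) :
    gn P π q x y = hit P q x y * gn P π q y y := by
  unfold gn hit
  have h2 : Gn P q y y ≠ 0 := by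
    have := Gn_diag h q h0 h1 y
    linarith
  field_simp

theorem hit_self (h : Rev P π) (q : ℝ) (h0 : 0 < q) (h1 : q < 1) (y : V) :
    hit P q y y = 1 := by
  unfold hit
  have h2 : Gn P q y y ≠ 0 := by
    have := Gn_diag h q h0 h1 y
    linarith
  exact div_self h2

theorem hit_nonneg (h : Rev P π) (q : ℝ) (h0 : 0 < q) (h1 : q < 1) (x y : V) :
    0 ≤ hit P q x y :=
  div_nonneg (Gn_nonneg h q h0 h1 x y) (Gn_nonneg h q h0 h1 y y)

theorem hit_le_one (h : Rev P π) (q : ℝ) (h0 : 0 < q) (h1 : q < 1) (x y : V) :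
    hit P q x y ≤ 1 := by
  unfold hit
  have := Gn_diag h q h0 h1 y
  rw [div_le_one (by linarith)]
  exact Gn_le h q h0 h1 x y

theorem hit_harm (h : Rev P π) (q : ℝ) (h0 : 0 < q) (h1 : q < 1) (x y : V) (hxy : x ≠ y) :
    hit P q x y = q * ∑ z, P x z * hit P q z y := by
  have h2 := Gn_left h q h0 h1 x y
  rw [if_neg hxy, zero_add] at h2
  unfold hit
  rw [h2, mul_div_assoc, Finset.sum_div]
  congr 1
  exact Finset.sum_congr rfl fun z _ => by ring

end green

end Pool.Agent.Helper41.CT
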