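import Pool.Agent.Helper41.CT.Defs
import Pool.Agent.Helper41.CT.GreenA

/-!
# Definitions for cover times of killed random walks and Gaussian fields
-/

set_option autoImplicit false

open scoped ENNReal NNReal Nat
open Finset MeasureTheory ProbabilityTheory

namespace Pool.Agent.Helper41.CT


/-! ## TARGETS: prove these (statements must not be changed; helper lemmas are welcome) -/

section green

variable {V : Type} [Fintype V] [DecidableEq V] {P : Matrix V V ℝ} {π : V → ℝ}

/-- strong Markov property -/
theorem Gn_strong (h : Rev P π) (q : ℝ) (h0 : 0 < q) (h1 : q < 1) (x y z : V) :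
    hit P q x y * Gn P q y z ≤ Gn P q x z := by
  have key := max_pr h q h0 h1 {y} (fun x => hit P q x y * Gn P q y z - Gn P q x z) ?_ ?_ x
  · linarith
  · intro x hx
    have hxy : x ≠ y := by simpa using hx
    have e1 := hit_harm h q h0 h1 x y hxy
    have e2 := Gn_left h q h0 h1 x z
    have e3 : (0 : ℝ) ≤ (if x = z then 1 else 0) := by split_ifs <;> norm_num
    have e4 : q * ∑ w, P x w * (hit P q w y * Gn P q y z - Gn P q w z) =
        (q * ∑ w, P x w * hit P q w y) * Gn P q y z - q * ∑ w, P x w * Gn P q w z := by
      simp only [mul_sub, Finset.sum_sub_distrib, Finset.mul_sum, Finset.sum_mul]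
      congr 1
      exact Finset.sum_congr rfl fun w _ => by ring
    rw [e4, ← e1]
    linarith
  · intro x hx
    have hxy : x = y := by simpa using hx
    subst hxy
    rw [hit_self h q h0 h1]
    linarith

/-- the symmetric Green function is positive semidefinite -/
theorem qf_gn_nonneg (h : Rev P π) (q : ℝ) (h0 : 0 < q) (h1 : q < 1) (t : V → ℝ) :
    0 ≤ qf (gn P π q) t := by
  set u : V → ℝ := fun x => ∑ y, gn P π q x y * t y with hu
  have hpos := h.pos
  have e1 : ∀ x, t x = π x * (u x - q * ∑ z, P x z * u z) := by
    intro x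
    have e2 : u x - q * ∑ z, P x z * u z =
        ∑ y, (Gn P q x y - q * ∑ z, P x z * Gn P q z y) / π y * t y := by
      simp only [hu, gn]
      have e3 : q * ∑ z, P x z * ∑ y, Gn P q z y / π y * t y =
          ∑ y, (q * ∑ z, P x z * Gn P q z y) / π y * t y := by
        simp only [Finset.mul_sum, Finset.sum_div, Finset.sum_mul]
        rw [Finset.sum_comm]
        refine Finset.sum_congr rfl fun y _ => Finset.sum_congr rfl fun z _ => ?_
        ring
      rw [e3, ← Finset.sum_sub_distrib]
      refine Finset.sum_congr rfl fun y _ => ?_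
      ring
    have e4 : ∀ y, (Gn P q x y - q * ∑ z, P x z * Gn P q z y) = if x = y then 1 else 0 := by
      intro y
      have := Gn_left h q h0 h1 x y
      linarith
    rw [e2]
    simp only [e4]
    rw [Finset.sum_eq_single x]
    · simp only [if_true]
      have := (hpos x).ne'
      field_simp
    · intro y _ hy
      rw [if_neg (Ne.symm hy)]; simp
    · intro hx
      exact absurd (Finset.mem_univ x) hx
  have e5 : qf (gn P π q) t = ∑ x, t x * u x := by
    simp only [qf, hu, Finset.mul_sum]
    refine Finset.sum_congr rfl fun x _ => Finset.sum_congr rfl fun y _ => ?_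
    ring
  set D : ℝ := ∑ x, ∑ z, π x * P x z * (u x * u z) with hD
  set S : ℝ := ∑ x, π x * u x ^ 2 with hS
  have e6 : qf (gn P π q) t = S - q * D := by
    rw [e5, hS, hD, Finset.mul_sum, ← Finset.sum_sub_distrib]
    refine Finset.sum_congr rfl fun x _ => ?_
    rw [e1 x]
    have : (∑ z, π x * P x z * (u x * u z)) = π x * u x * ∑ z, P x z * u z := by
      rw [Finset.mul_sum]
      refine Finset.sum_congr rfl fun z _ => ?_
      ring
    rw [this]
    ring
  have e7 : D ≤ S := by
    have e8 : D ≤ ∑ x, ∑ z, (π x * P x z * u x ^ 2 / 2 + π x * P x z * u z ^ 2 / 2) := by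
      refine Finset.sum_le_sum fun x _ => Finset.sum_le_sum fun z _ => ?_
      have hc : 0 ≤ π x * P x z := mul_nonneg (hpos x).le (h.nn x z)
      nlinarith [mul_nonneg hc (sq_nonneg (u x - u z))]
    refine e8.trans (le_of_eq ?_)
    simp only [Finset.sum_add_distrib]
    have e9 : ∑ x, ∑ z, π x * P x z * u x ^ 2 / 2 = S / 2 := by
      rw [hS, Finset.sum_div]
      refine Finset.sum_congr rfl fun x _ => ?_
      have : ∑ z, π x * P x z * u x ^ 2 / 2 = (π x * u x ^ 2 / 2) * ∑ z, P x z := by
        rw [Finset.mul_sum]
        refine Finset.sum_congr rfl fun z _ => ?_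
        ring
      rw [this, h.row x]; ring
    have e10 : ∑ x, ∑ z, π x * P x z * u z ^ 2 / 2 = S / 2 := by
      rw [Finset.sum_comm, hS, Finset.sum_div]
      refine Finset.sum_congr rfl fun z _ => ?_
      have : ∑ x, π x * P x z * u z ^ 2 / 2 = (π z * u z ^ 2 / 2) * ∑ x, P z x := by
        rw [Finset.mul_sum]
        refine Finset.sum_congr rfl fun x _ => ?_
        rw [h.rev x z]
        ring
      rw [this, h.row z]; ring
    rw [e9, e10]; ring
  have hS0 : 0 ≤ S := Finset.sum_nonneg fun x _ => mul_nonneg (hpos x).le (sq_nonneg _)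
  rw [e6]
  nlinarith

end green

end Pool.Agent.Helper41.CT
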