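import Pool.Agent.Helper41.CT.Defs
import Pool.Agent.Helper41.CT.DefsG
import Pool.Agent.Helper41.CT.GreenB
import Pool.Agent.Helper41.GF.GaussD

set_option autoImplicit false

open scoped ENNReal NNReal Nat
open Finset MeasureTheory ProbabilityTheory
open Pool.Agent.Helper41.GF

namespace Pool.Agent.Helper41.CT


/-! ## TARGETS: prove these (statements must not be changed; helper lemmas are welcome) -/

section chaingraph

variable {V : Type} [Fintype V] [DecidableEq V] {P : Matrix V V ℝ} {π : V → ℝ}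

theorem ct45_Ple (h : Rev P π) (x y : V) : P x y ≤ 1 := by
  rw [← h.row x]
  exact Finset.single_le_sum (f := fun y => P x y) (fun z _ => h.nn x z) (Finset.mem_univ y)

theorem ct45_pos (h : Rev P π) (q : ℝ) (h0 : 0 < q) (h1 : q < 1) (x : V) :
    0 < π x * (1 - q * P x x) := by
  have h2 := ct45_Ple h x x
  have h3 := h.nn x x
  have h4 : 0 < 1 - q * P x x := by nlinarith
  exact mul_pos (h.pos x) h4

theorem scl_pos (h : Rev P π) (q : ℝ) (h0 : 0 < q) (h1 : q < 1) (x : V) :
    0 < scl P π q x := by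
  unfold scl
  exact Real.sqrt_pos.2 (ct45_pos h q h0 h1 x)

theorem ct45_sq (h : Rev P π) (q : ℝ) (h0 : 0 < q) (h1 : q < 1) (x : V) :
    scl P π q x ^ 2 = π x * (1 - q * P x x) := by
  unfold scl
  exact Real.sq_sqrt (ct45_pos h q h0 h1 x).le

theorem ct45_sum (f : V → V → ℝ) :
    ∑ e : CE V, f e.1.1 e.1.2 = ∑ x, ∑ y, if x = y then 0 else f x y := by
  have e1 : ∑ e : CE V, f e.1.1 e.1.2 =
      ∑ p ∈ Finset.univ.filter (fun p : V × V => p.1 ≠ p.2), f p.1 p.2 :=
    (Finset.sum_subtype (Finset.univ.filter (fun p : V × V => p.1 ≠ p.2))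
    (p := fun p : V × V => p.1 ≠ p.2) (by simp) (fun p => f p.1 p.2)).symm
  rw [e1, Finset.sum_filter, Fintype.sum_prod_type]
  apply Finset.sum_congr rfl
  intro x _
  apply Finset.sum_congr rfl
  intro y _
  by_cases hxy : x = y
  · simp [hxy]
  · simp [hxy]

theorem ct45_w (h : Rev P π) (q : ℝ) (h0 : 0 < q) (h1 : q < 1) (φ₀ φ₁ : V → ℝ) (e : CE V) :
    ((cg P π q φ₀ φ₁).w e : ℝ) = q * (π e.1.1 * P e.1.1 e.1.2)
      / (2 * (scl P π q e.1.1 * scl P π q e.1.2)) := by
  unfold cg
  simp only []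
  rw [Real.coe_toNNReal]
  have a1 := scl_pos h q h0 h1 e.1.1
  have a2 := scl_pos h q h0 h1 e.1.2
  have a3 := h.pos e.1.1
  have a4 := h.nn e.1.1 e.1.2
  positivity

theorem cg_fin (h : Rev P π) (q : ℝ) (h0 : 0 < q) (h1 : q < 1) (φ₀ φ₁ : V → ℝ) :
    ∫⁻ ψ : V → ℝ, ENNReal.ofReal ((cg P π q φ₀ φ₁).rho ψ) ≠ ∞ := by
  apply GG.lintegral_rho_ne_top _ (1 - q) (by linarith)
  intro ψ
  have hs := scl_pos h q h0 h1
  obtain ⟨u, hu⟩ : ∃ u : V → ℝ, ∀ x, u x = ψ x / scl P π q x := ⟨_, fun _ => rfl⟩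
  obtain ⟨W, hW⟩ : ∃ W : V → V → ℝ, ∀ x y, W x y = if x = y then 0 else q * (π x * P x y) :=
    ⟨_, fun _ _ => rfl⟩
  have hW0 : ∀ x y, 0 ≤ W x y := by
    intro x y
    rw [hW]
    split_ifs
    · exact le_rfl
    · have := h.pos x
      have := h.nn x y
      positivity
  have hWs : ∀ x y, W x y = W y x := by
    intro x y
    rw [hW, hW]
    by_cases hxy : x = y
    · simp [hxy]
    · rw [if_neg hxy, if_neg (fun e => hxy e.symm), h.rev]
  have hWsum : ∀ x, ∑ y, W x y = q * (π x * (1 - P x x)) := by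
    intro x
    have e1 : ∀ y, W x y = q * π x * P x y - (if x = y then q * π x * P x y else 0) := by
      intro y
      rw [hW]
      split_ifs <;> ring
    simp only [e1]
    rw [Finset.sum_sub_distrib, ← Finset.mul_sum, h.row, Finset.sum_ite_eq]
    simp
    ring
  have e1 : 2 * ∑ e : CE V, ((cg P π q φ₀ φ₁).w e : ℝ) * (ψ ((cg P π q φ₀ φ₁).src e) *
      ψ ((cg P π q φ₀ φ₁).tgt e)) = ∑ x, ∑ y, W x y * (u x * u y) := by
    obtain ⟨F, hF⟩ : ∃ F : V → V → ℝ, ∀ a b, F a b = q * (π a * P a b)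
      / (2 * (scl P π q a * scl P π q b)) * (ψ a * ψ b) := ⟨_, fun _ _ => rfl⟩
    have e2 : ∀ e : CE V, ((cg P π q φ₀ φ₁).w e : ℝ) * (ψ ((cg P π q φ₀ φ₁).src e) *
      ψ ((cg P π q φ₀ φ₁).tgt e)) = F e.1.1 e.1.2 := by
      intro e
      rw [ct45_w h q h0 h1, hF]
      rfl
    rw [Finset.sum_congr rfl (fun e _ => e2 e), ct45_sum F, Finset.mul_sum]
    apply Finset.sum_congr rfl
    intro x _
    rw [Finset.mul_sum]
    apply Finset.sum_congr rfl
    intro y _
    rw [hW, hu, hu, hF]
    by_cases hxy : x = y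
    · rw [if_pos hxy, if_pos hxy]; ring
    · rw [if_neg hxy, if_neg hxy]
      have a1 := hs x
      have a2 := hs y
      field_simp
  rw [e1]
  have e3 : ∑ x, ∑ y, W x y * (u x * u y) ≤ ∑ x, ∑ y, W x y * u x ^ 2 := by
    have e4 : ∑ x, ∑ y, W x y * (u x * u y) ≤ ∑ x, ∑ y, (W x y * u x ^ 2 / 2 +
        W x y * u y ^ 2 / 2) := by
      apply Finset.sum_le_sum
      intro x _
      apply Finset.sum_le_sum
      intro y _
      have := mul_nonneg (hW0 x y) (sq_nonneg (u x - u y))
      nlinarith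
    have e5 : ∑ x, ∑ y, W x y * u y ^ 2 / 2 = ∑ x, ∑ y, W x y * u x ^ 2 / 2 := by
      rw [Finset.sum_comm]
      apply Finset.sum_congr rfl
      intro x _
      apply Finset.sum_congr rfl
      intro y _
      rw [hWs]
    simp only [Finset.sum_add_distrib] at e4
    rw [e5, ← Finset.sum_add_distrib] at e4
    refine e4.trans (le_of_eq ?_)
    apply Finset.sum_congr rfl
    intro x _
    rw [← Finset.sum_add_distrib]
    apply Finset.sum_congr rfl
    intro y _
    ring
  refine e3.trans ?_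
  rw [Finset.mul_sum]
  apply Finset.sum_le_sum
  intro x _
  rw [← Finset.sum_mul, hWsum]
  have e6 : ψ x ^ 2 = scl P π q x ^ 2 * u x ^ 2 := by
    rw [hu]
    have := hs x
    field_simp
  rw [e6, ct45_sq h q h0 h1]
  have a1 := h.pos x
  have a2 := h.nn x x
  have a3 : q * P x x ≤ P x x := by nlinarith
  have a4 : q * (π x * (1 - P x x)) ≤ (1 - (1 - q)) * (π x * (1 - q * P x x)) := by
    have : (1 - (1 - q)) * (π x * (1 - q * P x x)) = q * (π x * (1 - q * P x x)) := by ring
    rw [this]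
    apply mul_le_mul_of_nonneg_left _ h0.le
    apply mul_le_mul_of_nonneg_left _ a1.le
    linarith
  have := mul_le_mul_of_nonneg_right a4 (sq_nonneg (u x))
  linarith

/-- transition operator of the chain graph -/
theorem cg_Pop (h : Rev P π) (q : ℝ) (h0 : 0 < q) (h1 : q < 1) (φ₀ φ₁ : V → ℝ) (u : V → ℝ)
    (x : V) : (cg P π q φ₀ φ₁).Pop (fun y => scl P π q y * u y) x
      = scl P π q x * u x - π x / scl P π q x * (u x - q * ∑ y, P x y * u y) := by
  have hs := scl_pos h q h0 h1
  unfold GG.Pop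
  obtain ⟨w, hw⟩ : ∃ w : V → V → ℝ, ∀ a b, w a b = q * (π a * P a b)
      / (2 * (scl P π q a * scl P π q b)) := ⟨_, fun _ _ => rfl⟩
  have hws : ∀ a b, w a b = w b a := by
    intro a b
    rw [hw, hw, h.rev a b, mul_comm (scl P π q a)]
  obtain ⟨F, hF⟩ : ∃ F : V → V → ℝ, ∀ a b, F a b =
      w a b * ((if a = x then scl P π q b * u b else 0) +
        (if b = x then scl P π q a * u a else 0)) := ⟨_, fun _ _ => rfl⟩
  have e2 : ∀ e : CE V, ((cg P π q φ₀ φ₁).w e : ℝ) *
      ((if (cg P π q φ₀ φ₁).src e = x then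
          (fun y => scl P π q y * u y) ((cg P π q φ₀ φ₁).tgt e) else 0)
        + (if (cg P π q φ₀ φ₁).tgt e = x then
          (fun y => scl P π q y * u y) ((cg P π q φ₀ φ₁).src e) else 0)) =
      F e.1.1 e.1.2 := by
    intro e
    rw [ct45_w h q h0 h1, hF, hw]
    rfl
  rw [Finset.sum_congr rfl (fun e _ => e2 e), ct45_sum F]
  have e3 : ∀ a b : V, (if a = b then (0:ℝ) else F a b) =
      (if a = x then (if a = b then 0 else w a b * (scl P π q b * u b)) else 0) +
      (if b = x then (if a = b then 0 else w a b * (scl P π q a * u a)) else 0) := by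
    intro a b
    rw [hF]
    split_ifs <;> ring
  simp only [e3, Finset.sum_add_distrib]
  have e4 : ∑ a, ∑ b, (if a = x then (if a = b then 0 else w a b * (scl P π q b * u b)) else 0) =
      ∑ b, (if x = b then 0 else w x b * (scl P π q b * u b)) := by
    rw [Finset.sum_comm]
    apply Finset.sum_congr rfl
    intro b _
    rw [Finset.sum_ite_eq']
    simp
  have e5 : ∑ a, ∑ b, (if b = x then (if a = b then 0 else w a b * (scl P π q a * u a)) else 0) =
      ∑ a, (if x = a then 0 else w x a * (scl P π q a * u a)) := by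
    apply Finset.sum_congr rfl
    intro a _
    rw [Finset.sum_ite_eq']
    simp only [Finset.mem_univ, if_true]
    rw [hws a x]
    simp only [eq_comm]
  rw [e4, e5]
  have e6 : ∀ b, (if x = b then 0 else w x b * (scl P π q b * u b)) =
      (π x / scl P π q x * q / 2) * (P x b * u b) -
      (if x = b then (π x / scl P π q x * q / 2) * (P x b * u b) else 0) := by
    intro b
    by_cases hb : x = b
    · rw [if_pos hb, if_pos hb]; ring
    · rw [if_neg hb, if_neg hb, hw]
      have a1 := hs x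
      have a2 := hs b
      field_simp
      ring
  rw [Finset.sum_congr rfl (fun b _ => e6 b), Finset.sum_sub_distrib, ← Finset.mul_sum,
    Finset.sum_ite_eq]
  simp only [Finset.mem_univ, if_true]
  have a1 := hs x
  have e7 : scl P π q x * u x = π x / scl P π q x * ((1 - q * P x x) * u x) := by
    have := ct45_sq h q h0 h1 x
    have e8 : scl P π q x = π x / scl P π q x * (1 - q * P x x) := by
      field_simp
      exact this
    calc scl P π q x * u x = (π x / scl P π q x * (1 - q * P x x)) * u x := by rw [← e8]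
      _ = _ := by ring
  rw [e7]
  ring

end chaingraph

end Pool.Agent.Helper41.CT
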