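import Pool.Agent.Helper41.CT.Defs
import Pool.Agent.Helper41.CT.DefsG
import Pool.Agent.Helper41.GF.GaussD
import Pool.Agent.Helper41.GF.Confl

set_option autoImplicit false

open scoped ENNReal NNReal Nat
open Finset MeasureTheory ProbabilityTheory
open Pool.Agent.Helper41.GF

namespace Pool.Agent.Helper41.CT

/-! ## TARGETS: prove these (statements must not be changed; helper lemmas are welcome) -/

section general

variable {V E H : Type} [Fintype V] [DecidableEq V] [Fintype E] [DecidableEq E] [Fintype H]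
  [DecidableEq H]

theorem CT41_expo (G : GG V E H) (m : V → ℝ)
    (hm : ∀ x, m x = G.Pop m x + ∑ g, (if G.hs g = x then (G.f g : ℝ) else 0))
    (t u : V → ℝ) (hu : ∀ x, u x = G.Pop u x + t x) (s : ℝ) (ψ : V → ℝ) :
    G.expo ψ + s * ∑ x, t x * (ψ x - m x) =
      G.expo (ψ - fun x => s * u x) + s ^ 2 * (∑ x, t x * u x) / 2 := by
  have hBu : ∀ a : V → ℝ, G.BB a u = ∑ x, t x * a x := by
    intro a
    rw [GG.BB_eq]
    apply Finset.sum_congr rfl
    intro x _
    have : u x - G.Pop u x = t x := by rw [hu x]; ring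
    rw [this, mul_comm]
  rw [GG.expo_eq G m hm ψ, GG.expo_eq G m hm (ψ - fun x => s * u x)]
  have e : (fun x => (ψ - fun x => s * u x) x - m x) = fun x => (ψ x - m x) - (s * u x) := by
    funext x
    simp only [Pi.sub_apply]
    ring
  rw [e]
  have h1 : G.BB (fun x => (ψ x - m x) - (s * u x)) (fun x => (ψ x - m x) - (s * u x)) =
      G.BB (fun x => ψ x - m x) (fun x => ψ x - m x) - 2 * s * (∑ x, t x * (ψ x - m x)) +
        s ^ 2 * ∑ x, t x * u x := by
    rw [GG.BB_sub_left G (fun x => ψ x - m x) (fun x => s * u x),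
      GG.BB_sub_right G (fun x => ψ x - m x) (fun x => s * u x),
      GG.BB_sub_right G (fun x => ψ x - m x) (fun x => s * u x),
      GG.BB_smul_left, GG.BB_smul_left, GG.BB_smul_right, GG.BB_smul_right,
      GG.BB_comm G u (fun x => ψ x - m x), hBu, hBu]
    ring
  rw [h1]
  ring

theorem CT41_mgf (G : GG V E H) (hZ : ∫⁻ ψ : V → ℝ, ENNReal.ofReal (G.rho ψ) ≠ ∞)
    (m : V → ℝ) (hm : ∀ x, m x = G.Pop m x + ∑ g, (if G.hs g = x then (G.f g : ℝ) else 0))
    (t u : V → ℝ) (hu : ∀ x, u x = G.Pop u x + t x) (s : ℝ) :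
    ∫⁻ ψ, ENNReal.ofReal (Real.exp (s * ∑ x, t x * (ψ x - m x))) ∂G.fieldLaw =
      ENNReal.ofReal (Real.exp (s ^ 2 * (∑ x, t x * u x) / 2)) := by
  have hmeas : Measurable (fun ψ : V → ℝ =>
      ENNReal.ofReal (Real.exp (s * ∑ x, t x * (ψ x - m x)))) := by fun_prop
  rw [m7_lint G hmeas]
  have h1 : ∀ ψ : V → ℝ, ENNReal.ofReal (G.rho ψ) *
      ENNReal.ofReal (Real.exp (s * ∑ x, t x * (ψ x - m x))) =
      ENNReal.ofReal (Real.exp (s ^ 2 * (∑ x, t x * u x) / 2)) *
        ENNReal.ofReal (G.rho (ψ - fun x => s * u x)) := by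
    intro ψ
    unfold GG.rho
    rw [← ENNReal.ofReal_mul (Real.exp_pos _).le, ← ENNReal.ofReal_mul (Real.exp_pos _).le]
    congr 1
    rw [← Real.exp_add, ← Real.exp_add, CT41_expo G m hm t u hu s ψ]
    congr 1
    ring
  simp_rw [h1]
  have hm2 : Measurable (fun ψ : V → ℝ => ENNReal.ofReal (G.rho (ψ - fun x => s * u x))) :=
    (m7_meas_rho G).comp (measurable_id.sub_const _)
  rw [lintegral_const_mul _ hm2,
    lintegral_sub_right_eq_self (μ := (volume : Measure (V → ℝ)))
      (fun ψ : V → ℝ => ENNReal.ofReal (G.rho ψ)) (fun x => s * u x)]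
  rw [mul_comm (ENNReal.ofReal _), ← mul_assoc,
    ENNReal.inv_mul_cancel (GG.lintegral_rho_ne_zero G) hZ, one_mul]

/-- the field is Gaussian -/
theorem gen_law (G : GG V E H) (hZ : ∫⁻ ψ : V → ℝ, ENNReal.ofReal (G.rho ψ) ≠ ∞)
    (m : V → ℝ) (hm : ∀ x, m x = G.Pop m x + ∑ g, (if G.hs g = x then (G.f g : ℝ) else 0))
    (t u : V → ℝ) (hu : ∀ x, u x = G.Pop u x + t x) :
    G.fieldLaw.map (fun ψ => ∑ x, t x * (ψ x - m x))
      = gaussianReal 0 (Real.toNNReal (∑ x, t x * u x)) := by
  set c : ℝ := ∑ x, t x * u x with hc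
  set X : (V → ℝ) → ℝ := fun ψ => ∑ x, t x * (ψ x - m x) with hX
  have hXm : Measurable X := by
    rw [hX]; fun_prop
  have hprob : IsProbabilityMeasure G.fieldLaw := fieldLaw_prob G hZ
  have hkey : ∀ s : ℝ, ∫⁻ ψ, ENNReal.ofReal (Real.exp (s * X ψ)) ∂G.fieldLaw =
      ENNReal.ofReal (Real.exp (s ^ 2 * c / 2)) := CT41_mgf G hZ m hm t u hu
  -- nonnegativity of the variance
  have hc0 : 0 ≤ c := by
    have h1 := hkey 1
    have h2 := hkey (-1)
    have h3 : ∫⁻ ψ, (ENNReal.ofReal (Real.exp (1 * X ψ)) +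
        ENNReal.ofReal (Real.exp (-1 * X ψ))) ∂G.fieldLaw =
        ENNReal.ofReal (Real.exp (1 ^ 2 * c / 2)) +
          ENNReal.ofReal (Real.exp ((-1) ^ 2 * c / 2)) := by
      rw [lintegral_add_left (by fun_prop), h1, h2]
    have h4 : (2 : ℝ≥0∞) ≤ ∫⁻ ψ, (ENNReal.ofReal (Real.exp (1 * X ψ)) +
        ENNReal.ofReal (Real.exp (-1 * X ψ))) ∂G.fieldLaw := by
      calc (2 : ℝ≥0∞) = ∫⁻ _ψ, (2 : ℝ≥0∞) ∂G.fieldLaw := by
            rw [lintegral_const, measure_univ, mul_one]
        _ ≤ _ := by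
            apply lintegral_mono
            intro ψ
            show (2 : ℝ≥0∞) ≤ ENNReal.ofReal (Real.exp (1 * X ψ)) +
              ENNReal.ofReal (Real.exp (-1 * X ψ))
            rw [← ENNReal.ofReal_add (Real.exp_pos _).le (Real.exp_pos _).le]
            have e2 : (2 : ℝ≥0∞) = ENNReal.ofReal 2 := by simp
            rw [e2]
            apply ENNReal.ofReal_le_ofReal
            have h5 := Real.add_one_le_exp (1 * X ψ)
            have h6 := Real.add_one_le_exp (-1 * X ψ)
            linarith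
    rw [h3, ← ENNReal.ofReal_add (Real.exp_pos _).le (Real.exp_pos _).le] at h4
    have e2 : (2 : ℝ≥0∞) = ENNReal.ofReal 2 := by simp
    rw [e2, ENNReal.ofReal_le_ofReal_iff (by positivity)] at h4
    have e3 : (1 : ℝ) ^ 2 * c / 2 = c / 2 := by ring
    have e4 : (-1 : ℝ) ^ 2 * c / 2 = c / 2 := by ring
    rw [e3, e4] at h4
    have h7 : 1 ≤ Real.exp (c / 2) := by linarith
    have h8 := Real.one_le_exp_iff.1 h7
    linarith
  -- moment generating functions
  have hmgf : mgf X G.fieldLaw = fun s => Real.exp (s ^ 2 * c / 2) := by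
    funext s
    unfold mgf
    rw [integral_eq_lintegral_of_nonneg_ae (Filter.Eventually.of_forall fun ψ => (Real.exp_pos _).le)
      (by
        apply Measurable.aestronglyMeasurable
        fun_prop), hkey s, ENNReal.toReal_ofReal (Real.exp_pos _).le]
  have hprob2 : IsProbabilityMeasure (G.fieldLaw.map X) := Measure.isProbabilityMeasure_map hXm.aemeasurable
  have hid : mgf id (G.fieldLaw.map X) = mgf id (gaussianReal 0 (Real.toNNReal c)) := by
    rw [mgf_id_map hXm.aemeasurable, hmgf, mgf_id_gaussianReal]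
    funext s
    congr 1
    rw [Real.coe_toNNReal c hc0]
    ring
  apply Measure.ext_of_complexMGF_id_eq
  have hset : integrableExpSet id (G.fieldLaw.map X) = Set.univ := by
    ext s
    simp only [Set.mem_univ, iff_true]
    show Integrable (fun ω => Real.exp (s * id ω)) (G.fieldLaw.map X)
    rw [← mgf_pos_iff, mgf_id_map hXm.aemeasurable, hmgf]
    exact Real.exp_pos _
  have heq := eqOn_complexMGF_of_mgf hid
  rw [hset, interior_univ] at heq
  funext z
  exact heq (Set.mem_univ _)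

end general

end Pool.Agent.Helper41.CT
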