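import Pool.Agent.Helper41.CT.Defs
import Pool.Agent.Helper41.CT.CgA
import Pool.Agent.Helper41.CT.GenL

set_option autoImplicit false

open scoped ENNReal NNReal Nat
open Finset MeasureTheory ProbabilityTheory
open Pool.Agent.Helper41.GF

namespace Pool.Agent.Helper41.CT


/-! ## TARGETS: prove these (statements must not be changed; helper lemmas are welcome) -/

section chaingraph

variable {V : Type} [Fintype V] [DecidableEq V] {P : Matrix V V ℝ} {π : V → ℝ}

theorem ct46_green (h : Rev P π) (q : ℝ) (h0 : 0 < q) (h1 : q < 1) (fu : V → ℝ) (x : V) :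
    (∑ y, Gn P q x y * fu y) - q * ∑ z, P x z * ∑ y, Gn P q z y * fu y = fu x := by
  have e : ∀ y, Gn P q x y * fu y
      = (if x = y then fu y else 0) + q * ∑ z, P x z * (Gn P q z y * fu y) := by
    intro y
    rw [Gn_left h q h0 h1 x y, add_mul, ite_mul, one_mul, zero_mul, mul_assoc, Finset.sum_mul]
    congr 2
    apply Finset.sum_congr rfl
    intro z _
    ring
  have e2 : ∑ y, Gn P q x y * fu y = fu x + q * ∑ z, P x z * ∑ y, Gn P q z y * fu y := by
    calc ∑ y, Gn P q x y * fu y
        = ∑ y, ((if x = y then fu y else 0) + q * ∑ z, P x z * (Gn P q z y * fu y)) :=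
          Finset.sum_congr rfl (fun y _ => e y)
      _ = fu x + q * ∑ y, ∑ z, P x z * (Gn P q z y * fu y) := by
          rw [Finset.sum_add_distrib, Finset.sum_ite_eq, if_pos (Finset.mem_univ _),
            Finset.mul_sum]
      _ = _ := by
          rw [Finset.sum_comm]
          congr 2
          apply Finset.sum_congr rfl
          intro z _
          rw [Finset.mul_sum]
  rw [e2]; ring

/-- the field of the chain graph in the usual normalisation -/
theorem cg_law (h : Rev P π) (q : ℝ) (h0 : 0 < q) (h1 : q < 1) (φ₀ φ₁ : V → ℝ)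
    (hφ₀ : ∀ x, 0 ≤ φ₀ x) (hφ₁ : ∀ x, 0 ≤ φ₁ x) :
    IsG (gn P π q) ((cg P π q φ₀ φ₁).fieldLaw.map
      (fun ψ x => ψ x / scl P π q x - ∑ y, Gn P q x y * (φ₀ y + φ₁ y))) := by
  have hs := scl_pos h q h0 h1
  have hprob := fieldLaw_prob (cg P π q φ₀ φ₁) (cg_fin h q h0 h1 φ₀ φ₁)
  have hmeas : Measurable (fun (ψ : V → ℝ) (x : V) =>
      ψ x / scl P π q x - ∑ y, Gn P q x y * (φ₀ y + φ₁ y)) := by
    rw [measurable_pi_iff]
    intro x
    exact ((measurable_pi_apply x).div_const _).sub_const _
  refine ⟨Measure.isProbabilityMeasure_map hmeas.aemeasurable, fun t => ?_⟩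
  have hmeas2 : Measurable (fun x : V → ℝ => ∑ i, t i * x i) := by
    apply Finset.measurable_sum
    intro i _
    exact (measurable_pi_apply i).const_mul _
  rw [Measure.map_map hmeas2 hmeas]
  have key := gen_law (cg P π q φ₀ φ₁) (cg_fin h q h0 h1 φ₀ φ₁)
    (fun x => scl P π q x * ∑ y, Gn P q x y * (φ₀ y + φ₁ y)) ?_
    (fun x => t x / scl P π q x) (fun x => scl P π q x * ∑ y, gn P π q x y * t y) ?_
  · have e1 : ((fun x : V → ℝ => ∑ i, t i * x i) ∘ fun (ψ : V → ℝ) (x : V) =>
        ψ x / scl P π q x - ∑ y, Gn P q x y * (φ₀ y + φ₁ y))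
        = fun ψ => ∑ x, t x / scl P π q x
          * (ψ x - scl P π q x * ∑ y, Gn P q x y * (φ₀ y + φ₁ y)) := by
      funext ψ
      simp only [Function.comp]
      apply Finset.sum_congr rfl
      intro x _
      have := (hs x).ne'
      field_simp
    have e2 : ∑ x, t x / scl P π q x * (scl P π q x * ∑ y, gn P π q x y * t y)
        = qf (gn P π q) t := by
      unfold qf
      apply Finset.sum_congr rfl
      intro x _
      have := (hs x).ne'
      rw [← mul_assoc, div_mul_cancel₀ _ this, Finset.mul_sum]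
      apply Finset.sum_congr rfl
      intro y _
      ring
    rw [e1, key, e2]
  · intro x
    have hp := cg_Pop h q h0 h1 φ₀ φ₁ (fun x => ∑ y, Gn P q x y * (φ₀ y + φ₁ y)) x
    have hg := ct46_green h q h0 h1 (fun y => φ₀ y + φ₁ y) x
    rw [hp, hg]
    have hgh : ∑ g : V × Bool, (if (cg P π q φ₀ φ₁).hs g = x then
        ((cg P π q φ₀ φ₁).f g : ℝ) else 0) = π x / scl P π q x * (φ₀ x + φ₁ x) := by
      rw [Fintype.sum_prod_type]
      simp only [cg, Fintype.sum_bool, if_true, Bool.false_eq_true, if_false]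
      rw [Finset.sum_eq_single x]
      · simp only [if_true]
        have hπ := (h.pos x).le
        rw [Real.coe_toNNReal _ (div_nonneg (mul_nonneg (hφ₁ x) hπ) (hs x).le),
          Real.coe_toNNReal _ (div_nonneg (mul_nonneg (hφ₀ x) hπ) (hs x).le)]
        ring
      · intro y _ hy
        simp [hy]
      · intro hx
        exact absurd (Finset.mem_univ x) hx
    rw [hgh]; ring
  · intro x
    have hp := cg_Pop h q h0 h1 φ₀ φ₁ (fun x => ∑ y, gn P π q x y * t y) x
    rw [hp]
    have hπx := (h.pos x).ne'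
    have hg := ct46_green h q h0 h1 (fun y => t y / π y) x
    have e3 : ∀ z, ∑ y, gn P π q z y * t y = ∑ y, Gn P q z y * (t y / π y) := by
      intro z
      apply Finset.sum_congr rfl
      intro y _
      unfold gn
      ring
    simp only [e3]
    rw [hg]
    have := (hs x).ne'
    field_simp
    ring

end chaingraph

end Pool.Agent.Helper41.CT
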