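import Pool.Agent.Helper41.CT.Defs
import Pool.Agent.Helper41.CT.GreenB

/-!
# Definitions for cover times of killed random walks and Gaussian fields
-/

set_option autoImplicit false

open scoped ENNReal NNReal Nat
open Finset MeasureTheory ProbabilityTheory

namespace Pool.Agent.Helper41.CT


/-! ## TARGETS: prove these (statements must not be changed; helper lemmas are welcome) -/

section walks

variable {V : Type} [Fintype V] [DecidableEq V] {P : Matrix V V ℝ} {π : V → ℝ}

theorem av_bounds (h : Rev P π) (n : ℕ) (A : Finset V) (x : V) :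
    0 ≤ av P n A x ∧ av P n A x ≤ 1 := by
  induction n generalizing x with
  | zero =>
    unfold av
    split_ifs <;> norm_num
  | succ n ih =>
    unfold av
    split_ifs
    · norm_num
    · constructor
      · exact Finset.sum_nonneg fun y _ => mul_nonneg (h.nn x y) (ih y).1
      · calc ∑ y, P x y * av P n A y ≤ ∑ y, P x y * 1 :=
              Finset.sum_le_sum fun y _ => mul_le_mul_of_nonneg_left (ih y).2 (h.nn x y)
          _ = 1 := by simp only [mul_one, h.row x]

theorem ct12_geo (q : ℝ) (h0 : 0 < q) (h1 : q < 1) :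
    HasSum (fun n : ℕ => (1 - q) * q ^ n) 1 := by
  have := (hasSum_geometric_of_lt_one h0.le h1).mul_left (1 - q)
  rwa [mul_inv_cancel₀ (by linarith)] at this

theorem ct12_summable (h : Rev P π) (q : ℝ) (h0 : 0 < q) (h1 : q < 1) (A : Finset V) (x : V) :
    Summable (fun n : ℕ => (1 - q) * q ^ n * av P n A x) := by
  apply Summable.of_nonneg_of_le _ _ (ct12_geo q h0 h1).summable
  · intro n
    have := (av_bounds h n A x).1
    have h2 : 0 ≤ 1 - q := by linarith
    positivity
  · intro n
    have h3 := (av_bounds h n A x).2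
    have h2 : 0 ≤ (1 - q) * q ^ n := mul_nonneg (by linarith) (by positivity)
    calc (1 - q) * q ^ n * av P n A x ≤ (1 - q) * q ^ n * 1 := mul_le_mul_of_nonneg_left h3 h2
      _ = (1 - q) * q ^ n := mul_one _

theorem avk_bounds (h : Rev P π) (q : ℝ) (h0 : 0 < q) (h1 : q < 1) (A : Finset V) (x : V) :
    0 ≤ avk P q A x ∧ avk P q A x ≤ 1 := by
  unfold avk
  constructor
  · apply tsum_nonneg
    intro n
    have := (av_bounds h n A x).1
    have h2 : 0 ≤ 1 - q := by linarith
    positivity
  · have h5 : ∀ n : ℕ, (1 - q) * q ^ n * av P n A x ≤ (1 - q) * q ^ n := by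
      intro n
      have h3 := (av_bounds h n A x).2
      have h2 : 0 ≤ (1 - q) * q ^ n := mul_nonneg (by linarith) (by positivity)
      calc (1 - q) * q ^ n * av P n A x ≤ (1 - q) * q ^ n * 1 := mul_le_mul_of_nonneg_left h3 h2
        _ = (1 - q) * q ^ n := mul_one _
    exact le_trans ((ct12_summable h q h0 h1 A x).tsum_le_tsum h5 (ct12_geo q h0 h1).summable)
      (le_of_eq (ct12_geo q h0 h1).tsum_eq)

theorem avk_rec (h : Rev P π) (q : ℝ) (h0 : 0 < q) (h1 : q < 1) (A : Finset V) (x : V) :
    avk P q A x = if x ∈ A then 0 else (1 - q) + q * ∑ y, P x y * avk P q A y := by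
  by_cases hx : x ∈ A
  · rw [if_pos hx]
    unfold avk
    have h2 : ∀ n, av P n A x = 0 := by
      intro n
      cases n with
      | zero => simp [av, hx]
      | succ n => simp [av, hx]
    simp [h2]
  · rw [if_neg hx]
    unfold avk
    rw [(ct12_summable h q h0 h1 A x).tsum_eq_zero_add]
    have e0 : (1 - q) * q ^ 0 * av P 0 A x = 1 - q := by
      simp [av, hx]
    rw [e0]
    congr 1
    have e1 : ∀ n : ℕ, (1 - q) * q ^ (n + 1) * av P (n + 1) A x =
        q * ∑ y, P x y * ((1 - q) * q ^ n * av P n A y) := by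
      intro n
      have : av P (n + 1) A x = ∑ y, P x y * av P n A y := by
        rw [av, if_neg hx]
      rw [this, Finset.mul_sum, Finset.mul_sum]
      apply Finset.sum_congr rfl
      intro y _
      rw [pow_succ]
      ring
    simp only [e1]
    rw [tsum_mul_left, Summable.tsum_finsetSum]
    · congr 1
      apply Finset.sum_congr rfl
      intro y _
      rw [tsum_mul_left]
    · intro y _
      exact (ct12_summable h q h0 h1 A y).mul_left _

theorem avk_single (h : Rev P π) (q : ℝ) (h0 : 0 < q) (h1 : q < 1) (x y : V) :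
    avk P q {y} x = 1 - hit P q x y := by
  obtain ⟨u, hu⟩ : ∃ u : V → ℝ, ∀ x, u x = avk P q {y} x - (1 - hit P q x y) := ⟨_, fun _ => rfl⟩
  have hy : u y = 0 := by
    rw [hu, hit_self h q h0 h1, avk_rec h q h0 h1, if_pos (Finset.mem_singleton_self y)]
    ring
  have hharm : ∀ x, x ∉ ({y} : Finset V) → u x = q * ∑ z, P x z * u z := by
    intro x hx
    have hxy : x ≠ y := fun e => hx (Finset.mem_singleton.2 e)
    rw [hu, avk_rec h q h0 h1, if_neg hx, hit_harm h q h0 h1 x y hxy]
    have e : ∑ z, P x z * u z = ∑ z, P x z * avk P q {y} z - ∑ z, P x z +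
        ∑ z, P x z * hit P q z y := by
      rw [← Finset.sum_sub_distrib, ← Finset.sum_add_distrib]
      apply Finset.sum_congr rfl
      intro z _
      rw [hu]
      ring
    rw [e, h.row x]
    ring
  have h2 : u x ≤ 0 := by
    apply max_pr h q h0 h1 {y} u (fun x hx => (hharm x hx).le)
    intro z hz
    rw [Finset.mem_singleton.1 hz, hy]
  have h3 : -u x ≤ 0 := by
    apply max_pr h q h0 h1 {y} (fun x => -u x)
    · intro z hz
      have : q * ∑ w, P z w * -u w = -(q * ∑ w, P z w * u w) := by
        simp only [mul_neg, Finset.sum_neg_distrib]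
      rw [this, ← hharm z hz]
    · intro z hz
      rw [Finset.mem_singleton.1 hz, hy, neg_zero]
  have h4 : u x = 0 := le_antisymm h2 (by linarith)
  rw [hu] at h4
  linarith

end walks

end Pool.Agent.Helper41.CT
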