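import Pool.Agent.Helper41.CT.Defs
import Pool.Agent.Helper41.CT.CgA
import Pool.Agent.Helper41.CT.WalkA

set_option autoImplicit false

open scoped ENNReal NNReal Nat
open Finset MeasureTheory ProbabilityTheory
open Pool.Agent.Helper41.GF

namespace Pool.Agent.Helper41.CT


/-! ## TARGETS: prove these (statements must not be changed; helper lemmas are welcome) -/

section aux47
open Classical

theorem aux_tsum_list47 {D : Type} [Fintype D] (H : List D → ℝ≥0∞) :
    ∑' l, H l = H [] + ∑ d, ∑' l, H (d :: l) := by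
  rw [ENNReal.tsum_eq_add_tsum_ite []]
  congr 1
  have h2 : ∑ d, ∑' l, H (d :: l) = ∑' p : D × List D, H (p.1 :: p.2) := by
    rw [ENNReal.tsum_prod', tsum_fintype]
  rw [h2]
  have hinj : Function.Injective (fun p : D × List D => p.1 :: p.2) := by
    rintro ⟨a, b⟩ ⟨c, d⟩ h
    simp only [List.cons.injEq] at h
    rw [h.1, h.2]
  have h1 : ∑' l : List D, (if l = [] then 0 else H l)
      = ∑' p : D × List D, (if p.1 :: p.2 = [] then 0 else H (p.1 :: p.2)) := by
    refine (hinj.tsum_eq (f := fun l => if l = [] then 0 else H l) ?_).symm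
    intro l hl
    cases l with
    | nil => simp at hl
    | cons d l => exact ⟨(d, l), rfl⟩
  refine Eq.trans (tsum_congr (fun l => ?_)) (h1.trans ?_)
  · by_cases hl : l = [] <;> simp [hl]
  · refine tsum_congr (fun p => ?_)
    simp

variable {V : Type} [Fintype V] [DecidableEq V] {P : Matrix V V ℝ} {π : V → ℝ}

/-- the walk avoids `A` -/
def Avd47 {E : Type} [Fintype E] [DecidableEq E] (G : GG V E (V × Bool)) (A : Finset V) (x : V)
    (l : List (E × Bool)) : Prop := ∀ i, G.fin x (l.take i) ∉ A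

theorem Avd47_nil {E : Type} [Fintype E] [DecidableEq E] (G : GG V E (V × Bool)) (A : Finset V)
    (x : V) : Avd47 G A x [] ↔ x ∉ A := by
  simp [Avd47, GG.fin]

theorem Avd47_cons {E : Type} [Fintype E] [DecidableEq E] (G : GG V E (V × Bool)) (A : Finset V)
    (x : V) (d : E × Bool) (l : List (E × Bool)) :
    Avd47 G A x (d :: l) ↔ x ∉ A ∧ Avd47 G A (G.dt d) l := by
  constructor
  · intro h
    refine ⟨?_, fun i => ?_⟩
    · simpa [GG.fin] using h 0
    · simpa [GG.fin] using h (i + 1)
  · rintro ⟨h1, h2⟩ i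
    cases i with
    | zero => simpa [GG.fin] using h1
    | succ i => simpa [GG.fin] using h2 i

/-- weight of the walks along `l` to the ghosts `true` -/
noncomputable def Tl47 {E : Type} [Fintype E] [DecidableEq E] (G : GG V E (V × Bool))
    (A : Finset V) (x : V) (l : List (E × Bool)) : ℝ≥0∞ :=
  if Avd47 G A x l then ∑ z : V, G.pw x l z * (G.f (z, true) : ℝ≥0∞) else 0

theorem Tl47_nil {E : Type} [Fintype E] [DecidableEq E] (G : GG V E (V × Bool)) (A : Finset V)
    (x : V) : Tl47 G A x [] = if x ∈ A then 0 else (G.f (x, true) : ℝ≥0∞) := by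
  unfold Tl47
  rw [Avd47_nil]
  by_cases hx : x ∈ A
  · simp [hx]
  · simp [hx, GG.pw]

theorem Tl47_cons {E : Type} [Fintype E] [DecidableEq E] (G : GG V E (V × Bool)) (A : Finset V)
    (x : V) (d : E × Bool) (l : List (E × Bool)) :
    Tl47 G A x (d :: l) = if x ∈ A then 0 else
      if G.ds d = x then (G.w d.1 : ℝ≥0∞) * Tl47 G A (G.dt d) l else 0 := by
  unfold Tl47
  rw [Avd47_cons]
  by_cases hx : x ∈ A
  · simp [hx]
  · by_cases hd : G.ds d = x
    · by_cases ha : Avd47 G A (G.dt d) l
      · simp only [hx, not_false_eq_true, ha, and_self, if_true, if_false, hd, GG.pw]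
        rw [Finset.mul_sum]
        exact Finset.sum_congr rfl (fun z _ => by ring)
      · simp [hx, ha]
    · simp [hx, hd, GG.pw]

/-- the operator of the linear system -/
noncomputable def Kop47 {E : Type} [Fintype E] [DecidableEq E] (G : GG V E (V × Bool))
    (A : Finset V) (u : V → ℝ≥0∞) (x : V) : ℝ≥0∞ :=
  if x ∈ A then 0 else (G.f (x, true) : ℝ≥0∞) +
    ∑ d : E × Bool, if G.ds d = x then (G.w d.1 : ℝ≥0∞) * u (G.dt d) else 0

theorem Kop47_mono {E : Type} [Fintype E] [DecidableEq E] (G : GG V E (V × Bool))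
    (A : Finset V) {u v : V → ℝ≥0∞} (huv : ∀ x, u x ≤ v x) (x : V) : Kop47 G A u x ≤ Kop47 G A v x := by
  unfold Kop47
  split_ifs
  · exact le_rfl
  · refine add_le_add le_rfl (Finset.sum_le_sum (fun d _ => ?_))
    split_ifs
    · exact mul_le_mul' le_rfl (huv _)
    · exact le_rfl

noncomputable def Sl47 {E : Type} [Fintype E] [DecidableEq E] (G : GG V E (V × Bool))
    (A : Finset V) (x : V) : ℝ≥0∞ := ∑' l, Tl47 G A x l

noncomputable def SN47 {E : Type} [Fintype E] [DecidableEq E] (G : GG V E (V × Bool))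
    (A : Finset V) (N : ℕ) (x : V) : ℝ≥0∞ := ∑' l, if l.length < N then Tl47 G A x l else 0

theorem Sl47_rec {E : Type} [Fintype E] [DecidableEq E] (G : GG V E (V × Bool))
    (A : Finset V) (x : V) : Sl47 G A x = Kop47 G A (Sl47 G A) x := by
  have h := aux_tsum_list47 (fun l => Tl47 G A x l)
  unfold Kop47
  rw [Sl47, h, Tl47_nil]
  by_cases hx : x ∈ A
  · simp [hx, Tl47_cons]
  · simp only [hx, if_false]
    congr 1
    refine Finset.sum_congr rfl (fun d _ => ?_)
    by_cases hd : G.ds d = x
    · simp only [Tl47_cons, hx, if_false, hd, if_true]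
      rw [ENNReal.tsum_mul_left, Sl47]
    · simp [Tl47_cons, hx, hd]

theorem SN47_zero {E : Type} [Fintype E] [DecidableEq E] (G : GG V E (V × Bool))
    (A : Finset V) (x : V) : SN47 G A 0 x = 0 := by
  simp [SN47]

theorem SN47_succ {E : Type} [Fintype E] [DecidableEq E] (G : GG V E (V × Bool))
    (A : Finset V) (N : ℕ) (x : V) : SN47 G A (N + 1) x = Kop47 G A (SN47 G A N) x := by
  have h := aux_tsum_list47 (fun l => if l.length < N + 1 then Tl47 G A x l else 0)
  unfold Kop47
  rw [SN47, h]
  simp only [List.length_nil, Nat.succ_pos', if_true, List.length_cons, Nat.succ_lt_succ_iff,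
    Tl47_nil]
  by_cases hx : x ∈ A
  · simp [hx, Tl47_cons]
  · simp only [hx, if_false]
    congr 1
    refine Finset.sum_congr rfl (fun d _ => ?_)
    by_cases hd : G.ds d = x
    · simp only [Tl47_cons, hx, if_false, hd, if_true]
      rw [SN47, ← ENNReal.tsum_mul_left]
      refine tsum_congr (fun l => ?_)
      rw [mul_ite, mul_zero]
    · simp [Tl47_cons, hx, hd]

theorem Sl47_le {E : Type} [Fintype E] [DecidableEq E] (G : GG V E (V × Bool))
    (A : Finset V) (U : V → ℝ≥0∞) (hU : ∀ x, U x = Kop47 G A U x) (x : V) : Sl47 G A x ≤ U x := by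
  have h1 : ∀ N x, SN47 G A N x ≤ U x := by
    intro N
    induction N with
    | zero => intro x; rw [SN47_zero]; exact zero_le
    | succ N ih =>
      intro x
      rw [SN47_succ, hU x]
      exact Kop47_mono G A ih x
  unfold Sl47
  rw [ENNReal.tsum_eq_iSup_sum]
  refine iSup_le (fun s => ?_)
  refine le_trans ?_ (h1 (s.sup List.length + 1) x)
  unfold SN47
  refine le_trans ?_ (ENNReal.sum_le_tsum s)
  refine Finset.sum_le_sum (fun l hl => ?_)
  rw [if_pos (Nat.lt_succ_of_le (Finset.le_sup (f := List.length) hl))]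

theorem scl_sq47 (h : Rev P π) (q : ℝ) (h0 : 0 < q) (h1 : q < 1) (x : V) :
    scl P π q x ^ 2 = π x * (1 - q * P x x) := by
  unfold scl
  refine Real.sq_sqrt ?_
  have hP : P x x ≤ 1 := by
    rw [← h.row x]
    exact Finset.single_le_sum (f := fun y => P x y) (fun y _ => h.nn x y) (Finset.mem_univ x)
  have := h.nn x x
  have hpi := h.pos x
  refine mul_nonneg hpi.le ?_
  nlinarith

theorem dsum47 (h : Rev P π) (q : ℝ) (h0 : 0 < q) (h1 : q < 1) (φ₀ φ₁ : V → ℝ) (x : V) (g : V → ℝ) :
    (∑ d : CE V × Bool, if (cg P π q φ₀ φ₁).ds d = x then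
      ((cg P π q φ₀ φ₁).w d.1 : ℝ) * g ((cg P π q φ₀ φ₁).dt d) else 0)
    = ∑ y, if y ≠ x then q * π x * P x y / (scl P π q x * scl P π q y) * g y else 0 := by
  have hs := scl_pos h q h0 h1
  have hw : ∀ e : CE V, ((cg P π q φ₀ φ₁).w e : ℝ) = q * (π e.1.1 * P e.1.1 e.1.2)
      / (2 * (scl P π q e.1.1 * scl P π q e.1.2)) := by
    intro e
    show ((Real.toNNReal (q * (π e.1.1 * P e.1.1 e.1.2)
      / (2 * (scl P π q e.1.1 * scl P π q e.1.2))) : NNReal) : ℝ) = _
    rw [Real.coe_toNNReal]
    have := hs e.1.1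
    have := hs e.1.2
    have := h.pos e.1.1
    have := h.nn e.1.1 e.1.2
    positivity
  rw [Fintype.sum_prod_type]
  simp only [Fintype.sum_bool]
  have e1 : ∀ e : CE V, (if (cg P π q φ₀ φ₁).ds (e, true) = x then
      ((cg P π q φ₀ φ₁).w e : ℝ) * g ((cg P π q φ₀ φ₁).dt (e, true)) else 0)
      + (if (cg P π q φ₀ φ₁).ds (e, false) = x then
      ((cg P π q φ₀ φ₁).w e : ℝ) * g ((cg P π q φ₀ φ₁).dt (e, false)) else 0)
      = (fun p : V × V => (if p.1 = x then q * (π p.1 * P p.1 p.2)
      / (2 * (scl P π q p.1 * scl P π q p.2)) * g p.2 else 0)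
      + (if p.2 = x then q * (π p.1 * P p.1 p.2)
      / (2 * (scl P π q p.1 * scl P π q p.2)) * g p.1 else 0)) e.1 := by
    intro e
    rw [hw e]
    rfl
  rw [Finset.sum_congr rfl (fun e _ => e1 e)]
  rw [← Finset.sum_subtype (Finset.univ.filter (fun p : V × V => p.1 ≠ p.2)) (by simp)
    (fun p : V × V => (if p.1 = x then q * (π p.1 * P p.1 p.2)
      / (2 * (scl P π q p.1 * scl P π q p.2)) * g p.2 else 0)
      + (if p.2 = x then q * (π p.1 * P p.1 p.2)
      / (2 * (scl P π q p.1 * scl P π q p.2)) * g p.1 else 0))]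
  rw [Finset.sum_filter, Fintype.sum_prod_type]
  have e2 : ∀ a b : V, (if (a, b).1 ≠ (a, b).2 then
      (if (a, b).1 = x then q * (π (a, b).1 * P (a, b).1 (a, b).2)
      / (2 * (scl P π q (a, b).1 * scl P π q (a, b).2)) * g (a, b).2 else 0)
      + (if (a, b).2 = x then q * (π (a, b).1 * P (a, b).1 (a, b).2)
      / (2 * (scl P π q (a, b).1 * scl P π q (a, b).2)) * g (a, b).1 else 0) else 0)
      = (if a = x then (if b ≠ x then q * (π x * P x b)
      / (2 * (scl P π q x * scl P π q b)) * g b else 0) else 0)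
      + (if b = x then (if a ≠ x then q * (π x * P x a)
      / (2 * (scl P π q x * scl P π q a)) * g a else 0) else 0) := by
    intro a b
    dsimp only
    by_cases ha : a = x
    · by_cases hb : b = x
      · subst ha; subst hb; simp
      · subst ha
        simp [hb, Ne.symm hb]
    · by_cases hb : b = x
      · subst hb
        simp only [ne_eq, ha, not_false_eq_true, if_true, if_false, zero_add]
        rw [h.rev a b, mul_comm (scl P π q a)]
      · simp [ha, hb]
  simp_rw [e2]
  simp_rw [Finset.sum_add_distrib]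
  rw [Finset.sum_comm (f := fun a b => if b = x then (if a ≠ x then q * (π x * P x a)
      / (2 * (scl P π q x * scl P π q a)) * g a else 0) else 0)]
  have e3 : (∑ a : V, ∑ b : V, if a = x then (if b ≠ x then q * (π x * P x b)
      / (2 * (scl P π q x * scl P π q b)) * g b else 0) else 0)
      = ∑ b, (if b ≠ x then q * (π x * P x b)
      / (2 * (scl P π q x * scl P π q b)) * g b else 0) := by
    rw [Finset.sum_comm]
    simp
  rw [e3, ← Finset.sum_add_distrib]
  refine Finset.sum_congr rfl (fun y _ => ?_)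
  split_ifs
  · have := (hs x).ne'
    have := (hs y).ne'
    field_simp
    ring
  · simp

theorem Kop47_real (h : Rev P π) (q : ℝ) (h0 : 0 < q) (h1 : q < 1) (φ₀ φ₁ : V → ℝ) (A : Finset V)
    (u : V → ℝ≥0∞) (hu : ∀ x, u x ≠ ⊤) (x : V) :
    Kop47 (cg P π q φ₀ φ₁) A u x ≠ ⊤ ∧ (Kop47 (cg P π q φ₀ φ₁) A u x).toReal =
      if x ∈ A then 0 else (((cg P π q φ₀ φ₁).f (x, true) : NNReal) : ℝ) +
        ∑ y, if y ≠ x then q * π x * P x y / (scl P π q x * scl P π q y) * (u y).toReal else 0 := by
  have ht : ∀ d : CE V × Bool, (if (cg P π q φ₀ φ₁).ds d = x then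
      ((cg P π q φ₀ φ₁).w d.1 : ℝ≥0∞) * u ((cg P π q φ₀ φ₁).dt d) else 0) ≠ ⊤ := by
    intro d
    split_ifs
    · exact ENNReal.mul_ne_top ENNReal.coe_ne_top (hu _)
    · exact ENNReal.zero_ne_top
  have hts : (∑ d : CE V × Bool, if (cg P π q φ₀ φ₁).ds d = x then
      ((cg P π q φ₀ φ₁).w d.1 : ℝ≥0∞) * u ((cg P π q φ₀ φ₁).dt d) else 0) ≠ ⊤ :=
    ENNReal.sum_ne_top.2 (fun d _ => ht d)
  unfold Kop47
  by_cases hx : x ∈ A
  · simp [hx]
  · simp only [hx, if_false]
    refine ⟨ENNReal.add_ne_top.2 ⟨ENNReal.coe_ne_top, hts⟩, ?_⟩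
    rw [ENNReal.toReal_add ENNReal.coe_ne_top hts, ENNReal.toReal_sum (fun d _ => ht d),
      ← dsum47 h q h0 h1 φ₀ φ₁ x (fun y => (u y).toReal), ENNReal.coe_toReal]
    congr 1
    refine Finset.sum_congr rfl (fun d _ => ?_)
    split_ifs
    · rw [ENNReal.toReal_mul, ENNReal.coe_toReal]
    · simp

theorem sum_ne_aux47 (x : V) (F : V → ℝ) :
    (∑ y, if y ≠ x then F y else 0) = (∑ y, F y) - F x := by
  have h2 : ∀ y, (if y ≠ x then F y else 0) = F y - (if y = x then F y else 0) := by
    intro y
    by_cases hy : y = x <;> simp [hy]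
  simp_rw [h2]
  rw [Finset.sum_sub_distrib]
  simp

theorem Sl47_eq (h : Rev P π) (q : ℝ) (h0 : 0 < q) (h1 : q < 1) (φ₀ : V → ℝ) (b : ℝ) (hb : 0 ≤ b)
    (A : Finset V) (x : V) :
    Sl47 (cg P π q φ₀ (fun _ => b * (1 - q))) A x
      = ENNReal.ofReal (b * scl P π q x * avk P q A x) := by
  set G := cg P π q φ₀ (fun _ => b * (1 - q)) with hG
  have hs := scl_pos h q h0 h1
  have hav := fun y => (avk_bounds h q h0 h1 A y).1
  have hfr : ∀ x, (G.f (x, true) : ℝ) = b * (1 - q) * π x / scl P π q x := by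
    intro x
    show ((Real.toNNReal ((if (x, true).2 then b * (1 - q) else φ₀ (x, true).1)
      * π (x, true).1 / scl P π q (x, true).1) : NNReal) : ℝ) = _
    simp only [if_true]
    rw [Real.coe_toNNReal]
    have := hs x
    have := h.pos x
    have : 0 < 1 - q := by linarith
    positivity
  have hU : ∀ x, ENNReal.ofReal (b * scl P π q x * avk P q A x)
      = Kop47 G A (fun y => ENNReal.ofReal (b * scl P π q y * avk P q A y)) x := by
    intro x
    obtain ⟨k1, k2⟩ := Kop47_real h q h0 h1 φ₀ (fun _ => b * (1 - q)) A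
      (fun y => ENNReal.ofReal (b * scl P π q y * avk P q A y)) (fun y => ENNReal.ofReal_ne_top) x
    rw [← hG] at k1 k2
    rw [← ENNReal.toReal_eq_toReal_iff' ENNReal.ofReal_ne_top k1, k2]
    have hpos : ∀ y, 0 ≤ b * scl P π q y * avk P q A y := fun y =>
      mul_nonneg (mul_nonneg hb (hs y).le) (hav y)
    rw [ENNReal.toReal_ofReal (hpos x)]
    by_cases hx : x ∈ A
    · rw [avk_rec h q h0 h1 A x]
      simp [hx]
    · simp only [hx, if_false, ENNReal.toReal_ofReal (hpos _)]
      rw [hfr x]
      have e1 : ∀ y, (if y ≠ x then q * π x * P x y / (scl P π q x * scl P π q y)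
          * (b * scl P π q y * avk P q A y) else 0)
          = if y ≠ x then q * π x * b / scl P π q x * (P x y * avk P q A y) else 0 := by
        intro y
        split_ifs
        · have := (hs x).ne'
          have := (hs y).ne'
          field_simp
        · rfl
      simp_rw [e1]
      rw [sum_ne_aux47 x (fun y => q * π x * b / scl P π q x * (P x y * avk P q A y)),
        ← Finset.mul_sum]
      have e2 := avk_rec h q h0 h1 A x
      rw [if_neg hx] at e2
      have e3 := scl_sq47 h q h0 h1 x
      have e4 : q * ∑ y, P x y * avk P q A y = avk P q A x - (1 - q) := by linarith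
      have hsx := (hs x).ne'
      have e5 : q * π x * b / scl P π q x * ∑ y, P x y * avk P q A y
          = π x * b / scl P π q x * (avk P q A x - (1 - q)) := by
        rw [← e4]; ring
      rw [e5]
      field_simp
      rw [e3]
      ring
  have hle := Sl47_le G A _ hU
  have hfin : ∀ x, Sl47 G A x ≠ ⊤ := fun x => ne_top_of_le_ne_top ENNReal.ofReal_ne_top (hle x)
  -- uniqueness
  have hv : ∀ y, (b * scl P π q y * avk P q A y - (Sl47 G A y).toReal) / scl P π q y ≤ 0 := by
    have hrecU : ∀ x, b * scl P π q x * avk P q A x = if x ∈ A then 0 else (G.f (x, true) : ℝ) +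
        ∑ y, if y ≠ x then q * π x * P x y / (scl P π q x * scl P π q y)
          * (b * scl P π q y * avk P q A y) else 0 := by
      intro x
      obtain ⟨k1, k2⟩ := Kop47_real h q h0 h1 φ₀ (fun _ => b * (1 - q)) A
        (fun y => ENNReal.ofReal (b * scl P π q y * avk P q A y))
        (fun y => ENNReal.ofReal_ne_top) x
      rw [← hG] at k1 k2
      have hpos : ∀ y, 0 ≤ b * scl P π q y * avk P q A y := fun y =>
        mul_nonneg (mul_nonneg hb (hs y).le) (hav y)
      rw [← hU x, ENNReal.toReal_ofReal (hpos x)] at k2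
      simp only [ENNReal.toReal_ofReal (hpos _)] at k2
      exact k2
    have hrecS : ∀ x, (Sl47 G A x).toReal = if x ∈ A then 0 else (G.f (x, true) : ℝ) +
        ∑ y, if y ≠ x then q * π x * P x y / (scl P π q x * scl P π q y)
          * (Sl47 G A y).toReal else 0 := by
      intro x
      obtain ⟨k1, k2⟩ := Kop47_real h q h0 h1 φ₀ (fun _ => b * (1 - q)) A (Sl47 G A) hfin x
      rw [← hG] at k1 k2
      rw [← Sl47_rec G A x] at k2
      exact k2
    intro y
    refine max_pr h q h0 h1 A
      (fun y => (b * scl P π q y * avk P q A y - (Sl47 G A y).toReal) / scl P π q y) ?_ ?_ y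
    · intro x hx
      refine le_of_eq ?_
      have r1 := hrecU x
      have r2 := hrecS x
      rw [if_neg hx] at r1 r2
      set D : V → ℝ := fun y => b * scl P π q y * avk P q A y - (Sl47 G A y).toReal with hD
      have r3 : D x = ∑ y, if y ≠ x then q * π x * P x y / (scl P π q x * scl P π q y) * D y
          else 0 := by
        simp only [hD]
        rw [r1, r2]
        rw [add_sub_add_left_eq_sub, ← Finset.sum_sub_distrib]
        refine Finset.sum_congr rfl (fun y _ => ?_)
        split_ifs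
        · ring
        · simp
      have e1 : ∀ y, (if y ≠ x then q * π x * P x y / (scl P π q x * scl P π q y) * D y else 0)
          = if y ≠ x then q * π x / scl P π q x * (P x y * (D y / scl P π q y)) else 0 := by
        intro y
        split_ifs
        · have := (hs x).ne'
          have := (hs y).ne'
          field_simp
        · rfl
      simp_rw [e1] at r3
      rw [sum_ne_aux47 x (fun y => q * π x / scl P π q x * (P x y * (D y / scl P π q y))),
        ← Finset.mul_sum] at r3
      show D x / scl P π q x = q * ∑ z, P x z * (D z / scl P π q z)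
      have e3 := scl_sq47 h q h0 h1 x
      have hsx := (hs x).ne'
      have hpx := (h.pos x).ne'
      have e4 : D x = D x / scl P π q x * scl P π q x := by field_simp
      have e5 : π x * (D x / scl P π q x) = π x * (q * ∑ z, P x z * (D z / scl P π q z)) := by
        have e6 : D x / scl P π q x * scl P π q x ^ 2
            = q * π x * ∑ z, P x z * (D z / scl P π q z)
              - q * π x * (P x x * (D x / scl P π q x)) := by
          have : D x * scl P π q x = q * π x * ∑ z, P x z * (D z / scl P π q z)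
              - q * π x * (P x x * (D x / scl P π q x)) := by
            conv_lhs => rw [r3]
            field_simp
          rw [← this]
          field_simp
        rw [e3] at e6
        linear_combination e6
      exact mul_left_cancel₀ hpx e5
    · intro x hx
      have r1 := hrecU x
      have r2 := hrecS x
      rw [if_pos hx] at r1 r2
      show (b * scl P π q x * avk P q A x - (Sl47 G A x).toReal) / scl P π q x ≤ 0
      rw [r1, r2]
      simp
  refine le_antisymm (hle x) ?_
  have h2 := hv x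
  rw [div_nonpos_iff] at h2
  have h3 : b * scl P π q x * avk P q A x ≤ (Sl47 G A x).toReal := by
    rcases h2 with h2 | h2
    · exact absurd h2.2 (not_le.2 (hs x))
    · linarith [h2.1]
  calc ENNReal.ofReal (b * scl P π q x * avk P q A x) ≤ ENNReal.ofReal (Sl47 G A x).toReal :=
        ENNReal.ofReal_le_ofReal h3
    _ = Sl47 G A x := ENNReal.ofReal_toReal (hfin x)

end aux47

section chaingraph

variable {V : Type} [Fintype V] [DecidableEq V] {P : Matrix V V ℝ} {π : V → ℝ}

open Classical in
/-- mass of the ghost paths avoiding a set -/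
theorem cg_mass (h : Rev P π) (q : ℝ) (h0 : 0 < q) (h1 : q < 1) (φ₀ : V → ℝ)
    (hφ₀ : ∀ x, 0 ≤ φ₀ x) (b : ℝ) (hb : 0 ≤ b) (κ : Bool) (A : Finset V) :
    ∑' p : (V × Bool) × List (CE V × Bool) × (V × Bool),
      (if (p.1.2 = κ ∧ p.2.2.2 = true) ∧
          ∀ i, (cg P π q φ₀ (fun _ => b * (1 - q))).site p i ∉ A then
        (cg P π q φ₀ (fun _ => b * (1 - q))).lam p else 0)
      = ENNReal.ofReal (b / 2 *
          ∑ x, (if κ then b * (1 - q) else φ₀ x) * π x * avk P q A x) := by
  set G := cg P π q φ₀ (fun _ => b * (1 - q)) with hG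
  have hs := scl_pos h q h0 h1
  have hav := fun y => (avk_bounds h q h0 h1 A y).1
  rw [ENNReal.tsum_prod']
  have e1 : ∀ g : V × Bool, (∑' r : List (CE V × Bool) × (V × Bool),
      (if (((g, r) : (V × Bool) × List (CE V × Bool) × (V × Bool)).1.2 = κ ∧
        ((g, r) : (V × Bool) × List (CE V × Bool) × (V × Bool)).2.2.2 = true) ∧
          ∀ i, G.site (g, r) i ∉ A then G.lam (g, r) else 0))
      = if g.2 = κ then 2⁻¹ * (G.f g : ℝ≥0∞) * Sl47 G A g.1 else 0 := by
    intro g
    rw [ENNReal.tsum_prod']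
    by_cases hg : g.2 = κ
    · rw [if_pos hg, Sl47, ← ENNReal.tsum_mul_left]
      refine tsum_congr (fun l => ?_)
      rw [tsum_fintype, Fintype.sum_prod_type, Tl47, mul_ite, mul_zero]
      by_cases ha : Avd47 G A g.1 l
      · rw [if_pos ha, Finset.mul_sum]
        refine Finset.sum_congr rfl (fun z _ => ?_)
        rw [Fintype.sum_bool]
        have c1 : ((g.2 = κ ∧ true = true) ∧ ∀ i, G.site (g, l, (z, true)) i ∉ A) :=
          ⟨⟨hg, rfl⟩, ha⟩
        rw [if_pos c1, if_neg (by simp)]
        show 2⁻¹ * (G.f g : ℝ≥0∞) * G.pw g.1 l z * (G.f (z, true) : ℝ≥0∞) + 0 = _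
        ring
      · rw [if_neg ha]
        refine Finset.sum_eq_zero (fun z _ => ?_)
        refine Finset.sum_eq_zero (fun w _ => ?_)
        rw [if_neg]
        rintro ⟨-, h3⟩
        exact ha h3
    · simp [hg]
  rw [tsum_congr e1, tsum_fintype, Fintype.sum_prod_type]
  have e2 : ∀ x : V, (∑ κ' : Bool, if ((x, κ') : V × Bool).2 = κ then
      2⁻¹ * (G.f (x, κ') : ℝ≥0∞) * Sl47 G A ((x, κ') : V × Bool).1 else 0)
      = ENNReal.ofReal (b / 2 * ((if κ then b * (1 - q) else φ₀ x) * π x * avk P q A x)) := by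
    intro x
    have e3 : (∑ κ' : Bool, if ((x, κ') : V × Bool).2 = κ then
      2⁻¹ * (G.f (x, κ') : ℝ≥0∞) * Sl47 G A ((x, κ') : V × Bool).1 else 0)
        = 2⁻¹ * (G.f (x, κ) : ℝ≥0∞) * Sl47 G A x := by
      rw [Finset.sum_ite_eq' Finset.univ κ (fun κ' => 2⁻¹ * (G.f (x, κ') : ℝ≥0∞) * Sl47 G A x)]
      simp
    rw [e3, Sl47_eq h q h0 h1 φ₀ b hb A x]
    have e4 : (G.f (x, κ) : ℝ≥0∞) = ENNReal.ofReal ((if κ then b * (1 - q) else φ₀ x) * π x
        / scl P π q x) := rfl
    have hφ : 0 ≤ (if κ then b * (1 - q) else φ₀ x) := by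
      split_ifs
      · exact mul_nonneg hb (by linarith)
      · exact hφ₀ x
    have hsx := hs x
    have hpx := h.pos x
    have e5 : (2⁻¹ : ℝ≥0∞) = ENNReal.ofReal (2⁻¹) := by
      rw [ENNReal.ofReal_inv_of_pos (by norm_num)]
      simp
    rw [e4, e5, ← ENNReal.ofReal_mul (by norm_num), ← ENNReal.ofReal_mul (by positivity)]
    congr 1
    field_simp
  rw [Finset.sum_congr rfl (fun x _ => e2 x), ← ENNReal.ofReal_sum_of_nonneg]
  · rw [Finset.mul_sum]
  · intro x _
    have hφ : 0 ≤ (if κ then b * (1 - q) else φ₀ x) := by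
      split_ifs
      · exact mul_nonneg hb (by linarith)
      · exact hφ₀ x
    have hpx := h.pos x
    have := hav x
    positivity

end chaingraph

end Pool.Agent.Helper41.CT
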