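import Pool.Agent.Helper41.CT.Defs


/-!
# Definitions for cover times of killed random walks and Gaussian fields
-/

set_option autoImplicit false

open scoped ENNReal NNReal Nat
open Finset MeasureTheory ProbabilityTheory

namespace Pool.Agent.Helper41.CT

/-! ## TARGETS: prove these (statements must not be changed; helper lemmas are welcome) -/

section gauss

variable {V ι : Type} [Fintype V] [DecidableEq V]

omit [DecidableEq V] in
theorem isG_ext_aux {Λ : V → V → ℝ} {μ ν : Measure (V → ℝ)} (hμ : IsG Λ μ) (hν : IsG Λ ν) :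
    μ = ν := by
  classical
  have := hμ.1
  have := hν.1
  apply Measure.ext_of_charFunDual
  funext L
  rw [charFunDual_eq_charFun_map_one, charFunDual_eq_charFun_map_one]
  have hL : (⇑L : (V → ℝ) → ℝ) = fun x => ∑ i, L (Pi.single i 1) * x i := by
    funext x
    have h1 : x = ∑ i, x i • (Pi.single i (1 : ℝ) : V → ℝ) := by
      funext j
      rw [Finset.sum_apply]
      simp only [Pi.smul_apply, smul_eq_mul]
      rw [Finset.sum_eq_single j]
      · simp
      · intro i _ hi
        rw [Pi.single_eq_of_ne (Ne.symm hi)]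
        ring
      · intro h
        exact absurd (Finset.mem_univ j) h
    conv_lhs => rw [h1]
    rw [map_sum]
    refine Finset.sum_congr rfl fun i _ => ?_
    rw [map_smul, smul_eq_mul, mul_comm]
  rw [hL, hμ.2, hν.2]

theorem pi_gauss_lin {W : Type} [Fintype W] (s : W → ℝ) :
    (Measure.pi (fun _ : W => gaussianReal 0 1)).map (fun x => ∑ w, s w * x w) =
      gaussianReal 0 (Real.toNNReal (∑ w, s w ^ 2)) := by
  have hmeas : Measurable (fun x : W → ℝ => ∑ w, s w * x w) := by fun_prop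
  have : IsProbabilityMeasure ((Measure.pi (fun _ : W => gaussianReal 0 1)).map (fun x => ∑ w, s w * x w)) :=
    Measure.isProbabilityMeasure_map hmeas.aemeasurable
  apply Measure.ext_of_charFun
  funext u
  rw [charFun_gaussianReal, charFun_apply_real, integral_map hmeas.aemeasurable (by fun_prop)]
  let g : W → ℝ → ℂ := fun w y => Complex.exp (((u * s w : ℝ) : ℂ) * (y : ℂ) * Complex.I)
  have h1 : (fun x : W → ℝ => Complex.exp ((u : ℂ) * ((∑ w, s w * x w : ℝ) : ℂ) * Complex.I)) =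
      fun x : W → ℝ => ∏ w, g w (x w) := by
    funext x
    simp only [g]
    rw [← Complex.exp_sum]
    congr 1
    push_cast
    rw [Finset.mul_sum, Finset.sum_mul]
    refine Finset.sum_congr rfl fun w _ => ?_
    ring
  rw [h1]
  have h0 := integral_fintype_prod_eq_prod (μ := fun _ : W => gaussianReal 0 1) g
  rw [h0]
  have h2 : ∀ w, ∫ y : ℝ, g w y ∂(gaussianReal 0 1) =
      Complex.exp (-((u * s w : ℝ) : ℂ) ^ 2 / 2) := by
    intro w
    have h3 := charFun_gaussianReal (μ := 0) (v := 1) (u * s w)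
    rw [charFun_apply_real] at h3
    simp only [g]
    rw [h3]
    congr 1
    push_cast
    ring
  simp only [h2]
  rw [← Complex.exp_sum]
  congr 1
  have h4 : (0 : ℝ) ≤ ∑ w, s w ^ 2 := Finset.sum_nonneg fun w _ => sq_nonneg _
  rw [Real.coe_toNNReal _ h4]
  push_cast
  rw [Finset.sum_mul, Finset.sum_div, mul_zero, zero_mul, zero_sub, ← Finset.sum_neg_distrib]
  refine Finset.sum_congr rfl fun w _ => ?_
  ring

open scoped MatrixOrder ComplexOrder in
theorem exists_sqrt (Λ : V → V → ℝ) (hs : ∀ x y, Λ x y = Λ y x) (hΛ : ∀ t, 0 ≤ qf Λ t) :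
    ∃ B : Matrix V V ℝ, ∀ t : V → ℝ, qf Λ t = ∑ w, (∑ y, t y * B y w) ^ 2 := by
  have hPSD : (Matrix.of Λ).PosSemidef := by
    rw [Matrix.posSemidef_iff_dotProduct_mulVec]
    refine ⟨?_, fun x => ?_⟩
    · ext i j
      rw [Matrix.conjTranspose_apply, Matrix.of_apply, Matrix.of_apply, star_trivial, hs]
    · have h := hΛ x
      unfold qf at h
      have h2 : dotProduct (star x) (Matrix.mulVec (Matrix.of Λ) x) = ∑ i, ∑ j, x i * Λ i j * x j := by
        simp only [dotProduct, Matrix.mulVec, Matrix.of_apply, star_trivial, Finset.mul_sum]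
        refine Finset.sum_congr rfl fun i _ => Finset.sum_congr rfl fun j _ => ?_
        ring
      rw [h2]
      exact h
  obtain ⟨B, hB⟩ := CStarAlgebra.nonneg_iff_eq_star_mul_self.mp (Matrix.nonneg_iff_posSemidef.mpr hPSD)
  refine ⟨Matrix.transpose B, fun t => ?_⟩
  have hΛB : ∀ i j, Λ i j = ∑ w, B w i * B w j := by
    intro i j
    have h := congrFun (congrFun hB i) j
    rw [Matrix.mul_apply] at h
    simpa [Matrix.star_apply] using h
  unfold qf
  simp only [hΛB, Matrix.transpose_apply]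
  have h1 : ∀ w, (∑ y, t y * B w y) ^ 2 = ∑ i, ∑ j, t i * (B w i * B w j) * t j := by
    intro w
    rw [sq, Finset.sum_mul_sum]
    refine Finset.sum_congr rfl fun i _ => Finset.sum_congr rfl fun j _ => ?_
    ring
  simp only [h1]
  symm
  rw [Finset.sum_comm]
  refine Finset.sum_congr rfl fun i _ => ?_
  rw [Finset.sum_comm]
  refine Finset.sum_congr rfl fun j _ => ?_
  rw [Finset.mul_sum, Finset.sum_mul]

theorem isG_of_sqrt {Λ : V → V → ℝ} {B : Matrix V V ℝ}
    (hB : ∀ t : V → ℝ, qf Λ t = ∑ w, (∑ y, t y * B y w) ^ 2) :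
    IsG Λ ((Measure.pi (fun _ : V => gaussianReal 0 1)).map (fun x y => ∑ w, B y w * x w)) := by
  have hmeas : Measurable (fun (x : V → ℝ) (y : V) => ∑ w, B y w * x w) := by fun_prop
  refine ⟨Measure.isProbabilityMeasure_map hmeas.aemeasurable, fun t => ?_⟩
  have hmeas2 : Measurable (fun x : V → ℝ => ∑ i, t i * x i) := by fun_prop
  rw [Measure.map_map hmeas2 hmeas, hB t, ← pi_gauss_lin]
  congr 1
  funext x
  rw [Function.comp_apply]
  simp only [Finset.mul_sum, Finset.sum_mul]
  rw [Finset.sum_comm]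
  refine Finset.sum_congr rfl fun i _ => Finset.sum_congr rfl fun j _ => ?_
  ring

theorem isG_ext {Λ : V → V → ℝ} {μ ν : Measure (V → ℝ)} (hμ : IsG Λ μ) (hν : IsG Λ ν) :
    μ = ν := isG_ext_aux hμ hν

theorem isG_exists (Λ : V → V → ℝ) (hs : ∀ x y, Λ x y = Λ y x) (hΛ : ∀ t, 0 ≤ qf Λ t) :
    ∃ μ : Measure (V → ℝ), IsG Λ μ := by
  obtain ⟨B, hB⟩ := exists_sqrt Λ hs hΛ
  exact ⟨_, isG_of_sqrt hB⟩

/-- a Gaussian law is the image of the standard one -/
theorem isG_std {Λ : V → V → ℝ} (hs : ∀ x y, Λ x y = Λ y x) (hΛ : ∀ t, 0 ≤ qf Λ t)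
    {μ : Measure (V → ℝ)} (hμ : IsG Λ μ) : ∃ B : Matrix V V ℝ,
      μ = (Measure.pi (fun _ : V => gaussianReal 0 1)).map (fun x y => ∑ w, B y w * x w) ∧
      ∀ t : V → ℝ, qf Λ t = ∑ w, (∑ y, t y * B y w) ^ 2 := by
  obtain ⟨B, hB⟩ := exists_sqrt Λ hs hΛ
  exact ⟨B, isG_ext hμ (isG_of_sqrt hB), hB⟩

theorem isG_neg {Λ : V → V → ℝ} {μ : Measure (V → ℝ)} (hμ : IsG Λ μ) :
    μ.map (fun x y => - x y) = μ := by
  apply isG_ext (Λ := Λ) _ hμ
  have := hμ.1
  have hmeas : Measurable (fun (x : V → ℝ) (y : V) => - x y) := by fun_prop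
  refine ⟨Measure.isProbabilityMeasure_map hmeas.aemeasurable, fun t => ?_⟩
  have hmeas2 : Measurable (fun x : V → ℝ => ∑ i, t i * x i) := by fun_prop
  rw [Measure.map_map hmeas2 hmeas]
  have h1 : ((fun x : V → ℝ => ∑ i, t i * x i) ∘ fun (x : V → ℝ) (y : V) => - x y) =
      fun x : V → ℝ => ∑ i, (-t) i * x i := by
    funext x
    rw [Function.comp_apply]
    refine Finset.sum_congr rfl fun i _ => ?_
    rw [Pi.neg_apply]
    ring
  rw [h1, hμ.2 (-t)]
  congr 2
  unfold qf
  refine Finset.sum_congr rfl fun i _ => Finset.sum_congr rfl fun j _ => ?_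
  rw [Pi.neg_apply, Pi.neg_apply]
  ring

end gauss

end Pool.Agent.Helper41.CT
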