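import Pool.Agent.Helper41.CT.Defs
import Pool.Agent.Helper41.CT.GaussA

/-!
# Definitions for cover times of killed random walks and Gaussian fields
-/

set_option autoImplicit false

open scoped ENNReal NNReal Nat
open Finset MeasureTheory ProbabilityTheory

namespace Pool.Agent.Helper41.CT


/-! ## TARGETS: prove these (statements must not be changed; helper lemmas are welcome) -/

section gauss

variable {V ι : Type} [Fintype V] [DecidableEq V]

theorem g1_tail (v : ℝ≥0) (σ r : ℝ) (hσ : 0 < σ) (hv : (v : ℝ) ≤ σ ^ 2) (hr : 0 ≤ r) :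
    (gaussianReal 0 v) {y | r ≤ |y|} ≤ ENNReal.ofReal (2 * Real.exp (-(r ^ 2 / (2 * σ ^ 2)))) := by
  have hs : (0 : ℝ) < σ ^ 2 := by positivity
  have hexp : Real.exp (-(r / σ ^ 2) * r) * Real.exp (0 * (r / σ ^ 2) + v * (r / σ ^ 2) ^ 2 / 2) ≤
      Real.exp (-(r ^ 2 / (2 * σ ^ 2))) := by
    rw [← Real.exp_add]
    apply Real.exp_le_exp.mpr
    have h1 : (v : ℝ) * (r / σ ^ 2) ^ 2 / 2 ≤ σ ^ 2 * (r / σ ^ 2) ^ 2 / 2 := by
      have := mul_le_mul_of_nonneg_right hv (sq_nonneg (r / σ ^ 2))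
      linarith
    have h2 : σ ^ 2 * (r / σ ^ 2) ^ 2 / 2 = r ^ 2 / (2 * σ ^ 2) := by field_simp
    have h3 : -(r / σ ^ 2) * r = - (2 * (r ^ 2 / (2 * σ ^ 2))) := by field_simp
    rw [h3]; linarith
  have h1 : (gaussianReal 0 v).real {y | r ≤ y} ≤ Real.exp (-(r ^ 2 / (2 * σ ^ 2))) := by
    have h := measure_ge_le_exp_mul_mgf (μ := gaussianReal 0 v) (X := id) (t := r / σ ^ 2) r
      (by positivity) (integrable_exp_mul_gaussianReal _)
    rw [mgf_id_gaussianReal] at h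
    exact h.trans hexp
  have h2 : (gaussianReal 0 v).real {y | y ≤ -r} ≤ Real.exp (-(r ^ 2 / (2 * σ ^ 2))) := by
    have h := measure_le_le_exp_mul_mgf (μ := gaussianReal 0 v) (X := id) (t := -(r / σ ^ 2)) (-r)
      (by
        have : 0 ≤ r / σ ^ 2 := by positivity
        linarith) (integrable_exp_mul_gaussianReal _)
    rw [mgf_id_gaussianReal] at h
    refine h.trans (le_trans (le_of_eq ?_) hexp)
    have e1 : - -(r / σ ^ 2) * -r = -(r / σ ^ 2) * r := by ring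
    have e2 : 0 * (-(r / σ ^ 2)) + (v : ℝ) * (-(r / σ ^ 2)) ^ 2 / 2 =
        0 * (r / σ ^ 2) + v * (r / σ ^ 2) ^ 2 / 2 := by ring
    dsimp only
    rw [e1, e2]
  have h3 : {y : ℝ | r ≤ |y|} ⊆ {y | r ≤ y} ∪ {y | y ≤ -r} := by
    intro y hy
    rcases le_abs'.mp (show r ≤ |y| from hy) with h | h
    · exact Or.inr h
    · exact Or.inl h
  have h4 : (gaussianReal 0 v).real {y | r ≤ |y|} ≤ 2 * Real.exp (-(r ^ 2 / (2 * σ ^ 2))) := by
    refine (measureReal_mono h3).trans ((measureReal_union_le _ _).trans ?_)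
    linarith
  rw [← ofReal_measureReal]
  exact ENNReal.ofReal_le_ofReal h4

theorem g1_abs (v : ℝ≥0) (σ : ℝ) (hσ : 0 ≤ σ) (hv : (v : ℝ) ≤ σ ^ 2) :
    ∫ y, |y| ∂(gaussianReal 0 v) ≤ σ := by
  have hL : MemLp id 2 (gaussianReal 0 v) := memLp_id_gaussianReal 2
  have hLa : MemLp (fun y : ℝ => |y|) 2 (gaussianReal 0 v) := hL.abs
  have h1 := variance_nonneg (fun y : ℝ => |y|) (gaussianReal 0 v)
  rw [variance_eq_sub hLa] at h1
  have h2 : Var[id; gaussianReal 0 v] = v := variance_id_gaussianReal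
  rw [variance_eq_sub hL] at h2
  have h3 : ∫ y, (id : ℝ → ℝ) y ∂(gaussianReal 0 v) = 0 := integral_id_gaussianReal
  rw [h3] at h2
  have h4 : ∫ y, ((fun y : ℝ => |y|) ^ 2) y ∂(gaussianReal 0 v) = ∫ y, ((id : ℝ → ℝ) ^ 2) y ∂(gaussianReal 0 v) := by
    congr 1
    funext y
    simp
  rw [h4] at h1
  have h5 : (∫ y, |y| ∂(gaussianReal 0 v)) ^ 2 ≤ σ ^ 2 := by linarith
  exact (abs_le_of_sq_le_sq' h5 hσ).2

theorem lin_meas (t : V → ℝ) : Measurable fun x : V → ℝ => ∑ w, t w * x w :=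
  Finset.measurable_sum _ fun w _ => (measurable_pi_apply w).const_mul _

theorem var_le {Λ : V → V → ℝ} {t : V → ℝ} {σ : ℝ} (ht : qf Λ t ≤ σ ^ 2) :
    ((Real.toNNReal (qf Λ t) : ℝ≥0) : ℝ) ≤ σ ^ 2 := by
  rw [Real.coe_toNNReal']
  exact max_le ht (sq_nonneg σ)

theorem isG_tail {Λ : V → V → ℝ} {μ : Measure (V → ℝ)} (hμ : IsG Λ μ) (t : V → ℝ) (σ r : ℝ)
    (hσ : 0 < σ) (ht : qf Λ t ≤ σ ^ 2) (hr : 0 ≤ r) :
    μ {x | r ≤ |∑ w, t w * x w|} ≤ ENNReal.ofReal (2 * Real.exp (-(r ^ 2 / (2 * σ ^ 2)))) := by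
  have h1 := g1_tail _ σ r hσ (var_le ht) hr
  rw [← hμ.2 t, Measure.map_apply (lin_meas t) (measurableSet_le measurable_const (by fun_prop))] at h1
  exact h1

theorem isG_abs {Λ : V → V → ℝ} {μ : Measure (V → ℝ)} (hμ : IsG Λ μ) (t : V → ℝ) (σ : ℝ)
    (hσ : 0 ≤ σ) (ht : qf Λ t ≤ σ ^ 2) : ∫ x, |∑ w, t w * x w| ∂μ ≤ σ := by
  have h1 := g1_abs _ σ hσ (var_le ht)
  rw [← hμ.2 t, integral_map (lin_meas t).aemeasurable (by fun_prop)] at h1
  exact h1

theorem lin_int {Λ : V → V → ℝ} {μ : Measure (V → ℝ)} (hμ : IsG Λ μ) (t : V → ℝ) :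
    Integrable (fun x => |∑ w, t w * x w|) μ := by
  have h1 : Integrable (id : ℝ → ℝ) (gaussianReal 0 (Real.toNNReal (qf Λ t))) :=
    memLp_one_iff_integrable.mp (memLp_id_gaussianReal 1)
  rw [← hμ.2 t, integrable_map_measure (by fun_prop) (lin_meas t).aemeasurable] at h1
  exact h1.abs

theorem ms_meas (s : Finset ι) (t : ι → V → ℝ) : Measurable (ms s t) := by
  classical
  have h : Measurable fun x : V → ℝ => (s.sup (fun i => ‖∑ w, t i w * x w‖₊) : ℝ≥0) := by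
    induction s using Finset.induction_on with
    | empty => simp
    | insert i s hi ih =>
      have : (fun x : V → ℝ => ((insert i s).sup (fun i => ‖∑ w, t i w * x w‖₊) : ℝ≥0)) =
          fun x : V → ℝ => ‖∑ w, t i w * x w‖₊ ⊔ s.sup (fun i => ‖∑ w, t i w * x w‖₊) := by
        funext x
        rw [Finset.sup_insert]
      rw [this]
      exact (lin_meas (t i)).nnnorm.sup ih
  exact measurable_coe_nnreal_real.comp h

theorem ms_ge (s : Finset ι) (t : ι → V → ℝ) (x : V → ℝ) (i : ι) (hi : i ∈ s) :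
    |∑ w, t i w * x w| ≤ ms s t x := by
  have h : ‖∑ w, t i w * x w‖₊ ≤ s.sup (fun i => ‖∑ w, t i w * x w‖₊) :=
    Finset.le_sup (f := fun i => ‖∑ w, t i w * x w‖₊) hi
  have h2 : ((‖∑ w, t i w * x w‖₊ : ℝ≥0) : ℝ) ≤ ms s t x := NNReal.coe_le_coe.mpr h
  rwa [coe_nnnorm, Real.norm_eq_abs] at h2

theorem ms_le (s : Finset ι) (t : ι → V → ℝ) (x : V → ℝ) (r : ℝ) (hr : 0 ≤ r)
    (h : ∀ i ∈ s, |∑ w, t i w * x w| ≤ r) : ms s t x ≤ r := by
  have h1 : s.sup (fun i => ‖∑ w, t i w * x w‖₊) ≤ Real.toNNReal r := by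
    apply Finset.sup_le
    intro i hi
    rw [Real.le_toNNReal_iff_coe_le hr, coe_nnnorm, Real.norm_eq_abs]
    exact h i hi
  have h2 := NNReal.coe_le_coe.mpr h1
  rw [Real.coe_toNNReal r hr] at h2
  exact h2

theorem ms_int {Λ : V → V → ℝ} {μ : Measure (V → ℝ)} (hμ : IsG Λ μ) (s : Finset ι)
    (t : ι → V → ℝ) : Integrable (ms s t) μ := by
  have h1 : Integrable (fun x => ∑ i ∈ s, |∑ w, t i w * x w|) μ :=
    integrable_finsetSum _ fun i _ => lin_int hμ (t i)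
  refine h1.mono' (ms_meas s t).aestronglyMeasurable (Filter.Eventually.of_forall fun x => ?_)
  have h0 : 0 ≤ ms s t x := NNReal.coe_nonneg _
  rw [Real.norm_of_nonneg h0]
  apply ms_le s t x _ (Finset.sum_nonneg fun i _ => abs_nonneg _)
  intro i hi
  exact Finset.single_le_sum (f := fun i => |∑ w, t i w * x w|) (fun i _ => abs_nonneg _) hi

end gauss

end Pool.Agent.Helper41.CT
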