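import Pool.Agent.Helper41.CT.Defs
import Pool.Agent.Helper41.CT.GaussB

/-!
# Definitions for cover times of killed random walks and Gaussian fields
-/

set_option autoImplicit false

open scoped ENNReal NNReal Nat
open Finset MeasureTheory ProbabilityTheory

namespace Pool.Agent.Helper41.CT


/-! ## TARGETS: prove these (statements must not be changed; helper lemmas are welcome) -/

section assembly

variable {V : Type} [Fintype V] [DecidableEq V] {P : Matrix V V ℝ} {π : V → ℝ}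

omit [DecidableEq V] in
theorem cx_union (μ : Measure (V → ℝ)) (S : Finset V) (E : V → Set (V → ℝ)) (b c : ℝ)
    (hb : 0 ≤ b) (hc : (S.card : ℝ) ≤ c) (h : ∀ a ∈ S, μ (E a) ≤ ENNReal.ofReal b) :
    μ (⋃ a ∈ S, E a) ≤ ENNReal.ofReal (c * b) := by
  refine le_trans (measure_biUnion_finset_le S E) ?_
  refine le_trans (Finset.sum_le_sum h) ?_
  rw [Finset.sum_const, nsmul_eq_mul, ← ENNReal.ofReal_natCast, ← ENNReal.ofReal_mul (by positivity)]
  exact ENNReal.ofReal_le_ofReal (mul_le_mul_of_nonneg_right hc hb)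

theorem cx_sum2 (x : V → ℝ) (a b : V) :
    ∑ w, ((if w = a then (1:ℝ) else 0) - (if w = b then 1 else 0)) * x w = x a - x b := by
  simp [sub_mul, Finset.sum_sub_distrib]

theorem cx_sum1 (x : V → ℝ) (π : V → ℝ) (a : V) :
    ∑ w, ((if w = a then (1:ℝ) else 0) - π w) * x w = x a - ∑ w, π w * x w := by
  simp [sub_mul, Finset.sum_sub_distrib]

theorem cx_tail {Λ : V → V → ℝ} {μ : Measure (V → ℝ)} (hμ : IsG Λ μ) (K δ : ℝ) (hK : 0 < K)
    (hδ : 0 < δ) (i : ℕ) (t : V → ℝ) (ht : qf Λ t ≤ 48 * δ * K * (1 / 4) ^ i) :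
    μ {x | 1000 * Real.sqrt K * (3 / 4) ^ i ≤ |∑ w, t w * x w|} ≤
      ENNReal.ofReal (2 * Real.exp (-(260 * (9 / 4) ^ i / δ))) := by
  have hpos : 0 < 48 * δ * K * (1 / 4) ^ i := by positivity
  have hσ2 : Real.sqrt (48 * δ * K * (1 / 4) ^ i) ^ 2 = 48 * δ * K * (1 / 4) ^ i :=
    Real.sq_sqrt hpos.le
  have h1 := isG_tail hμ t (Real.sqrt (48 * δ * K * (1 / 4) ^ i)) (1000 * Real.sqrt K * (3 / 4) ^ i)
    (Real.sqrt_pos.2 hpos) (by rw [hσ2]; exact ht) (by positivity)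
  refine le_trans h1 (ENNReal.ofReal_le_ofReal ?_)
  apply mul_le_mul_of_nonneg_left _ (by norm_num)
  apply Real.exp_le_exp.2
  apply neg_le_neg
  rw [hσ2]
  have h2 : (1000 * Real.sqrt K * (3 / 4) ^ i) ^ 2 = 10 ^ 6 * K * ((9 / 4) ^ i * (1 / 4) ^ i) := by
    rw [mul_pow, mul_pow, Real.sq_sqrt hK.le, ← pow_mul, mul_comm i 2, pow_mul, ← mul_pow]
    norm_num
  rw [h2, div_le_div_iff₀ hδ (by positivity)]
  have hX : 0 < (9 / 4 : ℝ) ^ i := by positivity
  have hp : 0 < (1 / 4 : ℝ) ^ i := by positivity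
  have h3 : 0 < δ * K * ((9 / 4 : ℝ) ^ i * (1 / 4) ^ i) := by positivity
  generalize (9 / 4 : ℝ) ^ i = X at *
  generalize (1 / 4 : ℝ) ^ i = p at *
  nlinarith

theorem cx_good (K : ℝ) (π : V → ℝ) (Y : Finset V) (lev : V → ℕ) (ctr : V → V)
    (A N : ℕ → Finset V) (Q : ℕ → V → Finset V) (nA nN : ℕ → V → V)
    (hctr : ∀ y ∈ Y, ctr y ∈ A (lev y)) (hQ : ∀ y ∈ Y, y ∈ Q (lev y) (ctr y))
    (hnA : ∀ i, ∀ a ∈ A i, nA i a ∈ N i)
    (hnN : ∀ i, ∀ a ∈ N (i + 1), nN i a ∈ N i) (x : V → ℝ)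
    (h1 : ∀ i, ∀ a ∈ A i,
      ms (Q i a) (fun y w => (if w = y then 1 else 0) - (if w = a then 1 else 0)) x <
        1000 * Real.sqrt K * (3 / 4) ^ i)
    (h2 : ∀ i, ∀ a ∈ A i, |x a - x (nA i a)| < 1000 * Real.sqrt K * (3 / 4) ^ i)
    (h3 : ∀ i, ∀ a ∈ N (i + 1), |x a - x (nN i a)| < 1000 * Real.sqrt K * (3 / 4) ^ i)
    (h4 : ∀ a ∈ N 0, |x a - ∑ w, π w * x w| < 1000 * Real.sqrt K) (y : V) (hy : y ∈ Y) :
    |x y - ∑ w, π w * x w| ≤ 7000 * Real.sqrt K := by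
  have hs : 0 ≤ Real.sqrt K := Real.sqrt_nonneg K
  obtain ⟨s, hsd⟩ : ∃ s : ℝ, s = Real.sqrt K := ⟨_, rfl⟩
  obtain ⟨S, hS⟩ : ∃ S : ℝ, S = ∑ w, π w * x w := ⟨_, rfl⟩
  rw [← hsd] at h1 h2 h3 h4 hs ⊢
  rw [← hS] at h4 ⊢
  have hind : ∀ j, ∀ a ∈ N j, |x a - S| ≤ 1000 * s * (5 - 4 * (3 / 4) ^ j) := by
    intro j
    induction j with
    | zero =>
      intro a ha
      have := h4 a ha
      simp only [pow_zero]
      linarith
    | succ j ih =>
      intro a ha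
      have h5 := h3 j a ha
      have h6 := ih _ (hnN j a ha)
      have h7 : |x a - S| ≤ |x a - x (nN j a)| + |x (nN j a) - S| := abs_sub_le _ _ _
      rw [pow_succ]
      nlinarith
  have hp : ∀ i : ℕ, 0 < (3 / 4 : ℝ) ^ i ∧ (3 / 4 : ℝ) ^ i ≤ 1 := fun i =>
    ⟨by positivity, pow_le_one₀ (by norm_num) (by norm_num)⟩
  have hc := hctr y hy
  have e1 : |x y - x (ctr y)| ≤ 1000 * s := by
    have h6 := h1 (lev y) (ctr y) hc
    have h8 : |x y - x (ctr y)| < 1000 * s * (3 / 4) ^ (lev y) := by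
      refine lt_of_le_of_lt ?_ h6
      refine le_trans (le_of_eq ?_) (ms_ge _ _ x y (hQ y hy))
      simp [sub_mul, Finset.sum_sub_distrib]
    have h7 := (hp (lev y)).2
    nlinarith
  have e2 : |x (ctr y) - x (nA (lev y) (ctr y))| ≤ 1000 * s := by
    have h6 := h2 (lev y) (ctr y) hc
    have h7 := (hp (lev y)).2
    nlinarith
  have e3 : |x (nA (lev y) (ctr y)) - S| ≤ 5000 * s := by
    have h6 := hind (lev y) _ (hnA (lev y) (ctr y) hc)
    have h7 := (hp (lev y)).1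
    nlinarith
  have e4 : |x y - S| ≤ |x y - x (ctr y)| + |x (ctr y) - S| := abs_sub_le _ _ _
  have e5 : |x (ctr y) - S| ≤ |x (ctr y) - x (nA (lev y) (ctr y))| +
      |x (nA (lev y) (ctr y)) - S| := abs_sub_le _ _ _
  linarith

/-- abstract chaining -/
theorem chain_abs {Λ : V → V → ℝ} {μ : Measure (V → ℝ)} (hμ : IsG Λ μ) (K δ : ℝ) (hK : 0 < K)
    (hδ : 0 < δ) (hδ1 : δ ≤ 1) (π : V → ℝ) (Y : Finset V) (lev : V → ℕ) (ctr : V → V)
    (A N : ℕ → Finset V) (Q : ℕ → V → Finset V) (nA nN : ℕ → V → V)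
    (hctr : ∀ y ∈ Y, ctr y ∈ A (lev y)) (hQ : ∀ y ∈ Y, y ∈ Q (lev y) (ctr y))
    (hcA : ∀ i, ((A i).card : ℝ) ≤ Real.exp (24 / δ))
    (hcN : ∀ i, ((N i).card : ℝ) ≤ Real.exp (24 / δ))
    (hnA : ∀ i, ∀ a ∈ A i, nA i a ∈ N i)
    (hnN : ∀ i, ∀ a ∈ N (i + 1), nN i a ∈ N i)
    (hA : ∀ i, ∀ a ∈ A i, qf Λ (fun w => (if w = a then 1 else 0) - (if w = nA i a then 1 else 0))
      ≤ 48 * δ * K * (1 / 4) ^ i)
    (hN : ∀ i, ∀ a ∈ N (i + 1),
      qf Λ (fun w => (if w = a then 1 else 0) - (if w = nN i a then 1 else 0))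
      ≤ 48 * δ * K * (1 / 4) ^ i)
    (htop : ∀ a ∈ N 0, qf Λ (fun w => (if w = a then 1 else 0) - π w) ≤ 4 * δ * K)
    (htail : ∀ i, ∀ a ∈ A i, μ {x | 1000 * Real.sqrt K * (3 / 4) ^ i
        ≤ ms (Q i a) (fun y w => (if w = y then 1 else 0) - (if w = a then 1 else 0)) x}
      ≤ ENNReal.ofReal (Real.exp (-(260 * (9 / 4) ^ i / δ)))) :
    μ {x | ∃ y ∈ Y, 7000 * Real.sqrt K < |x y - ∑ w, π w * x w|}
      ≤ ENNReal.ofReal (12 * Real.exp (-(130 / δ))) := by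
  classical
  obtain ⟨B1, hB1⟩ : ∃ B : ℕ → V → Set (V → ℝ), B = fun i a => {x | 1000 * Real.sqrt K * (3 / 4) ^ i
        ≤ ms (Q i a) (fun y w => (if w = y then 1 else 0) - (if w = a then 1 else 0)) x} := ⟨_, rfl⟩
  obtain ⟨B2, hB2⟩ : ∃ B : ℕ → V → Set (V → ℝ), B = fun i a => {x | 1000 * Real.sqrt K * (3 / 4) ^ i
        ≤ |∑ w, ((if w = a then (1:ℝ) else 0) - (if w = nA i a then 1 else 0)) * x w|} := ⟨_, rfl⟩
  obtain ⟨B3, hB3⟩ : ∃ B : ℕ → V → Set (V → ℝ), B = fun i a => {x | 1000 * Real.sqrt K * (3 / 4) ^ i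
        ≤ |∑ w, ((if w = a then (1:ℝ) else 0) - (if w = nN i a then 1 else 0)) * x w|} := ⟨_, rfl⟩
  obtain ⟨B4, hB4⟩ : ∃ B : V → Set (V → ℝ), B = fun a => {x | 1000 * Real.sqrt K
        ≤ |∑ w, ((if w = a then (1:ℝ) else 0) - π w) * x w|} := ⟨_, rfl⟩
  have hsub : {x : V → ℝ | ∃ y ∈ Y, 7000 * Real.sqrt K < |x y - ∑ w, π w * x w|} ⊆
      (⋃ a ∈ N 0, B4 a) ∪ ⋃ i : ℕ, ((⋃ a ∈ A i, B1 i a) ∪ (⋃ a ∈ A i, B2 i a) ∪
        (⋃ a ∈ N (i + 1), B3 i a)) := by
    rintro x ⟨y, hy, hxy⟩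
    by_contra hx
    simp only [Set.mem_union, Set.mem_iUnion, not_or, not_exists] at hx
    obtain ⟨g4, g⟩ := hx
    have g1 : ∀ i, ∀ a ∈ A i,
      ms (Q i a) (fun y w => (if w = y then 1 else 0) - (if w = a then 1 else 0)) x <
        1000 * Real.sqrt K * (3 / 4) ^ i := by
      intro i a ha
      by_contra hlt
      exact (g i).1.1 a ha (by rw [hB1]; exact not_lt.1 hlt)
    have g2 : ∀ i, ∀ a ∈ A i, |x a - x (nA i a)| < 1000 * Real.sqrt K * (3 / 4) ^ i := by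
      intro i a ha
      by_contra hlt
      refine (g i).1.2 a ha ?_
      rw [hB2]
      change _ ≤ |∑ w, ((if w = a then (1:ℝ) else 0) - (if w = nA i a then 1 else 0)) * x w|
      rw [cx_sum2]; exact not_lt.1 hlt
    have g3 : ∀ i, ∀ a ∈ N (i + 1), |x a - x (nN i a)| < 1000 * Real.sqrt K * (3 / 4) ^ i := by
      intro i a ha
      by_contra hlt
      refine (g i).2 a ha ?_
      rw [hB3]
      change _ ≤ |∑ w, ((if w = a then (1:ℝ) else 0) - (if w = nN i a then 1 else 0)) * x w|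
      rw [cx_sum2]; exact not_lt.1 hlt
    have g4' : ∀ a ∈ N 0, |x a - ∑ w, π w * x w| < 1000 * Real.sqrt K := by
      intro a ha
      by_contra hlt
      refine g4 a ha ?_
      rw [hB4]
      change _ ≤ |∑ w, ((if w = a then (1:ℝ) else 0) - π w) * x w|
      rw [cx_sum1]; exact not_lt.1 hlt
    have := cx_good K π Y lev ctr A N Q nA nN hctr hQ hnA hnN x g1 g2 g3 g4' y hy
    linarith
  refine le_trans (measure_mono hsub) ?_
  refine le_trans (measure_union_le _ _) ?_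
  obtain ⟨q, hq⟩ : ∃ q : ℝ, q = Real.exp (-(236 / δ)) := ⟨_, rfl⟩
  have hq0 : 0 < q := by rw [hq]; exact Real.exp_pos _
  have hδinv : 1 ≤ 1 / δ := by rw [le_div_iff₀ hδ]; linarith
  have hq2 : q ≤ 1 / 2 := by
    have h1 : q ≤ Real.exp (-1) := by
      rw [hq]; apply Real.exp_le_exp.2
      have : 236 / δ = 236 * (1 / δ) := by ring
      rw [this]; linarith
    have h2 : Real.exp (-1) * Real.exp 1 = 1 := by rw [← Real.exp_add]; simp
    have h3 : 2 ≤ Real.exp 1 := by have := Real.add_one_le_exp (1:ℝ); linarith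
    have h4 := Real.exp_pos (-1)
    nlinarith
  have hexpb : ∀ i : ℕ, Real.exp (24 / δ) * Real.exp (-(260 * (9 / 4) ^ i / δ)) ≤ q ^ (i + 1) := by
    intro i
    rw [hq, ← Real.exp_nat_mul, ← Real.exp_add]
    apply Real.exp_le_exp.2
    have h1 : (1:ℝ) ≤ (9 / 4) ^ i := one_le_pow₀ (by norm_num)
    have h2 : 1 + (i:ℝ) ≤ (9 / 4) ^ i := by
      have h3 := one_add_mul_le_pow (show (-2:ℝ) ≤ 5 / 4 by norm_num) i
      have h4 : (1 + 5 / 4 : ℝ) = 9 / 4 := by norm_num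
      rw [h4] at h3
      have h5 : (0:ℝ) ≤ i := Nat.cast_nonneg i
      linarith
    have h6 : 24 - 260 * (9 / 4 : ℝ) ^ i ≤ -(236 * (i + 1)) := by linarith
    have h7 : (24 - 260 * (9 / 4 : ℝ) ^ i) / δ ≤ -(236 * (i + 1)) / δ :=
      div_le_div_of_nonneg_right h6 hδ.le
    have h8 : 24 / δ + -(260 * (9 / 4 : ℝ) ^ i / δ) = (24 - 260 * (9 / 4 : ℝ) ^ i) / δ := by ring
    rw [h8]
    push_cast
    calc (24 - 260 * (9 / 4 : ℝ) ^ i) / δ ≤ -(236 * (i + 1)) / δ := h7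
      _ = (i + 1) * -(236 / δ) := by ring
  have hi : ∀ i : ℕ, μ ((⋃ a ∈ A i, B1 i a) ∪ (⋃ a ∈ A i, B2 i a) ∪ (⋃ a ∈ N (i + 1), B3 i a)) ≤
      ENNReal.ofReal (5 * q ^ (i + 1)) := by
    intro i
    have u1 := cx_union μ (A i) (B1 i) (Real.exp (-(260 * (9 / 4) ^ i / δ))) (Real.exp (24 / δ))
      (Real.exp_pos _).le (hcA i) (by intro a ha; rw [hB1]; exact htail i a ha)
    have u2 := cx_union μ (A i) (B2 i) (2 * Real.exp (-(260 * (9 / 4) ^ i / δ))) (Real.exp (24 / δ))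
      (by positivity) (hcA i) (by
        intro a ha; rw [hB2]
        exact cx_tail hμ K δ hK hδ i
          (fun w => (if w = a then (1:ℝ) else 0) - (if w = nA i a then 1 else 0)) (hA i a ha))
    have u3 := cx_union μ (N (i+1)) (B3 i) (2 * Real.exp (-(260 * (9 / 4) ^ i / δ)))
      (Real.exp (24 / δ))
      (by positivity) (hcN (i+1)) (by
        intro a ha; rw [hB3]
        exact cx_tail hμ K δ hK hδ i
          (fun w => (if w = a then (1:ℝ) else 0) - (if w = nN i a then 1 else 0)) (hN i a ha))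
    refine le_trans (measure_union_le _ _) ?_
    refine le_trans (add_le_add (measure_union_le _ _) le_rfl) ?_
    refine le_trans (add_le_add (add_le_add u1 u2) u3) ?_
    rw [← ENNReal.ofReal_add (by positivity) (by positivity),
      ← ENNReal.ofReal_add (by positivity) (by positivity)]
    apply ENNReal.ofReal_le_ofReal
    have := hexpb i
    nlinarith
  have htop4 : μ (⋃ a ∈ N 0, B4 a) ≤ ENNReal.ofReal (2 * Real.exp (-(130 / δ))) := by
    have u4 := cx_union μ (N 0) B4 (2 * Real.exp (-(125000 / δ))) (Real.exp (24 / δ))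
      (by positivity) (hcN 0) (by
        intro a ha; rw [hB4]
        have hpos : 0 < 4 * δ * K := by positivity
        have hσ2 : Real.sqrt (4 * δ * K) ^ 2 = 4 * δ * K := Real.sq_sqrt hpos.le
        have h1 := isG_tail hμ (fun w => (if w = a then (1:ℝ) else 0) - π w) (Real.sqrt (4 * δ * K))
          (1000 * Real.sqrt K) (Real.sqrt_pos.2 hpos) (by rw [hσ2]; exact htop a ha) (by positivity)
        refine le_trans h1 (ENNReal.ofReal_le_ofReal ?_)
        apply mul_le_mul_of_nonneg_left _ (by norm_num)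
        apply Real.exp_le_exp.2
        apply neg_le_neg
        rw [hσ2, mul_pow, Real.sq_sqrt hK.le, div_le_div_iff₀ hδ (by positivity)]
        have : 0 < δ * K := by positivity
        nlinarith)
    refine le_trans u4 (ENNReal.ofReal_le_ofReal ?_)
    have h1 : Real.exp (24 / δ) * (2 * Real.exp (-(125000 / δ))) =
        2 * Real.exp (24 / δ + -(125000 / δ)) := by rw [Real.exp_add]; ring
    rw [h1]
    apply mul_le_mul_of_nonneg_left _ (by norm_num)
    apply Real.exp_le_exp.2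
    have h2 : 24 / δ + -(125000 / δ) = -124976 * (1 / δ) := by ring
    have h3 : -(130 / δ) = -130 * (1 / δ) := by ring
    rw [h2, h3]
    nlinarith
  have hsum : μ (⋃ i : ℕ, ((⋃ a ∈ A i, B1 i a) ∪ (⋃ a ∈ A i, B2 i a) ∪
        (⋃ a ∈ N (i + 1), B3 i a))) ≤ ENNReal.ofReal (10 * Real.exp (-(130 / δ))) := by
    refine le_trans (measure_iUnion_le _) ?_
    refine le_trans (ENNReal.tsum_le_tsum hi) ?_
    have hq1 : q < 1 := by linarith
    have hsm : Summable fun i : ℕ => 5 * q ^ (i + 1) := by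
      have h1 : Summable fun i : ℕ => (5 * q) * q ^ i :=
        (summable_geometric_of_lt_one hq0.le hq1).mul_left _
      refine h1.congr fun i => ?_
      rw [pow_succ]; ring
    rw [← ENNReal.ofReal_tsum_of_nonneg (fun i => by positivity) hsm]
    apply ENNReal.ofReal_le_ofReal
    have h2 : ∑' i : ℕ, 5 * q ^ (i + 1) = 5 * q * (1 - q)⁻¹ := by
      have h3 : (fun i : ℕ => 5 * q ^ (i + 1)) = fun i : ℕ => (5 * q) * q ^ i := by
        funext i; rw [pow_succ]; ring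
      rw [h3, tsum_mul_left, tsum_geometric_of_lt_one hq0.le hq1]
    rw [h2]
    have h4 : (1 - q)⁻¹ ≤ 2 := by
      rw [inv_le_comm₀ (by linarith) (by norm_num)]
      linarith
    have h5 : q ≤ Real.exp (-(130 / δ)) := by
      rw [hq]; apply Real.exp_le_exp.2
      have e1 : -(236 / δ) = -236 * (1 / δ) := by ring
      have e2 : -(130 / δ) = -130 * (1 / δ) := by ring
      rw [e1, e2]; nlinarith
    calc 5 * q * (1 - q)⁻¹ ≤ 5 * q * 2 := mul_le_mul_of_nonneg_left h4 (by positivity)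
      _ = 10 * q := by ring
      _ ≤ _ := by linarith
  refine le_trans (add_le_add htop4 hsum) ?_
  rw [← ENNReal.ofReal_add (by positivity) (by positivity)]
  apply ENNReal.ofReal_le_ofReal
  linarith

end assembly

end Pool.Agent.Helper41.CT
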