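import Pool.Agent.Helper41.CT.Defs
import Pool.Agent.Helper41.CT.GaussB

/-!
# Definitions for cover times of killed random walks and Gaussian fields
-/

set_option autoImplicit false

open scoped ENNReal NNReal Nat
open Finset MeasureTheory ProbabilityTheory

namespace Pool.Agent.Helper41.CT


section gauss

/-- bilinear form -/
noncomputable def CT23bf {V : Type} [Fintype V] (Λ : V → V → ℝ) (a b : V → ℝ) : ℝ :=
  ∑ w, ∑ w', a w * Λ w w' * b w'

lemma CT23_qf {V J : Type} [Fintype V] [Fintype J] (Λ : V → V → ℝ) (t : J → V → ℝ) (c : J → ℝ) :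
    qf Λ (fun w => ∑ i, c i * t i w) = qf (fun i j => CT23bf Λ (t i) (t j)) c := by
  unfold qf CT23bf
  calc ∑ w, ∑ w', (∑ i, c i * t i w) * Λ w w' * (∑ j, c j * t j w')
      = ∑ w, ∑ w', ∑ i, ∑ j, c i * (t i w * Λ w w' * t j w') * c j := by
        refine Finset.sum_congr rfl fun w _ => Finset.sum_congr rfl fun w' _ => ?_
        rw [Finset.sum_mul, Finset.sum_mul]
        refine Finset.sum_congr rfl fun i _ => ?_
        rw [Finset.mul_sum]
        refine Finset.sum_congr rfl fun j _ => ?_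
        ring
    _ = ∑ w, ∑ i, ∑ w', ∑ j, c i * (t i w * Λ w w' * t j w') * c j :=
        Finset.sum_congr rfl fun w _ => Finset.sum_comm
    _ = ∑ i, ∑ w, ∑ w', ∑ j, c i * (t i w * Λ w w' * t j w') * c j := Finset.sum_comm
    _ = ∑ i, ∑ w, ∑ j, ∑ w', c i * (t i w * Λ w w' * t j w') * c j :=
        Finset.sum_congr rfl fun i _ => Finset.sum_congr rfl fun w _ => Finset.sum_comm
    _ = ∑ i, ∑ j, ∑ w, ∑ w', c i * (t i w * Λ w w' * t j w') * c j :=
        Finset.sum_congr rfl fun i _ => Finset.sum_comm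
    _ = ∑ i, ∑ j, c i * (∑ w, ∑ w', t i w * Λ w w' * t j w') * c j := by
        refine Finset.sum_congr rfl fun i _ => Finset.sum_congr rfl fun j _ => ?_
        rw [Finset.mul_sum, Finset.sum_mul]
        refine Finset.sum_congr rfl fun w _ => ?_
        rw [Finset.mul_sum, Finset.sum_mul]

lemma CT23_symm {V : Type} [Fintype V] {Λ : V → V → ℝ} (hs : ∀ x y, Λ x y = Λ y x)
    (a b : V → ℝ) : CT23bf Λ a b = CT23bf Λ b a := by
  unfold CT23bf
  rw [Finset.sum_comm]
  refine Finset.sum_congr rfl fun w _ => Finset.sum_congr rfl fun w' _ => ?_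
  rw [hs w' w]
  ring

/-- linear image -/
def CT23X {V J : Type} [Fintype V] (t : J → V → ℝ) (x : V → ℝ) : J → ℝ := fun i => ∑ w, t i w * x w

lemma CT23X_meas {V J : Type} [Fintype V] (t : J → V → ℝ) : Measurable (CT23X t) := by
  unfold CT23X
  fun_prop

lemma CT23_map {V J : Type} [Fintype V] [Fintype J] {Λ : V → V → ℝ} {μ : Measure (V → ℝ)}
    (hμ : IsG Λ μ) (t : J → V → ℝ) : IsG (fun i j => CT23bf Λ (t i) (t j)) (μ.map (CT23X t)) := by
  obtain ⟨h1, h2⟩ := hμ
  refine ⟨Measure.isProbabilityMeasure_map (CT23X_meas t).aemeasurable, fun c => ?_⟩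
  rw [Measure.map_map (by fun_prop) (CT23X_meas t), ← CT23_qf, ← h2]
  congr 1
  funext x
  simp only [Function.comp, CT23X, Finset.mul_sum, Finset.sum_mul]
  rw [Finset.sum_comm]
  refine Finset.sum_congr rfl fun w _ => Finset.sum_congr rfl fun i _ => ?_
  ring

lemma CT23_norm {V J : Type} [Fintype V] [DecidableEq V] [Fintype J] (t : J → V → ℝ) (x : V → ℝ) :
    ms (Finset.univ : Finset J) t x = ‖CT23X t x‖ := by
  apply le_antisymm
  · exact ms_le _ _ _ _ (norm_nonneg _) fun i _ => norm_le_pi_norm (CT23X t x) i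
  · have h0 : 0 ≤ ms (Finset.univ : Finset J) t x := NNReal.coe_nonneg _
    rw [pi_norm_le_iff_of_nonneg h0]
    intro i
    exact ms_ge _ _ _ i (Finset.mem_univ i)

lemma CT23_ms {V ι : Type} [Fintype V] [DecidableEq V] (s : Finset ι) (t : ι → V → ℝ) (x : V → ℝ) :
    ms s t x = ‖CT23X (fun i : {i // i ∈ s} => t i) x‖ := by
  apply le_antisymm
  · exact ms_le _ _ _ _ (norm_nonneg _) fun i hi =>
      norm_le_pi_norm (CT23X (fun i : {i // i ∈ s} => t i) x) ⟨i, hi⟩
  · have h0 : 0 ≤ ms s t x := NNReal.coe_nonneg _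
    rw [pi_norm_le_iff_of_nonneg h0]
    intro i
    exact ms_ge s t x (i : ι) i.2

lemma CT23_id {J : Type} [Fintype J] [DecidableEq J] (x : J → ℝ) :
    CT23X (fun i : J => (Pi.single i (1:ℝ) : J → ℝ)) x = x := by
  funext i
  simp [CT23X, Pi.single_apply]

lemma CT23_int {J : Type} [Fintype J] [DecidableEq J] {D : J → J → ℝ} {ν : Measure (J → ℝ)}
    (hν : IsG D ν) : Integrable (fun b : J → ℝ => b) ν := by
  have h1 := ms_int hν (Finset.univ : Finset J) (fun i : J => (Pi.single i (1:ℝ) : J → ℝ))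
  have h2 : ms (Finset.univ : Finset J) (fun i : J => (Pi.single i (1:ℝ) : J → ℝ)) =
      fun x => ‖x‖ := by
    funext x
    rw [CT23_norm, CT23_id]
  rw [h2] at h1
  exact (integrable_norm_iff (measurable_id.aestronglyMeasurable)).1 h1

lemma CT23_mean {J : Type} [Fintype J] [DecidableEq J] {D : J → J → ℝ} {ν : Measure (J → ℝ)}
    (hν : IsG D ν) : ∫ b, b ∂ν = 0 := by
  have h1 := isG_neg hν
  have h2 : ∫ b, b ∂ν = - ∫ b, b ∂ν := by
    conv_lhs => rw [← h1]
    have hm : Measurable (fun x : J → ℝ => fun y => - x y) := measurable_neg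
    rw [integral_map (f := fun b : J → ℝ => b) hm.aemeasurable (by fun_prop), ← integral_neg]
    rfl
  exact self_eq_neg.1 h2

/-- comparison on a finite index type -/
lemma CT23_main {V V' J : Type} [Fintype V] [DecidableEq V] [Fintype V'] [DecidableEq V']
    [Fintype J] [DecidableEq J] {Λ : V → V → ℝ} {Λ' : V' → V' → ℝ}
    (hs : ∀ x y, Λ x y = Λ y x) (hΛ : ∀ t, 0 ≤ qf Λ t)
    (hs' : ∀ x y, Λ' x y = Λ' y x) {μ : Measure (V → ℝ)} {μ' : Measure (V' → ℝ)}
    (hμ : IsG Λ μ) (hμ' : IsG Λ' μ') (t : J → V → ℝ) (t' : J → V' → ℝ) (C : ℝ) (hC : 0 ≤ C)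
    (hcmp : ∀ c : J → ℝ, qf Λ (fun w => ∑ i, c i * t i w)
      ≤ C ^ 2 * qf Λ' (fun w => ∑ i, c i * t' i w)) :
    ∫ x, ‖CT23X t x‖ ∂μ ≤ C * ∫ x, ‖CT23X t' x‖ ∂μ' := by
  set A : J → J → ℝ := fun i j => CT23bf Λ (t i) (t j) with hA
  set A' : J → J → ℝ := fun i j => C ^ 2 * CT23bf Λ' (t' i) (t' j) with hA'
  set D : J → J → ℝ := fun i j => A' i j - A i j with hD
  have hDs : ∀ i j, D i j = D j i := by
    intro i j
    simp only [hD, hA, hA', CT23_symm hs (t i) (t j), CT23_symm hs' (t' i) (t' j)]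
  have hqA' : ∀ c, qf A' c = C ^ 2 * qf Λ' (fun w => ∑ i, c i * t' i w) := by
    intro c
    rw [CT23_qf]
    simp only [qf, hA', Finset.mul_sum]
    refine Finset.sum_congr rfl fun i _ => Finset.sum_congr rfl fun j _ => ?_
    ring
  have hqD : ∀ c, qf D c = qf A' c - qf A c := by
    intro c
    simp only [qf, hD, ← Finset.sum_sub_distrib]
    refine Finset.sum_congr rfl fun i _ => Finset.sum_congr rfl fun j _ => ?_
    ring
  have hqA : ∀ c, qf A c = qf Λ (fun w => ∑ i, c i * t i w) := fun c => (CT23_qf Λ t c).symm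
  have hD0 : ∀ c, 0 ≤ qf D c := by
    intro c
    rw [hqD, hqA', hqA]
    linarith [hcmp c]
  have hA0 : ∀ c, 0 ≤ qf A c := by
    intro c
    rw [hqA]
    exact hΛ _
  obtain ⟨ν, hν⟩ := isG_exists D hDs hD0
  have hμX : IsG A (μ.map (CT23X t)) := CT23_map hμ t
  have hμY : IsG A' (μ'.map (fun x => C • CT23X t' x)) := by
    have h1 := CT23_map hμ' (fun i w => C * t' i w)
    have h2 : (fun x => C • CT23X t' x) = CT23X (fun i w => C * t' i w) := by
      funext x i
      simp only [CT23X, Pi.smul_apply, smul_eq_mul, Finset.mul_sum]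
      refine Finset.sum_congr rfl fun w _ => ?_
      ring
    have h3 : A' = fun i j => CT23bf Λ' (fun w => C * t' i w) (fun w => C * t' j w) := by
      funext i j
      simp only [hA', CT23bf, Finset.mul_sum]
      refine Finset.sum_congr rfl fun w _ => Finset.sum_congr rfl fun w' _ => ?_
      ring
    rw [h2, h3]
    exact h1
  have := hμX.1
  have := hν.1
  have := hμ'.1
  have := hμ.1
  set ρ : Measure (J → ℝ) := ((μ.map (CT23X t)).prod ν).map (fun p => p.1 + p.2) with hρ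
  have hρG : IsG A' ρ := by
    refine ⟨Measure.isProbabilityMeasure_map (by fun_prop), fun c => ?_⟩
    rw [hρ, Measure.map_map (by fun_prop) (by fun_prop)]
    have h1 : ((fun x : J → ℝ => ∑ i, c i * x i) ∘ fun p : (J → ℝ) × (J → ℝ) => p.1 + p.2) =
        (fun q : ℝ × ℝ => q.1 + q.2) ∘
          (Prod.map (fun x : J → ℝ => ∑ i, c i * x i) (fun x : J → ℝ => ∑ i, c i * x i)) := by
      funext p
      simp [mul_add, Finset.sum_add_distrib]
    rw [h1, ← Measure.map_map (by fun_prop) (by fun_prop),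
      ← Measure.map_prod_map _ _ (by fun_prop) (by fun_prop), hμX.2 c, hν.2 c]
    have h2 := gaussianReal_conv_gaussianReal (m₁ := 0) (m₂ := 0)
      (v₁ := Real.toNNReal (qf A c)) (v₂ := Real.toNNReal (qf D c))
    rw [Measure.conv] at h2
    rw [h2, add_zero, ← Real.toNNReal_add (hA0 c) (hD0 c)]
    congr 2
    rw [hqD]
    ring
  have hρe : ρ = μ'.map (fun x => C • CT23X t' x) := isG_ext hρG hμY
  have hYm : Measurable (fun x => C • CT23X t' x) := (CT23X_meas t').const_smul C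
  have hint1 : Integrable (fun a : J → ℝ => ‖a‖) (μ.map (CT23X t)) := (CT23_int hμX).norm
  have hintρ : Integrable (fun a : J → ℝ => ‖a‖) ρ := (CT23_int hρG).norm
  have hintp : Integrable (fun p : (J → ℝ) × (J → ℝ) => ‖p.1 + p.2‖)
      ((μ.map (CT23X t)).prod ν) := by
    rw [hρ] at hintρ
    exact (integrable_map_measure (by fun_prop) (by fun_prop)).1 hintρ
  calc ∫ x, ‖CT23X t x‖ ∂μ = ∫ a, ‖a‖ ∂(μ.map (CT23X t)) := by
        rw [integral_map (CT23X_meas t).aemeasurable (by fun_prop)]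
    _ ≤ ∫ a, ∫ b, ‖a + b‖ ∂ν ∂(μ.map (CT23X t)) := by
        refine integral_mono hint1 hintp.integral_prod_left ?_
        intro a
        have h1 : ∫ b, (a + b) ∂ν = a := by
          rw [integral_add (integrable_const a) (CT23_int hν), CT23_mean hν]
          simp
        calc ‖a‖ = ‖∫ b, (a + b) ∂ν‖ := by rw [h1]
          _ ≤ ∫ b, ‖a + b‖ ∂ν := norm_integral_le_integral_norm _
    _ = ∫ p, ‖p.1 + p.2‖ ∂((μ.map (CT23X t)).prod ν) := (integral_prod _ hintp).symm
    _ = ∫ c, ‖c‖ ∂ρ := by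
        rw [hρ, integral_map (by fun_prop) (by fun_prop)]
    _ = ∫ x, ‖C • CT23X t' x‖ ∂μ' := by
        rw [hρe, integral_map hYm.aemeasurable (by fun_prop)]
    _ = C * ∫ x, ‖CT23X t' x‖ ∂μ' := by
        rw [← integral_const_mul]
        congr 1
        funext x
        rw [norm_smul, Real.norm_eq_abs, abs_of_nonneg hC]

variable {V ι : Type} [Fintype V] [DecidableEq V]

/-- comparison of the expected maxima when the covariances are ordered -/
theorem jensen {V' : Type} [Fintype V'] [DecidableEq V'] {Λ : V → V → ℝ} {Λ' : V' → V' → ℝ}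
    (hs : ∀ x y, Λ x y = Λ y x) (hΛ : ∀ t, 0 ≤ qf Λ t)
    (hs' : ∀ x y, Λ' x y = Λ' y x) (hΛ' : ∀ t, 0 ≤ qf Λ' t)
    {μ : Measure (V → ℝ)} {μ' : Measure (V' → ℝ)} (hμ : IsG Λ μ) (hμ' : IsG Λ' μ')
    (s : Finset ι) (t : ι → V → ℝ) (t' : ι → V' → ℝ) (C : ℝ) (hC : 0 ≤ C)
    (hcmp : ∀ c : ι → ℝ, qf Λ (fun w => ∑ i ∈ s, c i * t i w)
      ≤ C ^ 2 * qf Λ' (fun w => ∑ i ∈ s, c i * t' i w)) :
    ∫ x, ms s t x ∂μ ≤ C * ∫ x, ms s t' x ∂μ' := by
  classical
  simp only [CT23_ms]
  refine CT23_main hs hΛ hs' hμ hμ' _ _ C hC ?_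
  intro c
  let c' : ι → ℝ := fun i => if h : i ∈ s then c ⟨i, h⟩ else 0
  have hc' : ∀ i : {i // i ∈ s}, c' i = c i := by
    intro i
    simp [c']
  have h := hcmp c'
  have e1 : ∀ (U : Type) (r : ι → U → ℝ), (fun w => ∑ i ∈ s, c' i * r i w) =
      fun w => ∑ i : {i // i ∈ s}, c i * r i w := by
    intro U r
    funext w
    rw [← Finset.sum_coe_sort s (fun i => c' i * r i w)]
    refine Finset.sum_congr rfl fun i _ => ?_
    rw [hc']
  rw [e1, e1] at h
  exact h

end gauss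

end Pool.Agent.Helper41.CT
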