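import Pool.Agent.Helper41.CT.Defs
import Pool.Agent.Helper41.CT.GreenB

/-!
# Definitions for cover times of killed random walks and Gaussian fields
-/

set_option autoImplicit false

open scoped ENNReal NNReal Nat
open Finset MeasureTheory ProbabilityTheory

namespace Pool.Agent.Helper41.CT


/-! ## TARGETS: prove these (statements must not be changed; helper lemmas are welcome) -/

section resolvent

variable {V : Type} [Fintype V] [DecidableEq V] {P : Matrix V V ℝ} {π : V → ℝ}

/-- bilinear form of `1 - q P` in `L²(π)` -/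
noncomputable def Bf (P : Matrix V V ℝ) (π : V → ℝ) (q : ℝ) (w u : V → ℝ) : ℝ :=
  ∑ x, w x * (π x * (u x - q * ∑ z, P x z * u z))

/-- Dirichlet form -/
noncomputable def Ed (P : Matrix V V ℝ) (π : V → ℝ) (u : V → ℝ) : ℝ :=
  1 / 2 * ∑ x, ∑ z, π x * P x z * (u x - u z) ^ 2

theorem m_right (h : Rev P π) (f : V → ℝ) : ∑ x, ∑ z, π x * P x z * f x = ∑ x, π x * f x := by
  refine Finset.sum_congr rfl fun x _ => ?_
  have : ∀ z, π x * P x z * f x = π x * f x * P x z := fun z => by ring
  rw [Finset.sum_congr rfl fun z _ => this z, ← Finset.mul_sum, h.row, mul_one]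

theorem m_symm (h : Rev P π) (F : V → V → ℝ) :
    ∑ x, ∑ z, π x * P x z * F x z = ∑ x, ∑ z, π x * P x z * F z x := by
  rw [Finset.sum_comm]
  refine Finset.sum_congr rfl fun x _ => Finset.sum_congr rfl fun z _ => ?_
  rw [h.rev z x]

theorem m_left (h : Rev P π) (f : V → ℝ) : ∑ x, ∑ z, π x * P x z * f z = ∑ x, π x * f x := by
  rw [← m_right h f, m_symm h (fun _ z => f z)]

theorem Bf_expand (q : ℝ) (w u : V → ℝ) :
    Bf P π q w u = ∑ x, π x * (w x * u x) - q * ∑ x, ∑ z, π x * P x z * (w x * u z) := by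
  unfold Bf
  rw [Finset.mul_sum, ← Finset.sum_sub_distrib]
  refine Finset.sum_congr rfl fun x _ => ?_
  have : ∑ z, π x * P x z * (w x * u z) = π x * w x * ∑ z, P x z * u z := by
    rw [Finset.mul_sum]
    exact Finset.sum_congr rfl fun z _ => by ring
  rw [this]; ring

theorem Bf_symm (h : Rev P π) (q : ℝ) (w u : V → ℝ) : Bf P π q w u = Bf P π q u w := by
  rw [Bf_expand, Bf_expand, m_symm h (fun x z => w x * u z)]
  congr 1
  · exact Finset.sum_congr rfl fun x _ => by ring
  · congr 1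
    exact Finset.sum_congr rfl fun x _ => Finset.sum_congr rfl fun z _ => by ring

theorem Ed_eq (h : Rev P π) (u : V → ℝ) :
    Ed P π u = ∑ x, π x * u x ^ 2 - ∑ x, ∑ z, π x * P x z * (u x * u z) := by
  unfold Ed
  have : ∑ x, ∑ z, π x * P x z * (u x - u z) ^ 2 = ∑ x, ∑ z, π x * P x z * (u x ^ 2) +
      ∑ x, ∑ z, π x * P x z * (u z ^ 2) - 2 * ∑ x, ∑ z, π x * P x z * (u x * u z) := by
    rw [Finset.mul_sum, ← Finset.sum_add_distrib, ← Finset.sum_sub_distrib]
    refine Finset.sum_congr rfl fun x _ => ?_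
    rw [Finset.mul_sum, ← Finset.sum_add_distrib, ← Finset.sum_sub_distrib]
    exact Finset.sum_congr rfl fun z _ => by ring
  rw [this, m_right h (fun x => u x ^ 2), m_left h (fun x => u x ^ 2)]
  ring

theorem Ed_nonneg (h : Rev P π) (u : V → ℝ) : 0 ≤ Ed P π u := by
  unfold Ed
  refine mul_nonneg (by norm_num) (Finset.sum_nonneg fun x _ => Finset.sum_nonneg fun z _ => ?_)
  exact mul_nonneg (mul_nonneg (h.pos x).le (h.nn x z)) (sq_nonneg _)

theorem Bf_self (h : Rev P π) (q : ℝ) (u : V → ℝ) :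
    Bf P π q u u = q * Ed P π u + (1 - q) * ∑ x, π x * u x ^ 2 := by
  rw [Bf_expand, Ed_eq h]
  have : ∑ x, π x * (u x * u x) = ∑ x, π x * u x ^ 2 :=
    Finset.sum_congr rfl fun x _ => by ring
  rw [this]; ring

theorem Bf_nonneg (h : Rev P π) (q : ℝ) (h0 : 0 < q) (h1 : q < 1) (u : V → ℝ) :
    0 ≤ Bf P π q u u := by
  rw [Bf_self h]
  have := Ed_nonneg h u
  have h2 : 0 ≤ ∑ x, π x * u x ^ 2 :=
    Finset.sum_nonneg fun x _ => mul_nonneg (h.pos x).le (sq_nonneg _)
  have h3 : 0 ≤ 1 - q := by linarith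
  positivity

theorem Bf_cs (h : Rev P π) (q : ℝ) (h0 : 0 < q) (h1 : q < 1) (w u : V → ℝ) :
    Bf P π q w u ^ 2 ≤ Bf P π q w w * Bf P π q u u := by
  have hlin : ∀ t : ℝ, Bf P π q (fun x => w x + t * u x) (fun x => w x + t * u x) =
      Bf P π q u u * (t * t) + (2 * Bf P π q w u) * t + Bf P π q w w := by
    intro t
    have e1 : Bf P π q (fun x => w x + t * u x) (fun x => w x + t * u x) =
        Bf P π q w w + t * Bf P π q w u + t * Bf P π q u w + t * t * Bf P π q u u := by
      unfold Bf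
      simp only [Finset.mul_sum, ← Finset.sum_add_distrib]
      refine Finset.sum_congr rfl fun x _ => ?_
      have : ∑ i, q * (P x i * (w i + t * u i)) = ∑ i, q * (P x i * w i) +
          t * ∑ i, q * (P x i * u i) := by
        rw [Finset.mul_sum, ← Finset.sum_add_distrib]
        exact Finset.sum_congr rfl fun i _ => by ring
      rw [this]; ring
    rw [e1, Bf_symm h q u w]; ring
  have hd := discrim_le_zero (a := Bf P π q u u) (b := 2 * Bf P π q w u) (c := Bf P π q w w)
    (fun t => by rw [← hlin t]; exact Bf_nonneg h q h0 h1 _)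
  unfold discrim at hd
  nlinarith

section green2
variable (h : Rev P π) (q : ℝ) (h0 : 0 < q) (h1 : q < 1) (a : V) (c : V → ℝ)

/-- the modified charge -/
noncomputable def cq (P : Matrix V V ℝ) (q : ℝ) (a : V) (c : V → ℝ) : V → ℝ :=
  fun z => c z - if z = a then ∑ y, c y * hit P q y a else 0

/-- the potential -/
noncomputable def uq (P : Matrix V V ℝ) (π : V → ℝ) (q : ℝ) (a : V) (c : V → ℝ) : V → ℝ :=
  fun x => ∑ z, gn P π q x z * cq P q a c z

include h h0 h1

theorem uq_a : uq P π q a c a = 0 := by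
  unfold uq cq
  simp only [mul_sub, Finset.sum_sub_distrib]
  have e1 : ∑ z, gn P π q a z * c z = gn P π q a a * ∑ y, c y * hit P q y a := by
    rw [Finset.mul_sum]
    refine Finset.sum_congr rfl fun z _ => ?_
    rw [gn_symm h q h0 h1 a z, gn_eq_hit h q h0 h1 z a]; ring
  have e2 : ∑ z, gn P π q a z * (if z = a then ∑ y, c y * hit P q y a else 0) =
      gn P π q a a * ∑ y, c y * hit P q y a := by
    simp
  rw [e1, e2, sub_self]

theorem uq_eq (x : V) :
    π x * (uq P π q a c x - q * ∑ z, P x z * uq P π q a c z) = cq P q a c x := by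
  have hπ : ∀ z, π z ≠ 0 := fun z => (h.pos z).ne'
  unfold uq
  have e1 : q * ∑ z, P x z * ∑ y, gn P π q z y * cq P q a c y =
      ∑ y, (q * ∑ z, P x z * Gn P q z y) * (cq P q a c y / π y) := by
    simp only [Finset.mul_sum, Finset.sum_mul]
    rw [Finset.sum_comm]
    refine Finset.sum_congr rfl fun y _ => Finset.sum_congr rfl fun z _ => ?_
    unfold gn; field_simp
  have e2 : ∑ z, gn P π q x z * cq P q a c z = ∑ y, Gn P q x y * (cq P q a c y / π y) := by
    refine Finset.sum_congr rfl fun y _ => ?_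
    unfold gn; field_simp
  rw [e1, e2, ← Finset.sum_sub_distrib]
  have e3 : ∀ y, Gn P q x y * (cq P q a c y / π y) - (q * ∑ z, P x z * Gn P q z y) *
      (cq P q a c y / π y) = if x = y then cq P q a c y / π y else 0 := by
    intro y
    have := Gn_left h q h0 h1 x y
    rw [← sub_mul]
    have h4 : Gn P q x y - q * ∑ z, P x z * Gn P q z y = if x = y then 1 else 0 := by
      linarith
    rw [h4]
    split_ifs <;> simp
  rw [Finset.sum_congr rfl fun y _ => e3 y, Finset.sum_ite_eq]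
  simp only [Finset.mem_univ, if_true]
  field_simp [hπ x]

theorem Bf_uq (w : V → ℝ) : Bf P π q w (uq P π q a c) = ∑ x, w x * cq P q a c x := by
  unfold Bf
  exact Finset.sum_congr rfl fun x _ => by rw [uq_eq h q h0 h1 a c x]

theorem sum_cw (w : V → ℝ) (hw : w a = 0) : ∑ x, w x * cq P q a c x = ∑ x, c x * w x := by
  unfold cq
  refine Finset.sum_congr rfl fun x _ => ?_
  by_cases hx : x = a
  · rw [hx, hw]; ring
  · rw [if_neg hx]; ring

theorem qf_uq : qf (gn P π q) (cq P q a c) = Bf P π q (uq P π q a c) (uq P π q a c) := by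
  rw [Bf_uq h q h0 h1 a c]
  unfold qf uq
  refine Finset.sum_congr rfl fun x _ => ?_
  rw [Finset.sum_mul]
  refine Finset.sum_congr rfl fun z _ => ?_
  ring

end green2

/-- Hardy inequality -/
theorem hardy (h : Rev P π) (u S : V → ℝ) (hS : ∀ x, 0 < S x) :
    ∑ x, π x * (u x ^ 2 * ((S x - ∑ z, P x z * S z) / S x)) ≤ Ed P π u := by
  have e1 : ∑ x, π x * (u x ^ 2 * ((S x - ∑ z, P x z * S z) / S x)) =
      ∑ x, π x * u x ^ 2 - ∑ x, ∑ z, π x * P x z * (u x ^ 2 * (S z / S x)) := by
    rw [← Finset.sum_sub_distrib]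
    refine Finset.sum_congr rfl fun x _ => ?_
    have hx := (hS x).ne'
    have : ∑ z, π x * P x z * (u x ^ 2 * (S z / S x)) =
        π x * u x ^ 2 / S x * ∑ z, P x z * S z := by
      rw [Finset.mul_sum]
      exact Finset.sum_congr rfl fun z _ => by field_simp
    rw [this]
    field_simp
  rw [e1, Ed_eq h]
  have e2 : ∑ x, ∑ z, π x * P x z * (u x * u z) ≤
      ∑ x, ∑ z, π x * P x z * (u x ^ 2 * (S z / S x)) := by
    have e3 : ∑ x, ∑ z, π x * P x z * (u x ^ 2 * (S z / S x)) =
        1 / 2 * ∑ x, ∑ z, π x * P x z * (u x ^ 2 * (S z / S x) + u z ^ 2 * (S x / S z)) := by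
      have e4 : ∑ x, ∑ z, π x * P x z * (u x ^ 2 * (S z / S x) + u z ^ 2 * (S x / S z)) =
          ∑ x, ∑ z, π x * P x z * (u x ^ 2 * (S z / S x)) +
          ∑ x, ∑ z, π x * P x z * (u z ^ 2 * (S x / S z)) := by
        rw [← Finset.sum_add_distrib]
        refine Finset.sum_congr rfl fun x _ => ?_
        rw [← Finset.sum_add_distrib]
        exact Finset.sum_congr rfl fun z _ => by ring
      rw [e4, m_symm h (fun x z => u z ^ 2 * (S x / S z))]
      ring
    rw [e3, Finset.mul_sum]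
    refine Finset.sum_le_sum fun x _ => ?_
    rw [Finset.mul_sum]
    refine Finset.sum_le_sum fun z _ => ?_
    have hm : 0 ≤ π x * P x z := mul_nonneg (h.pos x).le (h.nn x z)
    have hx := hS x
    have hz := hS z
    have key : 2 * (u x * u z) ≤ u x ^ 2 * (S z / S x) + u z ^ 2 * (S x / S z) := by
      have : u x ^ 2 * (S z / S x) + u z ^ 2 * (S x / S z) - 2 * (u x * u z) =
          (u x * S z - u z * S x) ^ 2 / (S x * S z) := by
        field_simp
        ring
      have h2 : 0 ≤ (u x * S z - u z * S x) ^ 2 / (S x * S z) := by positivity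
      linarith
    nlinarith [mul_le_mul_of_nonneg_left key hm]
  linarith

theorem Ed_mul (h : Rev P π) (u χ : V → ℝ) (h0 : ∀ x, 0 ≤ χ x) (h1 : ∀ x, χ x ≤ 1) :
    Ed P π (fun x => u x * χ x) ≤ Ed P π u +
      ∑ x, π x * (u x ^ 2 * (χ x * (χ x - ∑ z, P x z * χ z))) := by
  have e1 : ∑ x, ∑ z, π x * P x z * (u x * χ x - u z * χ z) ^ 2 =
      ∑ x, ∑ z, π x * P x z * (χ x * χ z * (u x - u z) ^ 2) +
      ∑ x, ∑ z, π x * P x z * (u x ^ 2 * χ x * (χ x - χ z)) +
      ∑ x, ∑ z, π x * P x z * (u z ^ 2 * χ z * (χ z - χ x)) := by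
    rw [← Finset.sum_add_distrib, ← Finset.sum_add_distrib]
    refine Finset.sum_congr rfl fun x _ => ?_
    rw [← Finset.sum_add_distrib, ← Finset.sum_add_distrib]
    exact Finset.sum_congr rfl fun z _ => by ring
  have e2 : ∑ x, ∑ z, π x * P x z * (u z ^ 2 * χ z * (χ z - χ x)) =
      ∑ x, ∑ z, π x * P x z * (u x ^ 2 * χ x * (χ x - χ z)) :=
    m_symm h (fun x z => u z ^ 2 * χ z * (χ z - χ x))
  have e3 : ∑ x, ∑ z, π x * P x z * (u x ^ 2 * χ x * (χ x - χ z)) =
      ∑ x, π x * (u x ^ 2 * (χ x * (χ x - ∑ z, P x z * χ z))) := by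
    refine Finset.sum_congr rfl fun x _ => ?_
    have : ∀ z, π x * P x z * (u x ^ 2 * χ x * (χ x - χ z)) =
        π x * u x ^ 2 * χ x * χ x * P x z - π x * u x ^ 2 * χ x * (P x z * χ z) := fun z => by ring
    rw [Finset.sum_congr rfl fun z _ => this z, Finset.sum_sub_distrib, ← Finset.mul_sum,
      ← Finset.mul_sum, h.row]
    ring
  have e4 : ∑ x, ∑ z, π x * P x z * (χ x * χ z * (u x - u z) ^ 2) ≤
      ∑ x, ∑ z, π x * P x z * (u x - u z) ^ 2 := by
    refine Finset.sum_le_sum fun x _ => Finset.sum_le_sum fun z _ => ?_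
    refine mul_le_mul_of_nonneg_left ?_ (mul_nonneg (h.pos x).le (h.nn x z))
    have : χ x * χ z ≤ 1 := mul_le_one₀ (h1 x) (h0 z) (h1 z)
    exact mul_le_of_le_one_left (sq_nonneg _) this
  unfold Ed
  rw [e1, e2, e3]
  linarith

/-- comparison of the pinned covariances -/
theorem psd_cmp (h : Rev P π) (q q₁ : ℝ) (h0 : 0 < q) (hqq : q ≤ q₁) (h1 : q₁ < 1) (a : V)
    (c : V → ℝ) (hc : ∀ y, c y ≠ 0 → 1 / 8 ≤ hit P q y a) :
    qf (gn P π q₁) (fun z => c z - if z = a then ∑ y, c y * hit P q₁ y a else 0)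
      ≤ 11 * qf (gn P π q) (fun z => c z - if z = a then ∑ y, c y * hit P q y a else 0) := by
  have hq1 : q < 1 := lt_of_le_of_lt hqq h1
  have h01 : 0 < q₁ := lt_of_lt_of_le h0 hqq
  change qf (gn P π q₁) (cq P q₁ a c) ≤ 11 * qf (gn P π q) (cq P q a c)
  set u := uq P π q₁ a c with hu
  set X := qf (gn P π q₁) (cq P q₁ a c) with hX
  set Y := qf (gn P π q) (cq P q a c) with hY
  have hua : u a = 0 := uq_a h q₁ h01 h1 a c
  have hXu : X = Bf P π q₁ u u := qf_uq h q₁ h01 h1 a c
  have hX0 : 0 ≤ X := by rw [hXu]; exact Bf_nonneg h q₁ h01 h1 u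
  have hY0 : 0 ≤ Y := qf_gn_nonneg h q h0 hq1 _
  have hXc : X = ∑ x, c x * u x := by
    rw [hXu, hu, Bf_uq h q₁ h01 h1 a c, sum_cw h q₁ h01 h1 a c _ hua]
  set hh : V → ℝ := fun x => hit P q x a with hhh
  set χ : V → ℝ := fun x => min 1 (8 * hh x) with hχ
  have hh0 : ∀ x, 0 ≤ hh x := fun x => hit_nonneg h q h0 hq1 x a
  have hh1 : ∀ x, hh x ≤ 1 := fun x => hit_le_one h q h0 hq1 x a
  have hχ0 : ∀ x, 0 ≤ χ x := fun x => le_min zero_le_one (by have := hh0 x; positivity)
  have hχ1 : ∀ x, χ x ≤ 1 := fun x => min_le_left _ _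
  have hχ8 : ∀ x, χ x ≤ 8 * hh x := fun x => min_le_right _ _
  have hPχ : ∀ x, q * ∑ z, P x z * χ z ≤ χ x := by
    intro x
    refine le_min ?_ ?_
    · have e : ∑ z, P x z * χ z ≤ 1 := by
        rw [← h.row x]
        exact Finset.sum_le_sum fun z _ => mul_le_of_le_one_right (h.nn x z) (hχ1 z)
      have : q * ∑ z, P x z * χ z ≤ q * 1 := mul_le_mul_of_nonneg_left e h0.le
      linarith
    · have e : ∑ z, P x z * χ z ≤ 8 * ∑ z, P x z * hh z := by
        rw [Finset.mul_sum]
        refine Finset.sum_le_sum fun z _ => ?_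
        have := mul_le_mul_of_nonneg_left (hχ8 z) (h.nn x z)
        linarith
      have e2 : q * ∑ z, P x z * hh z ≤ hh x := by
        by_cases hx : x = a
        · rw [hx]
          have e3 : hh a = 1 := hit_self h q h0 hq1 a
          have e4 : ∑ z, P a z * hh z ≤ 1 := by
            rw [← h.row a]
            exact Finset.sum_le_sum fun z _ => mul_le_of_le_one_right (h.nn a z) (hh1 z)
          have : q * ∑ z, P a z * hh z ≤ q * 1 := mul_le_mul_of_nonneg_left e4 h0.le
          rw [e3]; linarith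
        · exact (hit_harm h q h0 hq1 x a hx).ge
      have := mul_le_mul_of_nonneg_left e h0.le
      linarith
  set w : V → ℝ := fun x => u x * χ x with hw
  have hwa : w a = 0 := by simp only [hw, hua, zero_mul]
  have hcw : ∑ x, c x * w x = X := by
    rw [hXc]
    refine Finset.sum_congr rfl fun x _ => ?_
    by_cases hcx : c x = 0
    · rw [hcx]; ring
    · have h8 := hc x hcx
      have : χ x = 1 := by
        simp only [hχ]
        exact min_eq_left (by simp only [hhh]; linarith)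
      simp only [hw, this, mul_one]
  have hcs : X ^ 2 ≤ Bf P π q w w * Y := by
    have h2 := Bf_cs h q h0 hq1 w (uq P π q a c)
    rw [Bf_uq h q h0 hq1 a c, sum_cw h q h0 hq1 a c w hwa, hcw, ← qf_uq h q h0 hq1 a c] at h2
    exact h2
  -- the main claim
  set S : V → ℝ := fun x => 9 - 8 * hh x + χ x with hS
  have hS1 : ∀ x, 1 ≤ S x := fun x => by
    have := hh1 x; have := hχ0 x; simp only [hS]; linarith
  have hS10 : ∀ x, S x ≤ 10 := fun x => by
    have := hh0 x; have := hχ1 x; simp only [hS]; linarith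
  have hS0 : ∀ x, 0 < S x := fun x => lt_of_lt_of_le one_pos (hS1 x)
  have hPS : ∀ x, x ≠ a → q * (S x - ∑ z, P x z * S z) =
      8 * (1 - q) * hh x + q * (χ x - ∑ z, P x z * χ z) := by
    intro x hx
    have e1 : ∑ z, P x z * S z = 9 - 8 * ∑ z, P x z * hh z + ∑ z, P x z * χ z := by
      have : ∀ z, P x z * S z = 9 * P x z - 8 * (P x z * hh z) + P x z * χ z := fun z => by
        simp only [hS]; ring
      rw [Finset.sum_congr rfl fun z _ => this z, Finset.sum_add_distrib, Finset.sum_sub_distrib,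
        ← Finset.mul_sum, ← Finset.mul_sum, h.row, mul_one]
    have e2 : hh x = q * ∑ z, P x z * hh z := hit_harm h q h0 hq1 x a hx
    rw [e1]
    simp only [hS]
    linear_combination (-8) * e2
  have hPS0 : ∀ x, x ≠ a → 0 ≤ S x - ∑ z, P x z * S z := by
    intro x hx
    have e := hPS x hx
    have h2 := hPχ x
    have h3 := hχ8 x
    have h4 : 0 ≤ q * (S x - ∑ z, P x z * S z) := by
      rw [e]
      nlinarith
    exact nonneg_of_mul_nonneg_right h4 h0
  have hH : ∑ x, π x * (u x ^ 2 * (S x - ∑ z, P x z * S z)) ≤ 10 * Ed P π u := by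
    have h2 := hardy h u S hS0
    refine le_trans ?_ (mul_le_mul_of_nonneg_left h2 (by norm_num : (0:ℝ) ≤ 10))
    rw [Finset.mul_sum]
    refine Finset.sum_le_sum fun x _ => ?_
    by_cases hx : x = a
    · rw [hx, hua]; simp
    · have h3 := hPS0 x hx
      have h4 : S x - ∑ z, P x z * S z ≤ 10 * ((S x - ∑ z, P x z * S z) / S x) := by
        rw [mul_div_assoc', le_div_iff₀ (hS0 x)]
        nlinarith [hS10 x]
      have h5 : 0 ≤ π x * u x ^ 2 := mul_nonneg (h.pos x).le (sq_nonneg _)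
      calc π x * (u x ^ 2 * (S x - ∑ z, P x z * S z)) =
            π x * u x ^ 2 * (S x - ∑ z, P x z * S z) := by ring
        _ ≤ π x * u x ^ 2 * (10 * ((S x - ∑ z, P x z * S z) / S x)) :=
            mul_le_mul_of_nonneg_left h4 h5
        _ = _ := by ring
  have hclaim : Bf P π q w w ≤ 11 * X := by
    have e1 : Bf P π q w w ≤ q * Ed P π u + ∑ x, π x * (u x ^ 2 *
        (q * (χ x * (χ x - ∑ z, P x z * χ z)) + (1 - q) * χ x ^ 2)) := by
      rw [Bf_self h]
      have h2 := mul_le_mul_of_nonneg_left (Ed_mul h u χ hχ0 hχ1) h0.le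
      have e2 : ∑ x, π x * (u x ^ 2 * (q * (χ x * (χ x - ∑ z, P x z * χ z)) +
          (1 - q) * χ x ^ 2)) = q * ∑ x, π x * (u x ^ 2 * (χ x * (χ x - ∑ z, P x z * χ z))) +
          (1 - q) * ∑ x, π x * w x ^ 2 := by
        rw [Finset.mul_sum, Finset.mul_sum, ← Finset.sum_add_distrib]
        refine Finset.sum_congr rfl fun x _ => ?_
        simp only [hw]; ring
      rw [e2]
      linarith
    have e3 : ∑ x, π x * (u x ^ 2 * (q * (χ x * (χ x - ∑ z, P x z * χ z)) +
        (1 - q) * χ x ^ 2)) ≤ q * ∑ x, π x * (u x ^ 2 * (S x - ∑ z, P x z * S z)) := by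
      rw [Finset.mul_sum]
      refine Finset.sum_le_sum fun x _ => ?_
      by_cases hx : x = a
      · rw [hx, hua]; simp
      · have h5 : 0 ≤ π x * u x ^ 2 := mul_nonneg (h.pos x).le (sq_nonneg _)
        have h6 : q * (χ x * (χ x - ∑ z, P x z * χ z)) + (1 - q) * χ x ^ 2 ≤
            q * (S x - ∑ z, P x z * S z) := by
          rw [hPS x hx]
          have k1 := hPχ x
          have k2 := hχ0 x
          have k3 := hχ1 x
          have k4 := hχ8 x
          have k5 : (1 - q) * χ x ≤ (1 - q) * (8 * hh x) :=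
            mul_le_mul_of_nonneg_left k4 (by linarith)
          have k6 : χ x * (χ x - q * ∑ z, P x z * χ z) ≤ 1 * (χ x - q * ∑ z, P x z * χ z) :=
            mul_le_mul_of_nonneg_right k3 (by linarith)
          nlinarith
        calc π x * (u x ^ 2 * (q * (χ x * (χ x - ∑ z, P x z * χ z)) + (1 - q) * χ x ^ 2)) =
            π x * u x ^ 2 * (q * (χ x * (χ x - ∑ z, P x z * χ z)) + (1 - q) * χ x ^ 2) := by ring
          _ ≤ π x * u x ^ 2 * (q * (S x - ∑ z, P x z * S z)) := mul_le_mul_of_nonneg_left h6 h5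
          _ = _ := by ring
    have e4 := mul_le_mul_of_nonneg_left hH h0.le
    have hE := Ed_nonneg h u
    have e5 : q * Ed P π u ≤ q₁ * Ed P π u := mul_le_mul_of_nonneg_right hqq hE
    have e6 : q₁ * Ed P π u ≤ X := by
      rw [hXu, Bf_self h]
      have : 0 ≤ (1 - q₁) * ∑ x, π x * u x ^ 2 :=
        mul_nonneg (by linarith) (Finset.sum_nonneg fun x _ => mul_nonneg (h.pos x).le (sq_nonneg _))
      linarith
    linarith
  have hfin : X ^ 2 ≤ 11 * X * Y := hcs.trans (mul_le_mul_of_nonneg_right hclaim hY0)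
  rcases hX0.eq_or_lt with h2 | h2
  · rw [← h2]; positivity
  · have : X * X ≤ X * (11 * Y) := by nlinarith
    exact le_of_mul_le_mul_left this h2

end resolvent

end Pool.Agent.Helper41.CT
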