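import Pool.Agent.Helper41.CT.Defs
import Pool.Agent.Helper41.CT.GreenB

/-!
# Definitions for cover times of killed random walks and Gaussian fields
-/

set_option autoImplicit false

open scoped ENNReal NNReal Nat
open Finset MeasureTheory ProbabilityTheory

namespace Pool.Agent.Helper41.CT


/-! ## TARGETS: prove these (statements must not be changed; helper lemmas are welcome) -/

section resolvent

variable {V : Type} [Fintype V] [DecidableEq V] {P : Matrix V V ℝ} {π : V → ℝ}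

/-- resolvent identity -/
theorem res_id (h : Rev P π) (q q₁ : ℝ) (h0 : 0 < q) (hqq : q ≤ q₁) (h1 : q₁ < 1) (x y : V) :
    Gn P q₁ x y = q / q₁ * Gn P q x y
      + (q₁ - q) / q₁ * ∑ z, Gn P q x z * Gn P q₁ z y := by
  have hq1 : 0 < q₁ := h0.trans_le hqq
  have hq : q < 1 := hqq.trans_lt h1
  have e1 := (Gn_inv h q h0 hq).2
  have e2 := (Gn_inv h q₁ hq1 h1).1
  have e3 : (1 - q • P) = ((q₁ - q) / q₁) • (1 : Matrix V V ℝ) + (q / q₁) • (1 - q₁ • P) := by
    rw [smul_sub, smul_smul, div_mul_cancel₀ _ hq1.ne', ← add_sub_assoc, ← add_smul]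
    have : (q₁ - q) / q₁ + q / q₁ = 1 := by field_simp; ring
    rw [this, one_smul]
  have e4 : Gn P q₁ = (q / q₁) • Gn P q + ((q₁ - q) / q₁) • (Gn P q * Gn P q₁) := by
    calc Gn P q₁ = (Gn P q * (1 - q • P)) * Gn P q₁ := by rw [e1, one_mul]
      _ = (q / q₁) • (Gn P q * ((1 - q₁ • P) * Gn P q₁)) +
          ((q₁ - q) / q₁) • (Gn P q * Gn P q₁) := by
          rw [e3, mul_add, add_mul, mul_smul_comm, mul_smul_comm, mul_one, smul_mul_assoc,
            smul_mul_assoc, add_comm, Matrix.mul_assoc]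
      _ = _ := by rw [e2, mul_one]
  have e5 := congrFun (congrFun e4 x) y
  rw [e5]
  simp [Matrix.mul_apply]

/-- lower bound for the hitting probabilities at the second scale -/
theorem hit_lower (h : Rev P π) (q q₁ θ : ℝ) (h0 : 0 < q) (hqq : q ≤ q₁) (h1 : q₁ < 1)
    (hθ1 : 1 ≤ θ) (hθ : q₁ / (1 - q₁) = θ * (q / (1 - q))) (y : V)
    (hlow : ∀ x, 2 / θ ≤ hit P q x y) (x : V) : 2 / 3 ≤ hit P q₁ x y := by
  have hq1 : 0 < q₁ := h0.trans_le hqq
  have hq : q < 1 := hqq.trans_lt h1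
  have hθ0 : 0 < θ := by linarith
  obtain ⟨x0, -, hx0⟩ := Finset.exists_min_image (Finset.univ : Finset V)
    (fun x => hit P q₁ x y) ⟨x, Finset.mem_univ x⟩
  refine le_trans ?_ (hx0 x (Finset.mem_univ x))
  have hG1 : 0 < Gn P q₁ y y := lt_of_lt_of_le one_pos (Gn_diag h q₁ hq1 h1 y)
  have hG : 0 < Gn P q y y := lt_of_lt_of_le one_pos (Gn_diag h q h0 hq y)
  have hf : ∀ x, hit P q₁ x y = q / q₁ * (Gn P q x y / Gn P q₁ y y) +
      (q₁ - q) / q₁ * ∑ z, Gn P q x z * hit P q₁ z y := by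
    intro x
    unfold hit
    nth_rewrite 1 [res_id h q q₁ h0 hqq h1 x y]
    rw [add_div, mul_div_assoc, mul_div_assoc, Finset.sum_div]
    simp only [mul_div_assoc]
  set m := hit P q₁ x0 y with hm
  set p := hit P q x0 y with hp
  have hm0 : 0 ≤ m := hit_nonneg h q₁ hq1 h1 x0 y
  have hpy : p * Gn P q y y = Gn P q x0 y := by
    rw [hp]; unfold hit; rw [div_mul_cancel₀ _ hG.ne']
  have key : m - p = (q₁ - q) / q₁ *
      ∑ z, (Gn P q x0 z - p * Gn P q y z) * hit P q₁ z y := by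
    have a1 := hf x0
    have a2 := hf y
    rw [hit_self h q₁ hq1 h1] at a2
    have a3 : ∑ z, (Gn P q x0 z - p * Gn P q y z) * hit P q₁ z y =
        ∑ z, Gn P q x0 z * hit P q₁ z y - p * ∑ z, Gn P q y z * hit P q₁ z y := by
      rw [Finset.mul_sum, ← Finset.sum_sub_distrib]
      apply Finset.sum_congr rfl
      intro z _
      ring
    rw [a3, mul_sub]
    have a4 : p = p * 1 := (mul_one p).symm
    have a5 : m = q / q₁ * (Gn P q x0 y / Gn P q₁ y y) +
      (q₁ - q) / q₁ * ∑ z, Gn P q x0 z * hit P q₁ z y := a1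
    have a6 : p = p * (q / q₁ * (Gn P q y y / Gn P q₁ y y) +
      (q₁ - q) / q₁ * ∑ z, Gn P q y z * hit P q₁ z y) := by
      rw [← a2, mul_one]
    have a7 : p * (q / q₁ * (Gn P q y y / Gn P q₁ y y)) =
        q / q₁ * (Gn P q x0 y / Gn P q₁ y y) := by
      rw [← hpy]; ring
    rw [mul_add, a7] at a6
    linarith
  have hs0 : 0 ≤ (q₁ - q) / q₁ := div_nonneg (by linarith) hq1.le
  have hsum : ∑ z, (Gn P q x0 z - p * Gn P q y z) = (1 - p) / (1 - q) := by
    rw [Finset.sum_sub_distrib, ← Finset.mul_sum, Gn_row h q h0 hq, Gn_row h q h0 hq]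
    ring
  have hge : (q₁ - q) / q₁ * (m * ((1 - p) / (1 - q))) ≤ m - p := by
    rw [key, ← hsum, Finset.mul_sum]
    apply mul_le_mul_of_nonneg_left _ hs0
    apply Finset.sum_le_sum
    intro z _
    rw [mul_comm m]
    apply mul_le_mul_of_nonneg_left (hx0 z (Finset.mem_univ z))
    have := Gn_strong h q h0 hq x0 y z
    linarith
  have hs : (q₁ - q) / q₁ / (1 - q) = 1 - 1 / θ := by
    have h2 : (1 - q₁) ≠ 0 := by linarith
    have h3 : (1 - q) ≠ 0 := by linarith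
    rw [div_eq_iff h2] at hθ
    have h4 : q₁ * (1 - q) = θ * q * (1 - q₁) := by
      field_simp at hθ
      linarith
    field_simp
    linarith
  have hge2 : (1 - 1 / θ) * (m * (1 - p)) ≤ m - p := by
    have e : (q₁ - q) / q₁ * (m * ((1 - p) / (1 - q))) =
        (q₁ - q) / q₁ / (1 - q) * (m * (1 - p)) := by ring
    rwa [e, hs] at hge
  have hp2 : 2 / θ ≤ p := hlow x0
  have hp0 : 0 < p := lt_of_lt_of_le (by positivity) hp2
  have ht : 1 / θ ≤ p / 2 := by
    have : 2 / θ = 2 * (1 / θ) := by ring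
    linarith
  have ht0 : 0 < 1 / θ := by positivity
  -- p ≤ m * (1/θ + (1 - 1/θ) * p) ≤ m * (3/2 * p)
  have h5 : p ≤ m * (1 / θ + (1 - 1 / θ) * p) := by nlinarith
  have h6 : 1 / θ + (1 - 1 / θ) * p ≤ 3 / 2 * p := by nlinarith
  have h7 : p ≤ m * (3 / 2 * p) := h5.trans (mul_le_mul_of_nonneg_left h6 hm0)
  have h8 : 1 * p ≤ (m * (3 / 2)) * p := by linarith
  have h9 := le_of_mul_le_mul_right h8 hp0
  linarith

theorem Gn_dl (h : Rev P π) (q₁ : ℝ) (h0 : 0 < q₁) (h1 : q₁ < 1) (y : V) :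
    (1 - q₁) * Gn P q₁ y y * (1 - dl P π q₁ y) = π y := by
  have hG1 : 0 < Gn P q₁ y y := lt_of_lt_of_le one_pos (Gn_diag h q₁ h0 h1 y)
  have h2 : (1 - q₁) ≠ 0 := by linarith
  have e : dl P π q₁ y = 1 - π y / (1 - q₁) / Gn P q₁ y y := by
    unfold dl hit
    rw [← Gn_col h q₁ h0 h1 y, Finset.sum_div]
    simp only [mul_sub, mul_one, Finset.sum_sub_distrib, h.tot, mul_div_assoc]
  rw [e]
  field_simp
  ring

theorem dl_nonneg (h : Rev P π) (q₁ : ℝ) (h0 : 0 < q₁) (h1 : q₁ < 1) (y : V) :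
    0 ≤ dl P π q₁ y := by
  unfold dl
  apply Finset.sum_nonneg
  intro x _
  exact mul_nonneg (h.pos x).le (sub_nonneg.2 (hit_le_one h q₁ h0 h1 x y))

theorem dl_le (h : Rev P π) (q₁ : ℝ) (h0 : 0 < q₁) (h1 : q₁ < 1) (y : V)
    (hl : ∀ x, 2 / 3 ≤ hit P q₁ x y) : dl P π q₁ y ≤ 1 / 3 := by
  unfold dl
  calc ∑ x, π x * (1 - hit P q₁ x y) ≤ ∑ x, π x * (1 / 3) := by
        apply Finset.sum_le_sum
        intro x _
        apply mul_le_mul_of_nonneg_left _ (h.pos x).le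
        have := hl x
        linarith
    _ = 1 / 3 := by rw [← Finset.sum_mul, h.tot, one_mul]

end resolvent

end Pool.Agent.Helper41.CT
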