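import Pool.Agent.Helper41.CT.Defs
import Pool.Agent.Helper41.CT.ResA

/-!
# Definitions for cover times of killed random walks and Gaussian fields
-/

set_option autoImplicit false

open scoped ENNReal NNReal Nat
open Finset MeasureTheory ProbabilityTheory

namespace Pool.Agent.Helper41.CT


/-! ## TARGETS: prove these (statements must not be changed; helper lemmas are welcome) -/

section resolvent

variable {V : Type} [Fintype V] [DecidableEq V] {P : Matrix V V ℝ} {π : V → ℝ}

/-- maximum principle for the increments -/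
theorem inc_le (h : Rev P π) (q : ℝ) (h0 : 0 < q) (h1 : q < 1) (x y w : V) :
    gn P π q w x - gn P π q w y ≤ gn P π q x x - gn P π q x y := by
  have hDx : 0 ≤ gn P π q x x - gn P π q x y := by
    rw [gn_symm h q h0 h1 x y, sub_nonneg]
    unfold gn
    exact div_le_div_of_nonneg_right (Gn_le h q h0 h1 y x) (h.pos x).le
  have key := max_pr h q h0 h1 {x}
    (fun v => (gn P π q v x - gn P π q v y) - (gn P π q x x - gn P π q x y)) ?_ ?_ w
  · simpa using key
  · intro v hv
    have hv' : v ≠ x := by simpa using hv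
    set c := gn P π q x x - gn P π q x y with hc
    have e1 : gn P π q v x = q * ∑ z, P v z * gn P π q z x := by
      unfold gn
      rw [Gn_left h q h0 h1 v x, if_neg hv', zero_add, mul_div_assoc, Finset.sum_div]
      congr 1
      exact Finset.sum_congr rfl fun z _ => by ring
    have e2 : q * ∑ z, P v z * gn P π q z y ≤ gn P π q v y := by
      have e3 : gn P π q v y = (if v = y then 1 else 0) / π y +
          q * ∑ z, P v z * gn P π q z y := by
        unfold gn
        rw [Gn_left h q h0 h1 v y, add_div, mul_div_assoc, Finset.sum_div]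
        congr 2
        exact Finset.sum_congr rfl fun z _ => by ring
      rw [e3]
      have : 0 ≤ (if v = y then (1 : ℝ) else 0) / π y := by
        apply div_nonneg _ (h.pos y).le
        split_ifs <;> norm_num
      linarith
    have e4 : q * ∑ z, P v z * ((gn P π q z x - gn P π q z y) - c) =
        q * ∑ z, P v z * gn P π q z x - q * ∑ z, P v z * gn P π q z y - q * c := by
      have : ∑ z, P v z * ((gn P π q z x - gn P π q z y) - c) =
          ∑ z, P v z * gn P π q z x - ∑ z, P v z * gn P π q z y - c := by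
        have h2 : c = ∑ z, P v z * c := by rw [← Finset.sum_mul, h.row v, one_mul]
        conv_rhs => rw [h2]
        rw [← Finset.sum_sub_distrib, ← Finset.sum_sub_distrib]
        exact Finset.sum_congr rfl fun z _ => by ring
      rw [this]
      ring
    show (gn P π q v x - gn P π q v y) - c ≤
      q * ∑ z, P v z * ((gn P π q z x - gn P π q z y) - c)
    rw [e4, ← e1]
    nlinarith [mul_nonneg (sub_nonneg.mpr h1.le) hDx]
  · intro v hv
    have hv' : v = x := by simpa using hv
    subst hv'
    simp

/-- comparison of the increments at the two scales -/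
theorem key_ineq (h : Rev P π) (q q₁ : ℝ) (h0 : 0 < q) (hqq : q ≤ q₁) (h1 : q₁ < 1) (x y : V) :
    (gn P π q₁ x x + gn P π q₁ y y - 2 * gn P π q₁ x y) * hit P q x y
      ≤ gn P π q x x + gn P π q y y - 2 * gn P π q x y := by
  have hq1 : q < 1 := lt_of_le_of_lt hqq h1
  have h01 : 0 < q₁ := lt_of_lt_of_le h0 hqq
  set D : V → ℝ := fun w => gn P π q₁ w x - gn P π q₁ w y with hD
  set d : V → ℝ := fun w => gn P π q w x - gn P π q w y with hd
  set p := hit P q x y with hp
  have hp0 : 0 ≤ p := hit_nonneg h q h0 hq1 x y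
  have hp1 : p ≤ 1 := hit_le_one h q h0 hq1 x y
  have hR1 : gn P π q₁ x x + gn P π q₁ y y - 2 * gn P π q₁ x y = D x - D y := by
    simp only [hD]
    rw [gn_symm h q₁ h01 h1 y x]
    ring
  have hR' : gn P π q x x + gn P π q y y - 2 * gn P π q x y = d x - d y := by
    simp only [hd]
    rw [gn_symm h q h0 hq1 y x]
    ring
  have hup : ∀ w, D w ≤ D x := fun w => inc_le h q₁ h01 h1 x y w
  have hlo : ∀ w, D y ≤ D w := fun w => by
    have := inc_le h q₁ h01 h1 y x w
    simp only [hD]
    linarith
  have hd0 : 0 ≤ d x - d y := by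
    have := inc_le h q h0 hq1 x y y
    simp only [hd]
    linarith
  -- resolvent
  have hres : ∀ w, D w = q / q₁ * d w + (q₁ - q) / q₁ * ∑ z, Gn P q w z * D z := by
    intro w
    have e : ∀ v, gn P π q₁ w v = q / q₁ * gn P π q w v +
        (q₁ - q) / q₁ * ∑ z, Gn P q w z * gn P π q₁ z v := by
      intro v
      unfold gn
      rw [res_id h q q₁ h0 hqq h1 w v, add_div, mul_div_assoc, mul_div_assoc, Finset.sum_div]
      congr 2
      exact Finset.sum_congr rfl fun z _ => by ring
    have e5 : ∑ z, Gn P q w z * D z =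
        ∑ z, Gn P q w z * gn P π q₁ z x - ∑ z, Gn P q w z * gn P π q₁ z y := by
      rw [← Finset.sum_sub_distrib]
      exact Finset.sum_congr rfl fun z _ => by simp only [hD]; ring
    rw [e5]
    simp only [hD, hd]
    rw [e x, e y]
    ring
  -- the two averages
  have hA : ∑ z, Gn P q x z * D z - p * ∑ z, Gn P q y z * D z ≤ (1 - p) / (1 - q) * D x := by
    have e6 : ∑ z, Gn P q x z * D z - p * ∑ z, Gn P q y z * D z =
        ∑ z, (Gn P q x z - p * Gn P q y z) * D z := by
      rw [Finset.mul_sum, ← Finset.sum_sub_distrib]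
      exact Finset.sum_congr rfl fun z _ => by ring
    rw [e6]
    calc ∑ z, (Gn P q x z - p * Gn P q y z) * D z
        ≤ ∑ z, (Gn P q x z - p * Gn P q y z) * D x := by
          refine Finset.sum_le_sum fun z _ => ?_
          refine mul_le_mul_of_nonneg_left (hup z) ?_
          have := Gn_strong h q h0 hq1 x y z
          linarith
      _ = (1 - p) / (1 - q) * D x := by
          rw [← Finset.sum_mul, Finset.sum_sub_distrib, ← Finset.mul_sum, Gn_row h q h0 hq1 x,
            Gn_row h q h0 hq1 y]
          ring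
  have hB : 1 / (1 - q) * D y ≤ ∑ z, Gn P q y z * D z := by
    calc 1 / (1 - q) * D y = ∑ z, Gn P q y z * D y := by
          rw [← Finset.sum_mul, Gn_row h q h0 hq1 y]
      _ ≤ ∑ z, Gn P q y z * D z := by
          refine Finset.sum_le_sum fun z _ => ?_
          exact mul_le_mul_of_nonneg_left (hlo z) (Gn_nonneg h q h0 hq1 y z)
  set SX := ∑ z, Gn P q x z * D z with hSX
  set SY := ∑ z, Gn P q y z * D z with hSY
  have hdiff : SX - SY ≤ (1 - p) / (1 - q) * (D x - D y) := by
    have h3 : (1 - p) * (1 / (1 - q) * D y) ≤ (1 - p) * SY :=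
      mul_le_mul_of_nonneg_left hB (by linarith)
    have h4 : (1 - p) / (1 - q) * (D x - D y) =
        (1 - p) / (1 - q) * D x - (1 - p) * (1 / (1 - q) * D y) := by ring
    rw [h4]
    nlinarith
  have hx := hres x
  have hy := hres y
  have hR0 : 0 ≤ D x - D y := by linarith [hup y]
  have hβ : 0 ≤ (q₁ - q) / q₁ := div_nonneg (by linarith) h01.le
  have h5 : D x - D y ≤ q / q₁ * (d x - d y) +
      (q₁ - q) / q₁ * ((1 - p) / (1 - q) * (D x - D y)) := by
    have h6 : D x - D y = q / q₁ * (d x - d y) + (q₁ - q) / q₁ * (SX - SY) := by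
      rw [hx, hy]
      ring
    have h7 := mul_le_mul_of_nonneg_left hdiff hβ
    linarith
  have hs : (q₁ - q) / q₁ / (1 - q) ≤ 1 := by
    rw [div_div, div_le_one (mul_pos h01 (by linarith))]
    nlinarith
  have h8 : (q₁ - q) / q₁ * ((1 - p) / (1 - q) * (D x - D y)) ≤ (1 - p) * (D x - D y) := by
    have h9 : (q₁ - q) / q₁ * ((1 - p) / (1 - q) * (D x - D y)) =
        (q₁ - q) / q₁ / (1 - q) * ((1 - p) * (D x - D y)) := by ring
    rw [h9]
    have : 0 ≤ (1 - p) * (D x - D y) := mul_nonneg (by linarith) hR0
    nlinarith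
  have hα : q / q₁ * (d x - d y) ≤ d x - d y := by
    have : q / q₁ ≤ 1 := (div_le_one h01).mpr hqq
    nlinarith
  rw [hR1, hR']
  nlinarith

end resolvent

end Pool.Agent.Helper41.CT
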