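import Pool.Agent.Helper41.CT.Defs
import Pool.Agent.Helper41.CT.GaussB

/-!
# Definitions for cover times of killed random walks and Gaussian fields
-/

set_option autoImplicit false

open scoped ENNReal NNReal Nat
open Finset MeasureTheory ProbabilityTheory

namespace Pool.Agent.Helper41.CT

/-! ## TARGETS: prove these (statements must not be changed; helper lemmas are welcome) -/

section gauss

variable {V ι : Type} [Fintype V] [DecidableEq V]

omit [DecidableEq V] [Fintype V] in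
theorem CT22A_rot2 (θ : ℝ) :
    MeasurePreserving (fun p : ℝ × ℝ => (Real.sin θ * p.1 + Real.cos θ * p.2,
      Real.cos θ * p.1 - Real.sin θ * p.2))
      ((gaussianReal 0 1).prod (gaussianReal 0 1)) ((gaussianReal 0 1).prod (gaussianReal 0 1)) := by
  have h0 : (gaussianReal 0 1)[id] = 0 := by
    simp
  have h1 : ((gaussianReal 0 1).prod (gaussianReal 0 1)).map (ContinuousLinearMap.rotation θ) =
      (gaussianReal 0 1).prod (gaussianReal 0 1) :=
    IsGaussian.map_rotation_eq_self h0 θ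
  have h2 : MeasurePreserving (ContinuousLinearMap.rotation θ : ℝ × ℝ → ℝ × ℝ)
      ((gaussianReal 0 1).prod (gaussianReal 0 1)) ((gaussianReal 0 1).prod (gaussianReal 0 1)) :=
    ⟨(ContinuousLinearMap.rotation θ).continuous.measurable, h1⟩
  have h3 : MeasurePreserving (Prod.swap : ℝ × ℝ → ℝ × ℝ)
      ((gaussianReal 0 1).prod (gaussianReal 0 1)) ((gaussianReal 0 1).prod (gaussianReal 0 1)) :=
    Measure.measurePreserving_swap
  have h4 := h2.comp h3
  have h5 : (ContinuousLinearMap.rotation θ : ℝ × ℝ → ℝ × ℝ) ∘ Prod.swap =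
      (fun p : ℝ × ℝ => (Real.sin θ * p.1 + Real.cos θ * p.2,
      Real.cos θ * p.1 - Real.sin θ * p.2)) := by
    funext p
    rw [Function.comp_apply, ContinuousLinearMap.rotation_apply]
    simp only [Prod.fst_swap, Prod.snd_swap, smul_eq_mul]
    refine Prod.ext ?_ ?_
    · show Real.cos θ * p.2 + Real.sin θ * p.1 = Real.sin θ * p.1 + Real.cos θ * p.2
      ring
    · show -Real.sin θ * p.2 + Real.cos θ * p.1 = Real.cos θ * p.1 - Real.sin θ * p.2
      ring
  rw [h5] at h4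
  exact h4

/-- rotation invariance of the standard Gaussian measure -/
theorem rot_inv (θ : ℝ) :
    ((Measure.pi (fun _ : V => gaussianReal 0 1)).prod
      (Measure.pi (fun _ : V => gaussianReal 0 1))).map
      (fun z : (V → ℝ) × (V → ℝ) => ((fun w => Real.sin θ * z.1 w + Real.cos θ * z.2 w),
        (fun w => Real.cos θ * z.1 w - Real.sin θ * z.2 w)))
    = (Measure.pi (fun _ : V => gaussianReal 0 1)).prod
      (Measure.pi (fun _ : V => gaussianReal 0 1)) := by
  have h1 := measurePreserving_arrowProdEquivProdArrow ℝ ℝ V (fun _ => gaussianReal 0 1)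
    (fun _ => gaussianReal 0 1)
  have h2 := measurePreserving_pi (fun _ : V => (gaussianReal 0 1).prod (gaussianReal 0 1))
    (fun _ : V => (gaussianReal 0 1).prod (gaussianReal 0 1)) (fun _ => CT22A_rot2 θ)
  exact (h1.comp (h2.comp h1.symm)).map_eq

omit [DecidableEq V] in
theorem CT22A_exp (b : V → ℝ) :
    ∫⁻ y : V → ℝ, ENNReal.ofReal (Real.exp (∑ w, b w * y w))
      ∂(Measure.pi (fun _ : V => gaussianReal 0 1)) =
    ENNReal.ofReal (Real.exp ((∑ w, b w ^ 2) / 2)) := by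
  have hint : Integrable (fun y : V → ℝ => ∏ w, Real.exp (b w * y w))
      (Measure.pi (fun _ : V => gaussianReal 0 1)) :=
    Integrable.fintype_prod (fun w => integrable_exp_mul_gaussianReal (b w))
  have h1 : ∀ y : V → ℝ, Real.exp (∑ w, b w * y w) = ∏ w, Real.exp (b w * y w) :=
    fun y => Real.exp_sum _ _
  simp_rw [h1]
  rw [← ofReal_integral_eq_lintegral_ofReal hint
    (Filter.Eventually.of_forall (fun y => Finset.prod_nonneg (fun w _ => (Real.exp_pos _).le)))]
  congr 1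
  rw [integral_fintype_prod_eq_prod (fun w x => Real.exp (b w * x))]
  have h2 : ∀ w, ∫ x, Real.exp (b w * x) ∂(gaussianReal 0 1) = Real.exp (b w ^ 2 / 2) := by
    intro w
    have h3 := congrFun (mgf_fun_id_gaussianReal (μ := 0) (v := 1)) (b w)
    unfold mgf at h3
    rw [h3]
    congr 1
    rw [NNReal.coe_one]
    ring
  rw [Finset.prod_congr rfl (fun w _ => h2 w), ← Real.exp_sum, Finset.sum_div]

section path

variable {ι : Type} [Fintype ι]

/-- partition function -/
noncomputable def CT22A_S (a : ι → V → ℝ) (u : V → ℝ) : ℝ := ∑ i, Real.exp (∑ w, a i w * u w)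

/-- directional derivative of the logarithm of the partition function -/
noncomputable def CT22A_G (a : ι → V → ℝ) (u v : V → ℝ) : ℝ :=
  (∑ i, Real.exp (∑ w, a i w * u w) * (∑ w, a i w * v w)) / CT22A_S a u

omit [DecidableEq V] in
theorem CT22A_S_pos [Nonempty ι] (a : ι → V → ℝ) (u : V → ℝ) : 0 < CT22A_S a u :=
  Finset.sum_pos (fun i _ => Real.exp_pos _) Finset.univ_nonempty

omit [DecidableEq V] in
theorem CT22A_contS (a : ι → V → ℝ) : Continuous (fun u : V → ℝ => CT22A_S a u) := by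
  unfold CT22A_S
  fun_prop

omit [DecidableEq V] in
theorem CT22A_contG [Nonempty ι] (a : ι → V → ℝ) :
    Continuous (fun z : (V → ℝ) × (V → ℝ) => CT22A_G a z.1 z.2) := by
  unfold CT22A_G
  refine Continuous.div ?_ ((CT22A_contS a).comp continuous_fst)
    (fun z => (CT22A_S_pos a z.1).ne')
  fun_prop

/-- the rotated pair -/
noncomputable def CT22A_R (θ : ℝ) (z : (V → ℝ) × (V → ℝ)) : (V → ℝ) × (V → ℝ) :=
  ((fun w => Real.sin θ * z.1 w + Real.cos θ * z.2 w),
        (fun w => Real.cos θ * z.1 w - Real.sin θ * z.2 w))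

omit [DecidableEq V] [Fintype V] in
theorem CT22A_contR : Continuous (fun p : ((V → ℝ) × (V → ℝ)) × ℝ => CT22A_R p.2 p.1) := by
  unfold CT22A_R
  fun_prop

omit [DecidableEq V] in
theorem CT22A_deriv [Nonempty ι] (a : ι → V → ℝ) (z : (V → ℝ) × (V → ℝ)) (θ : ℝ) :
    HasDerivAt (fun t => Real.log (CT22A_S a (CT22A_R t z).1))
      (CT22A_G a (CT22A_R θ z).1 (CT22A_R θ z).2) θ := by
  have h1 : ∀ i, HasDerivAt (fun t => ∑ w, a i w * (Real.sin t * z.1 w + Real.cos t * z.2 w))
      (∑ w, a i w * (Real.cos θ * z.1 w - Real.sin θ * z.2 w)) θ := by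
    intro i
    refine HasDerivAt.fun_sum (fun w _ => ?_)
    have h2 : HasDerivAt (fun t => Real.sin t * z.1 w + Real.cos t * z.2 w)
        (Real.cos θ * z.1 w + (-Real.sin θ) * z.2 w) θ :=
      ((Real.hasDerivAt_sin θ).mul_const _).add ((Real.hasDerivAt_cos θ).mul_const _)
    have h3 := h2.const_mul (a i w)
    have h4 : Real.cos θ * z.1 w - Real.sin θ * z.2 w =
        Real.cos θ * z.1 w + (-Real.sin θ) * z.2 w := by ring
    rw [h4]
    exact h3
  have h5 : HasDerivAt (fun t => CT22A_S a (CT22A_R t z).1)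
      (∑ i, Real.exp (∑ w, a i w * (CT22A_R θ z).1 w) * (∑ w, a i w * (CT22A_R θ z).2 w)) θ :=
    HasDerivAt.fun_sum (fun i _ => (h1 i).exp)
  exact h5.log (CT22A_S_pos a _).ne'

omit [DecidableEq V] in
theorem CT22A_ftc [Nonempty ι] (a : ι → V → ℝ) (z : (V → ℝ) × (V → ℝ)) :
    ∫ θ in (0 : ℝ)..(Real.pi / 2), CT22A_G a (CT22A_R θ z).1 (CT22A_R θ z).2 =
      Real.log (CT22A_S a z.1) - Real.log (CT22A_S a z.2) := by
  have hc : Continuous (fun θ : ℝ => CT22A_G a (CT22A_R θ z).1 (CT22A_R θ z).2) := by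
    have h1 := (CT22A_contG a).comp ((CT22A_contR (V := V)).comp
      (Continuous.prodMk (continuous_const (y := z)) continuous_id))
    exact h1
  rw [intervalIntegral.integral_eq_sub_of_hasDerivAt (fun θ _ => CT22A_deriv a z θ)
    (hc.intervalIntegrable _ _)]
  have e1 : (CT22A_R (Real.pi / 2) z).1 = z.1 := by
    funext w
    show Real.sin (Real.pi / 2) * z.1 w + Real.cos (Real.pi / 2) * z.2 w = z.1 w
    rw [Real.sin_pi_div_two, Real.cos_pi_div_two]
    ring
  have e2 : (CT22A_R 0 z).1 = z.2 := by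
    funext w
    show Real.sin 0 * z.1 w + Real.cos 0 * z.2 w = z.2 w
    rw [Real.sin_zero, Real.cos_zero]
    ring
  rw [e1, e2]

end path

omit [DecidableEq V] [Fintype V] in
/-- Jensen's inequality -/
theorem CT22A_jensen (g : ℝ → ℝ) (hg : Continuous g) (T l : ℝ) (hT : 0 < T) :
    Real.exp (l * ∫ θ in (0 : ℝ)..T, g θ) ≤
      (1 / T) * ∫ θ in (0 : ℝ)..T, Real.exp (l * T * g θ) := by
  set m : ℝ := l * ∫ θ in (0 : ℝ)..T, g θ with hm
  have h1 : ∫ θ in (0 : ℝ)..T, Real.exp m * (l * T * g θ - m + 1) ≤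
      ∫ θ in (0 : ℝ)..T, Real.exp (l * T * g θ) := by
    refine intervalIntegral.integral_mono_on hT.le ?_ ?_ (fun θ _ => ?_)
    · refine Continuous.intervalIntegrable ?_ _ _
      fun_prop
    · refine Continuous.intervalIntegrable ?_ _ _
      fun_prop
    · have h2 := Real.add_one_le_exp (l * T * g θ - m)
      have h3 : Real.exp (l * T * g θ) = Real.exp m * Real.exp (l * T * g θ - m) := by
        rw [← Real.exp_add]
        congr 1
        ring
      rw [h3]
      exact mul_le_mul_of_nonneg_left h2 (Real.exp_pos m).le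
  have h2 : ∫ θ in (0 : ℝ)..T, Real.exp m * (l * T * g θ - m + 1) = Real.exp m * T := by
    rw [intervalIntegral.integral_const_mul]
    congr 1
    have h3 : (fun θ => l * T * g θ - m + 1) = fun θ => l * T * g θ + (1 - m) := by
      funext θ
      ring
    have h5 : IntervalIntegrable (fun θ => l * T * g θ) volume 0 T :=
      (continuous_const.mul hg).intervalIntegrable _ _
    have h6 : IntervalIntegrable (fun _ : ℝ => 1 - m) volume 0 T :=
      continuous_const.intervalIntegrable _ _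
    rw [h3, intervalIntegral.integral_add h5 h6, intervalIntegral.integral_const_mul,
      intervalIntegral.integral_const, smul_eq_mul]
    have h4 : l * T * ∫ θ in (0 : ℝ)..T, g θ = T * m := by
      rw [hm]; ring
    rw [h4]
    ring
  rw [h2] at h1
  rw [one_div, ← div_eq_inv_mul, le_div_iff₀ hT]
  exact h1

section bd

variable {ι : Type} [Fintype ι] [Nonempty ι]

omit [DecidableEq V] in
theorem CT22A_pt (a : ι → V → ℝ) (l : ℝ) (z : (V → ℝ) × (V → ℝ)) :
    ENNReal.ofReal (Real.exp (l * (Real.log (CT22A_S a z.1) - Real.log (CT22A_S a z.2)))) ≤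
      ∫⁻ θ in Set.Ioc (0 : ℝ) (Real.pi / 2), ENNReal.ofReal (1 / (Real.pi / 2)) *
        ENNReal.ofReal (Real.exp (l * (Real.pi / 2) *
          CT22A_G a (CT22A_R θ z).1 (CT22A_R θ z).2)) := by
  have hT : 0 < Real.pi / 2 := by positivity
  have hc : Continuous (fun θ : ℝ => CT22A_G a (CT22A_R θ z).1 (CT22A_R θ z).2) := by
    have h1 := (CT22A_contG a).comp ((CT22A_contR (V := V)).comp
      (Continuous.prodMk (continuous_const (y := z)) continuous_id))
    exact h1
  have h1 := CT22A_jensen _ hc (Real.pi / 2) l hT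
  rw [CT22A_ftc a z] at h1
  refine (ENNReal.ofReal_le_ofReal h1).trans (le_of_eq ?_)
  rw [ENNReal.ofReal_mul (by positivity), intervalIntegral.integral_of_le hT.le,
    ofReal_integral_eq_lintegral_ofReal]
  · rw [lintegral_const_mul]
    refine Measurable.ennreal_ofReal (Continuous.measurable ?_)
    fun_prop
  · have h2 : IntegrableOn (fun θ : ℝ => Real.exp (l * (Real.pi / 2) *
        CT22A_G a (CT22A_R θ z).1 (CT22A_R θ z).2)) (Set.Icc 0 (Real.pi / 2)) := by
      refine Continuous.integrableOn_Icc ?_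
      fun_prop
    exact h2.mono_set Set.Ioc_subset_Icc_self
  · exact Filter.Eventually.of_forall (fun θ => (Real.exp_pos _).le)

omit [DecidableEq V] in
theorem CT22A_vec (a : ι → V → ℝ) (σ : ℝ) (ha : ∀ i, ∑ w, a i w ^ 2 ≤ σ ^ 2) (c : ℝ)
    (u : V → ℝ) :
    ∑ w, (c * ((∑ i, Real.exp (∑ w, a i w * u w) * a i w) / CT22A_S a u)) ^ 2 ≤
      c ^ 2 * σ ^ 2 := by
  have hS := CT22A_S_pos a u
  have h1 : ∀ w, (∑ i, Real.exp (∑ w, a i w * u w) * a i w) ^ 2 ≤
      CT22A_S a u * ∑ i, Real.exp (∑ w, a i w * u w) * a i w ^ 2 := by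
    intro w
    unfold CT22A_S
    refine Finset.sum_sq_le_sum_mul_sum_of_sq_le_mul _ (fun i _ => (Real.exp_pos _).le)
      (fun i _ => ?_) (fun i _ => le_of_eq ?_)
    · have := Real.exp_pos (∑ w, a i w * u w)
      positivity
    · ring
  have h2 : ∑ w, (∑ i, Real.exp (∑ w, a i w * u w) * a i w) ^ 2 ≤ CT22A_S a u ^ 2 * σ ^ 2 := by
    calc ∑ w, (∑ i, Real.exp (∑ w, a i w * u w) * a i w) ^ 2
        ≤ ∑ w, CT22A_S a u * ∑ i, Real.exp (∑ w, a i w * u w) * a i w ^ 2 :=
          Finset.sum_le_sum (fun w _ => h1 w)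
      _ = CT22A_S a u * ∑ i, Real.exp (∑ w, a i w * u w) * ∑ w, a i w ^ 2 := by
          rw [← Finset.mul_sum, Finset.sum_comm]
          congr 1
          exact Finset.sum_congr rfl (fun i _ => (Finset.mul_sum _ _ _).symm)
      _ ≤ CT22A_S a u * ∑ i, Real.exp (∑ w, a i w * u w) * σ ^ 2 := by
          refine mul_le_mul_of_nonneg_left (Finset.sum_le_sum (fun i _ => ?_)) hS.le
          exact mul_le_mul_of_nonneg_left (ha i) (Real.exp_pos _).le
      _ = CT22A_S a u ^ 2 * σ ^ 2 := by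
          rw [← Finset.sum_mul]
          unfold CT22A_S
          ring
  have h3 : ∑ w, (c * ((∑ i, Real.exp (∑ w, a i w * u w) * a i w) / CT22A_S a u)) ^ 2 =
      c ^ 2 * ((∑ w, (∑ i, Real.exp (∑ w, a i w * u w) * a i w) ^ 2) / CT22A_S a u ^ 2) := by
    rw [Finset.sum_div, Finset.mul_sum]
    exact Finset.sum_congr rfl (fun w _ => by rw [mul_pow, div_pow])
  rw [h3]
  refine mul_le_mul_of_nonneg_left ?_ (sq_nonneg c)
  rw [div_le_iff₀ (by positivity)]
  linarith

omit [DecidableEq V] in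
theorem CT22A_last (a : ι → V → ℝ) (σ : ℝ) (ha : ∀ i, ∑ w, a i w ^ 2 ≤ σ ^ 2) (c : ℝ) :
    ∫⁻ z : (V → ℝ) × (V → ℝ), ENNReal.ofReal (Real.exp (c * CT22A_G a z.1 z.2))
      ∂((Measure.pi (fun _ : V => gaussianReal 0 1)).prod
        (Measure.pi (fun _ : V => gaussianReal 0 1))) ≤
      ENNReal.ofReal (Real.exp (c ^ 2 * σ ^ 2 / 2)) := by
  rw [lintegral_prod]
  · have h1 : ∀ u : V → ℝ, ∫⁻ v : V → ℝ, ENNReal.ofReal (Real.exp (c * CT22A_G a u v))
        ∂(Measure.pi (fun _ : V => gaussianReal 0 1)) ≤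
        ENNReal.ofReal (Real.exp (c ^ 2 * σ ^ 2 / 2)) := by
      intro u
      have h2 : ∀ v : V → ℝ, c * CT22A_G a u v =
          ∑ w, (c * ((∑ i, Real.exp (∑ w, a i w * u w) * a i w) / CT22A_S a u)) * v w := by
        intro v
        have h3 : ∑ i, Real.exp (∑ w, a i w * u w) * (∑ w, a i w * v w) =
            ∑ w, (∑ i, Real.exp (∑ w, a i w * u w) * a i w) * v w := by
          simp_rw [Finset.mul_sum, Finset.sum_mul]
          rw [Finset.sum_comm]
          refine Finset.sum_congr rfl (fun w _ => Finset.sum_congr rfl (fun i _ => ?_))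
          ring
        unfold CT22A_G
        rw [h3, Finset.sum_div, Finset.mul_sum]
        refine Finset.sum_congr rfl (fun w _ => ?_)
        ring
      simp_rw [h2]
      rw [CT22A_exp]
      refine ENNReal.ofReal_le_ofReal (Real.exp_le_exp.2 ?_)
      have h4 := CT22A_vec a σ ha c u
      linarith
    refine (lintegral_mono h1).trans ?_
    rw [lintegral_const, measure_univ, mul_one]
  · refine Measurable.aemeasurable (Measurable.ennreal_ofReal (Continuous.measurable ?_))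
    exact Real.continuous_exp.comp (continuous_const.mul (CT22A_contG a))

omit [DecidableEq V] in
theorem CT22A_measG (a : ι → V → ℝ) (c : ℝ) :
    Measurable (fun z : (V → ℝ) × (V → ℝ) => ENNReal.ofReal
        (Real.exp (c * CT22A_G a z.1 z.2))) := by
  refine Measurable.ennreal_ofReal (Continuous.measurable ?_)
  exact Real.continuous_exp.comp (continuous_const.mul (CT22A_contG a))

omit [DecidableEq V] in
theorem CT22A_measR (θ : ℝ) : Measurable (CT22A_R (V := V) θ) := by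
  unfold CT22A_R
  fun_prop

omit [DecidableEq V] in
theorem CT22A_rotint (μ : Measure ((V → ℝ) × (V → ℝ))) (θ : ℝ)
    (hμ : μ.map (CT22A_R θ) = μ) (f : (V → ℝ) × (V → ℝ) → ℝ≥0∞) (hf : Measurable f) :
    ∫⁻ z, f (CT22A_R θ z) ∂μ = ∫⁻ z, f z ∂μ := by
  have h1 := lintegral_map (μ := μ) hf (CT22A_measR (V := V) θ)
  rw [hμ] at h1
  exact h1.symm

omit [DecidableEq V] in
theorem CT22A_fix (μ : Measure ((V → ℝ) × (V → ℝ))) (θ : ℝ)
    (hμ : μ.map (CT22A_R θ) = μ) (a : ι → V → ℝ) (c : ℝ) (d B : ℝ≥0∞)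
    (hB : ∫⁻ z, ENNReal.ofReal (Real.exp (c * CT22A_G a z.1 z.2)) ∂μ ≤ B) :
    ∫⁻ z, d * ENNReal.ofReal (Real.exp (c * CT22A_G a (CT22A_R θ z).1 (CT22A_R θ z).2)) ∂μ ≤
      d * B := by
  have hm := CT22A_measG a c
  have h1 := CT22A_rotint μ θ hμ _ hm
  have h3 : ∫⁻ z, d *
      ENNReal.ofReal (Real.exp (c * CT22A_G a (CT22A_R θ z).1 (CT22A_R θ z).2)) ∂μ =
      d * ∫⁻ z,
      ENNReal.ofReal (Real.exp (c * CT22A_G a (CT22A_R θ z).1 (CT22A_R θ z).2)) ∂μ :=
    lintegral_const_mul _ (hm.comp (CT22A_measR θ))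
  rw [h3, h1]
  exact mul_le_mul' le_rfl hB

omit [DecidableEq V] in
theorem CT22A_outer (μ : Measure ((V → ℝ) × (V → ℝ))) [SFinite μ]
    (hμ : ∀ θ, μ.map (CT22A_R θ) = μ) (a : ι → V → ℝ) (c : ℝ) (d B : ℝ≥0∞)
    (hB : ∫⁻ z, ENNReal.ofReal (Real.exp (c * CT22A_G a z.1 z.2)) ∂μ ≤ B) (T : ℝ) :
    ∫⁻ z, (∫⁻ θ in Set.Ioc (0 : ℝ) T, d *
      ENNReal.ofReal (Real.exp (c * CT22A_G a (CT22A_R θ z).1 (CT22A_R θ z).2))) ∂μ ≤
      (d * B) * ENNReal.ofReal T := by
  have hcont : Continuous (fun p : ((V → ℝ) × (V → ℝ)) × ℝ => Real.exp (c *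
      CT22A_G a (CT22A_R p.2 p.1).1 (CT22A_R p.2 p.1).2)) :=
    Real.continuous_exp.comp (continuous_const.mul ((CT22A_contG a).comp CT22A_contR))
  have hmeas : Measurable (fun p : ((V → ℝ) × (V → ℝ)) × ℝ => d *
      ENNReal.ofReal (Real.exp (c * CT22A_G a (CT22A_R p.2 p.1).1 (CT22A_R p.2 p.1).2))) :=
    measurable_const.mul hcont.measurable.ennreal_ofReal
  rw [lintegral_lintegral_swap hmeas.aemeasurable]
  refine (lintegral_mono (fun θ => CT22A_fix μ θ (hμ θ) a c d B hB)).trans ?_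
  rw [lintegral_const, Measure.restrict_apply MeasurableSet.univ, Set.univ_inter,
    Real.volume_Ioc, sub_zero]

omit [DecidableEq V] in
theorem CT22A_all (μ : Measure ((V → ℝ) × (V → ℝ))) [SFinite μ]
    (hμ : ∀ θ, μ.map (CT22A_R θ) = μ) (a : ι → V → ℝ) (l : ℝ) (B : ℝ≥0∞)
    (hB : ∫⁻ z, ENNReal.ofReal (Real.exp (l * (Real.pi / 2) * CT22A_G a z.1 z.2)) ∂μ ≤ B) :
    ∫⁻ z, ENNReal.ofReal (Real.exp (l * (Real.log (CT22A_S a z.1) -
      Real.log (CT22A_S a z.2)))) ∂μ ≤ B := by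
  have hT : 0 < Real.pi / 2 := by positivity
  refine (lintegral_mono (CT22A_pt a l)).trans ?_
  refine (CT22A_outer μ hμ a (l * (Real.pi / 2)) _ B hB _).trans (le_of_eq ?_)
  rw [mul_right_comm, ← ENNReal.ofReal_mul (by positivity), one_div_mul_cancel hT.ne',
    ENNReal.ofReal_one, one_mul]

end bd

/-- exponential moments of log-sum-exp -/
theorem lse_moment [Fintype ι] [Nonempty ι] (a : ι → V → ℝ) (σ : ℝ)
    (ha : ∀ i, ∑ w, a i w ^ 2 ≤ σ ^ 2) (l : ℝ) :
    ∫⁻ z : (V → ℝ) × (V → ℝ), ENNReal.ofReal (Real.exp (l *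
        (Real.log (∑ i, Real.exp (∑ w, a i w * z.1 w))
          - Real.log (∑ i, Real.exp (∑ w, a i w * z.2 w)))))
      ∂((Measure.pi (fun _ : V => gaussianReal 0 1)).prod
        (Measure.pi (fun _ : V => gaussianReal 0 1)))
      ≤ ENNReal.ofReal (Real.exp (l ^ 2 * Real.pi ^ 2 * σ ^ 2 / 8)) := by
  have e : l ^ 2 * Real.pi ^ 2 * σ ^ 2 / 8 = (l * (Real.pi / 2)) ^ 2 * σ ^ 2 / 2 := by ring
  rw [e]
  exact CT22A_all _ (fun θ => rot_inv θ) a l _ (CT22A_last a σ ha (l * (Real.pi / 2)))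

end gauss

end Pool.Agent.Helper41.CT
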