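import Pool.Agent.Helper41.CT.Defs
import Pool.Agent.Helper41.CT.ConcA

/-!
# Definitions for cover times of killed random walks and Gaussian fields
-/

set_option autoImplicit false

open scoped ENNReal NNReal Nat
open Finset MeasureTheory ProbabilityTheory

namespace Pool.Agent.Helper41.CT


/-! ## TARGETS: prove these (statements must not be changed; helper lemmas are welcome) -/

section gauss

variable {V ι : Type} [Fintype V] [DecidableEq V]

theorem aux_jensen {Ω : Type} [MeasurableSpace Ω] {μ : Measure Ω} [IsProbabilityMeasure μ]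
    (M : Ω → ℝ) (hM : Integrable M μ) (l m0 : ℝ) :
    ENNReal.ofReal (Real.exp (l * (m0 - ∫ y, M y ∂μ)))
      ≤ ∫⁻ y, ENNReal.ofReal (Real.exp (l * (m0 - M y))) ∂μ := by
  set E := ∫ y, M y ∂μ with hE
  have hgi0 : Integrable (fun y => E - M y) μ := (integrable_const _).sub hM
  have hgi1 : Integrable (fun y => l * (E - M y)) μ := hgi0.const_mul _
  have hgi2 : Integrable (fun y => 1 + l * (E - M y)) μ := (integrable_const _).add hgi1
  have hgi : Integrable (fun y => Real.exp (l * (m0 - E)) * (1 + (l * (E - M y)))) μ :=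
    hgi2.const_mul _
  have hgint : ∫ y, Real.exp (l * (m0 - E)) * (1 + (l * (E - M y))) ∂μ
      = Real.exp (l * (m0 - E)) := by
    rw [integral_const_mul, integral_add (integrable_const _) hgi1, integral_const_mul,
      integral_sub (integrable_const _) hM]
    simp [← hE]
  have h1 : ENNReal.ofReal (∫ y, Real.exp (l * (m0 - E)) * (1 + (l * (E - M y))) ∂μ)
      ≤ ∫⁻ y, ENNReal.ofReal (Real.exp (l * (m0 - E)) * (1 + (l * (E - M y)))) ∂μ := by
    rw [integral_eq_lintegral_pos_part_sub_lintegral_neg_part hgi]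
    exact le_trans (ENNReal.ofReal_le_ofReal (sub_le_self _ ENNReal.toReal_nonneg))
      ENNReal.ofReal_toReal_le
  rw [hgint] at h1
  refine h1.trans (lintegral_mono fun y => ENNReal.ofReal_le_ofReal ?_)
  have h2 : l * (m0 - M y) = l * (m0 - E) + l * (E - M y) := by ring
  rw [h2, Real.exp_add]
  exact mul_le_mul_of_nonneg_left (by linarith [Real.add_one_le_exp (l * (E - M y))])
    (Real.exp_pos _).le

theorem aux_centered {Ω : Type} [MeasurableSpace Ω] {μ : Measure Ω} [IsProbabilityMeasure μ]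
    (M : Ω → ℝ) (hMm : Measurable M) (hM : Integrable M μ) (l : ℝ) (K : ℝ≥0∞)
    (h : ∫⁻ z : Ω × Ω, ENNReal.ofReal (Real.exp (l * (M z.1 - M z.2))) ∂(μ.prod μ) ≤ K) :
    ∫⁻ x, ENNReal.ofReal (Real.exp (l * (M x - ∫ y, M y ∂μ))) ∂μ ≤ K := by
  refine le_trans ?_ h
  have hm : Measurable (fun z : Ω × Ω => ENNReal.ofReal (Real.exp (l * (M z.1 - M z.2)))) := by
    fun_prop
  rw [lintegral_prod _ hm.aemeasurable]
  exact lintegral_mono fun x => aux_jensen M hM l (M x)

theorem aux_chern {Ω : Type} [MeasurableSpace Ω] {μ : Measure Ω} 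
    (N : Ω → ℝ) (hMm : Measurable N) (σ r : ℝ) (hσ : 0 < σ) (hr : 0 ≤ r)
    (h : ∫⁻ x, ENNReal.ofReal (Real.exp (2 * r / (5 * σ ^ 2) * N x)) ∂μ
      ≤ ENNReal.ofReal (Real.exp ((2 * r / (5 * σ ^ 2)) ^ 2 * Real.pi ^ 2 * σ ^ 2 / 8))) :
    μ {x | r ≤ N x} ≤ ENNReal.ofReal (Real.exp (-(r ^ 2 / (5 * σ ^ 2)))) := by
  set l := 2 * r / (5 * σ ^ 2) with hl
  have hl0 : 0 ≤ l := by positivity
  have hsub : {x | r ≤ N x} ⊆ {x | ENNReal.ofReal (Real.exp (l * r))
      ≤ ENNReal.ofReal (Real.exp (l * N x))} := by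
    intro x hx
    exact ENNReal.ofReal_le_ofReal (Real.exp_le_exp.mpr (mul_le_mul_of_nonneg_left hx hl0))
  have hm : Measurable (fun x : Ω => ENNReal.ofReal (Real.exp (l * N x))) := by fun_prop
  have hpos : ENNReal.ofReal (Real.exp (l * r)) ≠ 0 := by
    simpa using Real.exp_pos _
  have h1 := meas_ge_le_lintegral_div (μ := μ) hm.aemeasurable hpos ENNReal.ofReal_ne_top
  refine (measure_mono hsub).trans (h1.trans ?_)
  refine (ENNReal.div_le_div_right h _).trans ?_
  rw [← ENNReal.ofReal_div_of_pos (Real.exp_pos _), ← Real.exp_sub]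
  apply ENNReal.ofReal_le_ofReal
  apply Real.exp_le_exp.mpr
  have hpi : Real.pi ^ 2 ≤ 10 := by
    have h3 := Real.pi_lt_d2
    have h4 := Real.pi_pos
    nlinarith
  have e1 : l ^ 2 * Real.pi ^ 2 * σ ^ 2 / 8 ≤ l ^ 2 * 10 * σ ^ 2 / 8 := by
    gcongr
  have e2 : l ^ 2 * 10 * σ ^ 2 / 8 - l * r = -(r ^ 2 / (5 * σ ^ 2)) := by
    rw [hl]; field_simp; ring
  linarith

theorem aux_beta (B : Matrix V V ℝ) (s : Finset ι) (hne : s.Nonempty)
    (t : ι → V → ℝ) (σ : ℝ) (hσ : 0 < σ)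
    (ht : ∀ i ∈ s, ∑ w, (∑ y, t i y * B y w) ^ 2 ≤ σ ^ 2) (l β : ℝ) (hβ : 0 < β) :
    ∫⁻ z : (V → ℝ) × (V → ℝ), ENNReal.ofReal (Real.exp (l *
        (ms s t (fun y => ∑ w, B y w * z.1 w) - ms s t (fun y => ∑ w, B y w * z.2 w))))
      ∂((Measure.pi (fun _ : V => gaussianReal 0 1)).prod
        (Measure.pi (fun _ : V => gaussianReal 0 1)))
      ≤ ENNReal.ofReal (Real.exp (l ^ 2 * Real.pi ^ 2 * σ ^ 2 / 8
        + |l| * Real.log (2 * s.card) / β)) := by
  classical
  haveI : Nonempty s := hne.to_subtype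
  set a : (s × Bool) → V → ℝ := fun j w => (if j.2 then β else -β) * ∑ y, t j.1 y * B y w with ha
  have ha2 : ∀ j, ∑ w, a j w ^ 2 ≤ (β * σ) ^ 2 := by
    intro j
    have h1 : ∑ w, a j w ^ 2 = β ^ 2 * ∑ w, (∑ y, t j.1 y * B y w) ^ 2 := by
      rw [Finset.mul_sum]
      refine Finset.sum_congr rfl fun w _ => ?_
      rw [ha]
      rcases j with ⟨i, b⟩
      cases b <;> simp [mul_pow]
    rw [h1, mul_pow]
    exact mul_le_mul_of_nonneg_left (ht _ j.1.2) (sq_nonneg _)
  have hlse := lse_moment a (β * σ) ha2 (l / β)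
  set M : (V → ℝ) → ℝ := fun x => ms s t (fun y => ∑ w, B y w * x w) with hM
  set F : (V → ℝ) → ℝ := fun x => Real.log (∑ j, Real.exp (∑ w, a j w * x w)) with hF
  have hlin : ∀ (i : s) (x : V → ℝ), ∑ w, (∑ y, t i y * B y w) * x w
      = ∑ y, t i y * (∑ w, B y w * x w) := by
    intro i x
    simp_rw [Finset.sum_mul, Finset.mul_sum]
    rw [Finset.sum_comm]
    refine Finset.sum_congr rfl fun y _ => Finset.sum_congr rfl fun w _ => by ring
  have haj : ∀ (j : s × Bool) (x : V → ℝ), ∑ w, a j w * x w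
      = (if j.2 then β else -β) * ∑ y, t j.1 y * (∑ w, B y w * x w) := by
    intro j x
    rw [← hlin, Finset.mul_sum]
    refine Finset.sum_congr rfl fun w _ => by rw [ha]; ring
  have hL0 : (0:ℝ) < 2 * s.card := by
    have := hne.card_pos
    positivity
  have hup : ∀ x, F x ≤ β * M x + Real.log (2 * s.card) := by
    intro x
    have h1 : ∑ j, Real.exp (∑ w, a j w * x w) ≤ (2 * s.card) * Real.exp (β * M x) := by
      calc ∑ j, Real.exp (∑ w, a j w * x w) ≤ ∑ j : s × Bool, Real.exp (β * M x) := by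
            refine Finset.sum_le_sum fun j _ => Real.exp_le_exp.mpr ?_
            rw [haj]
            have h2 := ms_ge s t (fun y => ∑ w, B y w * x w) j.1 j.1.2
            have h3 := abs_le.mp h2
            rcases j with ⟨i, b⟩
            cases b
            · simp only [Bool.false_eq_true, if_false]
              rw [neg_mul, ← mul_neg]
              exact mul_le_mul_of_nonneg_left (by linarith [h3.1]) hβ.le
            · simp only [if_true]
              exact mul_le_mul_of_nonneg_left h3.2 hβ.le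
        _ = (2 * s.card) * Real.exp (β * M x) := by
            simp [Finset.sum_const, Finset.card_univ, Fintype.card_prod, mul_comm]
    have h0 : 0 < ∑ j, Real.exp (∑ w, a j w * x w) :=
      Finset.sum_pos (fun j _ => Real.exp_pos _) Finset.univ_nonempty
    calc F x ≤ Real.log ((2 * s.card) * Real.exp (β * M x)) := Real.log_le_log h0 h1
      _ = β * M x + Real.log (2 * s.card) := by
          rw [Real.log_mul hL0.ne' (Real.exp_pos _).ne', Real.log_exp]; ring
  have hlow : ∀ x, β * M x ≤ F x := by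
    intro x
    have h0 : 0 < ∑ j, Real.exp (∑ w, a j w * x w) :=
      Finset.sum_pos (fun j _ => Real.exp_pos _) Finset.univ_nonempty
    have hterm : ∀ j : s × Bool, ∑ w, a j w * x w ≤ F x := by
      intro j
      rw [hF, Real.le_log_iff_exp_le h0]
      exact Finset.single_le_sum (f := fun j => Real.exp (∑ w, a j w * x w))
        (fun _ _ => (Real.exp_pos _).le) (Finset.mem_univ j)
    have habs : ∀ i ∈ s, |∑ w, t i w * (∑ w', B w w' * x w')| ≤ F x / β := by
      intro i hi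
      have h1 := hterm (⟨i, hi⟩, true)
      have h2 := hterm (⟨i, hi⟩, false)
      rw [haj] at h1 h2
      simp only [Bool.false_eq_true, if_false, if_true] at h1 h2
      rw [le_div_iff₀ hβ]
      rcases abs_cases (∑ w, t i w * (∑ w', B w w' * x w')) with ⟨h, _⟩ | ⟨h, _⟩
      · rw [h]; linarith
      · rw [h]; linarith
    have hF0 : 0 ≤ F x / β := by
      obtain ⟨i, hi⟩ := hne
      exact (abs_nonneg _).trans (habs i hi)
    have h3 := ms_le s t (fun y => ∑ w, B y w * x w) (F x / β) hF0 habs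
    have h4 := (le_div_iff₀ hβ).mp h3
    linarith
  have hkey : ∀ x y, l * (M x - M y) ≤ l / β * (F x - F y) + |l| * Real.log (2 * s.card) / β := by
    intro x y
    have h1 := hup x
    have h2 := hup y
    have h3 := hlow x
    have h4 := hlow y
    have h5 : |β * (M x - M y) - (F x - F y)| ≤ Real.log (2 * s.card) := by
      rw [abs_le]; constructor <;> linarith
    have h6 : l * (β * (M x - M y) - (F x - F y)) ≤ |l| * Real.log (2 * s.card) := by
      calc l * (β * (M x - M y) - (F x - F y)) ≤ |l * (β * (M x - M y) - (F x - F y))| :=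
            le_abs_self _
        _ = |l| * |β * (M x - M y) - (F x - F y)| := abs_mul _ _
        _ ≤ |l| * Real.log (2 * s.card) := mul_le_mul_of_nonneg_left h5 (abs_nonneg _)
    have h7 : l / β * (F x - F y) + |l| * Real.log (2 * s.card) / β
        = (l * (F x - F y) + |l| * Real.log (2 * s.card)) / β := by ring
    rw [h7, le_div_iff₀ hβ]
    linarith
  have hcst : (l / β) ^ 2 * Real.pi ^ 2 * (β * σ) ^ 2 / 8 = l ^ 2 * Real.pi ^ 2 * σ ^ 2 / 8 := by
    field_simp
  rw [hcst] at hlse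
  calc ∫⁻ z : (V → ℝ) × (V → ℝ), ENNReal.ofReal (Real.exp (l * (M z.1 - M z.2)))
      ∂((Measure.pi (fun _ : V => gaussianReal 0 1)).prod
        (Measure.pi (fun _ : V => gaussianReal 0 1)))
      ≤ ∫⁻ z : (V → ℝ) × (V → ℝ), ENNReal.ofReal (Real.exp (|l| * Real.log (2 * s.card) / β))
          * ENNReal.ofReal (Real.exp (l / β * (F z.1 - F z.2)))
      ∂((Measure.pi (fun _ : V => gaussianReal 0 1)).prod
        (Measure.pi (fun _ : V => gaussianReal 0 1))) := by
        refine lintegral_mono fun z => ?_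
        rw [← ENNReal.ofReal_mul (Real.exp_pos _).le, ← Real.exp_add]
        apply ENNReal.ofReal_le_ofReal
        apply Real.exp_le_exp.mpr
        linarith [hkey z.1 z.2]
    _ = ENNReal.ofReal (Real.exp (|l| * Real.log (2 * s.card) / β)) *
        ∫⁻ z : (V → ℝ) × (V → ℝ), ENNReal.ofReal (Real.exp (l / β * (F z.1 - F z.2)))
      ∂((Measure.pi (fun _ : V => gaussianReal 0 1)).prod
        (Measure.pi (fun _ : V => gaussianReal 0 1))) :=
        lintegral_const_mul' _ _ ENNReal.ofReal_ne_top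
    _ ≤ ENNReal.ofReal (Real.exp (|l| * Real.log (2 * s.card) / β)) *
        ENNReal.ofReal (Real.exp (l ^ 2 * Real.pi ^ 2 * σ ^ 2 / 8)) := by gcongr
    _ = _ := by
        rw [← ENNReal.ofReal_mul (Real.exp_pos _).le, ← Real.exp_add, add_comm]

theorem aux_moment (B : Matrix V V ℝ) (s : Finset ι) (hne : s.Nonempty)
    (t : ι → V → ℝ) (σ : ℝ) (hσ : 0 < σ)
    (ht : ∀ i ∈ s, ∑ w, (∑ y, t i y * B y w) ^ 2 ≤ σ ^ 2) (l : ℝ) :
    ∫⁻ z : (V → ℝ) × (V → ℝ), ENNReal.ofReal (Real.exp (l *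
        (ms s t (fun y => ∑ w, B y w * z.1 w) - ms s t (fun y => ∑ w, B y w * z.2 w))))
      ∂((Measure.pi (fun _ : V => gaussianReal 0 1)).prod
        (Measure.pi (fun _ : V => gaussianReal 0 1)))
      ≤ ENNReal.ofReal (Real.exp (l ^ 2 * Real.pi ^ 2 * σ ^ 2 / 8)) := by
  have hlim : Filter.Tendsto (fun n : ℕ => ENNReal.ofReal (Real.exp (l ^ 2 * Real.pi ^ 2 * σ ^ 2 / 8
        + |l| * Real.log (2 * s.card) / ((n : ℝ) + 1)))) Filter.atTop
      (nhds (ENNReal.ofReal (Real.exp (l ^ 2 * Real.pi ^ 2 * σ ^ 2 / 8)))) := by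
    have h1 : Filter.Tendsto (fun n : ℕ => |l| * Real.log (2 * s.card) / ((n : ℝ) + 1))
        Filter.atTop (nhds 0) := by
      have h2 := (tendsto_one_div_add_atTop_nhds_zero_nat (𝕜 := ℝ)).const_mul
        (|l| * Real.log (2 * s.card))
      rw [mul_zero] at h2
      refine h2.congr fun n => ?_
      ring
    have h3 := (h1.const_add (l ^ 2 * Real.pi ^ 2 * σ ^ 2 / 8))
    rw [add_zero] at h3
    exact ENNReal.tendsto_ofReal ((Real.continuous_exp.tendsto _).comp h3)
  exact ge_of_tendsto' hlim fun n => aux_beta B s hne t σ hσ ht l ((n : ℝ) + 1) (by positivity)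

theorem aux_map {Ω Ω' : Type} [MeasurableSpace Ω] [MeasurableSpace Ω'] (γ : Measure Ω)
    [IsProbabilityMeasure γ] (T : Ω → Ω') (hT : Measurable T) (M : Ω' → ℝ) (hM : Measurable M)
    (hint : Integrable M (γ.map T)) (l : ℝ) (K : ℝ≥0∞)
    (h : ∫⁻ z : Ω × Ω, ENNReal.ofReal (Real.exp (l * (M (T z.1) - M (T z.2)))) ∂(γ.prod γ) ≤ K) :
    ∫⁻ x, ENNReal.ofReal (Real.exp (l * (M x - ∫ y, M y ∂(γ.map T)))) ∂(γ.map T) ≤ K := by
  have hint2 : Integrable (fun x => M (T x)) γ :=
    (integrable_map_measure hM.aestronglyMeasurable hT.aemeasurable).mp hint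
  have hE : ∫ y, M y ∂(γ.map T) = ∫ x, M (T x) ∂γ :=
    integral_map hT.aemeasurable hM.aestronglyMeasurable
  rw [hE, lintegral_map (by fun_prop) hT]
  exact aux_centered (fun x => M (T x)) (hM.comp hT) hint2 l K h

theorem aux_both {Λ : V → V → ℝ} (hs : ∀ x y, Λ x y = Λ y x) (hΛ : ∀ t, 0 ≤ qf Λ t)
    {μ : Measure (V → ℝ)} (hμ : IsG Λ μ) (s : Finset ι) (hne : s.Nonempty)
    (t : ι → V → ℝ) (σ : ℝ) (hσ : 0 < σ) (ht : ∀ i ∈ s, qf Λ (t i) ≤ σ ^ 2) (l : ℝ) :
    ∫⁻ x, ENNReal.ofReal (Real.exp (l * (ms s t x - ∫ y, ms s t y ∂μ))) ∂μ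
      ≤ ENNReal.ofReal (Real.exp (l ^ 2 * Real.pi ^ 2 * σ ^ 2 / 8)) := by
  obtain ⟨B, hB, hq⟩ := isG_std hs hΛ hμ
  have hint := ms_int hμ s t
  have hT : Measurable (fun (x : V → ℝ) (y : V) => ∑ w, B y w * x w) := by
    refine measurable_pi_lambda _ fun y => ?_
    fun_prop
  have hms := ms_meas s t
  have hmom := aux_moment B s hne t σ hσ (fun i hi => by rw [← hq]; exact ht i hi) l
  clear hμ
  subst hB
  exact aux_map (Measure.pi (fun _ : V => gaussianReal 0 1))
    (fun (x : V → ℝ) (y : V) => ∑ w, B y w * x w) hT (ms s t) hms hint l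
    (ENNReal.ofReal (Real.exp (l ^ 2 * Real.pi ^ 2 * σ ^ 2 / 8))) hmom

theorem aux_empty {μ : Measure (V → ℝ)} [IsProbabilityMeasure μ] (A : Set (V → ℝ)) (σ r : ℝ)
    (hr : 0 ≤ r) (h : 0 < r → A = ∅) :
    μ A ≤ ENNReal.ofReal (Real.exp (-(r ^ 2 / (5 * σ ^ 2)))) := by
  rcases hr.eq_or_lt with h0 | h0
  · rw [← h0]
    simpa using prob_le_one
  · rw [h h0]; simp

/-- Gaussian concentration, upper tail -/
theorem conc_up {Λ : V → V → ℝ} (hs : ∀ x y, Λ x y = Λ y x) (hΛ : ∀ t, 0 ≤ qf Λ t)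
    {μ : Measure (V → ℝ)} (hμ : IsG Λ μ) (s : Finset ι)
    (t : ι → V → ℝ) (σ r : ℝ) (hσ : 0 < σ) (ht : ∀ i ∈ s, qf Λ (t i) ≤ σ ^ 2) (hr : 0 ≤ r) :
    μ {x | (∫ y, ms s t y ∂μ) + r ≤ ms s t x}
      ≤ ENNReal.ofReal (Real.exp (-(r ^ 2 / (5 * σ ^ 2)))) := by
  haveI := hμ.1
  rcases s.eq_empty_or_nonempty with h0 | hne
  · subst h0
    apply aux_empty _ σ r hr
    intro hr0
    ext x
    simp [ms, hr0]
  · have h := aux_both hs hΛ hμ s hne t σ hσ ht (2 * r / (5 * σ ^ 2))
    have h2 := aux_chern (μ := μ) (fun x => ms s t x - ∫ y, ms s t y ∂μ)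
      ((ms_meas s t).sub_const _) σ r hσ hr h
    refine le_trans (le_of_eq ?_) h2
    congr 1
    ext x
    simp only [Set.mem_setOf_eq]
    constructor <;> intro h <;> linarith

/-- Gaussian concentration, lower tail -/
theorem conc_low {Λ : V → V → ℝ} (hs : ∀ x y, Λ x y = Λ y x) (hΛ : ∀ t, 0 ≤ qf Λ t)
    {μ : Measure (V → ℝ)} (hμ : IsG Λ μ) (s : Finset ι)
    (t : ι → V → ℝ) (σ r : ℝ) (hσ : 0 < σ) (ht : ∀ i ∈ s, qf Λ (t i) ≤ σ ^ 2) (hr : 0 ≤ r) :
    μ {x | ms s t x ≤ (∫ y, ms s t y ∂μ) - r}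
      ≤ ENNReal.ofReal (Real.exp (-(r ^ 2 / (5 * σ ^ 2)))) := by
  haveI := hμ.1
  rcases s.eq_empty_or_nonempty with h0 | hne
  · subst h0
    apply aux_empty _ σ r hr
    intro hr0
    ext x
    simp [ms, hr0]
  · have h := aux_both hs hΛ hμ s hne t σ hσ ht (-(2 * r / (5 * σ ^ 2)))
    have h2 := aux_chern (μ := μ) (fun x => -(ms s t x - ∫ y, ms s t y ∂μ))
      ((ms_meas s t).sub_const _).neg σ r hσ hr (by
        simp only [neg_sq, neg_mul] at h
        simpa only [mul_neg] using h)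
    refine le_trans (le_of_eq ?_) h2
    congr 1
    ext x
    simp only [Set.mem_setOf_eq]
    constructor <;> intro h <;> linarith

end gauss

end Pool.Agent.Helper41.CT
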