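import Pool.Agent.Helper41.CT.Defs
import Pool.Agent.Helper41.CT.DefsG
import Pool.Agent.Helper41.GF.SkB
import Pool.Agent.Helper41.GF.Radial

set_option autoImplicit false

open scoped ENNReal NNReal Nat
open Finset MeasureTheory ProbabilityTheory
open Pool.Agent.Helper41.GF

namespace Pool.Agent.Helper41.CT

/-! ## TARGETS: prove these (statements must not be changed; helper lemmas are welcome) -/

section general

variable {V E H : Type} [Fintype V] [DecidableEq V] [Fintype E] [DecidableEq E] [Fintype H]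
  [DecidableEq H]

/-- radial part of the field given the environment -/
theorem sk_radial {ι : Type} [Fintype ι] [DecidableEq ι] (G : GG V E H)
    (tp : H × List (E × Bool) × H → ι) (env : Env E H ι) (z : V) (S : Set ℝ)
    (hS : MeasurableSet S) :
    ∫⁻ ψ : V → ℝ in {ψ | |ψ z| ∈ S}, ENNReal.ofReal (G.rho ψ) * G.sk tp ψ env
      = ((∫⁻ r in Set.Ioi (0 : ℝ) ∩ S, ENNReal.ofReal (rad (deg G.inc (ncur env) z) r))
          / Ga (deg G.inc (ncur env) z)) * (2 ^ (Fintype.card V) * G.ew tp env) := by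
  have hF := F_meas G tp env
  set F : (V → ℝ) → ℝ≥0∞ := fun ψ => ENNReal.ofReal (G.rho ψ) * G.sk tp ψ env with hFdef
  have hA : MeasurableSet {ψ : V → ℝ | |ψ z| ∈ S} := by
    have hm : Measurable (fun ψ : V → ℝ => |ψ z|) := (measurable_pi_apply z).abs
    exact hm hS
  have hC : MeasurableSet {r : V → ℝ | r z ∈ S} := (measurable_pi_apply z) hS
  have hB : MeasurableSet {r : V → ℝ | (∀ x, 0 < r x) ∧ r z ∈ S} := pos_meas.inter hC
  have hP : MeasurableSet {r : V → ℝ | ∀ x, 0 < r x} := pos_meas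
  have hsgabs : ∀ b : Bool, |sg b| = 1 := by
    intro b; cases b <;> simp [sg]
  have key : ∀ σ : V → Bool, ∫⁻ r : V → ℝ in {r | ∀ x, 0 < r x},
      ({ψ : V → ℝ | |ψ z| ∈ S}.indicator F) (fun x => sg (σ x) * r x) =
      ∫⁻ r : V → ℝ in {r | (∀ x, 0 < r x) ∧ r z ∈ S}, F (fun x => sg (σ x) * r x) := by
    intro σ
    have h1 : ∫⁻ r : V → ℝ in {r | ∀ x, 0 < r x},
        ({ψ : V → ℝ | |ψ z| ∈ S}.indicator F) (fun x => sg (σ x) * r x) =
        ∫⁻ r : V → ℝ in {r | ∀ x, 0 < r x},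
          ({r : V → ℝ | r z ∈ S}.indicator (fun r => F (fun x => sg (σ x) * r x))) r := by
      apply setLIntegral_congr_fun hP
      intro r hr
      have hr' : ∀ x, 0 < r x := hr
      have habs : |sg (σ z) * r z| = r z := by
        rw [abs_mul, hsgabs, one_mul, abs_of_pos (hr' z)]
      by_cases hz : r z ∈ S
      · have h2 : (fun x => sg (σ x) * r x) ∈ {ψ : V → ℝ | |ψ z| ∈ S} := by
          show |sg (σ z) * r z| ∈ S
          rw [habs]; exact hz
        have h3 : r ∈ {r : V → ℝ | r z ∈ S} := hz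
        show ({ψ : V → ℝ | |ψ z| ∈ S}.indicator F) (fun x => sg (σ x) * r x) =
          ({r : V → ℝ | r z ∈ S}.indicator (fun r => F (fun x => sg (σ x) * r x))) r
        rw [Set.indicator_of_mem h2, Set.indicator_of_mem h3]
      · have h2 : (fun x => sg (σ x) * r x) ∉ {ψ : V → ℝ | |ψ z| ∈ S} := by
          show ¬ (|sg (σ z) * r z| ∈ S)
          rw [habs]; exact hz
        have h3 : r ∉ {r : V → ℝ | r z ∈ S} := hz
        show ({ψ : V → ℝ | |ψ z| ∈ S}.indicator F) (fun x => sg (σ x) * r x) =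
          ({r : V → ℝ | r z ∈ S}.indicator (fun r => F (fun x => sg (σ x) * r x))) r
        rw [Set.indicator_of_notMem h2, Set.indicator_of_notMem h3]
    rw [h1, lintegral_indicator hC, Measure.restrict_restrict hC]
    congr 2
    ext r
    constructor
    · rintro ⟨h2, h3⟩; exact ⟨h3, h2⟩
    · rintro ⟨h2, h3⟩; exact ⟨h3, h2⟩
  have hsum : ∫⁻ ψ : V → ℝ in {ψ | |ψ z| ∈ S}, F ψ =
      ∑ σ : V → Bool, ∫⁻ r : V → ℝ in {r | (∀ x, 0 < r x) ∧ r z ∈ S}, F (fun x => sg (σ x) * r x) := by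
    rw [← lintegral_indicator hA, lintegral_sign_radii _ (hF.indicator hA)]
    exact Finset.sum_congr rfl (fun σ _ => key σ)
  rw [hsum]
  have hsi := sum_int G tp env {r : V → ℝ | (∀ x, 0 < r x) ∧ r z ∈ S} hB (fun r hr x => hr.1 x)
  have hsi' : ∑ σ : V → Bool, ∫⁻ r : V → ℝ in {r | (∀ x, 0 < r x) ∧ r z ∈ S}, F (fun x => sg (σ x) * r x) =
      if ∀ x, Even (deg G.inc (ncur env) x) then
          CC G tp env * ∫⁻ r : V → ℝ in {r : V → ℝ | (∀ x, 0 < r x) ∧ r z ∈ S},
            ∏ x, ENNReal.ofReal (rad (deg G.inc (ncur env) x) (r x))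
        else 0 := hsi
  rw [hsi']
  by_cases hev : ∀ x, Even (deg G.inc (ncur env) x)
  · rw [if_pos hev, lintegral_prod_rad _ z S hS, ← CC_mul G tp env hev,
      ← Finset.mul_prod_erase Finset.univ (fun x => Ga (deg G.inc (ncur env) x)) (Finset.mem_univ z)]
    have h0 := Ga_ne_zero (deg G.inc (ncur env) z)
    have ht := Ga_ne_top (deg G.inc (ncur env) z)
    set I := ∫⁻ r in Set.Ioi (0 : ℝ) ∩ S, ENNReal.ofReal (rad (deg G.inc (ncur env) z) r) with hI
    set g := Ga (deg G.inc (ncur env) z) with hg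
    set Q := ∏ x ∈ Finset.univ.erase z, Ga (deg G.inc (ncur env) x) with hQ
    calc CC G tp env * (I * Q) = (I * 1) * (CC G tp env * Q) := by ring
      _ = (I * (g⁻¹ * g)) * (CC G tp env * Q) := by rw [ENNReal.inv_mul_cancel h0 ht]
      _ = I / g * (CC G tp env * (g * Q)) := by rw [div_eq_mul_inv]; ring
  · rw [if_neg hev, ew_zero G tp env hev, mul_zero, mul_zero]

end general

end Pool.Agent.Helper41.CT
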