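import Pool.Agent.Helper41.CT.Defs
import Pool.Agent.Helper41.CT.DefsG
import Pool.Agent.Helper41.CT.Radi
import Pool.Agent.Helper41.GF.SkC
import Pool.Agent.Helper41.GF.Confl

set_option autoImplicit false

open scoped ENNReal NNReal Nat
open Finset MeasureTheory ProbabilityTheory
open Pool.Agent.Helper41.GF

namespace Pool.Agent.Helper41.CT


section h536
variable {V E H : Type} [Fintype V] [DecidableEq V] [Fintype E] [DecidableEq E] [Fintype H]
  [DecidableEq H]

/-- single environment -/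
def ev (l : List (H × List (E × Bool) × H)) (n : E → ℕ) : Env E H Unit := (fun _ => l, n)

/-- weight of a list -/
noncomputable def lwU (G : GG V E H) (l : List (H × List (E × Bool) × H)) : ℝ≥0∞ :=
  (l.map G.lam).prod / ((l.length)! : ℝ≥0∞)

theorem ew_ev (G : GG V E H) (l : List (H × List (E × Bool) × H)) (n : E → ℕ) :
    G.ew (fun _ => ()) (ev l n) = lwU G l * G.Phi Ga (Sum.elim n 0) := by
  simp [GG.ew, lw, lwU, ev]

theorem ncur_ev (l : List (H × List (E × Bool) × H)) (n : E → ℕ) :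
    ncur (ev l n) = Sum.elim n 0 + (l.map npath).sum := by
  simp [ncur, ev]

theorem tsum_env (F : Env E H Unit → ℝ≥0∞) : ∑' env, F env = ∑' l, ∑' n, F (ev l n) := by
  rw [ENNReal.tsum_prod']
  exact ((Equiv.funUnique Unit (List (H × List (E × Bool) × H))).symm.tsum_eq
    (fun a => ∑' n, F (a, n))).symm

theorem deg_zero (G : GG V E H) (y : V) : deg G.inc (0 : E ⊕ H → ℕ) y = 0 := by
  simp [deg]

theorem deg_darts (G : GG V E H) (y : V) : ∀ (l : List (E × Bool)) (x y' : V), G.pw x l y' ≠ 0 →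
    (∀ i, G.fin x (l.take i) ≠ y) →
    deg G.inc (l.map (fun d => (Pi.single (Sum.inl d.1) 1 : E ⊕ H → ℕ))).sum y = 0
  | [], x, y', _, _ => by simpa using deg_zero G y
  | d :: l, x, y', h, hy => by
    obtain ⟨h1, h2⟩ := h663_pw_cons G h
    rw [List.map_cons, List.sum_cons, h663_deg_add, h663_deg_single]
    have h3 : ∀ i, G.fin (G.dt d) (l.take i) ≠ y := fun i => hy (i + 1)
    rw [deg_darts G y l (G.dt d) y' h2 h3, add_zero, if_neg]
    have h4 : G.ds d ≠ y := by
      rw [h1]
      exact hy 0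
    have h5 : G.dt d ≠ y := h3 0
    intro hmem
    have hmem' : y = G.src d.1 ∨ y = G.tgt d.1 := by
      simpa [GG.inc] using hmem
    unfold GG.ds at h4
    unfold GG.dt at h5
    rcases hd : d.2 with _ | _
    · simp only [hd] at h4 h5
      rcases hmem' with h | h
      · exact h5 h.symm
      · exact h4 h.symm
    · simp only [hd] at h4 h5
      rcases hmem' with h | h
      · exact h4 h.symm
      · exact h5 h.symm

theorem fin_eq (G : GG V E H) : ∀ (l : List (E × Bool)) (x y' : V), G.pw x l y' ≠ 0 →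
    G.fin x l = y'
  | [], x, y', h => by
    by_contra hne
    apply h
    simp only [GG.pw]
    rw [if_neg]
    exact hne
  | d :: l, x, y', h => by
    obtain ⟨h1, h2⟩ := h663_pw_cons G h
    exact fin_eq G l (G.dt d) y' h2

theorem deg_npath (G : GG V E H) (p : H × List (E × Bool) × H) (y : V)
    (hpw : G.pw (G.hs p.1) p.2.1 (G.hs p.2.2) ≠ 0) (hs : ∀ i, G.site p i ≠ y) :
    deg G.inc (npath p) y = 0 := by
  unfold npath
  rw [h663_deg_add, h663_deg_add, h663_deg_single, h663_deg_single,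
    deg_darts G y p.2.1 _ _ hpw hs]
  have h1 : G.hs p.1 ≠ y := hs 0
  have h2 : G.hs p.2.2 ≠ y := by
    have := hs p.2.1.length
    unfold GG.site at this
    rw [List.take_length, fin_eq G _ _ _ hpw] at this
    exact this
  rw [if_neg, if_neg]
  · simp only [GG.inc, Sum.elim_inr, Finset.mem_singleton]
    exact fun h => h2 h.symm
  · simp only [GG.inc, Sum.elim_inr, Finset.mem_singleton]
    exact fun h => h1 h.symm

theorem deg_list (G : GG V E H) (y : V) : ∀ L : List (H × List (E × Bool) × H),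
    (∀ p ∈ L, deg G.inc (npath p) y = 0) → deg G.inc (L.map npath).sum y = 0
  | [], _ => by simpa using deg_zero G y
  | p :: L, h => by
    rw [List.map_cons, List.sum_cons, h663_deg_add, h p (by simp),
      deg_list G y L (fun q hq => h q (by simp [hq]))]

theorem deg_ev (G : GG V E H) (l : List (H × List (E × Bool) × H)) (n : E → ℕ) (y : V)
    (hew : G.ew (fun _ => ()) (ev l n) ≠ 0) (hy : ∀ p ∈ l, ∀ i, G.site p i ≠ y) :
    deg G.inc (ncur (ev l n)) y = deg G.inc (Sum.elim n 0) y := by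
  rw [ncur_ev, h663_deg_add, deg_list G y l, add_zero]
  intro p hp
  exact deg_npath G p y (h663_pw G _ (ev l n) hew () p hp) (hy p hp)

/-- radial law -/
noncomputable def Rd (d : ℕ) (S : Set ℝ) : ℝ≥0∞ :=
  (∫⁻ r in Set.Ioi (0 : ℝ) ∩ S, ENNReal.ofReal (rad d r)) / Ga d

theorem Rd_add (d : ℕ) (c : ℝ) : Rd d (Set.Iic c) + Rd d (Set.Ioi c) = 1 := by
  unfold Rd
  rw [ENNReal.div_add_div_same]
  have h : Set.Ioi (0 : ℝ) ∩ Set.Ioi c = Set.Ioi (0 : ℝ) \ Set.Iic c := by
    ext x
    simp
  rw [h, lintegral_inter_add_sdiff _ _ measurableSet_Iic]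
  exact ENNReal.div_self (Ga_ne_zero d) (Ga_ne_top d)

/-- normalisation -/
noncomputable def kap (G : GG V E H) : ℝ≥0∞ :=
  (∫⁻ ψ : V → ℝ, ENNReal.ofReal (G.rho ψ))⁻¹ * 2 ^ (Fintype.card V)

theorem kap_total (G : GG V E H) (hZ : ∫⁻ ψ : V → ℝ, ENNReal.ofReal (G.rho ψ) ≠ ∞) :
    kap G * ∑' env : Env E H Unit, G.ew (fun _ => ()) env = 1 := by
  have := fieldLaw_prob G hZ
  have h1 : ∫⁻ ψ, (∑' env : Env E H Unit, G.sk (fun _ => ()) ψ env) ∂G.fieldLaw = 1 := by
    simp only [sk_sum, lintegral_one, measure_univ]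
  rw [lintegral_tsum (fun env => (measurable_sk G _ env).aemeasurable)] at h1
  simp only [m7_sk] at h1
  rw [← ENNReal.tsum_mul_left, ← h1]
  refine tsum_congr fun env => ?_
  unfold kap
  ring

theorem Rtot_eq (G : GG V E H) : ∑' env : Env E H Unit, G.ew (fun _ => ()) env =
    PEx G.lam (fun _ => 1) * ∑' n : E → ℕ, G.Phi Ga (Sum.elim n 0) := by
  rw [tsum_env]
  unfold PEx
  rw [← ENNReal.tsum_mul_right]
  refine tsum_congr fun l => ?_
  rw [← ENNReal.tsum_mul_left]
  refine tsum_congr fun n => ?_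
  rw [ew_ev, mul_one]
  rfl

theorem sk_rad (G : GG V E H) (env : Env E H Unit) (z : V) (S : Set ℝ) (hS : MeasurableSet S) :
    ∫⁻ ψ in {ψ : V → ℝ | |ψ z| ∈ S}, G.sk (fun _ => ()) ψ env ∂G.fieldLaw =
      kap G * (Rd (deg G.inc (ncur env) z) S * G.ew (fun _ => ()) env) := by
  have hm : MeasurableSet {ψ : V → ℝ | |ψ z| ∈ S} := by
    have : Measurable (fun ψ : V → ℝ => |ψ z|) := (measurable_pi_apply z).abs
    exact this hS
  rw [← lintegral_indicator hm, m7_lint G ((measurable_sk G _ env).indicator hm)]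
  have h1 : (fun ψ : V → ℝ => ENNReal.ofReal (G.rho ψ) *
      ({ψ : V → ℝ | |ψ z| ∈ S}.indicator (fun ψ => G.sk (fun _ => ()) ψ env) ψ)) =
      {ψ : V → ℝ | |ψ z| ∈ S}.indicator
        (fun ψ => ENNReal.ofReal (G.rho ψ) * G.sk (fun _ => ()) ψ env) := by
    funext ψ
    by_cases h : ψ ∈ {ψ : V → ℝ | |ψ z| ∈ S}
    · simp only [Set.indicator_of_mem h]
    · simp only [Set.indicator_of_notMem h, mul_zero]
  rw [h1, lintegral_indicator hm, sk_radial G _ env z S hS]
  unfold kap Rd
  ring

theorem law_eq (G : GG V E H) (A : Set (V → ℝ)) :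
    G.fieldLaw A = ∑' env : Env E H Unit, ∫⁻ ψ in A, G.sk (fun _ => ()) ψ env ∂G.fieldLaw := by
  rw [← lintegral_tsum (fun env => (measurable_sk G _ env).aemeasurable)]
  simp only [sk_sum, lintegral_one, Measure.restrict_apply_univ]

theorem noghost_lam (G : GG V E H) (p : H × List (E × Bool) × H) : (noghost G).lam p = 0 := by
  simp [GG.lam, noghost]

theorem noghost_lwU (G : GG V E H) (l : List (H × List (E × Bool) × H)) (hl : l ≠ []) :
    lwU (noghost G) l = 0 := by
  cases l with
  | nil => exact absurd rfl hl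
  | cons p l =>
    unfold lwU
    rw [List.map_cons, List.prod_cons, noghost_lam, zero_mul, ENNReal.zero_div]

theorem noghost_Phi (G : GG V E H) (n : E → ℕ) :
    (noghost G).Phi Ga (Sum.elim n 0) = G.Phi Ga (Sum.elim n 0) := by
  have h1 : (noghost G).inc = G.inc := rfl
  unfold GG.Phi
  rw [h1]
  congr 2
  rw [Fintype.prod_sum_type, Fintype.prod_sum_type]
  simp [GG.wt, noghost]

theorem noghost_sum (G : GG V E H) (f : Env E H Unit → ℝ≥0∞) :
    ∑' env : Env E H Unit, f env * (noghost G).ew (fun _ => ()) env =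
      ∑' n, f (ev [] n) * G.Phi Ga (Sum.elim n 0) := by
  rw [tsum_env, tsum_eq_single []]
  · refine tsum_congr fun n => ?_
    rw [ew_ev, noghost_Phi]
    simp [lwU]
  · intro l hl
    simp [ew_ev, noghost_lwU G l hl]

end h536

/-! ## TARGETS: prove these (statements must not be changed; helper lemmas are welcome) -/

section general

variable {V E H : Type} [Fintype V] [DecidableEq V] [Fintype E] [DecidableEq E] [Fintype H]
  [DecidableEq H]

/-- if the soup misses a point then one of the two fields is atypical -/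
theorem gen_mod (G : GG V E H) (hZ : ∫⁻ ψ : V → ℝ, ENNReal.ofReal (G.rho ψ) ≠ ∞)
    (hZ0 : ∫⁻ ψ : V → ℝ, ENNReal.ofReal ((noghost G).rho ψ) ≠ ∞) (c : V → ℝ)
    (M : List (H × List (E × Bool) × H) → Prop) [DecidablePred M]
    (hM : ∀ l, M l → ∃ y, ∀ p ∈ l, ∀ i, G.site p i ≠ y) :
    PEx G.lam (fun l => if M l then 1 else 0)
      ≤ (G.fieldLaw {ψ | ∃ y, |ψ y| ≤ c y} + (noghost G).fieldLaw {ψ | ∃ y, c y < |ψ y|})
        * PEx G.lam (fun _ => 1) := by
  classical
  rcases isEmpty_or_nonempty V with hVe | hVn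
  · have h0 : PEx G.lam (fun l => if M l then 1 else 0) = 0 := by
      unfold PEx
      rw [ENNReal.tsum_eq_zero]
      intro l
      have hl : ¬ M l := fun h => hVe.elim (hM l h).choose
      simp [hl]
    rw [h0]
    exact zero_le
  choose! y hy using hM
  obtain ⟨R, hR⟩ : ∃ R, R = ∑' n : E → ℕ, G.Phi Ga (Sum.elim n 0) := ⟨_, rfl⟩
  have hk : kap G * (PEx G.lam (fun _ => 1) * R) = 1 := by
    rw [hR, ← Rtot_eq]
    exact kap_total G hZ
  have hk0 : kap (noghost G) * R = 1 := by
    have h1 := kap_total (noghost G) hZ0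
    have h2 := noghost_sum G (fun _ => 1)
    simp only [one_mul] at h2
    rw [h2, ← hR] at h1
    exact h1
  have hR0 : R ≠ 0 := by
    rintro rfl
    simp at hk0
  have hRt : R ≠ ∞ := by
    intro h
    rw [h] at hk0
    by_cases h0 : kap (noghost G) = 0
    · rw [h0] at hk0
      simp at hk0
    · rw [ENNReal.mul_top h0] at hk0
      simp at hk0
  have hkk : kap (noghost G) = kap G * PEx G.lam (fun _ => 1) := by
    have h1 : kap (noghost G) * R = (kap G * PEx G.lam (fun _ => 1)) * R := by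
      rw [hk0, mul_assoc, hk]
    exact (ENNReal.mul_left_inj hR0 hRt).1 h1
  -- lower bound for the first probability
  have hA : ∑' l, ∑' n, (if M l then kap G * (Rd (deg G.inc (Sum.elim n 0) (y l)) (Set.Iic (c (y l))) *
      (lwU G l * G.Phi Ga (Sum.elim n 0))) else 0) ≤ G.fieldLaw {ψ | ∃ y, |ψ y| ≤ c y} := by
    rw [law_eq, tsum_env]
    refine ENNReal.tsum_le_tsum fun l => ENNReal.tsum_le_tsum fun n => ?_
    by_cases hl : M l
    · rw [if_pos hl, ← ew_ev]
      by_cases h0 : G.ew (fun _ => ()) (ev l n) = 0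
      · rw [h0]
        simp
      · rw [← deg_ev G l n (y l) h0 (hy l hl), ← sk_rad G (ev l n) (y l) _ measurableSet_Iic]
        apply lintegral_mono_set
        intro ψ hψ
        exact ⟨y l, hψ⟩
    · rw [if_neg hl]
      exact zero_le
  -- lower bound for the second one
  have hB : ∀ z : V, kap (noghost G) * ∑' n, Rd (deg G.inc (Sum.elim n 0) z) (Set.Ioi (c z)) *
      G.Phi Ga (Sum.elim n 0) ≤ (noghost G).fieldLaw {ψ | ∃ y, c y < |ψ y|} := by
    intro z
    rw [law_eq]
    have h1 : kap (noghost G) * ∑' n, Rd (deg G.inc (Sum.elim n 0) z) (Set.Ioi (c z)) *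
        G.Phi Ga (Sum.elim n 0) = ∑' env : Env E H Unit,
        kap (noghost G) * (Rd (deg (noghost G).inc (ncur env) z) (Set.Ioi (c z)) *
          (noghost G).ew (fun _ => ()) env) := by
      rw [ENNReal.tsum_mul_left, noghost_sum]
      congr 1
    rw [h1]
    refine ENNReal.tsum_le_tsum fun env => ?_
    rw [← sk_rad (noghost G) env z _ measurableSet_Ioi]
    apply lintegral_mono_set
    intro ψ hψ
    exact ⟨z, hψ⟩
  have hB' : ∑' l, ∑' n, (if M l then kap (noghost G) * (Rd (deg G.inc (Sum.elim n 0) (y l)) (Set.Ioi (c (y l))) *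
      (lwU G l * G.Phi Ga (Sum.elim n 0))) else 0) ≤
      (noghost G).fieldLaw {ψ | ∃ y, c y < |ψ y|} * PEx G.lam (fun _ => 1) := by
    have h1 : (noghost G).fieldLaw {ψ | ∃ y, c y < |ψ y|} * PEx G.lam (fun _ => 1) =
        ∑' l, lwU G l * (noghost G).fieldLaw {ψ | ∃ y, c y < |ψ y|} := by
      rw [ENNReal.tsum_mul_right, mul_comm]
      congr 1
      unfold PEx
      refine tsum_congr fun l => ?_
      rw [mul_one]
      rfl
    rw [h1]
    refine ENNReal.tsum_le_tsum fun l => ?_
    by_cases hl : M l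
    · simp only [if_pos hl]
      refine le_trans (le_of_eq ?_) (mul_le_mul_right (hB (y l)) (lwU G l))
      rw [← mul_assoc, ← ENNReal.tsum_mul_left]
      refine tsum_congr fun n => ?_
      ring
    · simp [if_neg hl]
  have hfin : PEx G.lam (fun l => if M l then 1 else 0) =
      (∑' l, ∑' n, (if M l then kap G * (Rd (deg G.inc (Sum.elim n 0) (y l)) (Set.Iic (c (y l))) *
      (lwU G l * G.Phi Ga (Sum.elim n 0))) else 0)) * PEx G.lam (fun _ => 1) +
      ∑' l, ∑' n, (if M l then kap (noghost G) * (Rd (deg G.inc (Sum.elim n 0) (y l)) (Set.Ioi (c (y l))) *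
      (lwU G l * G.Phi Ga (Sum.elim n 0))) else 0) := by
    rw [← ENNReal.tsum_mul_right, ← ENNReal.tsum_add]
    conv_lhs => unfold PEx
    refine tsum_congr fun l => ?_
    rw [← ENNReal.tsum_mul_right, ← ENNReal.tsum_add]
    by_cases hl : M l
    · simp only [if_pos hl]
      have h1 : ∀ n : E → ℕ, kap G * (Rd (deg G.inc (Sum.elim n 0) (y l)) (Set.Iic (c (y l))) *
          (lwU G l * G.Phi Ga (Sum.elim n 0))) * PEx G.lam (fun _ => 1) +
          kap (noghost G) * (Rd (deg G.inc (Sum.elim n 0) (y l)) (Set.Ioi (c (y l))) *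
          (lwU G l * G.Phi Ga (Sum.elim n 0))) =
          (kap (noghost G) * lwU G l) * G.Phi Ga (Sum.elim n 0) := by
        intro n
        have h2 := Rd_add (deg G.inc (Sum.elim n 0) (y l)) (c (y l))
        rw [hkk]
        calc _ = (Rd (deg G.inc (Sum.elim n 0) (y l)) (Set.Iic (c (y l))) +
            Rd (deg G.inc (Sum.elim n 0) (y l)) (Set.Ioi (c (y l)))) *
            (kap G * PEx G.lam (fun _ => 1) * lwU G l * G.Phi Ga (Sum.elim n 0)) := by ring
          _ = _ := by rw [h2, one_mul]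
      rw [tsum_congr h1, ENNReal.tsum_mul_left, ← hR, mul_right_comm, hk0, one_mul, mul_one]
      rfl
    · simp [if_neg hl]
  rw [hfin, add_mul]
  exact add_le_add (mul_le_mul_left hA _) hB'

end general

end Pool.Agent.Helper41.CT
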