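import Pool.Agent.Helper41.CT.Defs
import Pool.Agent.Helper41.CT.DefsG
import Pool.Agent.Helper41.GF.SkC
import Pool.Agent.Helper41.GF.Confl
import Pool.Agent.Helper41.GF.EnvM

set_option autoImplicit false

open scoped ENNReal NNReal Nat
open Finset MeasureTheory ProbabilityTheory
open Pool.Agent.Helper41.GF

namespace Pool.Agent.Helper41.CT

/-! ## TARGETS: prove these (statements must not be changed; helper lemmas are welcome) -/

section general

variable {V E H : Type} [Fintype V] [DecidableEq V] [Fintype E] [DecidableEq E] [Fintype H]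
  [DecidableEq H]

/-- the sign of the field is positive on the soup -/
theorem gen_sign (G : GG V E H) (hZ : ∫⁻ ψ : V → ℝ, ENNReal.ofReal (G.rho ψ) ≠ ∞)
    (A₀ A₁ : H → Prop) [DecidablePred A₀] [DecidablePred A₁]
    (C : List (H × List (E × Bool) × H) → Prop) [DecidablePred C]
    (hC : ∀ l, C l → ∀ y, ∃ p ∈ l, ∃ i, G.site p i = y) :
    PEx (fun p => if A₀ p.1 ∧ A₁ p.2.2 then G.lam p else 0) (fun l => if C l then 1 else 0)
      ≤ G.fieldLaw {ψ | ∀ y, 0 < ψ y}
        * PEx (fun p => if A₀ p.1 ∧ A₁ p.2.2 then G.lam p else 0) (fun _ => 1) := by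
  classical
  set A : ℕ → H → Prop := fun k h => if k = 0 then A₀ h else A₁ h with hA
  set tp : H × List (E × Bool) × H → Option (Fin 1) :=
    fun p => if A₀ p.1 ∧ A₁ p.2.2 then some 0 else none with htpd
  have htp : ∀ (i : Fin 1) p, tp p = some i ↔ (A (0 + i) p.1 ∧ A (0 + i + 1) p.2.2) := by
    intro i p
    have hi : i = 0 := Subsingleton.elim _ _
    subst hi
    simp only [hA, htpd]
    by_cases h : A₀ p.1 ∧ A₁ p.2.2
    · simp [h]
    · simp [h]
  have hprob := fieldLaw_prob G hZ
  have hkey : (∫⁻ ψ : V → ℝ, ENNReal.ofReal (G.rho ψ))⁻¹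
      * (2 ^ (Fintype.card V) * ∑' env : Env E H (Option (Fin 1)), G.ew tp env) = 1 := by
    have h1 : ∫⁻ ψ, ∑' env : Env E H (Option (Fin 1)), G.sk tp ψ env ∂G.fieldLaw = 1 := by
      simp_rw [sk_sum]
      simp
    rw [lintegral_tsum (fun env => (measurable_sk G tp env).aemeasurable)] at h1
    simp_rw [m7_sk] at h1
    rw [ENNReal.tsum_mul_left, ENNReal.tsum_mul_left] at h1
    exact h1
  have hew : ∑' env : Env E H (Option (Fin 1)), G.ew tp env ≠ ∞ := by
    intro h
    rw [h, ENNReal.mul_top (by positivity), ENNReal.mul_top (ENNReal.inv_ne_zero.mpr hZ)] at hkey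
    exact ENNReal.top_ne_one hkey
  have hew0 : ∑' env : Env E H (Option (Fin 1)), G.ew tp env ≠ 0 := by
    intro h
    rw [h, mul_zero, mul_zero] at hkey
    exact zero_ne_one hkey
  have hmarg := env_marg G A 1 tp htp hew hew0 (fun ls => if C (ls 0) then 1 else 0)
  have hlam : G.lamk A 0 = fun p => if A₀ p.1 ∧ A₁ p.2.2 then G.lam p else 0 := by
    funext p
    unfold GG.lamk
    simp only [hA]
    by_cases h : A₀ p.1 ∧ A₁ p.2.2
    · simp [h]
    · simp [h]
  have hprod : (∏ i : Fin 1, PEx (G.lamk A (0 + i)) (fun _ => 1))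
      = PEx (fun p => if A₀ p.1 ∧ A₁ p.2.2 then G.lam p else 0) (fun _ => 1) := by
    rw [Fin.prod_univ_one, ← hlam]
    rfl
  have hright : (∑' ls : Fin 1 → List (H × List (E × Bool) × H),
          (∏ i : Fin 1, ((ls i).map (G.lamk A (0 + i))).prod / (((ls i).length)! : ℝ≥0∞))
            * (if C (ls 0) then 1 else 0))
      = PEx (fun p => if A₀ p.1 ∧ A₁ p.2.2 then G.lam p else 0) (fun l => if C l then 1 else 0) := by
    rw [← (Equiv.funUnique (Fin 1) (List (H × List (E × Bool) × H))).symm.tsum_eq, ← hlam]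
    unfold PEx
    refine tsum_congr fun l => ?_
    rw [Fin.prod_univ_one]
    rfl
  rw [hprod, hright] at hmarg
  rw [← hmarg]
  refine mul_le_mul' ?_ le_rfl
  have hS : MeasurableSet {ψ : V → ℝ | ∀ y, 0 < ψ y} := by
    have : {ψ : V → ℝ | ∀ y, 0 < ψ y} = ⋂ y, {ψ : V → ℝ | 0 < ψ y} := by
      ext ψ; simp
    rw [this]
    exact MeasurableSet.iInter fun y => measurableSet_lt measurable_const (measurable_pi_apply y)
  have e1 : (∑' env : Env E H (Option (Fin 1)),
        G.ew tp env / (∑' env' : Env E H (Option (Fin 1)), G.ew tp env')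
          * (if C (env.1 (some 0)) then (1 : ℝ≥0∞) else 0))
      = ∫⁻ ψ, ∑' env : Env E H (Option (Fin 1)),
          G.sk tp ψ env * (if C (env.1 (some 0)) then (1 : ℝ≥0∞) else 0) ∂G.fieldLaw := by
    rw [lintegral_tsum (fun env => ((measurable_sk G tp env).mul_const _).aemeasurable)]
    refine tsum_congr fun env => ?_
    rw [lintegral_mul_const _ (measurable_sk G tp env), sk_fieldLaw G tp hZ]
  rw [e1, ← lintegral_indicator_one hS]
  refine lintegral_mono fun ψ => ?_
  by_cases hψ : ψ ∈ {ψ : V → ℝ | ∀ y, 0 < ψ y}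
  · rw [Set.indicator_of_mem hψ]
    show _ ≤ (1 : ℝ≥0∞)
    refine le_trans (ENNReal.tsum_le_tsum fun env => ?_) (sk_sum G tp ψ).le
    split_ifs
    · rw [mul_one]
    · rw [mul_zero]; exact zero_le
  · rw [Set.indicator_of_notMem hψ]
    rw [nonpos_iff_eq_zero, ENNReal.tsum_eq_zero]
    intro env
    split_ifs with hCe
    · rw [mul_one]
      by_contra hne
      apply hψ
      intro y
      obtain ⟨p, hp, i, hi⟩ := hC _ hCe y
      rw [← hi]
      exact sk_supp G tp ψ env hne (some 0) p hp i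
    · rw [mul_zero]

end general

end Pool.Agent.Helper41.CT
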