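import Pool.Agent.Helper41.CT.Defs
import Pool.Agent.Helper41.CT.DefsG
import Pool.Agent.Helper41.GF.Poisson

set_option autoImplicit false

open scoped ENNReal NNReal Nat
open Finset MeasureTheory ProbabilityTheory
open Pool.Agent.Helper41.GF

namespace Pool.Agent.Helper41.CT

/-! ## TARGETS: prove these (statements must not be changed; helper lemmas are welcome) -/

section ppie

variable {V : Type} [Fintype V] [DecidableEq V]

theorem aux833_exp (x : ℝ) (hx : 0 ≤ x) :
    ∑' n : ℕ, (ENNReal.ofReal x) ^ n / (n ! : ℝ≥0∞) = ENNReal.ofReal (Real.exp x) := by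
  have hs : HasSum (fun n : ℕ => x ^ n / (n ! : ℝ)) (Real.exp x) := by
    have h := NormedSpace.expSeries_div_hasSum_exp (𝔸 := ℝ) x
    rwa [← Real.exp_eq_exp_ℝ] at h
  rw [← hs.tsum_eq, ENNReal.ofReal_tsum_of_nonneg (fun n => by positivity) hs.summable]
  refine tsum_congr (fun n => ?_)
  rw [ENNReal.ofReal_div_of_pos (by exact_mod_cast Nat.factorial_pos n), ENNReal.ofReal_pow hx,
    ENNReal.ofReal_natCast]

theorem aux833_PEx_add {α : Type} (lam : α → ℝ≥0∞) (F G : List α → ℝ≥0∞) :
    PEx lam (fun l => F l + G l) = PEx lam F + PEx lam G := by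
  unfold PEx
  rw [← ENNReal.tsum_add]
  exact tsum_congr (fun l => by rw [mul_add])

theorem aux833_PEx_sum {α ι : Type} (lam : α → ℝ≥0∞) (s : Finset ι) (F : ι → List α → ℝ≥0∞) :
    PEx lam (fun l => ∑ i ∈ s, F i l) = ∑ i ∈ s, PEx lam (F i) := by
  classical
  induction s using Finset.induction_on with
  | empty => simp [PEx]
  | insert i s hi ih =>
    simp only [Finset.sum_insert hi]
    rw [aux833_PEx_add, ih]

open Classical in
theorem aux833_prod {α : Type} (lam : α → ℝ≥0∞) (R : α → Finset V) (A : Finset V) (l : List α) :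
    (l.map (fun p => if Disjoint (R p) A then lam p else 0)).prod =
      (l.map lam).prod * (if ∀ p ∈ l, Disjoint (R p) A then 1 else 0) := by
  induction l with
  | nil => simp
  | cons p l ih =>
    rw [List.map_cons, List.prod_cons, ih, List.map_cons, List.prod_cons]
    by_cases h1 : Disjoint (R p) A
    · by_cases h2 : ∀ p ∈ l, Disjoint (R p) A
      · have h3 : ∀ q ∈ p :: l, Disjoint (R q) A := by
          intro q hq
          rcases List.mem_cons.1 hq with rfl | hq
          · exact h1
          · exact h2 q hq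
        rw [if_pos h1, if_pos h2, if_pos h3, mul_one, mul_one]
      · have h3 : ¬ ∀ q ∈ p :: l, Disjoint (R q) A := fun h => h2 (fun q hq =>
          h q (List.mem_cons_of_mem _ hq))
        rw [if_neg h2, if_neg h3, mul_zero, mul_zero, mul_zero]
    · have h3 : ¬ ∀ q ∈ p :: l, Disjoint (R q) A := fun h => h1 (h p List.mem_cons_self)
      rw [if_neg h1, if_neg h3, zero_mul, mul_zero]

open Classical in
theorem aux833_EA {α : Type} (lam : α → ℝ≥0∞) (R : α → Finset V) (A : Finset V) (x : ℝ)
    (hx : 0 ≤ x)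
    (h : ∑' p, (if Disjoint (R p) A then lam p else 0) = ENNReal.ofReal x) :
    PEx lam (fun l => if ∀ p ∈ l, Disjoint (R p) A then 1 else 0) = ENNReal.ofReal (Real.exp x) := by
  have h1 := PEx_one (fun p => if Disjoint (R p) A then lam p else 0)
  rw [h, aux833_exp x hx] at h1
  rw [← h1]
  unfold PEx
  refine tsum_congr (fun l => ?_)
  rw [aux833_prod, mul_one, ENNReal.mul_div_right_comm]

open Classical in
/-- inclusion-exclusion for one list -/
theorem aux833_ie {α : Type} (R : α → Finset V) (l : List α) :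
    (if ∃ y, ∀ p ∈ l, y ∉ R p then (1 : ℝ≥0∞) else 0) +
      ∑ A ∈ (Finset.univ : Finset (Finset V)).filter (fun A => A ≠ ∅ ∧ Even A.card),
        (if ∀ p ∈ l, Disjoint (R p) A then (1 : ℝ≥0∞) else 0) =
      ∑ A ∈ (Finset.univ : Finset (Finset V)).filter (fun A => Odd A.card),
        (if ∀ p ∈ l, Disjoint (R p) A then (1 : ℝ≥0∞) else 0) := by
  obtain ⟨B, hB⟩ : ∃ B : Finset V, B = Finset.univ.filter (fun y => ∀ p ∈ l, y ∉ R p) := ⟨_, rfl⟩
  have hBm : ∀ y, y ∈ B ↔ ∀ p ∈ l, y ∉ R p := by
    intro y; rw [hB, Finset.mem_filter]; simp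
  have hAB : ∀ A : Finset V, (∀ p ∈ l, Disjoint (R p) A) ↔ A ⊆ B := by
    intro A
    constructor
    · intro h y hy
      rw [hBm]
      intro p hp hyR
      exact Finset.disjoint_left.1 (h p hp) hyR hy
    · intro h p hp
      rw [Finset.disjoint_left]
      intro y hyR hy
      exact (hBm y).1 (h hy) p hp hyR
  have hne : (∃ y, ∀ p ∈ l, y ∉ R p) ↔ B ≠ ∅ := by
    rw [← Finset.nonempty_iff_ne_empty]
    constructor
    · rintro ⟨y, hy⟩; exact ⟨y, (hBm y).2 hy⟩
    · rintro ⟨y, hy⟩; exact ⟨y, (hBm y).1 hy⟩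
  have key : ((if B ≠ ∅ then (1 : ℕ) else 0) +
      (((Finset.univ : Finset (Finset V)).filter (fun A => A ≠ ∅ ∧ Even A.card)).filter
        (fun A => A ⊆ B)).card) =
      (((Finset.univ : Finset (Finset V)).filter (fun A => Odd A.card)).filter
        (fun A => A ⊆ B)).card := by
    have h0 := Finset.sum_powerset_neg_one_pow_card (x := B)
    have h1 : (∑ m ∈ B.powerset, (-1 : ℤ) ^ m.card) =
        ((B.powerset.filter (fun m => Even m.card)).card : ℤ) -
          ((B.powerset.filter (fun m => Odd m.card)).card : ℤ) := by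
      rw [← Finset.sum_filter_add_sum_filter_not B.powerset (fun m => Even m.card)]
      have e1 : ∑ m ∈ B.powerset.filter (fun m => Even m.card), (-1 : ℤ) ^ m.card =
          ((B.powerset.filter (fun m => Even m.card)).card : ℤ) := by
        rw [Finset.sum_congr rfl (fun m hm => Even.neg_one_pow (Finset.mem_filter.1 hm).2)]
        simp
      have e2 : ∑ m ∈ B.powerset.filter (fun m => ¬ Even m.card), (-1 : ℤ) ^ m.card =
          - ((B.powerset.filter (fun m => Odd m.card)).card : ℤ) := by
        have e3 : B.powerset.filter (fun m => ¬ Even m.card) =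
            B.powerset.filter (fun m => Odd m.card) := by
          refine Finset.filter_congr (fun m _ => ?_)
          rw [Nat.not_even_iff_odd]
        rw [e3, Finset.sum_congr rfl (fun m hm => Odd.neg_one_pow (Finset.mem_filter.1 hm).2)]
        simp
      rw [e1, e2]; ring
    have h2 : ((Finset.univ : Finset (Finset V)).filter (fun A => Odd A.card)).filter
        (fun A => A ⊆ B) = B.powerset.filter (fun m => Odd m.card) := by
      ext A
      simp only [Finset.mem_filter, Finset.mem_univ, true_and, Finset.mem_powerset]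
      tauto
    have h3 : B.powerset.filter (fun m => Even m.card) =
        insert ∅ (((Finset.univ : Finset (Finset V)).filter (fun A => A ≠ ∅ ∧ Even A.card)).filter
        (fun A => A ⊆ B)) := by
      ext A
      simp only [Finset.mem_filter, Finset.mem_univ, true_and, Finset.mem_powerset,
        Finset.mem_insert]
      constructor
      · rintro ⟨h4, h5⟩
        by_cases h6 : A = ∅
        · exact Or.inl h6
        · exact Or.inr ⟨⟨h6, h5⟩, h4⟩
      · rintro (h4 | h4)
        · rw [h4]; exact ⟨Finset.empty_subset _, by simp⟩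
        · exact ⟨h4.2, h4.1.2⟩
    have h4 : (B.powerset.filter (fun m => Even m.card)).card =
        (((Finset.univ : Finset (Finset V)).filter (fun A => A ≠ ∅ ∧ Even A.card)).filter
        (fun A => A ⊆ B)).card + 1 := by
      rw [h3, Finset.card_insert_of_notMem]
      simp
    rw [h2]
    rw [h1, h4] at h0
    by_cases hBe : B = ∅
    · rw [if_pos hBe] at h0
      rw [if_neg (by simpa using hBe)]
      push_cast at h0
      omega
    · rw [if_neg hBe] at h0
      rw [if_pos hBe]
      push_cast at h0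
      omega
  have c1 : (if ∃ y, ∀ p ∈ l, y ∉ R p then (1 : ℝ≥0∞) else 0) =
      (((if B ≠ ∅ then (1 : ℕ) else 0) : ℕ) : ℝ≥0∞) := by
    by_cases h : B ≠ ∅
    · rw [if_pos h, if_pos (hne.2 h)]; simp
    · rw [if_neg h, if_neg (fun h' => h (hne.1 h'))]; simp
  have c2 : ∀ S : Finset (Finset V), ∑ A ∈ S, (if ∀ p ∈ l, Disjoint (R p) A then (1 : ℝ≥0∞) else 0) =
      (((S.filter (fun A => A ⊆ B)).card : ℕ) : ℝ≥0∞) := by
    intro S
    rw [Finset.card_filter, Nat.cast_sum]
    refine Finset.sum_congr rfl (fun A _ => ?_)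
    by_cases h : A ⊆ B
    · rw [if_pos h, if_pos ((hAB A).2 h)]; simp
    · rw [if_neg h, if_neg (fun h' => h ((hAB A).1 h'))]; simp
  rw [c1, c2, c2, ← Nat.cast_add]
  exact_mod_cast key

open Classical in
/-- inclusion-exclusion for a Poisson list -/
theorem pie_poisson {α : Type} (lam : α → ℝ≥0∞) (R : α → Finset V) (θ : ℝ) (hθ : 0 ≤ θ)
    (a : Finset V → ℝ) (ha0 : ∀ A, 0 ≤ a A) (ha1 : a ∅ = 1)
    (ha : ∀ A : Finset V, ∑' p, (if Disjoint (R p) A then lam p else 0)
      = ENNReal.ofReal (θ * a A)) :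
    PEx lam (fun l => if ∃ y, ∀ p ∈ l, y ∉ R p then 1 else 0)
      = ENNReal.ofReal (fp θ a) * PEx lam (fun _ => 1) := by
  have hE : ∀ A : Finset V, PEx lam (fun l => if ∀ p ∈ l, Disjoint (R p) A then 1 else 0) =
      ENNReal.ofReal (Real.exp (θ * a A)) := fun A =>
    aux833_EA lam R A (θ * a A) (mul_nonneg hθ (ha0 A)) (ha A)
  have hone : PEx lam (fun _ => 1) = ENNReal.ofReal (Real.exp θ) := by
    have h1 := hE ∅
    rw [ha1, mul_one] at h1
    rw [← h1]
    congr 1
    funext l
    rw [if_pos (fun p _ => Finset.disjoint_empty_right _)]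
  obtain ⟨M, hM⟩ : ∃ M : ℝ≥0∞, M = PEx lam (fun l => if ∃ y, ∀ p ∈ l, y ∉ R p then 1 else 0) :=
    ⟨_, rfl⟩
  obtain ⟨ev, hev⟩ : ∃ ev : ℝ, ev =
      ∑ A ∈ (Finset.univ : Finset (Finset V)).filter (fun A => A ≠ ∅ ∧ Even A.card),
        Real.exp (θ * a A) := ⟨_, rfl⟩
  obtain ⟨od, hod⟩ : ∃ od : ℝ, od =
      ∑ A ∈ (Finset.univ : Finset (Finset V)).filter (fun A => Odd A.card),
        Real.exp (θ * a A) := ⟨_, rfl⟩
  have hev0 : 0 ≤ ev := by
    rw [hev]; exact Finset.sum_nonneg (fun A _ => (Real.exp_pos _).le)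
  have hmain : M + ENNReal.ofReal ev = ENNReal.ofReal od := by
    have h1 : PEx lam (fun l => (if ∃ y, ∀ p ∈ l, y ∉ R p then (1 : ℝ≥0∞) else 0) +
      ∑ A ∈ (Finset.univ : Finset (Finset V)).filter (fun A => A ≠ ∅ ∧ Even A.card),
        (if ∀ p ∈ l, Disjoint (R p) A then (1 : ℝ≥0∞) else 0)) =
      PEx lam (fun l => ∑ A ∈ (Finset.univ : Finset (Finset V)).filter (fun A => Odd A.card),
        (if ∀ p ∈ l, Disjoint (R p) A then (1 : ℝ≥0∞) else 0)) := by
      congr 1
      funext l
      exact aux833_ie R l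
    rw [aux833_PEx_add, aux833_PEx_sum, aux833_PEx_sum] at h1
    rw [← hM] at h1
    rw [hev, hod, ENNReal.ofReal_sum_of_nonneg (fun A _ => (Real.exp_pos _).le),
      ENNReal.ofReal_sum_of_nonneg (fun A _ => (Real.exp_pos _).le)]
    simp only [hE] at h1
    exact h1
  have hM2 : M = ENNReal.ofReal (od - ev) := by
    rw [ENNReal.ofReal_sub _ hev0, ← hmain, ENNReal.add_sub_cancel_right ENNReal.ofReal_ne_top]
  rw [← hM, hM2, hone, ← ENNReal.ofReal_mul' (Real.exp_pos θ).le]
  congr 1
  unfold fp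
  rw [Finset.sum_mul]
  have hterm : ∀ A : Finset V, (if A = ∅ then (0 : ℝ) else (-1 : ℝ) ^ (A.card + 1) *
      Real.exp (-(θ * (1 - a A)))) * Real.exp θ =
      (if Odd A.card then Real.exp (θ * a A) else 0) -
        (if A ≠ ∅ ∧ Even A.card then Real.exp (θ * a A) else 0) := by
    intro A
    have e1 : Real.exp (-(θ * (1 - a A))) * Real.exp θ = Real.exp (θ * a A) := by
      rw [← Real.exp_add]; congr 1; ring
    by_cases hA : A = ∅
    · rw [if_pos hA, hA]
      simp
    · rw [if_neg hA, mul_assoc, e1]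
      by_cases hO : Odd A.card
      · have hE' : ¬ Even A.card := Nat.not_even_iff_odd.2 hO
        have hEv : Even (A.card + 1) := hO.add_one
        rw [if_pos hO, if_neg (fun h => hE' h.2), hEv.neg_one_pow, one_mul, sub_zero]
      · have hE' : Even A.card := Nat.not_odd_iff_even.1 hO
        have hEv : Odd (A.card + 1) := hE'.add_one
        rw [if_neg hO, if_pos ⟨hA, hE'⟩, hEv.neg_one_pow, zero_sub, neg_one_mul]
  rw [Finset.sum_congr rfl (fun A _ => hterm A), Finset.sum_sub_distrib, hod, hev,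
    Finset.sum_filter, Finset.sum_filter]

end ppie

end Pool.Agent.Helper41.CT
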