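import Pool.Agent.Helper41.CT.Defs
import Pool.Agent.Helper41.CT.CgB
import Pool.Agent.Helper41.CT.CgC
import Pool.Agent.Helper41.CT.GenM
import Pool.Agent.Helper41.CT.GenS
import Pool.Agent.Helper41.CT.Pie
import Pool.Agent.Helper41.CT.GaussA

set_option autoImplicit false

open scoped ENNReal NNReal Nat
open Finset MeasureTheory ProbabilityTheory
open Pool.Agent.Helper41.GF

namespace Pool.Agent.Helper41.CT


/-! ## TARGETS: prove these (statements must not be changed; helper lemmas are welcome) -/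

section iso

variable {V : Type} [Fintype V] [DecidableEq V] {P : Matrix V V ℝ} {π : V → ℝ}

theorem pex_tsum_cons {α : Type} (F : List α → ℝ≥0∞) (h : F [] = 0) :
    ∑' l, F l = ∑' p : α × List α, F (p.1 :: p.2) := by
  have hinj : Function.Injective (fun p : α × List α => p.1 :: p.2) := by
    rintro ⟨a, l⟩ ⟨b, m⟩ h
    simp only [List.cons.injEq] at h
    exact Prod.ext h.1 h.2
  refine (hinj.tsum_eq ?_).symm
  intro l hl
  rcases l with _ | ⟨a, l⟩
  · exact absurd h hl
  · exact ⟨(a, l), rfl⟩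

theorem pex_len {α : Type} (lam : α → ℝ≥0∞) (n : ℕ) :
    ∑' l : List α, (if l.length = n then (l.map lam).prod else 0) = (∑' p, lam p) ^ n := by
  induction n with
  | zero =>
    rw [tsum_eq_single []]
    · simp
    · intro l hl
      rw [if_neg]
      simpa [List.length_eq_zero_iff] using hl
  | succ n ih =>
    rw [pex_tsum_cons _ (by simp), ENNReal.tsum_prod']
    simp only [List.length_cons, add_left_inj, List.map_cons, List.prod_cons]
    have h2 : ∀ a, ∑' l : List α, (if l.length = n then lam a * (l.map lam).prod else 0) =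
        lam a * (∑' p, lam p) ^ n := by
      intro a
      rw [← ih, ← ENNReal.tsum_mul_left]
      refine tsum_congr fun l => ?_
      split_ifs
      · rfl
      · rw [mul_zero]
    rw [tsum_congr h2, ENNReal.tsum_mul_right, pow_succ']

theorem pex_one_ne_top {α : Type} (lam : α → ℝ≥0∞) (h : ∑' p, lam p ≠ ∞) :
    PEx lam (fun _ => 1) ≠ ∞ := by
  have h1 : PEx lam (fun _ => 1) = ∑' n : ℕ, (∑' p, lam p) ^ n * ((n ! : ℕ) : ℝ≥0∞)⁻¹ := by
    unfold PEx
    have e : ∀ l : List α, (l.map lam).prod / ((l.length)! : ℝ≥0∞) * 1 =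
        ∑' n : ℕ, (if l.length = n then (l.map lam).prod else 0) * ((n ! : ℕ) : ℝ≥0∞)⁻¹ := by
      intro l
      rw [tsum_eq_single l.length]
      · rw [if_pos rfl, mul_one, div_eq_mul_inv]
      · intro n hn
        rw [if_neg hn.symm, zero_mul]
    rw [tsum_congr e, ENNReal.tsum_comm]
    refine tsum_congr fun n => ?_
    rw [ENNReal.tsum_mul_right, pex_len]
  set m := (∑' p, lam p).toReal with hm
  have hm0 : 0 ≤ m := ENNReal.toReal_nonneg
  have h2 : ∀ n : ℕ, (∑' p, lam p) ^ n * ((n ! : ℕ) : ℝ≥0∞)⁻¹ =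
      ENNReal.ofReal (m ^ n / (n ! : ℝ)) := by
    intro n
    have hn : (0:ℝ) < (n ! : ℝ) := by exact_mod_cast Nat.factorial_pos n
    rw [ENNReal.ofReal_div_of_pos hn, ENNReal.ofReal_pow hm0, hm, ENNReal.ofReal_toReal h,
      ENNReal.ofReal_natCast, div_eq_mul_inv]
  rw [h1, tsum_congr h2, ← ENNReal.ofReal_tsum_of_nonneg (fun n => by positivity)
    (Real.summable_pow_div_factorial m)]
  exact ENNReal.ofReal_ne_top

theorem pex_nil_le {α : Type} (lam : α → ℝ≥0∞) (F : List α → ℝ≥0∞) : F [] ≤ PEx lam F := by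
  unfold PEx
  have h := ENNReal.le_tsum (f := fun l : List α =>
    (l.map lam).prod / ((l.length)! : ℝ≥0∞) * F l) []
  simpa using h

theorem pex_add {α : Type} (lam : α → ℝ≥0∞) (F F' : List α → ℝ≥0∞) :
    PEx lam F + PEx lam F' = PEx lam (fun l => F l + F' l) := by
  unfold PEx
  rw [← ENNReal.tsum_add]
  refine tsum_congr fun l => ?_
  rw [mul_add]

theorem avk_empty (h : Rev P π) (q : ℝ) (h0 : 0 < q) (h1 : q < 1) (x : V) :
    avk P q ∅ x = 1 := by
  apply le_antisymm (avk_bounds h q h0 h1 ∅ x).2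
  have hm := max_pr h q h0 h1 ∅ (fun x => 1 - avk P q ∅ x) (by
    intro y _
    show 1 - avk P q ∅ y ≤ q * ∑ z, P y z * (1 - avk P q ∅ z)
    have h2 := avk_rec h q h0 h1 ∅ y
    rw [if_neg (Finset.notMem_empty y)] at h2
    have h3 : ∑ z, P y z * (1 - avk P q ∅ z) = 1 - ∑ z, P y z * avk P q ∅ z := by
      have h4 := h.row y
      simp only [mul_sub, mul_one, Finset.sum_sub_distrib]
      rw [h4]
    rw [h3, h2]
    linarith) (by intro y hy; exact absurd hy (Finset.notMem_empty y)) x
  have hm' : 1 - avk P q ∅ x ≤ 0 := hm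
  linarith

open Classical in
/-- the set of sites of a path -/
noncomputable def isoR {E H : Type} (G : GG V E H) (p : H × List (E × Bool) × H) : Finset V :=
  Finset.univ.filter (fun y => ∃ i, G.site p i = y)

theorem mem_isoR {E H : Type} (G : GG V E H) (p : H × List (E × Bool) × H) (y : V) :
    y ∈ isoR G p ↔ ∃ i, G.site p i = y := by
  unfold isoR
  simp

theorem isoR_disjoint {E H : Type} (G : GG V E H) (p : H × List (E × Bool) × H) (A : Finset V) :
    Disjoint (isoR G p) A ↔ ∀ i, G.site p i ∉ A := by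
  rw [Finset.disjoint_left]
  constructor
  · intro h i hi
    exact h ((mem_isoR G p _).2 ⟨i, rfl⟩) hi
  · intro h y hy hyA
    obtain ⟨i, hi⟩ := (mem_isoR G p y).1 hy
    apply h i
    rw [hi]
    exact hyA

theorem iso_meas_T (s M : V → ℝ) : Measurable (fun (ψ : V → ℝ) (x : V) => ψ x / s x - M x) := by
  rw [measurable_pi_iff]
  intro x
  exact ((measurable_pi_apply x).div_const _).sub_const _

open Classical in
theorem iso_sign_mass (h : Rev P π) (q : ℝ) (h0 : 0 < q) (h1 : q < 1) (v : V) (a b : ℝ)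
    (ha : 0 < a) (hb : 0 < b) (A : Finset V) :
    ∑' p : (V × Bool) × List (CE V × Bool) × (V × Bool),
      (if Disjoint (isoR (cg P π q (fun x => if x = v then a / π v else 0)
          (fun _ => b * (1 - q))) p) A then
        (if p.1.2 = false ∧ p.2.2.2 = true then
          (cg P π q (fun x => if x = v then a / π v else 0) (fun _ => b * (1 - q))).lam p
          else 0) else 0) = ENNReal.ofReal (a * b / 2 * avk P q A v) := by
  have hπ := h.pos v
  have hφ : ∀ x, 0 ≤ (if x = v then a / π v else 0) := by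
    intro x
    split_ifs
    · positivity
    · exact le_rfl
  have hm := cg_mass h q h0 h1 (fun x => if x = v then a / π v else 0) hφ b hb.le false A
  have e1 : b / 2 * ∑ x, (if (false : Bool) then b * (1 - q) else
      (if x = v then a / π v else 0)) * π x * avk P q A x = a * b / 2 * avk P q A v := by
    have e2 : ∑ x, (if (false : Bool) then b * (1 - q) else
      (if x = v then a / π v else 0)) * π x * avk P q A x = a * avk P q A v := by
      rw [Finset.sum_eq_single v]
      · simp only [Bool.false_eq_true, if_false, if_true]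
        field_simp
      · intro x _ hx
        simp [hx]
      · intro hx
        exact absurd (Finset.mem_univ v) hx
    rw [e2]
    ring
  rw [e1] at hm
  rw [← hm]
  refine tsum_congr fun p => ?_
  by_cases c1 : p.1.2 = false ∧ p.2.2.2 = true
  · by_cases c2 : Disjoint (isoR (cg P π q (fun x => if x = v then a / π v else 0)
          (fun _ => b * (1 - q))) p) A
    · rw [if_pos c2, if_pos c1, if_pos ⟨c1, (isoR_disjoint _ p A).1 c2⟩]
    · rw [if_neg c2, if_neg (fun h => c2 ((isoR_disjoint _ p A).2 h.2))]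
  · rw [if_neg (fun h : (p.1.2 = false ∧ p.2.2.2 = true) ∧ _ => c1 h.1), if_neg c1]
    simp

theorem iso_mod_mass (h : Rev P π) (q : ℝ) (h0 : 0 < q) (h1 : q < 1) (b : ℝ)
    (hb : 0 < b) (A : Finset V) [∀ p, Decidable (Disjoint (isoR (cg P π q (fun _ => 0)
          (fun _ => b * (1 - q))) p) A)] :
    ∑' p : (V × Bool) × List (CE V × Bool) × (V × Bool),
      (if Disjoint (isoR (cg P π q (fun _ => 0) (fun _ => b * (1 - q))) p) A then
          (cg P π q (fun _ => 0) (fun _ => b * (1 - q))).lam p else 0) =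
      ENNReal.ofReal (b ^ 2 * (1 - q) / 2 * ∑ x, π x * avk P q A x) := by
  classical
  have hm := cg_mass h q h0 h1 (fun _ => 0) (fun _ => le_rfl) b hb.le true A
  have e1 : b / 2 * ∑ x, (if (true : Bool) then b * (1 - q) else (0:ℝ)) * π x * avk P q A x =
      b ^ 2 * (1 - q) / 2 * ∑ x, π x * avk P q A x := by
    rw [Finset.mul_sum, Finset.mul_sum]
    refine Finset.sum_congr rfl fun x _ => ?_
    simp only [if_true]
    ring
  rw [e1] at hm
  rw [← hm]
  refine tsum_congr fun p => ?_
  by_cases c1 : p.1.2 = true ∧ p.2.2.2 = true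
  · by_cases c2 : Disjoint (isoR (cg P π q (fun _ => 0) (fun _ => b * (1 - q))) p) A
    · rw [if_pos c2, if_pos ⟨c1, (isoR_disjoint _ p A).1 c2⟩]
    · rw [if_neg c2, if_neg (fun h => c2 ((isoR_disjoint _ p A).2 h.2))]
  · rw [if_neg (fun h : (p.1.2 = true ∧ p.2.2.2 = true) ∧ _ => c1 h.1)]
    have hl : (cg P π q (fun _ => 0) (fun _ => b * (1 - q))).lam p = 0 := by
      unfold GG.lam
      by_cases c3 : p.1.2 = true
      · have c4 : p.2.2.2 = false := by
          by_contra hne
          exact c1 ⟨c3, by simpa using hne⟩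
        have : (cg P π q (fun _ => 0) (fun _ => b * (1 - q))).f p.2.2 = 0 := by
          simp [cg, c4]
        rw [this]
        simp
      · have c4 : p.1.2 = false := by simpa using c3
        have : (cg P π q (fun _ => 0) (fun _ => b * (1 - q))).f p.1 = 0 := by
          simp [cg, c4]
        rw [this]
        simp
    rw [hl]
    simp

theorem noghost_cg (φ₀ φ₁ : V → ℝ) (q : ℝ) :
    noghost (cg P π q φ₀ φ₁) = cg P π q (fun _ => 0) (fun _ => 0) := by
  unfold noghost cg
  congr 1
  funext g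
  simp

/-- isomorphism with signs -/
theorem iso_sign (h : Rev P π) (q : ℝ) (h0 : 0 < q) (h1 : q < 1) (v : V) (a b : ℝ)
    (ha : 0 < a) (hb : 0 < b) (μ : Measure (V → ℝ)) (hμ : IsG (gn P π q) μ) :
    1 - fp (a * b / 2) (fun A => avk P q A v)
      ≤ (μ {x | ∀ y, -(a * gn P π q v y + b) < x y}).toReal := by
  classical
  have hπ := h.pos v
  have hφ0 : ∀ x, 0 ≤ (if x = v then a / π v else 0) := by
    intro x
    split_ifs
    · positivity
    · exact le_rfl
  have hφ1 : ∀ _ : V, 0 ≤ b * (1 - q) := fun _ => mul_nonneg hb.le (by linarith)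
  set G := cg P π q (fun x => if x = v then a / π v else 0) (fun _ => b * (1 - q)) with hG
  have hlaw := cg_law h q h0 h1 _ _ hφ0 hφ1
  rw [← hG] at hlaw
  have hext := isG_ext hμ hlaw
  have hM : ∀ x, ∑ y, Gn P q x y * ((if y = v then a / π v else 0) + b * (1 - q)) =
      a * gn P π q v x + b := by
    intro x
    have e1 : ∑ y, Gn P q x y * ((if y = v then a / π v else 0) + b * (1 - q)) =
        (∑ y, Gn P q x y * (if y = v then a / π v else 0)) + (∑ y, Gn P q x y) * (b * (1 - q)) := by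
      rw [Finset.sum_mul, ← Finset.sum_add_distrib]
      refine Finset.sum_congr rfl fun y _ => ?_
      ring
    rw [e1, Gn_row h q h0 h1 x, Finset.sum_eq_single v]
    · rw [if_pos rfl, ← gn_symm h q h0 h1 x v]
      unfold gn
      have : 1 - q ≠ 0 := by linarith
      field_simp
    · intro y _ hy
      rw [if_neg hy, mul_zero]
    · intro hx
      exact absurd (Finset.mem_univ v) hx
  have hmeasS : MeasurableSet {x : V → ℝ | ∀ y, -(a * gn P π q v y + b) < x y} := by
    have : {x : V → ℝ | ∀ y, -(a * gn P π q v y + b) < x y} =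
        ⋂ y, {x : V → ℝ | -(a * gn P π q v y + b) < x y} := by
      ext x
      simp
    rw [this]
    exact MeasurableSet.iInter fun y => measurableSet_lt measurable_const (measurable_pi_apply y)
  have hμS : μ {x | ∀ y, -(a * gn P π q v y + b) < x y} = G.fieldLaw {ψ | ∀ y, 0 < ψ y} := by
    rw [hext, Measure.map_apply (iso_meas_T _ _) hmeasS]
    congr 1
    ext ψ
    simp only [Set.mem_preimage, Set.mem_ofPred_eq]
    refine forall_congr' fun y => ?_
    rw [hM y]
    have hs := scl_pos h q h0 h1 y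
    constructor
    · intro h2
      have h3 : 0 < ψ y / scl P π q y := by linarith
      exact (div_pos_iff_of_pos_right hs).1 h3
    · intro h2
      have h3 : 0 < ψ y / scl P π q y := div_pos h2 hs
      linarith
  have hsign := gen_sign G (cg_fin h q h0 h1 _ _) (fun g => g.2 = false) (fun g => g.2 = true)
    (fun l => ∀ y, ∃ p ∈ l, y ∈ isoR G p) (fun l hl y => by
      obtain ⟨p, hp, hy⟩ := hl y
      exact ⟨p, hp, (mem_isoR G p y).1 hy⟩)
  have hmass := iso_sign_mass h q h0 h1 v a b ha hb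
  rw [← hG] at hmass
  have hpie := pie_poisson (fun p : (V × Bool) × List (CE V × Bool) × (V × Bool) =>
      if p.1.2 = false ∧ p.2.2.2 = true then G.lam p else 0) (isoR G)
    (a * b / 2) (by positivity) (fun A => avk P q A v) (fun A => (avk_bounds h q h0 h1 A v).1)
    (avk_empty h q h0 h1 v) (fun A => by
      rw [← hmass A])
  set lam' : (V × Bool) × List (CE V × Bool) × (V × Bool) → ℝ≥0∞ :=
    fun p => if p.1.2 = false ∧ p.2.2.2 = true then G.lam p else 0 with hlam'
  have hfinm : ∑' p, lam' p ≠ ∞ := by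
    have h2 := hmass ∅
    simp only [Finset.disjoint_empty_right, if_true] at h2
    rw [hlam', h2]
    exact ENNReal.ofReal_ne_top
  have hZt := pex_one_ne_top lam' hfinm
  have hZ1 : 1 ≤ PEx lam' (fun _ => 1) := pex_nil_le lam' (fun _ => 1)
  have hZ0 : PEx lam' (fun _ => 1) ≠ 0 := (lt_of_lt_of_le one_pos hZ1).ne'
  have hsum : PEx lam' (fun _ => 1) =
      PEx lam' (fun l => if (∀ y, ∃ p ∈ l, y ∈ isoR G p) then 1 else 0) +
      PEx lam' (fun l => if (∃ y, ∀ p ∈ l, y ∉ isoR G p) then 1 else 0) := by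
    rw [pex_add]
    congr 1
    funext l
    by_cases hc : ∀ y, ∃ p ∈ l, y ∈ isoR G p
    · have hn : ¬ ∃ y, ∀ p ∈ l, y ∉ isoR G p := by
        rintro ⟨y, hy⟩
        obtain ⟨p, hp, hyp⟩ := hc y
        exact hy p hp hyp
      rw [if_pos hc, if_neg hn, add_zero]
    · have hn : ∃ y, ∀ p ∈ l, y ∉ isoR G p := by
        push Not at hc
        exact hc
      rw [if_neg hc, if_pos hn, zero_add]
  have hfppos : 0 < fp (a * b / 2) (fun A => avk P q A v) := by
    by_contra hcon
    push Not at hcon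
    rw [ENNReal.ofReal_of_nonpos hcon, zero_mul] at hpie
    have h2 := pex_nil_le lam' (fun l => if (∃ y, ∀ p ∈ l, y ∉ isoR G p) then 1 else 0)
    have h3 : (1 : ℝ≥0∞) ≤ PEx lam' (fun l => if (∃ y, ∀ p ∈ l, y ∉ isoR G p) then 1 else 0) := by
      refine le_trans (le_of_eq ?_) h2
      rw [if_pos ⟨v, fun p hp => absurd hp (List.not_mem_nil)⟩]
    have h4 : PEx lam' (fun l => if (∃ y, ∀ p ∈ l, y ∉ isoR G p) then 1 else 0) = 0 := by
      convert hpie
    rw [h4] at h3
    exact absurd h3 (by simp)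
  have hkey : 1 * PEx lam' (fun _ => 1) ≤
      (G.fieldLaw {ψ | ∀ y, 0 < ψ y} + ENNReal.ofReal (fp (a * b / 2) (fun A => avk P q A v))) *
        PEx lam' (fun _ => 1) := by
    rw [one_mul, add_mul]
    nth_rewrite 1 [hsum]
    refine add_le_add ?_ (le_of_eq ?_)
    · convert hsign
    · convert hpie
  have hkey2 := (ENNReal.mul_le_mul_iff_left hZ0 hZt).1 hkey
  rw [hμS]
  have hprob : IsProbabilityMeasure μ := hμ.1
  have hft : G.fieldLaw {ψ | ∀ y, 0 < ψ y} ≠ ∞ := by
    rw [← hμS]
    exact measure_ne_top μ _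
  have h5 := ENNReal.toReal_mono (ENNReal.add_ne_top.2 ⟨hft, ENNReal.ofReal_ne_top⟩) hkey2
  rw [ENNReal.toReal_add hft ENNReal.ofReal_ne_top, ENNReal.toReal_ofReal hfppos.le,
    ENNReal.toReal_one] at h5
  linarith

/-- isomorphism without signs -/
theorem iso_mod (h : Rev P π) (q : ℝ) (h0 : 0 < q) (h1 : q < 1) (b : ℝ) (hb : 0 < b)
    (μ : Measure (V → ℝ)) (hμ : IsG (gn P π q) μ) :
    fp (b ^ 2 * (1 - q) / 2) (fun A => ∑ x, π x * avk P q A x)
      ≤ 2 * (μ {x | ∃ y, b / 2 ≤ |x y|}).toReal := by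
  classical
  set G := cg P π q (fun _ => 0) (fun _ => b * (1 - q)) with hG
  have hφ1 : ∀ _ : V, 0 ≤ b * (1 - q) := fun _ => mul_nonneg hb.le (by linarith)
  have hlaw := cg_law h q h0 h1 (fun _ => 0) (fun _ => b * (1 - q)) (fun _ => le_rfl) hφ1
  rw [← hG] at hlaw
  have hext := isG_ext hμ hlaw
  have hlaw0 := cg_law h q h0 h1 (fun _ => 0) (fun _ => 0) (fun _ => le_rfl) (fun _ => le_rfl)
  have hno : noghost G = cg P π q (fun _ => 0) (fun _ => 0) := noghost_cg _ _ q
  rw [← hno] at hlaw0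
  have hext0 := isG_ext hμ hlaw0
  have hM : ∀ x, ∑ y, Gn P q x y * (0 + b * (1 - q)) = b := by
    intro x
    rw [← Finset.sum_mul, Gn_row h q h0 h1 x]
    have : 1 - q ≠ 0 := by linarith
    field_simp
    ring
  have hmeasS : MeasurableSet {x : V → ℝ | ∃ y, b / 2 ≤ |x y|} := by
    have : {x : V → ℝ | ∃ y, b / 2 ≤ |x y|} = ⋃ y, {x : V → ℝ | b / 2 ≤ |x y|} := by
      ext x
      simp
    rw [this]
    exact MeasurableSet.iUnion fun y =>
      measurableSet_le measurable_const ((measurable_pi_apply y).abs)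
  have hF1 : G.fieldLaw {ψ | ∃ y, |ψ y| ≤ scl P π q y * b / 2} ≤ μ {x | ∃ y, b / 2 ≤ |x y|} := by
    rw [hext, Measure.map_apply (iso_meas_T _ _) hmeasS]
    apply measure_mono
    rintro ψ ⟨y, hy⟩
    refine ⟨y, ?_⟩
    simp only
    rw [hM y]
    have hs := scl_pos h q h0 h1 y
    have h2 : ψ y / scl P π q y ≤ b / 2 := by
      rw [div_le_iff₀ hs]
      have := (le_abs_self _).trans hy
      linarith
    rw [abs_sub_comm]
    refine le_trans ?_ (le_abs_self _)
    linarith
  have hF0 : (noghost G).fieldLaw {ψ | ∃ y, scl P π q y * b / 2 < |ψ y|} ≤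
      μ {x | ∃ y, b / 2 ≤ |x y|} := by
    rw [hext0, Measure.map_apply (iso_meas_T _ _) hmeasS]
    apply measure_mono
    rintro ψ ⟨y, hy⟩
    refine ⟨y, ?_⟩
    have hs := scl_pos h q h0 h1 y
    have e : ψ y / scl P π q y - ∑ z, Gn P q y z * (0 + 0) = ψ y / scl P π q y := by simp
    simp only
    rw [e, abs_div, abs_of_pos hs, le_div_iff₀ hs]
    linarith
  have hmod := gen_mod G (cg_fin h q h0 h1 _ _) (by rw [hno]; exact cg_fin h q h0 h1 _ _)
    (fun y => scl P π q y * b / 2) (fun l => ∃ y, ∀ p ∈ l, y ∉ isoR G p) (fun l hl => by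
      obtain ⟨y, hy⟩ := hl
      refine ⟨y, fun p hp i hi => hy p hp ((mem_isoR G p y).2 ⟨i, hi⟩)⟩)
  have hpie := pie_poisson G.lam (isoR G) (b ^ 2 * (1 - q) / 2)
    (by have : 0 ≤ 1 - q := by linarith
        positivity) (fun A => ∑ x, π x * avk P q A x)
    (fun A => Finset.sum_nonneg fun x _ => mul_nonneg (h.pos x).le (avk_bounds h q h0 h1 A x).1)
    (by
      simp only [avk_empty h q h0 h1, mul_one]
      exact h.tot)
    (fun A => iso_mod_mass h q h0 h1 b hb A)
  have hfinm : ∑' p, G.lam p ≠ ∞ := by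
    have h2 := iso_mod_mass h q h0 h1 b hb ∅
    simp only [Finset.disjoint_empty_right, if_true] at h2
    rw [hG, h2]
    exact ENNReal.ofReal_ne_top
  have hZt := pex_one_ne_top G.lam hfinm
  have hZ1 : 1 ≤ PEx G.lam (fun _ => 1) := pex_nil_le G.lam (fun _ => 1)
  have hZ0 : PEx G.lam (fun _ => 1) ≠ 0 := (lt_of_lt_of_le one_pos hZ1).ne'
  have hkey : ENNReal.ofReal (fp (b ^ 2 * (1 - q) / 2) (fun A => ∑ x, π x * avk P q A x)) *
      PEx G.lam (fun _ => 1) ≤ (μ {x | ∃ y, b / 2 ≤ |x y|} + μ {x | ∃ y, b / 2 ≤ |x y|}) *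
        PEx G.lam (fun _ => 1) := by
    rw [← hpie]
    refine le_trans ?_ (hmod.trans (mul_le_mul_left (add_le_add hF1 hF0) _))
    apply le_of_eq
    congr!
  have hkey2 := (ENNReal.mul_le_mul_iff_left hZ0 hZt).1 hkey
  have hprob : IsProbabilityMeasure μ := hμ.1
  have hft : μ {x | ∃ y, b / 2 ≤ |x y|} ≠ ∞ := measure_ne_top μ _
  have h5 := ENNReal.toReal_mono (ENNReal.add_ne_top.2 ⟨hft, hft⟩) hkey2
  rw [ENNReal.toReal_add hft hft] at h5
  have h6 : 0 ≤ (μ {x | ∃ y, b / 2 ≤ |x y|}).toReal := ENNReal.toReal_nonneg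
  rcases le_total 0 (fp (b ^ 2 * (1 - q) / 2) (fun A => ∑ x, π x * avk P q A x)) with h7 | h7
  · rw [ENNReal.toReal_ofReal h7] at h5
    linarith
  · linarith

end iso

end Pool.Agent.Helper41.CT
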