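import Pool.Agent.Helper41.CT.Defs
import Pool.Agent.Helper41.CT.Iso
import Pool.Agent.Helper41.CT.ConcB

/-!
# Definitions for cover times of killed random walks and Gaussian fields
-/

set_option autoImplicit false

open scoped ENNReal NNReal Nat
open Finset MeasureTheory ProbabilityTheory

namespace Pool.Agent.Helper41.CT


/-! ## TARGETS: prove these (statements must not be changed; helper lemmas are welcome) -/

section assembly

variable {V : Type} [Fintype V] [DecidableEq V] {P : Matrix V V ℝ} {π : V → ℝ}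

theorem ct24_qf (Λ : V → V → ℝ) (y : V) :
    qf Λ (fun w => if w = y then 1 else 0) = Λ y y := by
  unfold qf
  simp

theorem ct24_E1 (c : V → ℝ) : MeasurableSet {x : V → ℝ | ∀ y, -(c y) < x y} := by
  have : {x : V → ℝ | ∀ y, -(c y) < x y} = ⋂ y, {x : V → ℝ | -(c y) < x y} := by
    ext x; simp
  rw [this]
  exact MeasurableSet.iInter fun y => measurableSet_lt measurable_const (measurable_pi_apply y)

theorem ct24_neg (μ : Measure (V → ℝ)) (Λ : V → V → ℝ) (hμ : IsG Λ μ) (c : V → ℝ) :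
    μ {x : V → ℝ | ∀ y, x y < c y} = μ {x : V → ℝ | ∀ y, -(c y) < x y} := by
  have hm : Measurable (fun x : V → ℝ => fun y => - x y) := by
    apply measurable_pi_lambda
    intro y
    exact (measurable_pi_apply y).neg
  have e := isG_neg hμ
  have e2 : μ {x : V → ℝ | ∀ y, -(c y) < x y} =
      (μ.map (fun x y => - x y)) {x : V → ℝ | ∀ y, -(c y) < x y} := by rw [e]
  rw [e2, Measure.map_apply hm (ct24_E1 c)]
  congr 1
  ext x
  simp

/-- supremum of the field over a level -/
theorem sup_level (h : Rev P π) (q : ℝ) (h0 : 0 < q) (h1 : q < 1) (θ : ℝ) (hθ1 : 1 ≤ θ) (v : V)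
    (hfp : fp θ (fun A => avk P q A v) ≤ 1 / 8) (δ γ : ℝ) (hδ : 0 < δ) (hδ1 : δ ≤ 1)
    (hγ : 0 < γ) (s : Finset V) (hs : ∀ y ∈ s, gn P π q y y ≤ γ)
    (hv : ∀ y ∈ s, hit P q v y ≤ 2 / (δ * θ))
    (μ : Measure (V → ℝ)) (hμ : IsG (gn P π q) μ) :
    ∫ x, ms s (fun y w => if w = y then 1 else 0) x ∂μ ≤ 6 * Real.sqrt (γ / δ) := by
  classical
  by_contra hcon
  push Not at hcon
  obtain ⟨b, hb⟩ : ∃ b : ℝ, b = 2 * Real.sqrt (γ / δ) := ⟨_, rfl⟩
  have hgd : 0 < γ / δ := by positivity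
  have hbpos : 0 < b := by rw [hb]; have := Real.sqrt_pos.2 hgd; linarith
  have hbsq : b ^ 2 = 4 * (γ / δ) := by
    rw [hb, mul_pow, Real.sq_sqrt hgd.le]; norm_num
  obtain ⟨a, ha⟩ : ∃ a : ℝ, a = 2 * θ / b := ⟨_, rfl⟩
  have hθ0 : 0 < θ := by linarith
  have hapos : 0 < a := by rw [ha]; positivity
  have hab : a * b / 2 = θ := by
    rw [ha]; field_simp
  have hprob := hμ.1
  have i1 := iso_sign h q h0 h1 v a b hapos hbpos μ hμ
  rw [hab] at i1
  obtain ⟨c, hc⟩ : ∃ c : V → ℝ, ∀ y, c y = a * gn P π q v y + b := ⟨_, fun _ => rfl⟩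
  have hE1 : {x : V → ℝ | ∀ y, -(a * gn P π q v y + b) < x y} =
      {x : V → ℝ | ∀ y, -(c y) < x y} := by
    ext x; simp [hc]
  rw [hE1] at i1
  have i2 : (7:ℝ)/8 ≤ μ.real {x : V → ℝ | ∀ y, -(c y) < x y} := by
    unfold Measure.real
    linarith
  have i3 : (7:ℝ)/8 ≤ μ.real {x : V → ℝ | ∀ y, x y < c y} := by
    have := ct24_neg μ _ hμ c
    unfold Measure.real at i2 ⊢
    rw [this]; exact i2
  have hsym := gn_symm h q h0 h1
  have hpsd := qf_gn_nonneg h q h0 h1
  have hsg : 0 < Real.sqrt γ := Real.sqrt_pos.2 hγ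
  have cl := conc_low hsym hpsd hμ s (fun y w => if w = y then 1 else 0) (Real.sqrt γ)
    (2 * Real.sqrt γ) hsg (by
      intro y hy
      rw [ct24_qf, Real.sq_sqrt hγ.le]
      exact hs y hy) (by positivity)
  have hexp : Real.exp (-((2 * Real.sqrt γ) ^ 2 / (5 * Real.sqrt γ ^ 2))) ≤ 5 / 9 := by
    have e1 : (2 * Real.sqrt γ) ^ 2 / (5 * Real.sqrt γ ^ 2) = 4 / 5 := by
      rw [mul_pow, Real.sq_sqrt hγ.le]
      field_simp
      norm_num
    rw [e1, Real.exp_neg]
    have := Real.add_one_le_exp (4/5 : ℝ)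
    rw [show (5:ℝ)/9 = (9/5)⁻¹ by norm_num]
    apply inv_anti₀ (by norm_num)
    linarith
  obtain ⟨E3, hE3⟩ : ∃ E3 : Set (V → ℝ), E3 = {x | ms s (fun y w => if w = y then 1 else 0) x ≤
    (∫ y, ms s (fun y w => if w = y then 1 else 0) y ∂μ) - 2 * Real.sqrt γ} := ⟨_, rfl⟩
  rw [← hE3] at cl
  have cl2 : μ.real E3 ≤ 5 / 9 := by
    unfold Measure.real
    apply ENNReal.toReal_le_of_le_ofReal (by norm_num)
    exact cl.trans (ENNReal.ofReal_le_ofReal hexp)
  -- the inclusion
  have hsub : {x : V → ℝ | ∀ y, -(c y) < x y} ∩ {x : V → ℝ | ∀ y, x y < c y} ⊆ E3 := by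
    rintro x ⟨hx1, hx2⟩
    rw [hE3]
    simp only [Set.mem_setOf_eq] at hx1 hx2 ⊢
    have hms : ms s (fun y w => if w = y then 1 else 0) x ≤ 2 * b := by
      apply ms_le _ _ _ _ (by positivity)
      intro y hy
      have e1 : ∑ w, (if w = y then (1:ℝ) else 0) * x w = x y := by simp
      rw [e1]
      have hcy : c y ≤ 2 * b := by
        rw [hc, gn_eq_hit h q h0 h1]
        have g1 := gn_diag_pos h q h0 h1 y
        have k1 : hit P q v y * gn P π q y y ≤ (2 / (δ * θ)) * γ := by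
          apply mul_le_mul (hv y hy) (hs y hy) g1.le (by positivity)
        have k2 : a * (hit P q v y * gn P π q y y) ≤ a * ((2 / (δ * θ)) * γ) :=
          mul_le_mul_of_nonneg_left k1 hapos.le
        have k3 : a * ((2 / (δ * θ)) * γ) = b := by
          rw [ha]
          have : 2 * θ / b * (2 / (δ * θ) * γ) = (4 * (γ / δ)) / b := by
            field_simp
            norm_num
          rw [this, ← hbsq, pow_two]
          field_simp
        linarith
      rw [abs_le]
      constructor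
      · linarith [hx1 y]
      · linarith [hx2 y]
    have hsq : Real.sqrt γ ≤ Real.sqrt (γ / δ) := by
      apply Real.sqrt_le_sqrt
      rw [le_div_iff₀ hδ]
      nlinarith
    linarith
  have hm1 := ct24_E1 c
  have hm2 : MeasurableSet {x : V → ℝ | ∀ y, x y < c y} := by
    have : {x : V → ℝ | ∀ y, x y < c y} = ⋂ y, {x : V → ℝ | x y < c y} := by
      ext x; simp
    rw [this]
    exact MeasurableSet.iInter fun y => measurableSet_lt (measurable_pi_apply y) measurable_const
  have j1 := measureReal_compl (μ := μ) hm1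
  have j2 := measureReal_compl (μ := μ) hm2
  have j3 : μ.real Set.univ = 1 := by simp
  have j4 : μ.real ({x : V → ℝ | ∀ y, -(c y) < x y} ∩ {x : V → ℝ | ∀ y, x y < c y}) ≤
      μ.real E3 := measureReal_mono hsub
  have j5 := measureReal_compl (μ := μ) (hm1.inter hm2)
  have j6 : μ.real ({x : V → ℝ | ∀ y, -(c y) < x y} ∩ {x : V → ℝ | ∀ y, x y < c y})ᶜ ≤
      μ.real {x : V → ℝ | ∀ y, -(c y) < x y}ᶜ + μ.real {x : V → ℝ | ∀ y, x y < c y}ᶜ := by
    rw [Set.compl_inter]
    exact measureReal_union_le _ _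
  linarith

end assembly

end Pool.Agent.Helper41.CT
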