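import Pool.Agent.Helper41.CT.Defs
import Pool.Agent.Helper41.CT.SupL
import Pool.Agent.Helper41.CT.Jens
import Pool.Agent.Helper41.CT.Psd
import Pool.Agent.Helper41.CT.ResE

/-!
# Definitions for cover times of killed random walks and Gaussian fields
-/

set_option autoImplicit false

open scoped ENNReal NNReal Nat
open Finset MeasureTheory ProbabilityTheory

namespace Pool.Agent.Helper41.CT


/-! ## TARGETS: prove these (statements must not be changed; helper lemmas are welcome) -/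

section assembly

variable {V : Type} [Fintype V] [DecidableEq V] {P : Matrix V V ℝ} {π : V → ℝ}

theorem sum_ind (x : V → ℝ) (y : V) : ∑ w, (if w = y then (1 : ℝ) else 0) * x w = x y := by
  simp

theorem sum_ind2 (x : V → ℝ) (y a : V) (l : ℝ) :
    ∑ w, ((if w = y then (1 : ℝ) else 0) - (if w = a then l else 0)) * x w = x y - l * x a := by
  simp only [sub_mul, Finset.sum_sub_distrib, ite_mul, one_mul, zero_mul, Finset.sum_ite_eq',
    Finset.mem_univ, if_true]

theorem qf_ind (Λ : V → V → ℝ) (y : V) : qf Λ (fun w => if w = y then (1 : ℝ) else 0) = Λ y y := by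
  unfold qf
  simp

theorem qf_two_clusm (Λ : V → V → ℝ) (y a : V) (l : ℝ) :
    qf Λ (fun w => (if w = y then (1 : ℝ) else 0) - (if w = a then l else 0)) =
      Λ y y - l * Λ y a - l * Λ a y + l ^ 2 * Λ a a := by
  unfold qf
  have h1 : ∀ i, ∑ j, ((if i = y then (1 : ℝ) else 0) - (if i = a then l else 0)) * Λ i j *
      ((if j = y then (1 : ℝ) else 0) - (if j = a then l else 0)) =
      ((if i = y then (1 : ℝ) else 0) - (if i = a then l else 0)) * (Λ i y - l * Λ i a) := by
    intro i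
    have h2 : ∀ j, ((if i = y then (1 : ℝ) else 0) - (if i = a then l else 0)) * Λ i j *
      ((if j = y then (1 : ℝ) else 0) - (if j = a then l else 0)) =
      ((if i = y then (1 : ℝ) else 0) - (if i = a then l else 0)) *
        (((if j = y then (1 : ℝ) else 0) - (if j = a then l else 0)) * Λ i j) := fun j => by ring
    simp only [h2]
    rw [← Finset.mul_sum, sum_ind2 (fun j => Λ i j) y a l]
  simp only [h1]
  rw [sum_ind2 (fun i => Λ i y - l * Λ i a) y a l]
  ring

omit [Fintype V] [DecidableEq V] in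
theorem ms_single {V' : Type} [Fintype V'] (a : V) (t : V → V' → ℝ) (x : V' → ℝ) :
    ms {a} t x = |∑ w, t a w * x w| := by
  unfold ms
  rw [Finset.sup_singleton, coe_nnnorm, Real.norm_eq_abs]

theorem int_abs {Λ : V → V → ℝ} {μ : Measure (V → ℝ)} (hμ : IsG Λ μ) (a : V) :
    Integrable (fun x : V → ℝ => |x a|) μ := by
  have h := ms_int hμ {a} (fun (y : V) (w : V) => if w = y then (1 : ℝ) else 0)
  refine h.congr (Filter.Eventually.of_forall fun x => ?_)
  simp only [ms_single]
  rw [sum_ind]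

theorem abs_mean {Λ : V → V → ℝ} {μ : Measure (V → ℝ)} (hμ : IsG Λ μ) (a : V) {σ : ℝ}
    (hσ : 0 ≤ σ) (h : Λ a a ≤ σ ^ 2) : ∫ x, |x a| ∂μ ≤ σ := by
  have h1 := isG_abs hμ (fun w => if w = a then (1 : ℝ) else 0) σ hσ (by rw [qf_ind]; exact h)
  simp only [sum_ind] at h1
  exact h1

/-- increments of the second field inside a cluster -/
theorem cluster_mean (h : Rev P π) (q q₁ : ℝ) (h0 : 0 < q) (hqq : q ≤ q₁) (h1 : q₁ < 1)
    (θ : ℝ) (hθ1 : 1 ≤ θ) (v : V)
    (hfp : fp θ (fun A => avk P q A v) ≤ 1 / 8) (δ γ : ℝ) (hδ : 0 < δ) (hδ1 : δ ≤ 1)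
    (hγ : 0 < γ) (s : Finset V) (hs : ∀ y ∈ s, gn P π q y y ≤ γ)
    (hv : ∀ y ∈ s, hit P q v y ≤ 2 / (δ * θ)) (a : V) (ha : a ∈ s)
    (hc : ∀ y ∈ s, 1 / 8 ≤ hit P q y a)
    (μ₁ : Measure (V → ℝ)) (hμ₁ : IsG (gn P π q₁) μ₁) :
    ∫ x, ms s (fun y w => (if w = y then 1 else 0) - (if w = a then 1 else 0)) x ∂μ₁
      ≤ 28 * Real.sqrt (γ / δ) := by
  have hq1 : q < 1 := hqq.trans_lt h1
  have h01 : 0 < q₁ := h0.trans_le hqq
  obtain ⟨μ, hμ⟩ := isG_exists (gn P π q) (gn_symm h q h0 hq1) (qf_gn_nonneg h q h0 hq1)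
  have hg1 : 0 < gn P π q₁ a a := gn_diag_pos h q₁ h01 h1 a
  have hγδ : Real.sqrt γ ≤ Real.sqrt (γ / δ) := by
    apply Real.sqrt_le_sqrt
    rw [le_div_iff₀ hδ]
    exact mul_le_of_le_one_right hγ.le hδ1
  -- comparison
  have hj : ∫ x, ms s (fun y w => (if w = y then (1 : ℝ) else 0) -
        (if w = a then hit P q₁ y a else 0)) x ∂μ₁ ≤
      Real.sqrt 11 * ∫ x, ms s (fun y w => (if w = y then (1 : ℝ) else 0) -
        (if w = a then hit P q y a else 0)) x ∂μ := by
    apply jensen (gn_symm h q₁ h01 h1) (qf_gn_nonneg h q₁ h01 h1) (gn_symm h q h0 hq1)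
      (qf_gn_nonneg h q h0 hq1) hμ₁ hμ s _ _ _ (Real.sqrt_nonneg _)
    intro c
    have hrew : ∀ r : V → ℝ, (fun w => ∑ i ∈ s, c i * ((if w = i then (1 : ℝ) else 0) -
        (if w = a then r i else 0))) = fun z => (if z ∈ s then c z else 0) -
        if z = a then ∑ y, (if y ∈ s then c y else 0) * r y else 0 := by
      intro r
      funext w
      simp only [mul_sub, Finset.sum_sub_distrib]
      congr 1
      · simp
      · by_cases hw : w = a
        · simp only [hw, if_true, ite_mul, zero_mul, Finset.sum_ite_mem, Finset.univ_inter]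
        · simp [hw]
    rw [hrew (fun y => hit P q₁ y a), hrew (fun y => hit P q y a), Real.sq_sqrt (by norm_num)]
    apply psd_cmp h q q₁ h0 hqq h1 a (fun z => if z ∈ s then c z else 0)
    intro y hy
    apply hc
    by_contra hcon
    exact hy (by simp [hcon])
  -- the first scale
  have h2 : ∫ x, ms s (fun y w => (if w = y then (1 : ℝ) else 0) -
        (if w = a then hit P q y a else 0)) x ∂μ ≤ 7 * Real.sqrt (γ / δ) := by
    have i1 := ms_int hμ s (fun (y : V) (w : V) => if w = y then (1 : ℝ) else 0)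
    have i2 := int_abs hμ a
    have e1 : ∫ x, ms s (fun y w => (if w = y then (1 : ℝ) else 0) -
        (if w = a then hit P q y a else 0)) x ∂μ ≤
        ∫ x, (ms s (fun (y : V) (w : V) => if w = y then (1 : ℝ) else 0) x + |x a|) ∂μ := by
      apply integral_mono (ms_int hμ s _) (i1.add i2)
      intro x
      change _ ≤ ms s (fun (y : V) (w : V) => if w = y then (1 : ℝ) else 0) x + |x a|
      have hms0 : 0 ≤ ms s (fun (y : V) (w : V) => if w = y then (1 : ℝ) else 0) x := by
        unfold ms; exact NNReal.coe_nonneg _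
      apply ms_le _ _ _ _ (by positivity)
      intro y hy
      rw [sum_ind2]
      have e2 := ms_ge s (fun (y : V) (w : V) => if w = y then (1 : ℝ) else 0) x y hy
      simp only [sum_ind] at e2
      have e3 : |hit P q y a * x a| ≤ |x a| := by
        rw [abs_mul, abs_of_nonneg (hit_nonneg h q h0 hq1 y a)]
        exact mul_le_of_le_one_left (abs_nonneg _) (hit_le_one h q h0 hq1 y a)
      have e4 := abs_sub (x y) (hit P q y a * x a)
      linarith
    rw [integral_add i1 i2] at e1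
    have e5 := sup_level h q h0 hq1 θ hθ1 v hfp δ γ hδ hδ1 hγ s hs hv μ hμ
    have e6 := abs_mean hμ a (Real.sqrt_nonneg γ) (by
      rw [Real.sq_sqrt hγ.le]; exact hs a ha)
    linarith
  -- the second scale
  obtain ⟨κ, hκ⟩ : ∃ κ, κ = 4 * Real.sqrt γ / Real.sqrt (gn P π q₁ a a) := ⟨_, rfl⟩
  have hsg : 0 < Real.sqrt (gn P π q₁ a a) := Real.sqrt_pos.2 hg1
  have hκ0 : 0 ≤ κ := by rw [hκ]; positivity
  have h3 : ∀ y ∈ s, 1 - hit P q₁ y a ≤ κ := by
    intro y hy
    have f1 := gn_eq_hit h q₁ h01 h1 y a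
    have f2 := qf_gn_nonneg h q₁ h01 h1
      (fun w => (if w = y then (1 : ℝ) else 0) - (if w = a then hit P q₁ y a else 0))
    rw [qf_two_clusm, gn_symm h q₁ h01 h1 a y, f1] at f2
    have f3 := key_ineq h q q₁ h0 hqq h1 y a
    rw [f1] at f3
    have f4 : 0 ≤ gn P π q y a := by
      rw [gn_eq_hit h q h0 hq1 y a]
      exact mul_nonneg (hit_nonneg h q h0 hq1 y a) (gn_diag_pos h q h0 hq1 a).le
    have f5 := hs y hy
    have f6 := hs a ha
    have f7 := hc y hy
    set p := hit P q₁ y a with hp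
    set g := gn P π q₁ a a with hg
    have f8 : (1 - p) ^ 2 * g ≤ gn P π q₁ y y + g - 2 * (p * g) := by nlinarith
    have f9 : 0 ≤ (1 - p) ^ 2 * g := by positivity
    have f10 : (gn P π q₁ y y + g - 2 * (p * g)) * (1 / 8) ≤
        (gn P π q₁ y y + g - 2 * (p * g)) * hit P q y a :=
      mul_le_mul_of_nonneg_left f7 (f9.trans f8)
    have f11 : (1 - p) ^ 2 * g ≤ 16 * γ := by linarith
    rw [hκ, le_div_iff₀ hsg]
    apply le_of_sq_le_sq _ (by positivity)
    rw [mul_pow, mul_pow, Real.sq_sqrt hg1.le, Real.sq_sqrt hγ.le]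
    linarith
  have h4 : ∫ x, ms s (fun y w => (if w = y then (1 : ℝ) else 0) - (if w = a then 1 else 0)) x ∂μ₁ ≤
      ∫ x, ms s (fun y w => (if w = y then (1 : ℝ) else 0) -
        (if w = a then hit P q₁ y a else 0)) x ∂μ₁ + κ * ∫ x, |x a| ∂μ₁ := by
    have i1 := ms_int hμ₁ s (fun (y : V) (w : V) => (if w = y then (1 : ℝ) else 0) -
        (if w = a then hit P q₁ y a else 0))
    have i2 := (int_abs hμ₁ a).const_mul κ
    rw [← integral_const_mul, ← integral_add i1 i2]
    apply integral_mono (ms_int hμ₁ s _) (i1.add i2)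
    intro x
    change _ ≤ ms s (fun (y : V) (w : V) => (if w = y then (1 : ℝ) else 0) -
        (if w = a then hit P q₁ y a else 0)) x + κ * |x a|
    have hms0 : 0 ≤ ms s (fun (y : V) (w : V) => (if w = y then (1 : ℝ) else 0) -
        (if w = a then hit P q₁ y a else 0)) x := by
      unfold ms; exact NNReal.coe_nonneg _
    apply ms_le _ _ _ _ (by positivity)
    intro y hy
    rw [sum_ind2]
    have e2 := ms_ge s (fun (y : V) (w : V) => (if w = y then (1 : ℝ) else 0) -
        (if w = a then hit P q₁ y a else 0)) x y hy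
    rw [sum_ind2] at e2
    have e3 : |(1 - hit P q₁ y a) * x a| ≤ κ * |x a| := by
      rw [abs_mul, abs_of_nonneg (sub_nonneg.2 (hit_le_one h q₁ h01 h1 y a))]
      exact mul_le_mul_of_nonneg_right (h3 y hy) (abs_nonneg _)
    have e4 : x y - 1 * x a = (x y - hit P q₁ y a * x a) - (1 - hit P q₁ y a) * x a := by ring
    rw [e4]
    have e5 := abs_sub (x y - hit P q₁ y a * x a) ((1 - hit P q₁ y a) * x a)
    linarith
  have h5 : κ * ∫ x, |x a| ∂μ₁ ≤ 4 * Real.sqrt γ := by
    have e1 := abs_mean hμ₁ a (Real.sqrt_nonneg (gn P π q₁ a a)) (by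
      rw [Real.sq_sqrt hg1.le])
    calc κ * ∫ x, |x a| ∂μ₁ ≤ κ * Real.sqrt (gn P π q₁ a a) := mul_le_mul_of_nonneg_left e1 hκ0
      _ = 4 * Real.sqrt γ := by rw [hκ, div_mul_cancel₀ _ hsg.ne']
  have h11 : Real.sqrt 11 ≤ 24 / 7 := by
    rw [Real.sqrt_le_left (by norm_num)]
    norm_num
  have h6 : Real.sqrt 11 * ∫ x, ms s (fun y w => (if w = y then (1 : ℝ) else 0) -
        (if w = a then hit P q y a else 0)) x ∂μ ≤ 24 / 7 * (7 * Real.sqrt (γ / δ)) := by
    have e0 : 0 ≤ 7 * Real.sqrt (γ / δ) := by positivity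
    calc _ ≤ Real.sqrt 11 * (7 * Real.sqrt (γ / δ)) :=
          mul_le_mul_of_nonneg_left h2 (Real.sqrt_nonneg _)
      _ ≤ _ := mul_le_mul_of_nonneg_right h11 e0
  linarith

end assembly

end Pool.Agent.Helper41.CT
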