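import Pool.Agent.Helper41.CT.Defs
import Pool.Agent.Helper41.CT.ClusM

/-!
# Definitions for cover times of killed random walks and Gaussian fields
-/

set_option autoImplicit false

open scoped ENNReal NNReal Nat
open Finset MeasureTheory ProbabilityTheory

namespace Pool.Agent.Helper41.CT


/-! ## TARGETS: prove these (statements must not be changed; helper lemmas are welcome) -/

section assembly

variable {V : Type} [Fintype V] [DecidableEq V] {P : Matrix V V ℝ} {π : V → ℝ}

theorem ct26_qf (Λ : V → V → ℝ) (y a : V) :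
    qf Λ (fun w => (if w = y then 1 else 0) - (if w = a then 1 else 0)) =
      Λ y y - Λ y a - Λ a y + Λ a a := by
  unfold qf
  have h1 : ∀ i j : V, (((if i = y then (1:ℝ) else 0) - (if i = a then 1 else 0)) * Λ i j *
      ((if j = y then 1 else 0) - (if j = a then 1 else 0))) =
      (if j = y then (((if i = y then (1:ℝ) else 0) - (if i = a then 1 else 0)) * Λ i j) else 0) -
      (if j = a then (((if i = y then (1:ℝ) else 0) - (if i = a then 1 else 0)) * Λ i j) else 0)
      := by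
    intro i j
    split_ifs <;> ring
  simp_rw [h1, Finset.sum_sub_distrib, Finset.sum_ite_eq', Finset.mem_univ, if_true]
  have h2 : ∀ i : V, ∀ c : ℝ, ((if i = y then (1:ℝ) else 0) - (if i = a then 1 else 0)) * c =
      (if i = y then c else 0) - (if i = a then c else 0) := by
    intro i c
    split_ifs <;> ring
  simp_rw [h2, Finset.sum_sub_distrib, Finset.sum_ite_eq', Finset.mem_univ, if_true]
  ring

/-- tail of the increments inside a cluster -/
theorem cluster_tail (h : Rev P π) (q q₁ : ℝ) (h0 : 0 < q) (hqq : q ≤ q₁) (h1 : q₁ < 1)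
    (θ : ℝ) (hθ1 : 1 ≤ θ) (v : V)
    (hfp : fp θ (fun A => avk P q A v) ≤ 1 / 8) (δ γ : ℝ) (hδ : 0 < δ) (hδ1 : δ ≤ 1)
    (hγ : 0 < γ) (s : Finset V) (hs : ∀ y ∈ s, gn P π q y y ≤ γ)
    (hv : ∀ y ∈ s, hit P q v y ≤ 2 / (δ * θ)) (a : V) (ha : a ∈ s)
    (hc : ∀ y ∈ s, 1 / 8 ≤ hit P q y a)
    (μ₁ : Measure (V → ℝ)) (hμ₁ : IsG (gn P π q₁) μ₁) (r : ℝ) (hr : 0 ≤ r) :
    μ₁ {x | 28 * Real.sqrt (γ / δ) + r
        ≤ ms s (fun y w => (if w = y then 1 else 0) - (if w = a then 1 else 0)) x}
      ≤ ENNReal.ofReal (Real.exp (-(r ^ 2 / (80 * γ)))) := by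
  have hq1 : 0 < q₁ := by linarith
  have hq : q < 1 := by linarith
  have hsym : ∀ x y, gn P π q₁ x y = gn P π q₁ y x := fun x y => gn_symm h q₁ hq1 h1 x y
  have hσ : 0 < 4 * Real.sqrt γ := by positivity
  have hσ2 : (4 * Real.sqrt γ) ^ 2 = 16 * γ := by
    rw [mul_pow, Real.sq_sqrt hγ.le]; ring
  have hcu := conc_up hsym (fun t => qf_gn_nonneg h q₁ hq1 h1 t) hμ₁ s
    (fun y w => (if w = y then 1 else 0) - (if w = a then 1 else 0)) (4 * Real.sqrt γ) r hσ
    (by
      intro y hy
      have hR0 := qf_gn_nonneg h q₁ hq1 h1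
        (fun w => (if w = y then 1 else 0) - (if w = a then 1 else 0))
      rw [ct26_qf] at hR0 ⊢
      rw [hσ2]
      have hk := key_ineq h q q₁ h0 hqq h1 y a
      have e1 := hs y hy
      have e2 := hs a ha
      have e3 : 0 ≤ gn P π q y a := by
        rw [gn_eq_hit h q h0 hq]
        exact mul_nonneg (hit_nonneg h q h0 hq y a) (gn_diag_pos h q h0 hq a).le
      have e4 := hc y hy
      have e5 := hsym a y
      have e6 : gn P π q₁ y y - gn P π q₁ y a - gn P π q₁ a y + gn P π q₁ a a =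
          gn P π q₁ y y + gn P π q₁ a a - 2 * gn P π q₁ y a := by rw [e5]; ring
      rw [e6] at hR0 ⊢
      nlinarith) hr
  have hmean := cluster_mean h q q₁ h0 hqq h1 θ hθ1 v hfp δ γ hδ hδ1 hγ s hs hv a ha hc μ₁ hμ₁
  refine (measure_mono ?_).trans (hcu.trans (le_of_eq ?_))
  · intro x hx
    simp only [Set.mem_setOf_eq] at hx ⊢
    linarith
  · rw [hσ2]
    congr 3
    ring

end assembly

end Pool.Agent.Helper41.CT
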