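import Pool.Agent.Helper41.CT.Defs


/-!
# Definitions for cover times of killed random walks and Gaussian fields
-/

set_option autoImplicit false

open scoped ENNReal NNReal Nat
open Finset MeasureTheory ProbabilityTheory

namespace Pool.Agent.Helper41.CT

/-! ## TARGETS: prove these (statements must not be changed; helper lemmas are welcome) -/

section assembly

variable {V : Type} [Fintype V] [DecidableEq V] {P : Matrix V V ℝ} {π : V → ℝ}

/-- a maximal subset of pairwise unrelated points -/
theorem max_sep (s : Finset V) (r : V → V → Prop) (hr : ∀ x y, r x y → r y x) :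
    ∃ N ⊆ s, (∀ x ∈ N, ∀ y ∈ N, x ≠ y → ¬ r x y) ∧ ∀ x ∈ s, ∃ y ∈ N, x = y ∨ r x y := by
  classical
  obtain ⟨N, hN, hmax⟩ := Finset.exists_max_image
    (s.powerset.filter (fun N => ∀ x ∈ N, ∀ y ∈ N, x ≠ y → ¬ r x y)) Finset.card
    ⟨∅, by simp⟩
  rw [Finset.mem_filter, Finset.mem_powerset] at hN
  refine ⟨N, hN.1, hN.2, fun x hx => ?_⟩
  by_contra hcon
  push Not at hcon
  have hxN : x ∉ N := fun h => (hcon x h).1 rfl
  have h1 : insert x N ∈ s.powerset.filter (fun N => ∀ x ∈ N, ∀ y ∈ N, x ≠ y → ¬ r x y) := by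
    rw [Finset.mem_filter, Finset.mem_powerset]
    refine ⟨Finset.insert_subset hx hN.1, ?_⟩
    intro a ha b hb hab
    rcases Finset.mem_insert.1 ha with rfl | ha2
    · rcases Finset.mem_insert.1 hb with rfl | hb2
      · exact absurd rfl hab
      · exact (hcon b hb2).2
    · rcases Finset.mem_insert.1 hb with rfl | hb2
      · exact fun h => (hcon a ha2).2 (hr _ _ h)
      · exact hN.2 a ha2 b hb2 hab
  have h2 := hmax _ h1
  rw [Finset.card_insert_of_notMem hxN] at h2
  omega

end assembly

end Pool.Agent.Helper41.CT
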