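import Pool.Agent.Helper41.CT.Defs


/-!
# Definitions for cover times of killed random walks and Gaussian fields
-/

set_option autoImplicit false

open scoped ENNReal NNReal Nat
open Finset MeasureTheory ProbabilityTheory

namespace Pool.Agent.Helper41.CT

/-! ## TARGETS: prove these (statements must not be changed; helper lemmas are welcome) -/

section laws

variable {V : Type} [Fintype V] [DecidableEq V]

theorem en_nonneg {ρ : Finset V → ℝ} (hρ : IsLaw ρ) (n : ℕ) (S : Finset V) : 0 ≤ en ρ n S := by
  induction n generalizing S with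
  | zero => unfold en; split_ifs <;> norm_num
  | succ n ih =>
    unfold en
    exact Finset.sum_nonneg fun R _ => mul_nonneg (hρ.nn R) (ih _)

theorem en_le_one {ρ : Finset V → ℝ} (hρ : IsLaw ρ) (n : ℕ) (S : Finset V) : en ρ n S ≤ 1 := by
  induction n generalizing S with
  | zero => unfold en; split_ifs <;> norm_num
  | succ n ih =>
    unfold en
    rw [← hρ.tot]
    exact Finset.sum_le_sum fun R _ => mul_le_of_le_one_right (hρ.nn R) (ih _)

theorem en_mono {ρ : Finset V → ℝ} (hρ : IsLaw ρ) (n : ℕ) (S S' : Finset V) (hS : S ⊆ S') :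
    en ρ n S ≤ en ρ n S' := by
  induction n generalizing S S' with
  | zero =>
    unfold en
    by_cases h : S' = ∅
    · have : S = ∅ := by
        rw [h] at hS
        exact Finset.subset_empty.1 hS
      rw [if_pos h, if_pos this]
    · rw [if_neg h]
      split_ifs <;> norm_num
  | succ n ih =>
    unfold en
    exact Finset.sum_le_sum fun R _ =>
      mul_le_mul_of_nonneg_left (ih _ _ (Finset.sdiff_subset_sdiff hS (Finset.Subset.refl R))) (hρ.nn R)

theorem en_succ_le {ρ : Finset V → ℝ} (hρ : IsLaw ρ) (n : ℕ) (S : Finset V) :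
    en ρ (n + 1) S ≤ en ρ n S := by
  induction n generalizing S with
  | zero =>
    by_cases h : S = ∅
    · subst h
      have h1 : en ρ (0 + 1) (∅ : Finset V) = 0 := by
        unfold en
        apply Finset.sum_eq_zero
        intro R _
        unfold en
        simp
      rw [h1]
      exact en_nonneg hρ 0 ∅
    · have h1 : en ρ 0 S = 1 := by unfold en; rw [if_neg h]
      rw [h1]
      exact en_le_one hρ _ _
  | succ n ih =>
    have h1 : en ρ (n + 1 + 1) S = ∑ R, ρ R * en ρ (n + 1) (S \ R) := rfl
    have h2 : en ρ (n + 1) S = ∑ R, ρ R * en ρ n (S \ R) := rfl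
    rw [h1, h2]
    exact Finset.sum_le_sum fun R _ => mul_le_mul_of_nonneg_left (ih _) (hρ.nn R)

theorem en_anti {ρ : Finset V → ℝ} (hρ : IsLaw ρ) (m n : ℕ) (hmn : m ≤ n) (S : Finset V) :
    en ρ n S ≤ en ρ m S := by
  induction n, hmn using Nat.le_induction with
  | base => exact le_rfl
  | succ n _ ih => exact (en_succ_le hρ n S).trans ih

theorem en_empty (ρ : Finset V → ℝ) (n : ℕ) : en ρ n ∅ = 0 := by
  induction n with
  | zero => unfold en; simp
  | succ n ih =>
    unfold en
    apply Finset.sum_eq_zero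
    intro R _
    rw [Finset.empty_sdiff, ih, mul_zero]

theorem en_mul {ρ : Finset V → ℝ} (hρ : IsLaw ρ) (m n : ℕ) (S : Finset V) :
    en ρ (m + n) S ≤ en ρ m S * en ρ n S := by
  induction m generalizing S with
  | zero =>
    rw [zero_add]
    by_cases h : S = ∅
    · subst h
      rw [en_empty, en_empty]
      simp
    · have h1 : en ρ 0 S = 1 := by unfold en; rw [if_neg h]
      rw [h1, one_mul]
  | succ m ih =>
    have h1 : en ρ (m + 1 + n) S = ∑ R, ρ R * en ρ (m + n) (S \ R) := by
      rw [show m + 1 + n = m + n + 1 by ring]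
      rfl
    have h2 : en ρ (m + 1) S = ∑ R, ρ R * en ρ m (S \ R) := rfl
    rw [h1, h2, Finset.sum_mul]
    apply Finset.sum_le_sum
    intro R _
    rw [mul_assoc]
    apply mul_le_mul_of_nonneg_left _ (hρ.nn R)
    refine (ih (S \ R)).trans ?_
    exact mul_le_mul_of_nonneg_left (en_mono hρ n _ _ Finset.sdiff_subset) (en_nonneg hρ m _)

/-- inclusion-exclusion -/
theorem en_pie {ρ : Finset V → ℝ} (hρ : IsLaw ρ) (n : ℕ) (S : Finset V) :
    en ρ n S = ∑ A : Finset V, if A ≠ ∅ ∧ A ⊆ S then (-1 : ℝ) ^ (A.card + 1) * (avo ρ A) ^ n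
      else 0 := by
  induction n generalizing S with
  | zero =>
    have h1 : ∑ A : Finset V, (if A ≠ ∅ ∧ A ⊆ S then (-1 : ℝ) ^ (A.card + 1) * (avo ρ A) ^ 0
        else 0) = ∑ A : Finset V, ((if A ⊆ S then (-1 : ℝ) ^ (A.card + 1) else 0) +
          (if A = ∅ then 1 else 0)) := by
      apply Finset.sum_congr rfl
      intro A _
      by_cases hA : A = ∅
      · subst hA; simp
      · by_cases hAS : A ⊆ S <;> simp [hA, hAS]
    have h2 : ∑ A : Finset V, (if A ⊆ S then (-1 : ℝ) ^ (A.card + 1) else 0) =
        -(∑ A ∈ S.powerset, (-1 : ℝ) ^ A.card) := by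
      rw [← Finset.sum_filter, ← Finset.sum_neg_distrib]
      have h3 : (Finset.univ.filter (fun A : Finset V => A ⊆ S)) = S.powerset := by
        ext A; simp
      rw [h3]
      apply Finset.sum_congr rfl
      intro A _
      rw [pow_succ]; ring
    have h4 : ∑ A ∈ S.powerset, (-1 : ℝ) ^ A.card = if S = ∅ then 1 else 0 := by
      have h5 := Finset.sum_powerset_neg_one_pow_card (x := S)
      have h6 : ((∑ A ∈ S.powerset, (-1 : ℤ) ^ A.card : ℤ) : ℝ) = ((if S = ∅ then 1 else 0 : ℤ) : ℝ) := by
        rw [h5]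
      push_cast at h6
      rw [h6]
    rw [h1, Finset.sum_add_distrib, h2, h4, Finset.sum_ite_eq' Finset.univ (∅ : Finset V)]
    unfold en
    by_cases h : S = ∅ <;> simp [h]
  | succ n ih =>
    have h1 : en ρ (n + 1) S = ∑ R, ρ R * en ρ n (S \ R) := rfl
    rw [h1]
    simp_rw [ih, Finset.mul_sum]
    rw [Finset.sum_comm]
    apply Finset.sum_congr rfl
    intro A _
    by_cases hA : A = ∅
    · subst hA; simp
    · by_cases hAS : A ⊆ S
      · rw [if_pos ⟨hA, hAS⟩, pow_succ (avo ρ A) n]
        have h2 : (-1 : ℝ) ^ (A.card + 1) * (avo ρ A ^ n * avo ρ A) =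
            ∑ R, ((-1 : ℝ) ^ (A.card + 1) * avo ρ A ^ n) * (if Disjoint R A then ρ R else 0) := by
          rw [← Finset.mul_sum, ← mul_assoc]
          rfl
        rw [h2]
        apply Finset.sum_congr rfl
        intro R _
        by_cases hd : Disjoint R A
        · have h3 : A ⊆ S \ R := by
            rw [Finset.subset_sdiff]
            exact ⟨hAS, hd.symm⟩
          rw [if_pos ⟨hA, h3⟩, if_pos hd]
          ring
        · have h3 : ¬ (A ≠ ∅ ∧ A ⊆ S \ R) := by
            rintro ⟨_, h⟩
            rw [Finset.subset_sdiff] at h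
            exact hd h.2.symm
          rw [if_neg h3, if_neg hd]
          ring
      · rw [if_neg (fun h => hAS h.2)]
        apply Finset.sum_eq_zero
        intro R _
        rw [if_neg, mul_zero]
        rintro ⟨_, h⟩
        exact hAS (h.trans Finset.sdiff_subset)

end laws

end Pool.Agent.Helper41.CT
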