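import Pool.Agent.Helper41.CT.Defs
import Pool.Agent.Helper41.CT.LawA

/-!
# Definitions for cover times of killed random walks and Gaussian fields
-/

set_option autoImplicit false

open scoped ENNReal NNReal Nat
open Finset MeasureTheory ProbabilityTheory

namespace Pool.Agent.Helper41.CT


/-! ## TARGETS: prove these (statements must not be changed; helper lemmas are welcome) -/

section laws

variable {V : Type} [Fintype V] [DecidableEq V]

theorem ct10_exp (x : ℝ) : HasSum (fun n : ℕ => x ^ n / (n ! : ℝ)) (Real.exp x) := by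
  rw [Real.exp_eq_exp_ℝ]
  exact NormedSpace.expSeries_div_hasSum_exp x

theorem ct10_a (θ a : ℝ) : HasSum (fun n : ℕ => Real.exp (-θ) * θ ^ n / (n ! : ℝ) * a ^ n)
    (Real.exp (-(θ * (1 - a)))) := by
  have h := (ct10_exp (θ * a)).mul_left (Real.exp (-θ))
  rw [← Real.exp_add] at h
  rw [show -(θ * (1 - a)) = -θ + θ * a by ring]
  refine h.congr_fun ?_ |> fun x => x
  intro n
  rw [mul_pow]
  ring

theorem fp_series {ρ : Finset V → ℝ} (hρ : IsLaw ρ) (θ : ℝ) :
    HasSum (fun n : ℕ => Real.exp (-θ) * θ ^ n / (n ! : ℝ) * en ρ n univ) (fp θ (avo ρ)) := by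
  unfold fp
  have h : ∀ A ∈ (univ : Finset (Finset V)), HasSum (fun n : ℕ => Real.exp (-θ) * θ ^ n / (n ! : ℝ) *
      (if A ≠ ∅ ∧ A ⊆ univ then (-1 : ℝ) ^ (A.card + 1) * (avo ρ A) ^ n else 0))
      (if A = ∅ then 0 else (-1 : ℝ) ^ (A.card + 1) * Real.exp (-(θ * (1 - avo ρ A)))) := by
    intro A _
    by_cases hA : A = ∅
    · simp only [hA, if_true, ne_eq, not_true_eq_false, false_and, if_false, mul_zero]
      exact hasSum_zero
    · simp only [hA, if_false, ne_eq, not_false_eq_true, true_and, Finset.subset_univ, if_true]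
      have h1 := (ct10_a θ (avo ρ A)).mul_left ((-1 : ℝ) ^ (A.card + 1))
      have e : (fun n : ℕ => Real.exp (-θ) * θ ^ n / (n ! : ℝ) *
        ((-1 : ℝ) ^ (A.card + 1) * (avo ρ A) ^ n)) = fun n : ℕ => (-1 : ℝ) ^ (A.card + 1) *
        (Real.exp (-θ) * θ ^ n / (n ! : ℝ) * (avo ρ A) ^ n) := by
        funext n; ring
      rw [e]
      exact h1
  have h2 := hasSum_sum h
  have e : (fun n : ℕ => Real.exp (-θ) * θ ^ n / (n ! : ℝ) * en ρ n univ) =
      fun n : ℕ => ∑ A : Finset V, Real.exp (-θ) * θ ^ n / (n ! : ℝ) *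
      (if A ≠ ∅ ∧ A ⊆ univ then (-1 : ℝ) ^ (A.card + 1) * (avo ρ A) ^ n else 0) := by
    funext n
    rw [en_pie hρ, Finset.mul_sum]
  rw [e]
  exact h2

theorem fp_nonneg {ρ : Finset V → ℝ} (hρ : IsLaw ρ) (θ : ℝ) (hθ : 0 ≤ θ) :
    0 ≤ fp θ (avo ρ) := by
  apply (fp_series hρ θ).nonneg
  intro n
  have := en_nonneg hρ n univ
  positivity

theorem fp_single {ρ : Finset V → ℝ} (hρ : IsLaw ρ) (θ : ℝ) (hθ : 0 ≤ θ) (y : V) :
    Real.exp (-(θ * (1 - avo ρ {y}))) ≤ fp θ (avo ρ) := by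
  apply hasSum_le _ (ct10_a θ (avo ρ {y})) (fp_series hρ θ)
  intro n
  have h1 : en ρ n {y} = (avo ρ {y}) ^ n := by
    rw [en_pie hρ, Finset.sum_eq_single {y}]
    · rw [if_pos ⟨Finset.singleton_ne_empty y, Finset.Subset.refl _⟩, Finset.card_singleton]
      norm_num
    · intro A _ hA
      rw [if_neg]
      rintro ⟨h2, h3⟩
      rcases Finset.subset_singleton_iff.1 h3 with h4 | h4
      · exact h2 h4
      · exact hA h4
    · intro h2
      exact absurd (Finset.mem_univ _) h2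
  have h2 := en_mono hρ n {y} univ (Finset.subset_univ _)
  rw [h1] at h2
  apply mul_le_mul_of_nonneg_left h2
  positivity

/-- from the Poisson process to a fixed number of sets -/
theorem depois {ρ : Finset V → ℝ} (hρ : IsLaw ρ) (θ : ℝ) (hθ : 0 ≤ θ) (n : ℕ)
    (hn : 2 * θ ≤ n + 1) : en ρ n univ ≤ 2 * fp θ (avo ρ) := by
  have hp : HasSum (fun m : ℕ => Real.exp (-θ) * θ ^ m / (m ! : ℝ)) 1 := by
    have := ct10_a θ 1
    simpa using this
  have hp2 : HasSum (fun m : ℕ => (m : ℝ) * (Real.exp (-θ) * θ ^ m / (m ! : ℝ))) θ := by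
    rw [← hasSum_nat_add_iff' 1]
    have h1 := hp.mul_left θ
    simp only [Finset.range_one, Finset.sum_singleton, Nat.cast_zero, zero_mul, sub_zero]
    rw [mul_one] at h1
    refine h1.congr_fun ?_ |> fun x => x
    intro m
    rw [Nat.factorial_succ]
    push_cast
    have : ((m:ℝ) + 1) ≠ 0 := by positivity
    have h2 : (m ! : ℝ) ≠ 0 := by positivity
    field_simp
    ring
  have hE := en_nonneg hρ n univ
  have hn1 : (0:ℝ) < n + 1 := by positivity
  have h3 : HasSum (fun m : ℕ => (Real.exp (-θ) * θ ^ m / (m ! : ℝ) -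
      (m : ℝ) * (Real.exp (-θ) * θ ^ m / (m ! : ℝ)) / (n + 1)) * en ρ n univ)
      ((1 - θ / (n + 1)) * en ρ n univ) :=
    (hp.sub (hp2.div_const _)).mul_right _
  have h4 := hasSum_le (fun m => ?_) h3 (fp_series hρ θ)
  · have h5 : θ / (n + 1) ≤ 1 / 2 := by
      rw [div_le_div_iff₀ hn1 (by norm_num)]
      linarith
    nlinarith
  · have hpm : 0 ≤ Real.exp (-θ) * θ ^ m / (m ! : ℝ) := by positivity
    have hEm := en_nonneg hρ m univ
    rcases le_or_gt m n with h | h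
    · have h6 := en_anti hρ m n h univ
      have h7 : Real.exp (-θ) * θ ^ m / (m ! : ℝ) -
        (m : ℝ) * (Real.exp (-θ) * θ ^ m / (m ! : ℝ)) / (n + 1) ≤
          Real.exp (-θ) * θ ^ m / (m ! : ℝ) := by
        have : 0 ≤ (m : ℝ) * (Real.exp (-θ) * θ ^ m / (m ! : ℝ)) / (n + 1) := by positivity
        linarith
      calc _ ≤ Real.exp (-θ) * θ ^ m / (m ! : ℝ) * en ρ n univ :=
            mul_le_mul_of_nonneg_right h7 hE
        _ ≤ _ := mul_le_mul_of_nonneg_left h6 hpm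
    · have h8 : (n:ℝ) + 1 ≤ m := by exact_mod_cast h
      have h9 : Real.exp (-θ) * θ ^ m / (m ! : ℝ) -
        (m : ℝ) * (Real.exp (-θ) * θ ^ m / (m ! : ℝ)) / (n + 1) ≤ 0 := by
        rw [sub_nonpos, le_div_iff₀ hn1]
        nlinarith
      calc _ ≤ 0 := mul_nonpos_of_nonpos_of_nonneg h9 hE
        _ ≤ _ := mul_nonneg hpm hEm

end laws

end Pool.Agent.Helper41.CT
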