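import Pool.Agent.Helper41.CT.Defs
import Pool.Agent.Helper41.CT.LawA

/-!
# Definitions for cover times of killed random walks and Gaussian fields
-/

set_option autoImplicit false

open scoped ENNReal NNReal Nat
open Finset MeasureTheory ProbabilityTheory

namespace Pool.Agent.Helper41.CT


/-! ## TARGETS: prove these (statements must not be changed; helper lemmas are welcome) -/

section laws

variable {V : Type} [Fintype V] [DecidableEq V]

/-- probability that `b` is covered by one set -/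
noncomputable def j6399_p (ρ : Finset V → ℝ) (b : V) : ℝ := ∑ R, if b ∈ R then ρ R else 0

/-- weighted sum of the differences -/
noncomputable def j6399_W (ρ : Finset V → ℝ) (N : Finset V → ℝ) (S : Finset V) : ℝ :=
  ∑ b ∈ S, j6399_p ρ b * (N S - N (S.erase b))

theorem j6399_summ {ρ : Finset V → ℝ} (hρ : IsLaw ρ) (n : ℕ) (hn : en ρ n univ ≤ 1 / 2)
    (S : Finset V) : Summable (fun j => en ρ j S) ∧ ∑' j, en ρ j S ≤ 2 * n := by
  have hnS : en ρ n S ≤ 1 / 2 := (en_mono hρ n S univ (subset_univ S)).trans hn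
  have hb : ∀ M, ∑ j ∈ range M, en ρ j S ≤ 2 * (n : ℝ) := by
    intro M
    have h1 : ∑ j ∈ range M, en ρ j S ≤ ∑ j ∈ range (n + M), en ρ j S :=
      Finset.sum_le_sum_of_subset_of_nonneg (Finset.range_mono (Nat.le_add_left M n))
        (fun j _ _ => en_nonneg hρ j S)
    have h2 : ∑ j ∈ range (n + M), en ρ j S = ∑ j ∈ range n, en ρ j S
        + ∑ j ∈ range M, en ρ (n + j) S := Finset.sum_range_add _ n M
    have h3 : ∑ j ∈ range n, en ρ j S ≤ n := by
      have := Finset.sum_le_sum (s := range n) (fun j _ => en_le_one hρ j S)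
      simpa using this
    have h4 : ∑ j ∈ range M, en ρ (n + j) S ≤ 1 / 2 * ∑ j ∈ range M, en ρ j S := by
      rw [Finset.mul_sum]
      refine Finset.sum_le_sum fun j _ => ?_
      exact (en_mul hρ n j S).trans (mul_le_mul_of_nonneg_right hnS (en_nonneg hρ j S))
    linarith
  exact ⟨summable_of_sum_range_le (fun j => en_nonneg hρ j S) hb,
    Real.tsum_le_of_sum_range_le (fun j => en_nonneg hρ j S) hb⟩

theorem j6399_empty (ρ : Finset V → ℝ) (j : ℕ) : en ρ j (∅ : Finset V) = 0 := by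
  induction j with
  | zero => simp [en]
  | succ j ih =>
    simp only [en, Finset.empty_sdiff, ih, mul_zero, Finset.sum_const_zero]

theorem j6399_rec {ρ : Finset V → ℝ} (hs : ∀ S, Summable (fun j => en ρ j S)) (S : Finset V)
    (hS : S.Nonempty) :
    ∑' j, en ρ j S = 1 + ∑ R, ρ R * ∑' j, en ρ j (S \ R) := by
  rw [(hs S).tsum_eq_zero_add]
  congr 1
  · rw [en, if_neg hS.ne_empty]
  · have e : ∀ j, en ρ (j + 1) S = ∑ R, ρ R * en ρ j (S \ R) := fun j => rfl
    simp only [e]
    rw [Summable.tsum_finsetSum (fun R _ => (hs (S \ R)).mul_left (ρ R))]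
    refine Finset.sum_congr rfl fun R _ => ?_
    rw [tsum_mul_left]

theorem j6399_p1 {ρ : Finset V → ℝ} (hρ : IsLaw ρ) (N : Finset V → ℝ) (hN0 : N ∅ = 0)
    (hNr : ∀ S : Finset V, S.Nonempty → N S = 1 + ∑ R, ρ R * N (S \ R)) (b : V) :
    j6399_p ρ b * N {b} = 1 := by
  have h1 := hNr {b} (Finset.singleton_nonempty b)
  have h2 : ∀ R : Finset V, ρ R * N ({b} \ R) = (ρ R - if b ∈ R then ρ R else 0) * N {b} := by
    intro R
    by_cases hR : b ∈ R
    · rw [if_pos hR, Finset.sdiff_eq_empty_iff_subset.2 (Finset.singleton_subset_iff.2 hR), hN0]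
      ring
    · rw [if_neg hR, Finset.sdiff_eq_self_of_disjoint (Finset.disjoint_singleton_left.2 hR)]
      ring
  rw [Finset.sum_congr rfl (fun R _ => h2 R), ← Finset.sum_mul, Finset.sum_sub_distrib, hρ.tot] at h1
  unfold j6399_p
  linarith

theorem j6399_pnn {ρ : Finset V → ℝ} (hρ : IsLaw ρ) (b : V) : 0 ≤ j6399_p ρ b := by
  refine Finset.sum_nonneg fun R _ => ?_
  split_ifs
  · exact hρ.nn R
  · exact le_rfl

theorem j6399_ppos {ρ : Finset V → ℝ} (hρ : IsLaw ρ) (N : Finset V → ℝ) (hN0 : N ∅ = 0)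
    (hNr : ∀ S : Finset V, S.Nonempty → N S = 1 + ∑ R, ρ R * N (S \ R)) (b : V) :
    0 < j6399_p ρ b := by
  refine lt_of_le_of_ne (j6399_pnn hρ b) ?_
  intro h
  have := j6399_p1 hρ N hN0 hNr b
  rw [← h, zero_mul] at this
  exact zero_ne_one this

theorem j6399_Wrec {ρ : Finset V → ℝ} (N : Finset V → ℝ)
    (hNr : ∀ S : Finset V, S.Nonempty → N S = 1 + ∑ R, ρ R * N (S \ R)) (S : Finset V)
    (h2 : 2 ≤ S.card) : j6399_W ρ N S = ∑ R, ρ R * j6399_W ρ N (S \ R) := by
  have hS : S.Nonempty := Finset.card_pos.1 (by omega)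
  have hD : ∀ b ∈ S, N S - N (S.erase b) = ∑ R, ρ R * (N (S \ R) - N ((S \ R).erase b)) := by
    intro b hb
    have hE : (S.erase b).Nonempty := Finset.card_pos.1 (by rw [Finset.card_erase_of_mem hb]; omega)
    rw [hNr S hS, hNr _ hE, add_sub_add_left_eq_sub, ← Finset.sum_sub_distrib]
    refine Finset.sum_congr rfl fun R _ => ?_
    rw [Finset.erase_sdiff_comm]
    ring
  have hR : ∀ R : Finset V, j6399_W ρ N (S \ R)
      = ∑ b ∈ S, j6399_p ρ b * (N (S \ R) - N ((S \ R).erase b)) := by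
    intro R
    unfold j6399_W
    refine Finset.sum_subset Finset.sdiff_subset fun b _ hb => ?_
    rw [Finset.erase_eq_of_notMem hb]
    ring
  unfold j6399_W at *
  rw [Finset.sum_congr rfl (fun b hb => by rw [hD b hb])]
  simp only [hR, Finset.mul_sum]
  rw [Finset.sum_comm]
  refine Finset.sum_congr rfl fun R _ => Finset.sum_congr rfl fun b _ => ?_
  ring

theorem j6399_cover {ρ : Finset V → ℝ} (hρ : IsLaw ρ) (S : Finset V) (b : V) (hb : b ∈ S) :
    j6399_p ρ b ≤ 1 - ∑ R, if Disjoint R S then ρ R else 0 := by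
  rw [← hρ.tot, ← Finset.sum_sub_distrib]
  refine Finset.sum_le_sum fun R _ => ?_
  have := hρ.nn R
  by_cases h1 : b ∈ R
  · rw [if_pos h1, if_neg (fun hd => Finset.disjoint_left.1 hd h1 hb)]
    linarith
  · rw [if_neg h1]
    split_ifs <;> linarith

/-- pointwise lower bound -/
theorem j6399_pt (W : Finset V → ℝ) (hW0 : W ∅ = 0) (hW1 : ∀ b, W {b} = 1) (S : Finset V)
    (h2 : 2 ≤ S.card) (ih : ∀ T ⊂ S, T.Nonempty → 1 / 2 ≤ W T) (R : Finset V) :
    (if Disjoint R S then W S else 1 / 2) +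
      1 / 2 * ((∑ b ∈ S, if S.erase b ⊆ R ∧ b ∉ R then (1 : ℝ) else 0) -
        if S ⊆ R then 1 else 0) ≤ W (S \ R) := by
  by_cases hd : Disjoint R S
  · rw [if_pos hd, Finset.sdiff_eq_self_of_disjoint hd.symm]
    have e1 : (∑ b ∈ S, if S.erase b ⊆ R ∧ b ∉ R then (1 : ℝ) else 0) = 0 := by
      refine Finset.sum_eq_zero fun b hb => if_neg ?_
      rintro ⟨h, _⟩
      have hE : (S.erase b).Nonempty :=
        Finset.card_pos.1 (by rw [Finset.card_erase_of_mem hb]; omega)
      rcases hE with ⟨c, hc⟩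
      exact Finset.disjoint_left.1 hd (h hc) (Finset.mem_of_mem_erase hc)
    rw [e1]
    split_ifs <;> linarith
  · rw [if_neg hd]
    by_cases hs : S ⊆ R
    · rw [if_pos hs, Finset.sdiff_eq_empty_iff_subset.2 hs, hW0]
      have e1 : (∑ b ∈ S, if S.erase b ⊆ R ∧ b ∉ R then (1 : ℝ) else 0) = 0 := by
        refine Finset.sum_eq_zero fun b hb => if_neg ?_
        rintro ⟨_, h⟩
        exact h (hs hb)
      rw [e1]
      norm_num
    · rw [if_neg hs]
      have hne : (S \ R).Nonempty := Finset.sdiff_nonempty.2 hs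
      by_cases h1 : ∃ b ∈ S, S.erase b ⊆ R ∧ b ∉ R
      · rcases h1 with ⟨b, hb, hb1, hb2⟩
        have hSR : S \ R = {b} := by
          ext c
          rw [Finset.mem_sdiff, Finset.mem_singleton]
          constructor
          · rintro ⟨h3, h4⟩
            by_contra hcb
            exact h4 (hb1 (Finset.mem_erase.2 ⟨hcb, h3⟩))
          · rintro rfl
            exact ⟨hb, hb2⟩
        have e1 : (∑ c ∈ S, if S.erase c ⊆ R ∧ c ∉ R then (1 : ℝ) else 0) = 1 := by
          rw [Finset.sum_eq_single b]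
          · rw [if_pos ⟨hb1, hb2⟩]
          · intro c hc hcb
            refine if_neg ?_
            rintro ⟨_, h4⟩
            exact h4 (hb1 (Finset.mem_erase.2 ⟨hcb, hc⟩))
          · intro h; exact absurd hb h
        rw [e1, hSR, hW1]
        norm_num
      · have e1 : (∑ b ∈ S, if S.erase b ⊆ R ∧ b ∉ R then (1 : ℝ) else 0) = 0 := by
          refine Finset.sum_eq_zero fun b hb => if_neg ?_
          intro h3
          exact h1 ⟨b, hb, h3⟩
        rw [e1]
        have hss : S \ R ⊂ S := by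
          refine Finset.ssubset_iff_subset_ne.2 ⟨Finset.sdiff_subset, ?_⟩
          intro h3
          exact hd (Finset.sdiff_eq_self_iff_disjoint.1 h3).symm
        have := ih (S \ R) hss hne
        linarith

theorem j6399_Wlow {ρ : Finset V → ℝ} (hρ : IsLaw ρ) (N : Finset V → ℝ) (hN0 : N ∅ = 0)
    (hNr : ∀ S : Finset V, S.Nonempty → N S = 1 + ∑ R, ρ R * N (S \ R)) (A : Finset V)
    (hlast : ∀ U ⊆ A, 2 ≤ U.card → (∑ R, if U ⊆ R then ρ R else 0)
      ≤ ∑ b ∈ U, ∑ R, if U.erase b ⊆ R ∧ b ∉ R then ρ R else 0) :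
    ∀ S : Finset V, S ⊆ A → S.Nonempty → 1 / 2 ≤ j6399_W ρ N S := by
  have hW0 : j6399_W ρ N ∅ = 0 := by simp [j6399_W]
  have hW1 : ∀ b, j6399_W ρ N {b} = 1 := by
    intro b
    unfold j6399_W
    rw [Finset.sum_singleton, Finset.erase_singleton, hN0, sub_zero]
    exact j6399_p1 hρ N hN0 hNr b
  intro S
  induction S using Finset.strongInduction with
  | H S ih =>
    intro hSA hS
    by_cases h2 : 2 ≤ S.card
    · have hpt := j6399_pt (j6399_W ρ N) hW0 hW1 S h2
        (fun T hT hTn => ih T hT (hT.1.trans hSA) hTn)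
      have h3 := j6399_Wrec N hNr S h2
      have h4 : ∑ R, ρ R * ((if Disjoint R S then j6399_W ρ N S else 1 / 2) +
          1 / 2 * ((∑ b ∈ S, if S.erase b ⊆ R ∧ b ∉ R then (1 : ℝ) else 0) -
            if S ⊆ R then 1 else 0)) ≤ j6399_W ρ N S := by
        refine le_trans ?_ h3.ge
        exact Finset.sum_le_sum fun R _ => mul_le_mul_of_nonneg_left (hpt R) (hρ.nn R)
      have h5 : ∑ R, ρ R * ((if Disjoint R S then j6399_W ρ N S else 1 / 2) +
          1 / 2 * ((∑ b ∈ S, if S.erase b ⊆ R ∧ b ∉ R then (1 : ℝ) else 0) -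
            if S ⊆ R then 1 else 0))
          = (∑ R, ρ R * (if Disjoint R S then j6399_W ρ N S else 1 / 2)) +
            1 / 2 * ((∑ b ∈ S, ∑ R, if S.erase b ⊆ R ∧ b ∉ R then ρ R else 0) -
              ∑ R, if S ⊆ R then ρ R else 0) := by
        have e1 : ∀ R : Finset V, ρ R * ((if Disjoint R S then j6399_W ρ N S else 1 / 2) +
          1 / 2 * ((∑ b ∈ S, if S.erase b ⊆ R ∧ b ∉ R then (1 : ℝ) else 0) -
            if S ⊆ R then 1 else 0))
            = ρ R * (if Disjoint R S then j6399_W ρ N S else 1 / 2) +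
              1 / 2 * ((∑ b ∈ S, if S.erase b ⊆ R ∧ b ∉ R then ρ R else 0) -
                if S ⊆ R then ρ R else 0) := by
          intro R
          have e2 : (∑ b ∈ S, if S.erase b ⊆ R ∧ b ∉ R then ρ R else 0)
              = ρ R * ∑ b ∈ S, if S.erase b ⊆ R ∧ b ∉ R then (1 : ℝ) else 0 := by
            rw [Finset.mul_sum]
            refine Finset.sum_congr rfl fun b _ => ?_
            rw [mul_ite, mul_one, mul_zero]
          have e3 : (if S ⊆ R then ρ R else 0) = ρ R * (if S ⊆ R then (1 : ℝ) else 0) := by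
            rw [mul_ite, mul_one, mul_zero]
          rw [e2, e3]
          ring
        rw [Finset.sum_congr rfl (fun R _ => e1 R), Finset.sum_add_distrib, ← Finset.mul_sum,
          Finset.sum_sub_distrib, Finset.sum_comm]
      have h6 := hlast S hSA h2
      have h7 : ∑ R, ρ R * (if Disjoint R S then j6399_W ρ N S else 1 / 2)
          = (∑ R, if Disjoint R S then ρ R else 0) * j6399_W ρ N S
            + (1 - ∑ R, if Disjoint R S then ρ R else 0) * (1 / 2) := by
        rw [← hρ.tot, ← Finset.sum_sub_distrib, Finset.sum_mul, Finset.sum_mul,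
          ← Finset.sum_add_distrib]
        refine Finset.sum_congr rfl fun R _ => ?_
        split_ifs <;> ring
      rcases hS with ⟨b, hb⟩
      have h8 := j6399_cover hρ S b hb
      have h9 := j6399_ppos hρ N hN0 hNr b
      rw [h5, h7] at h4
      have h10 : 0 < 1 - ∑ R, if Disjoint R S then ρ R else 0 := lt_of_lt_of_le h9 h8
      by_contra hcon
      push Not at hcon
      have h11 : (1 - ∑ R, if Disjoint R S then ρ R else 0) * (1 / 2 - j6399_W ρ N S) > 0 :=
        mul_pos h10 (by linarith)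
      nlinarith
    · have h1 : S.card = 1 := by
        have := Finset.card_pos.2 hS
        omega
      rcases Finset.card_eq_one.1 h1 with ⟨b, rfl⟩
      rw [hW1]
      norm_num

theorem j6399_core {ρ : Finset V → ℝ} (hρ : IsLaw ρ) (N : Finset V → ℝ) (hN0 : N ∅ = 0)
    (hNm : ∀ S S' : Finset V, S ⊆ S' → N S ≤ N S')
    (hNr : ∀ S : Finset V, S.Nonempty → N S = 1 + ∑ R, ρ R * N (S \ R)) (A : Finset V) (β : ℝ)
    (hb : ∀ b ∈ A, (∑ R, if b ∈ R then ρ R else 0) ≤ β)
    (hlast : ∀ U ⊆ A, 2 ≤ U.card → (∑ R, if U ⊆ R then ρ R else 0)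
      ≤ ∑ b ∈ U, ∑ R, if U.erase b ⊆ R ∧ b ∉ R then ρ R else 0) :
    ∀ (m : ℕ) (S : Finset V), S.card = m → S ⊆ A → Real.log ((m : ℝ) + 1) ≤ 2 * β * N S := by
  intro m
  induction m with
  | zero =>
    intro S hS _
    rw [Finset.card_eq_zero.1 hS, hN0]
    simp
  | succ m ih =>
    intro S hS hSA
    have hSn : S.Nonempty := Finset.card_pos.1 (by omega)
    have h1 := j6399_Wlow hρ N hN0 hNr A hlast S hSA hSn
    have h2 : j6399_W ρ N S ≤ ∑ b ∈ S, β * (N S - N (S.erase b)) := by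
      unfold j6399_W
      refine Finset.sum_le_sum fun b hbS => ?_
      exact mul_le_mul_of_nonneg_right (hb b (hSA hbS))
        (sub_nonneg.2 (hNm _ _ (Finset.erase_subset b S)))
    have h3 : ∑ b ∈ S, β * (N S - N (S.erase b)) = ((m : ℝ) + 1) * (β * N S)
        - ∑ b ∈ S, β * N (S.erase b) := by
      simp only [mul_sub]
      rw [Finset.sum_sub_distrib, Finset.sum_const, hS, nsmul_eq_mul]
      push_cast
      ring
    have h4 : ((m : ℝ) + 1) * Real.log ((m : ℝ) + 1) ≤ ∑ b ∈ S, 2 * β * N (S.erase b) := by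
      have : ∑ b ∈ S, Real.log ((m : ℝ) + 1) ≤ ∑ b ∈ S, 2 * β * N (S.erase b) := by
        refine Finset.sum_le_sum fun b hbS => ?_
        exact ih (S.erase b) (by rw [Finset.card_erase_of_mem hbS, hS]; rfl)
          ((Finset.erase_subset b S).trans hSA)
      rw [Finset.sum_const, hS, nsmul_eq_mul] at this
      push_cast at this
      exact this
    have h5 : ∑ b ∈ S, 2 * β * N (S.erase b) = 2 * ∑ b ∈ S, β * N (S.erase b) := by
      rw [Finset.mul_sum]
      refine Finset.sum_congr rfl fun b _ => ?_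
      ring
    have hm : (0 : ℝ) < (m : ℝ) + 1 := by positivity
    have h6 : ((m : ℝ) + 1) * Real.log ((m : ℝ) + 1) + 1 ≤ ((m : ℝ) + 1) * (2 * β * N S) := by
      linarith
    have h7 : Real.log ((m : ℝ) + 1 + 1) ≤ Real.log ((m : ℝ) + 1) + 1 / ((m : ℝ) + 1) := by
      have e : (m : ℝ) + 1 + 1 = ((m : ℝ) + 1) * (1 + 1 / ((m : ℝ) + 1)) := by
        field_simp
      rw [e, Real.log_mul hm.ne' (by positivity)]
      have h8 := Real.log_le_sub_one_of_pos (show 0 < 1 + 1 / ((m : ℝ) + 1) by positivity)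
      linarith
    have h8 : ((m : ℝ) + 1) * (Real.log ((m : ℝ) + 1) + 1 / ((m : ℝ) + 1))
        ≤ ((m : ℝ) + 1) * (2 * β * N S) := by
      have e : ((m : ℝ) + 1) * (Real.log ((m : ℝ) + 1) + 1 / ((m : ℝ) + 1))
          = ((m : ℝ) + 1) * Real.log ((m : ℝ) + 1) + 1 := by
        field_simp
      rw [e]
      exact h6
    have h9 := le_of_mul_le_mul_left h8 hm
    push_cast
    linarith

/-- counting argument (Matthews) for a fixed law -/
theorem matthews {ρ : Finset V → ℝ} (hρ : IsLaw ρ) (A : Finset V) (hA : A.Nonempty) (β : ℝ)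
    (hβ : 0 < β) (hb : ∀ b ∈ A, (∑ R, if b ∈ R then ρ R else 0) ≤ β)
    (hlast : ∀ U ⊆ A, 2 ≤ U.card → (∑ R, if U ⊆ R then ρ R else 0)
      ≤ ∑ b ∈ U, ∑ R, if U.erase b ⊆ R ∧ b ∉ R then ρ R else 0)
    (n : ℕ) (hn : en ρ n univ ≤ 1 / 2) : Real.log A.card ≤ 4 * n * β := by
  have hs : ∀ S, Summable (fun j => en ρ j S) := fun S => (j6399_summ hρ n hn S).1
  have h1 := j6399_core hρ (fun S => ∑' j, en ρ j S) (by simp [j6399_empty])
    (fun S S' h => (hs S).tsum_le_tsum (fun j => en_mono hρ j S S' h) (hs S'))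
    (fun S hS => j6399_rec hs S hS) A β hb hlast A.card A rfl (Finset.Subset.refl A)
  have h2 := (j6399_summ hρ n hn A).2
  have hc : (0 : ℝ) < (A.card : ℝ) := by exact_mod_cast Finset.card_pos.2 hA
  have h3 : Real.log A.card ≤ Real.log ((A.card : ℝ) + 1) :=
    Real.log_le_log hc (by linarith)
  have h4 : 2 * β * ∑' j, en ρ j A ≤ 2 * β * (2 * n) :=
    mul_le_mul_of_nonneg_left h2 (by linarith)
  have h5 : 2 * β * (2 * (n : ℝ)) = 4 * n * β := by ring
  rw [← h5]
  exact h3.trans (h1.trans h4)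

end laws

end Pool.Agent.Helper41.CT
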