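import Pool.Agent.Helper41.CT.Defs
import Pool.Agent.Helper41.CT.WalkA

/-!
# Definitions for cover times of killed random walks and Gaussian fields
-/

set_option autoImplicit false

open scoped ENNReal NNReal Nat
open Finset MeasureTheory ProbabilityTheory

namespace Pool.Agent.Helper41.CT


/-! ## TARGETS: prove these (statements must not be changed; helper lemmas are welcome) -/

section walks

variable {V : Type} [Fintype V] [DecidableEq V] {P : Matrix V V ℝ} {π : V → ℝ}

theorem aux833_sum {ι : Type} (s : Finset ι) (c : ι → ℝ) (G : ι → Finset V → V → ℝ) (n : ℕ) :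
    ∀ (S : Finset V) (x : V), ee P n (fun S' y => ∑ i ∈ s, c i * G i S' y) S x =
      ∑ i ∈ s, c i * ee P n (G i) S x := by
  induction n with
  | zero => intro S x; rfl
  | succ n ih =>
    intro S x
    simp only [ee]
    have h1 : ∀ y, P x y * ee P n (fun S' y => ∑ i ∈ s, c i * G i S' y) (insert x S) y =
        ∑ i ∈ s, c i * (P x y * ee P n (G i) (insert x S) y) := by
      intro y
      rw [ih, Finset.mul_sum]
      exact Finset.sum_congr rfl (fun i _ => by ring)
    rw [Finset.sum_congr rfl (fun y _ => h1 y), Finset.sum_comm]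
    exact Finset.sum_congr rfl (fun i _ => by rw [Finset.mul_sum])

theorem aux833_shift (n : ℕ) : ∀ (F : Finset V → ℝ) (S : Finset V) (x : V),
    ee P n (fun S' _ => F S') S x = ee P n (fun S' _ => F (S ∪ S')) ∅ x := by
  induction n with
  | zero =>
    intro F S x
    simp only [ee]
    congr 1
    ext a
    simp only [Finset.mem_insert, Finset.mem_union, Finset.notMem_empty, or_false]
    tauto
  | succ n ih =>
    intro F S x
    simp only [ee]
    refine Finset.sum_congr rfl (fun y _ => ?_)
    rw [ih F (insert x S) y, ih (fun S' => F (S ∪ S')) (insert x ∅) y]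
    congr 2
    funext S' _
    congr 1
    ext a
    simp only [Finset.mem_insert, Finset.mem_union, Finset.notMem_empty, or_false]
    tauto

theorem aux833_law (n : ℕ) (F : Finset V → ℝ) (S : Finset V) (x : V) :
    ee P n (fun S' _ => F S') S x = ∑ R, rl P n x R * F (S ∪ R) := by
  rw [aux833_shift]
  have h1 : (fun (S' : Finset V) (_ : V) => F (S ∪ S')) = fun S' y =>
      ∑ R ∈ (Finset.univ : Finset (Finset V)), F (S ∪ R) *
        (fun (R : Finset V) (S' : Finset V) (_ : V) => if S' = R then (1 : ℝ) else 0) R S' y := by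
    funext S' y
    simp
  rw [h1, aux833_sum]
  refine Finset.sum_congr rfl (fun R _ => ?_)
  rw [mul_comm]
  rfl

theorem aux833_nonneg (h : Rev P π) (n : ℕ) (F : Finset V → V → ℝ) (hF : ∀ S y, 0 ≤ F S y) :
    ∀ (S : Finset V) (x : V), 0 ≤ ee P n F S x := by
  induction n with
  | zero => intro S x; exact hF _ _
  | succ n ih =>
    intro S x
    simp only [ee]
    exact Finset.sum_nonneg (fun y _ => mul_nonneg (h.nn x y) (ih _ _))

theorem aux833_const (h : Rev P π) (n : ℕ) (c : ℝ) :
    ∀ (S : Finset V) (x : V), ee P n (fun _ _ => c) S x = c := by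
  induction n with
  | zero => intro S x; rfl
  | succ n ih =>
    intro S x
    simp only [ee, ih]
    rw [← Finset.sum_mul, h.row, one_mul]

theorem aux833_av (n : ℕ) (A : Finset V) : ∀ (S : Finset V) (x : V),
    ee P n (fun S' _ => if Disjoint S' A then (1 : ℝ) else 0) S x =
      (if Disjoint S A then (1 : ℝ) else 0) * av P n A x := by
  induction n with
  | zero =>
    intro S x
    simp only [ee, av, Finset.disjoint_insert_left]
    by_cases h1 : x ∈ A
    · simp [h1]
    · by_cases h2 : Disjoint S A
      · simp [h1, h2]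
      · simp [h1, h2]
  | succ n ih =>
    intro S x
    simp only [ee, av, ih, Finset.disjoint_insert_left]
    by_cases h1 : x ∈ A
    · simp [h1]
    · by_cases h2 : Disjoint S A
      · simp [h1, h2]
      · simp [h1, h2]

theorem aux833_step (h : Rev P π) (m : ℕ) (F : Finset V → ℝ)
    (hF : ∀ S S', S ⊆ S' → F S' ≤ F S) : ∀ (S : Finset V) (x : V),
    ee P (m + 1) (fun S' _ => F S') S x ≤ ee P m (fun S' _ => F S') S x := by
  induction m with
  | zero =>
    intro S x
    simp only [ee]
    have h1 : ∀ y ∈ (Finset.univ : Finset V), P x y * F (insert y (insert x S)) ≤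
        P x y * F (insert x S) := fun y _ =>
      mul_le_mul_of_nonneg_left (hF _ _ (Finset.subset_insert _ _)) (h.nn x y)
    refine (Finset.sum_le_sum h1).trans (le_of_eq ?_)
    rw [← Finset.sum_mul, h.row, one_mul]
  | succ m ih =>
    intro S x
    change ∑ y, P x y * ee P (m + 1) (fun S' _ => F S') (insert x S) y ≤
      ∑ y, P x y * ee P m (fun S' _ => F S') (insert x S) y
    exact Finset.sum_le_sum (fun y _ => mul_le_mul_of_nonneg_left (ih _ _) (h.nn x y))

theorem rl_law (h : Rev P π) (n : ℕ) (x : V) : IsLaw (rl P n x) := by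
  refine ⟨fun R => ?_, ?_⟩
  · refine aux833_nonneg h n _ (fun S y => ?_) ∅ x
    split_ifs <;> norm_num
  · have h1 := aux833_law (P := P) n (fun _ => 1) ∅ x
    rw [aux833_const h] at h1
    simp only [mul_one] at h1
    exact h1.symm

theorem rl_avo (h : Rev P π) (n : ℕ) (A : Finset V) (x : V) :
    avo (rl P n x) A = av P n A x := by
  have h1 := aux833_law (P := P) n (fun S' => if Disjoint S' A then (1 : ℝ) else 0) ∅ x
  rw [aux833_av, if_pos (Finset.disjoint_empty_left A), one_mul] at h1
  rw [h1]
  unfold avo
  refine Finset.sum_congr rfl (fun R _ => ?_)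
  rw [Finset.empty_union]
  split_ifs
  · rw [mul_one]
  · rw [mul_zero]

theorem ee_law (h : Rev P π) (n : ℕ) (F : Finset V → ℝ) (S : Finset V) (x : V) :
    ee P n (fun S' _ => F S') S x = ∑ R, rl P n x R * F (S ∪ R) :=
  aux833_law n F S x

/-- more steps cover more -/
theorem rl_mono (h : Rev P π) (m n : ℕ) (hmn : m ≤ n) (x : V) (F : Finset V → ℝ)
    (hF : ∀ S S', S ⊆ S' → F S' ≤ F S) :
    ∑ R, rl P n x R * F R ≤ ∑ R, rl P m x R * F R := by
  have h1 : ∀ n, ∑ R, rl P n x R * F R = ee P n (fun S' _ => F S') ∅ x := by
    intro n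
    rw [aux833_law]
    simp only [Finset.empty_union]
  rw [h1, h1]
  induction n, hmn using Nat.le_induction with
  | base => exact le_rfl
  | succ n _ ih => exact (aux833_step h n F hF ∅ x).trans ih

theorem ee_semi (h : Rev P π) (m n : ℕ) (F : Finset V → V → ℝ) (S : Finset V) (x : V) :
    ee P (m + n) F S x = ee P m (fun S' y => ee P n F S' y) S x := by
  induction m generalizing S x with
  | zero =>
    rw [Nat.zero_add]
    simp only [ee]
    cases n with
    | zero => simp only [ee, Finset.insert_idem]
    | succ n => simp only [ee, Finset.insert_idem]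
  | succ m ih =>
    have e : m + 1 + n = (m + n) + 1 := by omega
    rw [e]
    simp only [ee]
    exact Finset.sum_congr rfl (fun y _ => by rw [ih])

end walks

end Pool.Agent.Helper41.CT
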