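import Pool.Agent.Helper41.CT.Defs
import Pool.Agent.Helper41.CT.WalkB

/-!
# Definitions for cover times of killed random walks and Gaussian fields
-/

set_option autoImplicit false

open scoped ENNReal NNReal Nat
open Finset MeasureTheory ProbabilityTheory

namespace Pool.Agent.Helper41.CT


/-! ## TARGETS: prove these (statements must not be changed; helper lemmas are welcome) -/

section walks

variable {V : Type} [Fintype V] [DecidableEq V] {P : Matrix V V ℝ} {π : V → ℝ}

theorem hasSum_nonneg_of {f : ℕ → ℝ} {a : ℝ} (h : HasSum f a) (hf : ∀ n, 0 ≤ f n) : 0 ≤ a :=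
  h.nonneg hf

theorem ct_bound (F : Finset V → V → ℝ) : ∃ C : ℝ, 0 ≤ C ∧ ∀ S x, |F S x| ≤ C := by
  refine ⟨∑ S, ∑ x, |F S x|, by positivity, fun S x => ?_⟩
  refine le_trans ?_ (Finset.single_le_sum (f := fun S => ∑ x, |F S x|)
    (fun S _ => Finset.sum_nonneg fun x _ => abs_nonneg _) (Finset.mem_univ S))
  exact Finset.single_le_sum (f := fun x => |F S x|) (fun x _ => abs_nonneg _) (Finset.mem_univ x)

theorem ct_ee_bound (h : Rev P π) {F : Finset V → V → ℝ} {C : ℝ}
    (hF : ∀ S x, |F S x| ≤ C) (n : ℕ) : ∀ (S : Finset V) (x : V), |ee P n F S x| ≤ C := by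
  induction n with
  | zero => intro S x; exact hF _ _
  | succ n ih =>
    intro S x
    show |∑ y, P x y * ee P n F (insert x S) y| ≤ C
    calc |∑ y, P x y * ee P n F (insert x S) y|
        ≤ ∑ y, |P x y * ee P n F (insert x S) y| := Finset.abs_sum_le_sum_abs _ _
      _ ≤ ∑ y, P x y * C := by
          refine Finset.sum_le_sum fun y _ => ?_
          rw [abs_mul, abs_of_nonneg (h.nn x y)]
          exact mul_le_mul_of_nonneg_left (ih _ _) (h.nn x y)
      _ = C := by rw [← Finset.sum_mul, h.row x, one_mul]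

theorem ct_summable (h : Rev P π) (q : ℝ) (h0 : 0 < q) (h1 : q < 1) (F : Finset V → V → ℝ)
    (S : Finset V) (x : V) : Summable (fun n : ℕ => (1 - q) * q ^ n * ee P n F S x) := by
  obtain ⟨C, hC0, hC⟩ := ct_bound F
  have hs : Summable (fun n : ℕ => (1 - q) * C * q ^ n) :=
    (summable_geometric_of_lt_one h0.le h1).mul_left _
  refine Summable.of_norm_bounded hs fun n => ?_
  have h2 : 0 < 1 - q := by linarith
  rw [Real.norm_eq_abs, abs_mul, abs_of_pos (by positivity)]
  calc (1 - q) * q ^ n * |ee P n F S x| ≤ (1 - q) * q ^ n * C :=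
        mul_le_mul_of_nonneg_left (ct_ee_bound h hC n S x) (by positivity)
    _ = _ := by ring

theorem ct_hasSum (h : Rev P π) (q : ℝ) (h0 : 0 < q) (h1 : q < 1) (F : Finset V → V → ℝ)
    (S : Finset V) (x : V) :
    HasSum (fun n : ℕ => (1 - q) * q ^ n * ee P n F S x) (ke P q F S x) :=
  (ct_summable h q h0 h1 F S x).hasSum

theorem ct_kl (h : Rev P π) (q : ℝ) (h0 : 0 < q) (h1 : q < 1) (x : V) (R : Finset V) :
    HasSum (fun n : ℕ => (1 - q) * q ^ n * rl P n x R) (kl P q x R) :=
  ct_hasSum h q h0 h1 _ ∅ x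

theorem ct_start {F : Finset V → V → ℝ} (n : ℕ) :
    ∀ (S : Finset V) (x : V), (∀ S' y, insert x S ⊆ S' → F S' y = 0) → ee P n F S x = 0 := by
  induction n with
  | zero => intro S x hF; exact hF _ _ (Finset.Subset.refl _)
  | succ n ih =>
    intro S x hF
    show ∑ y, P x y * ee P n F (insert x S) y = 0
    refine Finset.sum_eq_zero fun y _ => ?_
    rw [ih (insert x S) y (fun S' z hS' => hF S' z ((Finset.subset_insert _ _).trans hS')), mul_zero]

theorem kl_law (h : Rev P π) (q : ℝ) (h0 : 0 < q) (h1 : q < 1) (x : V) : IsLaw (kl P q x) := by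
  refine ⟨fun R => ?_, ?_⟩
  · refine hasSum_nonneg_of (ct_kl h q h0 h1 x R) fun n => ?_
    have h2 : 0 < 1 - q := by linarith
    exact mul_nonneg (by positivity) ((rl_law h n x).nn R)
  · have hs := hasSum_sum (s := (Finset.univ : Finset (Finset V)))
      (fun R _ => ct_kl h q h0 h1 x R)
    have hg : HasSum (fun n : ℕ => (1 - q) * q ^ n) ((1 - q) * (1 - q)⁻¹) :=
      (hasSum_geometric_of_lt_one h0.le h1).mul_left _
    rw [mul_inv_cancel₀ (by linarith)] at hg
    have e : (fun n : ℕ => ∑ R, (1 - q) * q ^ n * rl P n x R) = fun n : ℕ => (1 - q) * q ^ n := by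
      funext n
      rw [← Finset.mul_sum, (rl_law h n x).tot, mul_one]
    rw [e] at hs
    exact hs.unique hg

theorem kl_avo (h : Rev P π) (q : ℝ) (h0 : 0 < q) (h1 : q < 1) (A : Finset V) (x : V) :
    avo (kl P q x) A = avk P q A x := by
  have hs := hasSum_sum (s := (Finset.univ : Finset (Finset V)))
      (f := fun (R : Finset V) (n : ℕ) => if Disjoint R A then (1 - q) * q ^ n * rl P n x R else 0)
      (a := fun R => if Disjoint R A then kl P q x R else 0)
      (fun R _ => by
        by_cases hd : Disjoint R A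
        · simp only [if_pos hd]
          exact ct_kl h q h0 h1 x R
        · simp only [if_neg hd]
          exact hasSum_zero)
  have e : (fun n : ℕ => ∑ R, if Disjoint R A then (1 - q) * q ^ n * rl P n x R else 0) =
      fun n : ℕ => (1 - q) * q ^ n * av P n A x := by
    funext n
    rw [← rl_avo h n A x]
    unfold avo
    rw [Finset.mul_sum]
    refine Finset.sum_congr rfl fun R _ => ?_
    split_ifs
    · rfl
    · rw [mul_zero]
  rw [e] at hs
  exact hs.tsum_eq.symm

theorem ke_law (h : Rev P π) (q : ℝ) (h0 : 0 < q) (h1 : q < 1) (F : Finset V → ℝ)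
    (S : Finset V) (x : V) :
    ke P q (fun S' _ => F S') S x = ∑ R, kl P q x R * F (S ∪ R) := by
  have h2 := ct_hasSum h q h0 h1 (fun S' _ => F S') S x
  have hs := hasSum_sum (s := (Finset.univ : Finset (Finset V)))
      (fun R _ => (ct_kl h q h0 h1 x R).mul_right (F (S ∪ R)))
  have e : (fun n : ℕ => ∑ R, (1 - q) * q ^ n * rl P n x R * F (S ∪ R)) =
      fun n : ℕ => (1 - q) * q ^ n * ee P n (fun S' _ => F S') S x := by
    funext n
    rw [ee_law h n F S x, Finset.mul_sum]
    refine Finset.sum_congr rfl fun R _ => ?_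
    ring
  rw [e] at hs
  exact h2.unique hs

theorem ke_rec (h : Rev P π) (q : ℝ) (h0 : 0 < q) (h1 : q < 1) (F : Finset V → V → ℝ)
    (S : Finset V) (x : V) :
    ke P q F S x = (1 - q) * F (insert x S) x + q * ∑ y, P x y * ke P q F (insert x S) y := by
  have hs := ct_summable h q h0 h1 F S x
  have h2 : ke P q F S x = (1 - q) * q ^ 0 * ee P 0 F S x +
      ∑' n : ℕ, (1 - q) * q ^ (n + 1) * ee P (n + 1) F S x := hs.tsum_eq_zero_add
  have h3 := hasSum_sum (s := (Finset.univ : Finset V))
      (fun y _ => ((ct_hasSum h q h0 h1 F (insert x S) y).mul_left (P x y)))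
  have h4 := h3.mul_left q
  have e : (fun n : ℕ => q * ∑ y, P x y * ((1 - q) * q ^ n * ee P n F (insert x S) y)) =
      fun n : ℕ => (1 - q) * q ^ (n + 1) * ee P (n + 1) F S x := by
    funext n
    show _ = (1 - q) * q ^ (n + 1) * ∑ y, P x y * ee P n F (insert x S) y
    rw [Finset.mul_sum, Finset.mul_sum]
    refine Finset.sum_congr rfl fun y _ => ?_
    rw [pow_succ]
    ring
  rw [e] at h4
  rw [h2, h4.tsum_eq]
  have e0 : ee P 0 F S x = F (insert x S) x := rfl
  rw [e0, pow_zero, mul_one]

theorem kl_eq (h : Rev P π) (q : ℝ) (h0 : 0 < q) (h1 : q < 1) (x : V) (R : Finset V) :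
    HasSum (fun n : ℕ => (1 - q) * q ^ n * rl P n x R) (kl P q x R) := by
  exact ct_kl h q h0 h1 x R

theorem kl_start (h : Rev P π) (q : ℝ) (h0 : 0 < q) (h1 : q < 1) (x : V) (R : Finset V)
    (hx : x ∉ R) : kl P q x R = 0 := by
  have h2 : ∀ n, rl P n x R = 0 := by
    intro n
    apply ct_start n ∅ x
    intro S' y hS'
    apply if_neg
    rintro rfl
    exact hx (hS' (Finset.mem_insert_self x ∅))
  have h3 := ct_kl h q h0 h1 x R
  have e : (fun n : ℕ => (1 - q) * q ^ n * rl P n x R) = fun _ => 0 := by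
    funext n
    rw [h2 n, mul_zero]
  rw [e] at h3
  exact h3.unique hasSum_zero

theorem kl_hit (h : Rev P π) (q : ℝ) (h0 : 0 < q) (h1 : q < 1) (x y : V) :
    (∑ R, if y ∈ R then kl P q x R else 0) = hit P q x y := by
  have h2 := kl_avo h q h0 h1 {y} x
  rw [avk_single h q h0 h1 x y] at h2
  have h3 := (kl_law h q h0 h1 x).tot
  unfold avo at h2
  have h4 : (∑ R, if y ∈ R then kl P q x R else 0) +
      (∑ R, if Disjoint R {y} then kl P q x R else 0) = ∑ R, kl P q x R := by
    rw [← Finset.sum_add_distrib]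
    refine Finset.sum_congr rfl fun R _ => ?_
    by_cases hy : y ∈ R
    · rw [if_pos hy, if_neg (by rw [Finset.disjoint_singleton_right]; exact not_not.mpr hy), add_zero]
    · rw [if_neg hy, if_pos (by rw [Finset.disjoint_singleton_right]; exact hy), zero_add]
  linarith

end walks

end Pool.Agent.Helper41.CT
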