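import Pool.Agent.Helper41.CT.Defs
import Pool.Agent.Helper41.CT.WalkC

/-!
# Definitions for cover times of killed random walks and Gaussian fields
-/

set_option autoImplicit false

open scoped ENNReal NNReal Nat
open Finset MeasureTheory ProbabilityTheory

namespace Pool.Agent.Helper41.CT


/-! ## TARGETS: prove these (statements must not be changed; helper lemmas are welcome) -/

section walks

variable {V : Type} [Fintype V] [DecidableEq V] {P : Matrix V V ℝ} {π : V → ℝ}

/-- probability that the range contains `U` -/
noncomputable def h170c (P : Matrix V V ℝ) (q : ℝ) (U : Finset V) (x : V) : ℝ :=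
  ∑ R, if U ⊆ R then kl P q x R else 0

theorem h170c_rec (h : Rev P π) (q : ℝ) (h0 : 0 < q) (h1 : q < 1) (U : Finset V) (x : V)
    (hx : x ∉ U) (hU : U.Nonempty) : h170c P q U x = q * ∑ y, P x y * h170c P q U y := by
  set F : Finset V → ℝ := fun R => if U ⊆ R then 1 else 0 with hF
  have e0 : ∀ y, h170c P q U y = ∑ R, kl P q y R * F R := by
    intro y
    unfold h170c
    refine Finset.sum_congr rfl fun R _ => ?_
    simp only [hF, mul_ite, mul_one, mul_zero]
  have e1 := ke_law h q h0 h1 F ∅ x
  have e2 := ke_rec h q h0 h1 (fun S' _ => F S') ∅ x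
  rw [e1] at e2
  have e3 : ∀ y, ke P q (fun S' _ => F S') (insert x ∅) y = h170c P q U y := by
    intro y
    rw [ke_law h q h0 h1 F _ y, e0 y]
    refine Finset.sum_congr rfl fun R _ => ?_
    congr 1
    simp only [hF]
    have : U ⊆ insert x ∅ ∪ R ↔ U ⊆ R := by
      constructor
      · intro hs a ha
        have := hs ha
        rw [Finset.mem_union, Finset.mem_insert] at this
        rcases this with (rfl | h') | h'
        · exact absurd ha hx
        · exact absurd h' (Finset.notMem_empty _)
        · exact h'
      · intro hs a ha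
        exact Finset.mem_union_right _ (hs ha)
    simp only [this]
  have e4 : F (insert x ∅) = 0 := by
    simp only [hF]
    rw [if_neg]
    intro hs
    obtain ⟨a, ha⟩ := hU
    have := hs ha
    rw [Finset.mem_insert] at this
    rcases this with rfl | h'
    · exact hx ha
    · exact absurd h' (Finset.notMem_empty _)
  simp only [e3, e4, mul_zero, zero_add] at e2
  rw [← e2, e0 x]
  refine Finset.sum_congr rfl fun R _ => ?_
  rw [Finset.empty_union]

theorem h170c_mem (h : Rev P π) (q : ℝ) (h0 : 0 < q) (h1 : q < 1) (U : Finset V) (x : V) :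
    h170c P q U x = h170c P q (U.erase x) x := by
  unfold h170c
  refine Finset.sum_congr rfl fun R _ => ?_
  by_cases hx : x ∈ R
  · have : U ⊆ R ↔ U.erase x ⊆ R := by
      constructor
      · intro hs a ha
        exact hs (Finset.mem_of_mem_erase ha)
      · intro hs a ha
        by_cases hax : a = x
        · rw [hax]; exact hx
        · exact hs (Finset.mem_erase.2 ⟨hax, ha⟩)
    simp only [this]
  · rw [kl_start h q h0 h1 x R hx]
    simp

/-- the defect -/
noncomputable def h170f (P : Matrix V V ℝ) (q : ℝ) (U : Finset V) (x : V) : ℝ :=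
  ∑ b ∈ U, (h170c P q (U.erase b) x - h170c P q U x) - h170c P q U x

theorem h170f_rec (h : Rev P π) (q : ℝ) (h0 : 0 < q) (h1 : q < 1) (U : Finset V) (x : V)
    (hx : x ∉ U) (hU : 2 ≤ U.card) : h170f P q U x = q * ∑ y, P x y * h170f P q U y := by
  have hUn : U.Nonempty := by
    rw [← Finset.card_pos]; omega
  have e1 := h170c_rec h q h0 h1 U x hx hUn
  have e2 : ∀ b ∈ U, h170c P q (U.erase b) x = q * ∑ y, P x y * h170c P q (U.erase b) y := by
    intro b hb
    refine h170c_rec h q h0 h1 (U.erase b) x (fun h' => hx (Finset.mem_of_mem_erase h')) ?_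
    rw [← Finset.card_pos, Finset.card_erase_of_mem hb]
    omega
  unfold h170f
  simp only [mul_sub, Finset.mul_sum, Finset.sum_sub_distrib]
  congr 1
  · congr 1
    · rw [Finset.sum_congr rfl e2, Finset.sum_comm]
      simp only [Finset.mul_sum]
    · rw [Finset.sum_comm]
      refine Finset.sum_congr rfl fun b _ => ?_
      rw [e1, Finset.mul_sum]
  · rw [e1, Finset.mul_sum]

theorem h170f_mem (h : Rev P π) (q : ℝ) (h0 : 0 < q) (h1 : q < 1) (U : Finset V) (x : V)
    (hx : x ∈ U) : h170f P q U x = h170f P q (U.erase x) x := by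
  unfold h170f
  rw [← h170c_mem h q h0 h1 U x, ← Finset.add_sum_erase U _ hx, ← h170c_mem h q h0 h1 U x, sub_self,
    zero_add]
  congr 1
  refine Finset.sum_congr rfl fun b _ => ?_
  congr 1
  rw [h170c_mem h q h0 h1 (U.erase b) x, Finset.erase_right_comm]

theorem h170f_nonneg (h : Rev P π) (q : ℝ) (h0 : 0 < q) (h1 : q < 1) (A : Finset V)
    (hA : ∀ a ∈ A, ∀ b ∈ A, a ≠ b → hit P q a b ≤ 1 / 2) (n : ℕ) :
    ∀ U : Finset V, U ⊆ A → U.card = n + 2 → ∀ x, 0 ≤ h170f P q U x := by
  induction n with
  | zero =>
    intro U hU hc x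
    have key := max_pr h q h0 h1 U (fun y => - h170f P q U y) ?_ ?_ x
    · linarith
    · intro y hy
      rw [h170f_rec h q h0 h1 U y hy (by omega)]
      simp only [mul_neg, Finset.sum_neg_distrib]
      exact le_rfl
    · intro y hy
      have hc1 : (U.erase y).card = 1 := by rw [Finset.card_erase_of_mem hy]; omega
      obtain ⟨b, hb⟩ := Finset.card_eq_one.1 hc1
      have hbU : b ∈ U.erase y := by rw [hb]; exact Finset.mem_singleton_self b
      have hby : b ≠ y := Finset.ne_of_mem_erase hbU
      have e1 : h170f P q U y = 1 - 2 * hit P q y b := by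
        rw [h170f_mem h q h0 h1 U y hy, hb]
        unfold h170f
        rw [Finset.sum_singleton, Finset.erase_singleton]
        have e2 : h170c P q ∅ y = 1 := by
          unfold h170c
          simp only [Finset.empty_subset, if_true]
          exact (kl_law h q h0 h1 y).tot
        have e3 : h170c P q {b} y = hit P q y b := by
          rw [← kl_hit h q h0 h1 y b]
          unfold h170c
          simp only [Finset.singleton_subset_iff]
        rw [e2, e3]
        ring
      have := hA y (hU hy) b (hU (Finset.mem_of_mem_erase hbU)) hby.symm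
      simp only [e1]
      linarith
  | succ n ih =>
    intro U hU hc x
    have key := max_pr h q h0 h1 U (fun y => - h170f P q U y) ?_ ?_ x
    · linarith
    · intro y hy
      rw [h170f_rec h q h0 h1 U y hy (by omega)]
      simp only [mul_neg, Finset.sum_neg_distrib]
      exact le_rfl
    · intro y hy
      have hc1 : (U.erase y).card = n + 2 := by rw [Finset.card_erase_of_mem hy]; omega
      have := ih (U.erase y) ((Finset.erase_subset y U).trans hU) hc1 y
      simp only [h170f_mem h q h0 h1 U y hy]
      linarith

/-- sparse sets: the last visited point -/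
theorem kl_last (h : Rev P π) (q : ℝ) (h0 : 0 < q) (h1 : q < 1) (A : Finset V)
    (hA : ∀ a ∈ A, ∀ b ∈ A, a ≠ b → hit P q a b ≤ 1 / 2) (U : Finset V) (hU : U ⊆ A)
    (hU2 : 2 ≤ U.card) (x : V) :
    (∑ R, if U ⊆ R then kl P q x R else 0)
      ≤ ∑ b ∈ U, ∑ R, if U.erase b ⊆ R ∧ b ∉ R then kl P q x R else 0 := by
  have key := h170f_nonneg h q h0 h1 A hA (U.card - 2) U hU (by omega) x
  unfold h170f at key
  have e : ∑ b ∈ U, (∑ R, if U.erase b ⊆ R ∧ b ∉ R then kl P q x R else 0) =
      ∑ b ∈ U, (h170c P q (U.erase b) x - h170c P q U x) := by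
    refine Finset.sum_congr rfl fun b hb => ?_
    unfold h170c
    rw [← Finset.sum_sub_distrib]
    refine Finset.sum_congr rfl fun R _ => ?_
    by_cases hbR : b ∈ R
    · have : U ⊆ R ↔ U.erase b ⊆ R := by
        constructor
        · intro hs a ha
          exact hs (Finset.mem_of_mem_erase ha)
        · intro hs a ha
          by_cases hax : a = b
          · rw [hax]; exact hbR
          · exact hs (Finset.mem_erase.2 ⟨hax, ha⟩)
      simp only [this, hbR, not_true, and_false, if_false, sub_self]
    · have : ¬ U ⊆ R := fun hs => hbR (hs hb)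
      simp only [this, hbR, not_false_iff, and_true, if_false, sub_zero]
  rw [e]
  have e2 : (∑ R, if U ⊆ R then kl P q x R else 0) = h170c P q U x := rfl
  rw [e2]
  linarith

end walks

end Pool.Agent.Helper41.CT
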