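import Pool.Agent.Helper41.CT.Defs
import Pool.Agent.Helper41.CT.WalkD
import Pool.Agent.Helper41.CT.LawB
import Pool.Agent.Helper41.CT.Matt

/-!
# Definitions for cover times of killed random walks and Gaussian fields
-/

set_option autoImplicit false

open scoped ENNReal NNReal Nat
open Finset MeasureTheory ProbabilityTheory

namespace Pool.Agent.Helper41.CT


/-! ## TARGETS: prove these (statements must not be changed; helper lemmas are welcome) -/

section walks

variable {V : Type} [Fintype V] [DecidableEq V] {P : Matrix V V ℝ} {π : V → ℝ}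

/-- cardinality of sparse sets -/
theorem net_card (h : Rev P π) (q : ℝ) (h0 : 0 < q) (h1 : q < 1) (θ : ℝ) (hθ1 : 1 ≤ θ) (v : V)
    (hfp : fp θ (fun A => avk P q A v) ≤ 1 / 8) (δ : ℝ) (hδ : 0 < δ) (A : Finset V)
    (hA : ∀ a ∈ A, ∀ b ∈ A, a ≠ b → hit P q a b ≤ 1 / 2)
    (hv : ∀ a ∈ A, hit P q v a ≤ 2 / (δ * θ)) : (A.card : ℝ) ≤ Real.exp (24 / δ) := by
  rcases A.eq_empty_or_nonempty with rfl | hne
  · simp only [Finset.card_empty, Nat.cast_zero]
    exact (Real.exp_pos _).le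
  have hθ0 : 0 < θ := by linarith
  have hρ : IsLaw (kl P q v) := kl_law h q h0 h1 v
  have hav : avo (kl P q v) = fun A => avk P q A v := funext fun A => kl_avo h q h0 h1 A v
  have hfp' : fp θ (avo (kl P q v)) ≤ 1 / 8 := by rw [hav]; exact hfp
  have hn1 : 2 * θ ≤ (⌈2 * θ⌉₊ : ℝ) := Nat.le_ceil _
  have hn2 : (⌈2 * θ⌉₊ : ℝ) < 2 * θ + 1 := Nat.ceil_lt_add_one (by linarith)
  have hen := depois hρ θ hθ0.le ⌈2 * θ⌉₊ (by linarith)
  have hm := matthews hρ A hne (2 / (δ * θ)) (by positivity)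
    (fun b hb => by rw [kl_hit h q h0 h1 v b]; exact hv b hb)
    (fun U hU hU2 => kl_last h q h0 h1 A hA U hU hU2 v) ⌈2 * θ⌉₊ (by linarith)
  have hcard : (0 : ℝ) < A.card := by exact_mod_cast hne.card_pos
  rw [← Real.exp_log hcard]
  apply Real.exp_le_exp.2
  refine hm.trans ?_
  calc 4 * (⌈2 * θ⌉₊ : ℝ) * (2 / (δ * θ)) ≤ 4 * (3 * θ) * (2 / (δ * θ)) := by
        apply mul_le_mul_of_nonneg_right _ (by positivity)
        linarith
    _ = 24 / δ := by field_simp; norm_num

/-- the hitting probabilities are not too small -/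
theorem hit_ge (h : Rev P π) (q : ℝ) (h0 : 0 < q) (h1 : q < 1) (θ : ℝ) (hθ1 : 1 ≤ θ) (v : V)
    (hfp : fp θ (fun A => avk P q A v) ≤ 1 / 8) (y : V) : 2 / θ ≤ hit P q v y := by
  have hθ0 : 0 < θ := by linarith
  have hρ : IsLaw (kl P q v) := kl_law h q h0 h1 v
  have hav : avo (kl P q v) = fun A => avk P q A v := funext fun A => kl_avo h q h0 h1 A v
  have hfp' : fp θ (avo (kl P q v)) ≤ 1 / 8 := by rw [hav]; exact hfp
  have hs := (fp_single hρ θ hθ0.le y).trans hfp'
  rw [kl_avo h q h0 h1, avk_single h q h0 h1, sub_sub_cancel] at hs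
  rw [div_le_iff₀ hθ0]
  by_contra hlt
  push Not at hlt
  have h2 : Real.exp (-2) < Real.exp (-(θ * hit P q v y)) := Real.exp_lt_exp.2 (by linarith)
  have h3 : Real.exp 2 < 8 := by
    have e : Real.exp 2 = Real.exp 1 * Real.exp 1 := by rw [← Real.exp_add]; norm_num
    have h4 := Real.exp_one_lt_d9
    have h5 := Real.exp_pos 1
    rw [e]
    nlinarith
  have h6 : Real.exp (-2) * Real.exp 2 = 1 := by rw [← Real.exp_add]; norm_num
  have h7 : Real.exp (-2) < 1 / 8 := h2.trans_le hs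
  nlinarith [Real.exp_pos 2, Real.exp_pos (-2)]

theorem fk_rl (h : Rev P π) (k t : ℕ) (w : V) : fk P k t w = en (rl P t w) k univ := by
  rw [en_pie (rl_law h t w) k univ]
  unfold fk
  apply Finset.sum_congr rfl
  intro A _
  by_cases hA : A = ∅
  · simp [hA]
  · rw [if_neg hA, if_pos ⟨hA, Finset.subset_univ A⟩, rl_avo h t A w]

end walks

end Pool.Agent.Helper41.CT
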