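import Pool.Agent.Helper41.CT.Defs
import Pool.Agent.Helper41.CT.ResA

/-!
# Definitions for cover times of killed random walks and Gaussian fields
-/

set_option autoImplicit false

open scoped ENNReal NNReal Nat
open Finset MeasureTheory ProbabilityTheory

namespace Pool.Agent.Helper41.CT


/-! ## TARGETS: prove these (statements must not be changed; helper lemmas are welcome) -/

section resolvent

variable {V : Type} [Fintype V] [DecidableEq V] {P : Matrix V V ℝ} {π : V → ℝ}

/-- many starting points hit `y` with small probability -/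
theorem B_mass (h : Rev P π) (q q₁ θ : ℝ) (h0 : 0 < q) (hqq : q ≤ q₁) (h1 : q₁ < 1)
    (hθ1 : 1 ≤ θ) (hθ : q₁ / (1 - q₁) = θ * (q / (1 - q))) (y : V)
    (hd : 0 < dl P π q₁ y) :
    dl P π q₁ y / 2 ≤ ∑ v, if hit P q v y ≤ 2 / (dl P π q₁ y * θ) then π v else 0 := by
  have hq1 : q < 1 := lt_of_le_of_lt hqq h1
  have h01 : 0 < q₁ := lt_of_lt_of_le h0 hqq
  have hθ0 : 0 < θ := by linarith
  set D := dl P π q₁ y with hD
  have e1 : (0:ℝ) < 1 - q := by linarith
  have e2 : (0:ℝ) < 1 - q₁ := by linarith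
  obtain ⟨t, ht⟩ : ∃ t, t = (q₁ - q) / q₁ := ⟨_, rfl⟩
  have ht0 : 0 ≤ t := by rw [ht]; exact div_nonneg (by linarith) h01.le
  obtain ⟨s, hs⟩ : ∃ s, s = t / (1 - q) := ⟨_, rfl⟩
  have hs1 : 1 - s = 1 / θ := by
    have h2 : 1 / θ = q * (1 - q₁) / (q₁ * (1 - q)) := by
      rw [div_eq_div_iff hθ0.ne' (by positivity)]
      rw [div_eq_iff e2.ne'] at hθ
      have h3 : θ * (q / (1 - q)) * (1 - q₁) = q₁ := hθ.symm
      have h4 : θ * q * (1 - q₁) = q₁ * (1 - q) := by
        have : θ * (q / (1 - q)) * (1 - q₁) * (1 - q) = q₁ * (1 - q) := by rw [h3]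
        rw [← this]; field_simp
      linarith
    rw [h2, hs, ht]
    field_simp
    ring
  have hs0 : 0 < 1 - s := by rw [hs1]; positivity
  have hpn : ∀ x, 0 ≤ hit P q x y := fun x => hit_nonneg h q h0 hq1 x y
  have hG0 : Gn P q y y ≠ 0 := by
    have := Gn_diag h q h0 hq1 y
    intro h'; rw [h'] at this; linarith
  have hG1 : Gn P q₁ y y ≠ 0 := by
    have := Gn_diag h q₁ h01 h1 y
    intro h'; rw [h'] at this; linarith
  obtain ⟨M, hM⟩ : ∃ M : V → V → ℝ, M = fun x z => Gn P q x z - hit P q x y * Gn P q y z :=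
    ⟨_, rfl⟩
  have hM0 : ∀ x z, 0 ≤ M x z := by
    intro x z
    rw [hM]
    have := Gn_strong h q h0 hq1 x y z
    simp only
    linarith
  have hMrow : ∀ x, ∑ z, M x z = (1 - hit P q x y) / (1 - q) := by
    intro x
    rw [hM]
    simp only
    rw [Finset.sum_sub_distrib, ← Finset.mul_sum, Gn_row h q h0 hq1, Gn_row h q h0 hq1]
    ring
  have hMcol : ∀ z, ∑ x, π x * M x z ≤ π z / (1 - q) := by
    intro z
    rw [← Gn_col h q h0 hq1 z]
    refine Finset.sum_le_sum fun x _ => ?_
    refine mul_le_mul_of_nonneg_left ?_ (h.pos x).le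
    rw [hM]
    simp only
    have := mul_nonneg (hpn x) (Gn_nonneg h q h0 hq1 y z)
    linarith
  have hf : ∀ x, hit P q₁ x y = hit P q x y + t * ∑ z, M x z * hit P q₁ z y := by
    intro x
    have r1 := res_id h q q₁ h0 hqq h1 x y
    have r2 := res_id h q q₁ h0 hqq h1 y y
    have k1 : Gn P q x y = hit P q x y * Gn P q y y := by
      unfold hit; field_simp
    have k2 : ∑ z, M x z * hit P q₁ z y
        = (∑ z, Gn P q x z * Gn P q₁ z y
          - hit P q x y * ∑ z, Gn P q y z * Gn P q₁ z y) / Gn P q₁ y y := by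
      rw [Finset.mul_sum, ← Finset.sum_sub_distrib, Finset.sum_div]
      refine Finset.sum_congr rfl fun z _ => ?_
      rw [hM]
      simp only
      rw [show hit P q₁ z y = Gn P q₁ z y / Gn P q₁ y y from rfl]
      ring
    rw [k2]
    rw [show hit P q₁ x y = Gn P q₁ x y / Gn P q₁ y y from rfl]
    rw [← ht] at r1 r2
    rw [eq_comm, ← sub_eq_zero]
    rw [r1, k1]
    have r3 : hit P q x y = hit P q x y * ((q / q₁ * Gn P q y y +
        t * ∑ z, Gn P q y z * Gn P q₁ z y) / Gn P q₁ y y) := by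
      rw [← r2, div_self hG1, mul_one]
    have r4 : hit P q x y + t * ((∑ z, Gn P q x z * Gn P q₁ z y
          - hit P q x y * ∑ z, Gn P q y z * Gn P q₁ z y) / Gn P q₁ y y)
        = hit P q x y * ((q / q₁ * Gn P q y y +
        t * ∑ z, Gn P q y z * Gn P q₁ z y) / Gn P q₁ y y) + t * ((∑ z, Gn P q x z * Gn P q₁ z y
          - hit P q x y * ∑ z, Gn P q y z * Gn P q₁ z y) / Gn P q₁ y y) := by
      rw [← r3]
    rw [r4]
    ring
  obtain ⟨g, hg⟩ : ∃ g : V → ℝ, g = fun x => 1 - (1 + D / 2) * hit P q₁ x y := ⟨_, rfl⟩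
  obtain ⟨χ, hχ⟩ : ∃ χ : V → ℝ, χ = fun x => if hit P q x y ≤ 2 / (D * θ) then 1 else 0 :=
    ⟨_, rfl⟩
  have hχ0 : ∀ x, 0 ≤ χ x := by
    intro x; rw [hχ]; simp only; split_ifs <;> norm_num
  have hkey : ∀ x, 1 ≤ χ x + hit P q x y + D * θ / 2 * hit P q x y := by
    intro x
    have hDθ : 0 < D * θ := mul_pos hd hθ0
    rw [hχ]; simp only
    split_ifs with hc
    · have := mul_nonneg (by positivity : (0:ℝ) ≤ D * θ / 2) (hpn x)
      linarith [hpn x]
    · push Not at hc
      have h5 : D * θ / 2 * (2 / (D * θ)) = 1 := by field_simp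
      have h6 : D * θ / 2 * (2 / (D * θ)) ≤ D * θ / 2 * hit P q x y :=
        mul_le_mul_of_nonneg_left hc.le (by positivity)
      linarith [hpn x]
  have hgle : ∀ x, g x ≤ (1 - s) * χ x + t * ∑ z, M x z * g z := by
    intro x
    have k3 : t * ∑ z, M x z * g z
        = s * (1 - hit P q x y) - (1 + D / 2) * (hit P q₁ x y - hit P q x y) := by
      have : ∑ z, M x z * g z = ∑ z, M x z - (1 + D / 2) * ∑ z, M x z * hit P q₁ z y := by
        rw [Finset.mul_sum, ← Finset.sum_sub_distrib]
        refine Finset.sum_congr rfl fun z _ => ?_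
        rw [hg]; ring
      rw [this, hMrow]
      have hfx := hf x
      have : t * ∑ z, M x z * hit P q₁ z y = hit P q₁ x y - hit P q x y := by linarith
      rw [mul_sub, ← mul_assoc t, mul_comm t (1 + D / 2), mul_assoc, this, hs]
      ring
    rw [k3, hg]
    simp only
    have k4 := mul_le_mul_of_nonneg_left (hkey x) hs0.le
    have k5 : (1 - s) * (D * θ / 2 * hit P q x y) = D / 2 * hit P q x y := by
      rw [hs1]; field_simp
    have k6 : (1 - s) * (χ x + hit P q x y + D * θ / 2 * hit P q x y)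
        = (1 - s) * χ x + (1 - s) * hit P q x y + (1 - s) * (D * θ / 2 * hit P q x y) := by ring
    rw [k6, k5] at k4
    linarith
  have hgle' : ∀ x, max (g x) 0 ≤ (1 - s) * χ x + t * ∑ z, M x z * max (g z) 0 := by
    intro x
    refine max_le ?_ ?_
    · refine (hgle x).trans ?_
      have : ∑ z, M x z * g z ≤ ∑ z, M x z * max (g z) 0 :=
        Finset.sum_le_sum fun z _ => mul_le_mul_of_nonneg_left (le_max_left _ _) (hM0 x z)
      have := mul_le_mul_of_nonneg_left this ht0
      linarith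
    · have : 0 ≤ ∑ z, M x z * max (g z) 0 :=
        Finset.sum_nonneg fun z _ => mul_nonneg (hM0 x z) (le_max_right _ _)
      have := mul_nonneg ht0 this
      have := mul_nonneg hs0.le (hχ0 x)
      linarith
  have hsum : ∑ x, π x * max (g x) 0 ≤ (1 - s) * ∑ x, π x * χ x + s * ∑ x, π x * max (g x) 0 := by
    calc ∑ x, π x * max (g x) 0
        ≤ ∑ x, π x * ((1 - s) * χ x + t * ∑ z, M x z * max (g z) 0) :=
          Finset.sum_le_sum fun x _ => mul_le_mul_of_nonneg_left (hgle' x) (h.pos x).le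
      _ = (1 - s) * ∑ x, π x * χ x + t * ∑ z, (∑ x, π x * M x z) * max (g z) 0 := by
          have a1 : ∀ x, π x * ((1 - s) * χ x + t * ∑ z, M x z * max (g z) 0)
              = (1 - s) * (π x * χ x) + t * ∑ z, π x * M x z * max (g z) 0 := by
            intro x
            have : π x * ∑ z, M x z * max (g z) 0 = ∑ z, π x * M x z * max (g z) 0 := by
              rw [Finset.mul_sum]
              exact Finset.sum_congr rfl fun z _ => by ring
            rw [← this]; ring
          rw [Finset.sum_congr rfl fun x _ => a1 x, Finset.sum_add_distrib, ← Finset.mul_sum,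
            ← Finset.mul_sum, Finset.sum_comm]
          congr 2
          refine Finset.sum_congr rfl fun z _ => ?_
          rw [Finset.sum_mul]
      _ ≤ (1 - s) * ∑ x, π x * χ x + t * ∑ z, (π z / (1 - q)) * max (g z) 0 := by
          have : ∑ z, (∑ x, π x * M x z) * max (g z) 0 ≤ ∑ z, (π z / (1 - q)) * max (g z) 0 :=
            Finset.sum_le_sum fun z _ => mul_le_mul_of_nonneg_right (hMcol z) (le_max_right _ _)
          have := mul_le_mul_of_nonneg_left this ht0
          linarith
      _ = _ := by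
          congr 1
          rw [hs, Finset.mul_sum, Finset.mul_sum]
          refine Finset.sum_congr rfl fun z _ => ?_
          ring
  have hfin : ∑ x, π x * max (g x) 0 ≤ ∑ x, π x * χ x := by
    have : (1 - s) * ∑ x, π x * max (g x) 0 ≤ (1 - s) * ∑ x, π x * χ x := by linarith
    exact le_of_mul_le_mul_left this hs0
  have hgs : D / 2 ≤ ∑ x, π x * g x := by
    have hDe : D = ∑ x, π x * (1 - hit P q₁ x y) := rfl
    have hpf : ∑ x, π x * hit P q₁ x y ≤ 1 := by
      rw [← h.tot]
      refine Finset.sum_le_sum fun x _ => ?_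
      have := mul_le_mul_of_nonneg_left (hit_le_one h q₁ h01 h1 x y) (h.pos x).le
      linarith
    have : ∑ x, π x * g x = D - D / 2 * ∑ x, π x * hit P q₁ x y := by
      have hh : ∑ x, π x * g x = ∑ x, π x * (1 - hit P q₁ x y)
          - D / 2 * ∑ x, π x * hit P q₁ x y := by
        rw [Finset.mul_sum, ← Finset.sum_sub_distrib]
        refine Finset.sum_congr rfl fun x _ => ?_
        rw [hg]
        ring
      rw [hh, ← hDe]
    rw [this]
    nlinarith
  calc D / 2 ≤ ∑ x, π x * g x := hgs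
    _ ≤ ∑ x, π x * max (g x) 0 :=
      Finset.sum_le_sum fun x _ => mul_le_mul_of_nonneg_left (le_max_left _ _) (h.pos x).le
    _ ≤ ∑ x, π x * χ x := hfin
    _ = _ := by
      refine Finset.sum_congr rfl fun x _ => ?_
      rw [hχ]; simp only
      split_ifs <;> simp

end resolvent

end Pool.Agent.Helper41.CT
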