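import Pool.Agent.Helper41.CT.Defs
import Pool.Agent.Helper41.CT.ResA

/-!
# Definitions for cover times of killed random walks and Gaussian fields
-/

set_option autoImplicit false

open scoped ENNReal NNReal Nat
open Finset MeasureTheory ProbabilityTheory

namespace Pool.Agent.Helper41.CT


/-! ## TARGETS: prove these (statements must not be changed; helper lemmas are welcome) -/

section resolvent

variable {V : Type} [Fintype V] [DecidableEq V] {P : Matrix V V ℝ} {π : V → ℝ}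

theorem gamma_le_norm (h : Rev P π) (w : V → ℝ) :
    ∑ x, π x * (∑ z, P x z * w z) ^ 2 ≤ ∑ x, π x * w x ^ 2 := by
  have h1 : ∀ x, (∑ z, P x z * w z) ^ 2 ≤ ∑ z, P x z * w z ^ 2 := by
    intro x
    have := Finset.sum_sq_le_sum_mul_sum_of_sq_le_mul Finset.univ
      (r := fun z => P x z * w z) (f := fun z => P x z) (g := fun z => P x z * w z ^ 2)
      (fun z _ => h.nn x z) (fun z _ => mul_nonneg (h.nn x z) (sq_nonneg _))
      (fun z _ => le_of_eq (by ring))
    rw [h.row x, one_mul] at this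
    exact this
  calc ∑ x, π x * (∑ z, P x z * w z) ^ 2 ≤ ∑ x, π x * ∑ z, P x z * w z ^ 2 :=
        Finset.sum_le_sum (fun x _ => mul_le_mul_of_nonneg_left (h1 x) (h.pos x).le)
    _ = ∑ x, ∑ z, (π z * w z ^ 2) * P z x := by
        apply Finset.sum_congr rfl
        intro x _
        rw [Finset.mul_sum]
        apply Finset.sum_congr rfl
        intro z _
        rw [← mul_assoc, h.rev x z]
        ring
    _ = ∑ z, ∑ x, (π z * w z ^ 2) * P z x := Finset.sum_comm
    _ = ∑ z, π z * w z ^ 2 := by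
        apply Finset.sum_congr rfl
        intro z _
        rw [← Finset.mul_sum, h.row z, mul_one]

theorem gamma_le_pair (h : Rev P π) (q q₁ : ℝ) (h0 : 0 < q) (hqq : q ≤ q₁) (h1 : q₁ < 1)
    (w : V → ℝ) :
    0 ≤ ∑ x, π x * ((w x - q * ∑ z, P x z * w z) * (w x - q₁ * ∑ z, P x z * w z)) := by
  have hZX := gamma_le_norm h w
  have hD : 0 ≤ ∑ x, π x * (w x - ∑ z, P x z * w z) ^ 2 :=
    Finset.sum_nonneg (fun x _ => mul_nonneg (h.pos x).le (sq_nonneg _))
  have hX : 0 ≤ ∑ x, π x * w x ^ 2 :=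
    Finset.sum_nonneg (fun x _ => mul_nonneg (h.pos x).le (sq_nonneg _))
  have hZ : 0 ≤ ∑ x, π x * (∑ z, P x z * w z) ^ 2 :=
    Finset.sum_nonneg (fun x _ => mul_nonneg (h.pos x).le (sq_nonneg _))
  have eD : ∑ x, π x * (w x - ∑ z, P x z * w z) ^ 2 = ∑ x, π x * w x ^ 2
      - 2 * ∑ x, π x * (w x * ∑ z, P x z * w z) + ∑ x, π x * (∑ z, P x z * w z) ^ 2 := by
    rw [Finset.mul_sum, ← Finset.sum_sub_distrib, ← Finset.sum_add_distrib]
    apply Finset.sum_congr rfl
    intro x _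
    ring
  have eT : ∑ x, π x * ((w x - q * ∑ z, P x z * w z) * (w x - q₁ * ∑ z, P x z * w z))
      = ∑ x, π x * w x ^ 2 - (q + q₁) * ∑ x, π x * (w x * ∑ z, P x z * w z)
        + q * q₁ * ∑ x, π x * (∑ z, P x z * w z) ^ 2 := by
    rw [Finset.mul_sum, Finset.mul_sum, ← Finset.sum_sub_distrib, ← Finset.sum_add_distrib]
    apply Finset.sum_congr rfl
    intro x _
    ring
  rw [eT]
  rw [eD] at hD
  set X := ∑ x, π x * w x ^ 2
  set Y := ∑ x, π x * (w x * ∑ z, P x z * w z)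
  set Z := ∑ x, π x * (∑ z, P x z * w z) ^ 2
  have hq1 : 0 < q₁ := lt_of_lt_of_le h0 hqq
  have hc : 0 ≤ (q + q₁) / 2 - q * q₁ := by nlinarith
  have e1 : 0 ≤ ((q + q₁) / 2 - q * q₁) * (X - Z) := mul_nonneg hc (by linarith)
  have e2 : 0 ≤ ((q + q₁) / 2) * (X - 2 * Y + Z) := mul_nonneg (by linarith) hD
  have e3 : 0 ≤ ((1 - q) * (1 - q₁)) * X :=
    mul_nonneg (mul_nonneg (by linarith) (by linarith)) hX
  linarith

theorem gamma_le_mulVec (q : ℝ) (w : V → ℝ) (x : V) :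
    ((1 - q • P).mulVec w) x = w x - q * ∑ z, P x z * w z := by
  rw [Matrix.sub_mulVec, Matrix.one_mulVec, Matrix.smul_mulVec]
  simp only [Pi.sub_apply, Pi.smul_apply, smul_eq_mul]
  rfl

theorem gamma_le_corr (h : Rev P π) (q q₁ : ℝ) (h0 : 0 < q) (hqq : q ≤ q₁) (h1 : q₁ < 1)
    (y : V) : (π y / (1 - q)) * (π y / (1 - q₁)) ≤
      ∑ x, π x * (Gn P q x y * Gn P q₁ x y) := by
  have hq1 : 0 < q₁ := lt_of_lt_of_le h0 hqq
  have hq : q < 1 := lt_of_le_of_lt hqq h1
  obtain ⟨a1, a2⟩ := Gn_inv h q h0 hq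
  obtain ⟨b1, b2⟩ := Gn_inv h q₁ hq1 h1
  set e : V → ℝ := fun x => (if x = y then 1 else 0) - π y with he
  have hcol : ∀ r : ℝ, 0 < r → r < 1 → ∀ x, ((Gn P r).mulVec e) x
      = Gn P r x y - π y / (1 - r) := by
    intro r hr0 hr1 x
    show ∑ z, Gn P r x z * ((if z = y then 1 else 0) - π y) = _
    have : ∀ z, Gn P r x z * ((if z = y then (1 : ℝ) else 0) - π y)
        = (if z = y then Gn P r x z else 0) - Gn P r x z * π y := by
      intro z
      split_ifs <;> ring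
    rw [Finset.sum_congr rfl (fun z _ => this z), Finset.sum_sub_distrib, ← Finset.sum_mul,
      Gn_row h r hr0 hr1 x, Finset.sum_ite_eq' Finset.univ y]
    simp
    ring
  set w : V → ℝ := (Gn P q).mulVec ((Gn P q₁).mulVec e) with hw
  have w1 : (1 - q • P).mulVec w = (Gn P q₁).mulVec e := by
    rw [hw, Matrix.mulVec_mulVec, a1, Matrix.one_mulVec]
  have hcomm : (1 - q₁ • P) * (1 - q • P) = (1 - q • P) * (1 - q₁ • P) := by
    simp only [sub_mul, mul_sub, one_mul, mul_one, smul_mul_assoc, mul_smul_comm, smul_sub,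
      smul_smul]
    rw [mul_comm q₁ q]
    abel
  have hcomm2 : (1 - q₁ • P) * Gn P q = Gn P q * (1 - q₁ • P) := by
    calc (1 - q₁ • P) * Gn P q = (Gn P q * (1 - q • P)) * ((1 - q₁ • P) * Gn P q) := by
          rw [a2, one_mul]
      _ = Gn P q * ((1 - q • P) * (1 - q₁ • P)) * Gn P q := by noncomm_ring
      _ = Gn P q * ((1 - q₁ • P) * (1 - q • P)) * Gn P q := by rw [hcomm]
      _ = Gn P q * (1 - q₁ • P) * ((1 - q • P) * Gn P q) := by noncomm_ring
      _ = Gn P q * (1 - q₁ • P) := by rw [a1, mul_one]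
  have w2 : (1 - q₁ • P).mulVec w = (Gn P q).mulVec e := by
    rw [hw, Matrix.mulVec_mulVec, hcomm2, Matrix.mulVec_mulVec, mul_assoc, b1, mul_one]
  have hp := gamma_le_pair h q q₁ h0 hqq h1 w
  have e1 : ∀ x, w x - q * ∑ z, P x z * w z = Gn P q₁ x y - π y / (1 - q₁) := by
    intro x
    rw [← gamma_le_mulVec, w1, hcol q₁ hq1 h1]
  have e2 : ∀ x, w x - q₁ * ∑ z, P x z * w z = Gn P q x y - π y / (1 - q) := by
    intro x
    rw [← gamma_le_mulVec, w2, hcol q h0 hq]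
  simp only [e1, e2] at hp
  have hs : ∑ x, π x * ((Gn P q₁ x y - π y / (1 - q₁)) * (Gn P q x y - π y / (1 - q)))
      = ∑ x, π x * (Gn P q x y * Gn P q₁ x y)
        - (π y / (1 - q)) * ∑ x, π x * Gn P q₁ x y
        - (π y / (1 - q₁)) * ∑ x, π x * Gn P q x y
        + (π y / (1 - q)) * (π y / (1 - q₁)) * ∑ x, π x := by
    rw [Finset.mul_sum, Finset.mul_sum, Finset.mul_sum, ← Finset.sum_sub_distrib,
      ← Finset.sum_sub_distrib, ← Finset.sum_add_distrib]
    apply Finset.sum_congr rfl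
    intro x _
    ring
  rw [hs, Gn_col h q₁ hq1 h1, Gn_col h q h0 hq, h.tot] at hp
  linarith

/-- bound for the variances at the first scale -/
theorem gamma_le (h : Rev P π) (q q₁ : ℝ) (h0 : 1 / 2 ≤ q) (hqq : q ≤ q₁) (h1 : q₁ < 1)
    (y : V) (hd : dl P π q₁ y ≤ 1 / 3) :
    gn P π q y y ≤ 2 / (1 - q) + 4 * dl P π q₁ y / (1 - q₁) := by
  have hq0 : 0 < q := by linarith
  have hq1 : 0 < q₁ := lt_of_lt_of_le hq0 hqq
  have hq : q < 1 := lt_of_le_of_lt hqq h1
  have hπ := h.pos y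
  have hdl := dl_nonneg h q₁ hq1 h1 y
  have hG1 := Gn_diag h q₁ hq1 h1 y
  have hG1pos : 0 < Gn P q₁ y y := by linarith
  have hcorr := gamma_le_corr h q q₁ hq0 hqq h1 y
  have hres := res_id h q q₁ hq0 hqq h1 y y
  have hGd := Gn_dl h q₁ hq1 h1 y
  -- the sum in the resolvent identity
  have hsum : ∑ z, Gn P q y z * Gn P q₁ z y = (∑ x, π x * (Gn P q x y * Gn P q₁ x y)) / π y := by
    rw [Finset.sum_div]
    apply Finset.sum_congr rfl
    intro z _
    rw [eq_div_iff hπ.ne']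
    have := Gn_symm h q hq0 hq y z
    calc Gn P q y z * Gn P q₁ z y * π y = (π y * Gn P q y z) * Gn P q₁ z y := by ring
      _ = (π z * Gn P q z y) * Gn P q₁ z y := by rw [this]
      _ = _ := by ring
  -- bound below of the sum
  have hlow : π y / ((1 - q) * (1 - q₁)) ≤ ∑ z, Gn P q y z * Gn P q₁ z y := by
    rw [hsum, le_div_iff₀ hπ]
    refine le_trans (le_of_eq ?_) hcorr
    have u1 : 1 - q ≠ 0 := by linarith
    have u2 : 1 - q₁ ≠ 0 := by linarith
    field_simp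
  set S := ∑ z, Gn P q y z * Gn P q₁ z y with hS
  set g := Gn P q y y with hg
  set g1 := Gn P q₁ y y with hg1
  set δ := dl P π q₁ y with hδ
  have hp1 : 0 < 1 - q := by linarith
  have hp2 : 0 < 1 - q₁ := by linarith
  -- q g = q₁ g1 - (q₁ - q) S
  have hmain : q * g = q₁ * g1 - (q₁ - q) * S := by
    have : q₁ * g1 = q₁ * (q / q₁ * g + (q₁ - q) / q₁ * S) := by rw [← hres]
    have e : q₁ * (q / q₁ * g + (q₁ - q) / q₁ * S) = q * g + (q₁ - q) * S := by
      field_simp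
    linarith
  have hb : q * g ≤ q₁ * g1 - (q₁ - q) * (π y / ((1 - q) * (1 - q₁))) := by
    have : (q₁ - q) * (π y / ((1 - q) * (1 - q₁))) ≤ (q₁ - q) * S :=
      mul_le_mul_of_nonneg_left hlow (by linarith)
    linarith
  -- g1 in terms of δ
  have hg1e : g1 = π y / ((1 - q₁) * (1 - δ)) := by
    have h1δ' : 0 < 1 - δ := by linarith
    rw [eq_div_iff (mul_pos hp2 h1δ').ne']
    linarith
  have h1δ : 0 < 1 - δ := by linarith
  show g / π y ≤ _
  rw [div_le_iff₀ hπ]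
  -- q g ≤ π y * (q₁ / ((1-q₁)(1-δ)) - (q₁-q)/((1-q)(1-q₁)))
  have hfin : q * g ≤ q * ((2 / (1 - q) + 4 * δ / (1 - q₁)) * π y) := by
    refine hb.trans ?_
    rw [hg1e]
    have key : q₁ / ((1 - q₁) * (1 - δ)) - (q₁ - q) / ((1 - q) * (1 - q₁)) ≤
        q * (2 / (1 - q) + 4 * δ / (1 - q₁)) := by
      rw [div_sub_div _ _ (by positivity) (by positivity), div_le_iff₀ (by positivity)]
      have e : q * (2 / (1 - q) + 4 * δ / (1 - q₁)) *
          ((1 - q₁) * (1 - δ) * ((1 - q) * (1 - q₁))) =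
          q * (2 * (1 - q₁) + 4 * δ * (1 - q)) * ((1 - δ) * (1 - q₁)) := by
        field_simp
      rw [e]
      have e2 : q₁ * ((1 - q) * (1 - q₁)) - (1 - q₁) * (1 - δ) * (q₁ - q)
          = (1 - q₁) * (q₁ * (1 - q) - (1 - δ) * (q₁ - q)) := by ring
      rw [e2]
      have e3 : q * (2 * (1 - q₁) + 4 * δ * (1 - q)) * ((1 - δ) * (1 - q₁))
          = (1 - q₁) * (q * (2 * (1 - q₁) + 4 * δ * (1 - q)) * (1 - δ)) := by ring
      rw [e3]
      apply mul_le_mul_of_nonneg_left _ hp2.le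
      -- q₁ (1-q) - (1-δ)(q₁-q) = q (1-q₁) + δ (q₁-q)
      have t1 : q₁ * (1 - q) - (1 - δ) * (q₁ - q) = q * (1 - q₁) + δ * (q₁ - q) := by ring
      rw [t1]
      have t2 : q * (1 - q₁) ≤ q * (2 * (1 - q₁)) * (1 - δ) := by
        have : 0 ≤ q * (1 - q₁) := by positivity
        nlinarith
      have t3 : δ * (q₁ - q) ≤ q * (4 * δ * (1 - q)) * (1 - δ) := by
        have s1 : δ * (q₁ - q) ≤ δ * (1 - q) := mul_le_mul_of_nonneg_left (by linarith) hdl
        have s2 : (1 : ℝ) ≤ q * 4 * (1 - δ) := by nlinarith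
        have s3 : 0 ≤ δ * (1 - q) := mul_nonneg hdl hp1.le
        have s4 : δ * (1 - q) * 1 ≤ δ * (1 - q) * (q * 4 * (1 - δ)) :=
          mul_le_mul_of_nonneg_left s2 s3
        linarith
      linarith
    have := mul_le_mul_of_nonneg_right key hπ.le
    calc _ = (q₁ / ((1 - q₁) * (1 - δ)) - (q₁ - q) / ((1 - q) * (1 - q₁))) * π y := by
          field_simp
      _ ≤ _ := this
      _ = _ := by ring
  exact le_of_mul_le_mul_left hfin hq0

end resolvent

end Pool.Agent.Helper41.CT
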