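import Pool.Agent.Helper41.CT.Defs
import Pool.Agent.Helper41.CT.ResA

/-!
# Definitions for cover times of killed random walks and Gaussian fields
-/

set_option autoImplicit false

open scoped ENNReal NNReal Nat
open Finset MeasureTheory ProbabilityTheory

namespace Pool.Agent.Helper41.CT


/-! ## TARGETS: prove these (statements must not be changed; helper lemmas are welcome) -/

section resolvent

variable {V : Type} [Fintype V] [DecidableEq V] {P : Matrix V V ℝ} {π : V → ℝ}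

theorem CT06_row (h : Rev P π) (q₁ : ℝ) (h0 : 0 < q₁) (h1 : q₁ < 1) (x : V) :
    ∑ w, gn P π q₁ x w * π w = 1 / (1 - q₁) := by
  rw [← Gn_row h q₁ h0 h1 x]
  apply Finset.sum_congr rfl
  intro w _
  unfold gn
  rw [div_mul_cancel₀ _ (h.pos w).ne']

theorem CT06_col (h : Rev P π) (q₁ : ℝ) (h0 : 0 < q₁) (h1 : q₁ < 1) (y : V) :
    ∑ x, π x * gn P π q₁ x y = 1 / (1 - q₁) := by
  have h2 := Gn_col h q₁ h0 h1 y
  have h3 : ∑ x, π x * gn P π q₁ x y = (∑ x, π x * Gn P q₁ x y) / π y := by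
    rw [Finset.sum_div]
    apply Finset.sum_congr rfl
    intro x _
    unfold gn
    ring
  rw [h3, h2, div_div, mul_comm (1 - q₁), ← div_div, div_self (h.pos y).ne']

theorem var_center (h : Rev P π) (q₁ : ℝ) (h0 : 0 < q₁) (h1 : q₁ < 1) (y : V) :
    qf (gn P π q₁) (fun z => (if z = y then 1 else 0) - π z)
      = gn P π q₁ y y - 1 / (1 - q₁) := by
  unfold qf
  have e1 : ∀ i : V, ∑ j, ((if i = y then (1 : ℝ) else 0) - π i) * gn P π q₁ i j *
      ((if j = y then 1 else 0) - π j) =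
      ((if i = y then (1 : ℝ) else 0) - π i) * (gn P π q₁ i y - 1 / (1 - q₁)) := by
    intro i
    rw [← CT06_row h q₁ h0 h1 i]
    have e2 : ∀ j, ((if i = y then (1 : ℝ) else 0) - π i) * gn P π q₁ i j *
      ((if j = y then 1 else 0) - π j) = ((if i = y then (1 : ℝ) else 0) - π i) *
      ((if j = y then gn P π q₁ i j else 0) - gn P π q₁ i j * π j) := by
      intro j
      split_ifs <;> ring
    simp_rw [e2]
    rw [← Finset.mul_sum, Finset.sum_sub_distrib]
    simp
  simp_rw [e1]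
  have e3 : ∀ i, ((if i = y then (1 : ℝ) else 0) - π i) * (gn P π q₁ i y - 1 / (1 - q₁)) =
      (if i = y then (gn P π q₁ i y - 1 / (1 - q₁)) else 0) - π i * gn P π q₁ i y +
        π i * (1 / (1 - q₁)) := by
    intro i
    split_ifs <;> ring
  simp_rw [e3]
  rw [Finset.sum_add_distrib, Finset.sum_sub_distrib, CT06_col h q₁ h0 h1 y, ← Finset.sum_mul, h.tot]
  simp

theorem var_center_le (h : Rev P π) (q₁ : ℝ) (h0 : 0 < q₁) (h1 : q₁ < 1) (y : V)
    (hd : dl P π q₁ y ≤ 1 / 3) :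
    qf (gn P π q₁) (fun z => (if z = y then 1 else 0) - π z)
      ≤ 2 * dl P π q₁ y / (1 - q₁) := by
  rw [var_center h q₁ h0 h1 y]
  have hdn := dl_nonneg h q₁ h0 h1 y
  have hG := Gn_dl h q₁ h0 h1 y
  set d := dl P π q₁ y with hdd
  have hq : 0 < 1 - q₁ := by linarith
  have hd1 : 0 < 1 - d := by linarith
  have e1 : gn P π q₁ y y = 1 / ((1 - q₁) * (1 - d)) := by
    unfold gn
    rw [div_eq_div_iff (h.pos y).ne' (by positivity), ← hG]
    ring
  rw [e1, div_sub_div _ _ (by positivity) hq.ne', div_le_div_iff₀ (by positivity) hq]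
  have h2 : d ≤ 2 * d * (1 - d) := by nlinarith
  have h3 : 0 < (1 - q₁) ^ 3 := by positivity
  have h4 : 0 < (1 - q₁) ^ 2 := by positivity
  nlinarith [mul_le_mul_of_nonneg_left h2 h4.le]

theorem var_mean (h : Rev P π) (q₁ : ℝ) (h0 : 0 < q₁) (h1 : q₁ < 1) :
    qf (gn P π q₁) π = 1 / (1 - q₁) := by
  unfold qf
  have e1 : ∀ i : V, ∑ j, π i * gn P π q₁ i j * π j = π i * (1 / (1 - q₁)) := by
    intro i
    rw [← CT06_row h q₁ h0 h1 i, Finset.mul_sum]
    apply Finset.sum_congr rfl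
    intro j _
    ring
  simp_rw [e1]
  rw [← Finset.sum_mul, h.tot, one_mul]

end resolvent

end Pool.Agent.Helper41.CT
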