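import Pool.Agent.Helper41.CT.Defs
import Pool.Agent.Helper41.CT.ClusT
import Pool.Agent.Helper41.CT.MaxSep
import Pool.Agent.Helper41.CT.Chain
import Pool.Agent.Helper41.CT.Net
import Pool.Agent.Helper41.CT.ResB
import Pool.Agent.Helper41.CT.ResC
import Pool.Agent.Helper41.CT.ResD

/-!
# Definitions for cover times of killed random walks and Gaussian fields
-/

set_option autoImplicit false

open scoped ENNReal NNReal Nat
open Finset MeasureTheory ProbabilityTheory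

namespace Pool.Agent.Helper41.CT


/-! ## TARGETS: prove these (statements must not be changed; helper lemmas are welcome) -/

section assembly

variable {V : Type} [Fintype V] [DecidableEq V] {P : Matrix V V ℝ} {π : V → ℝ}

theorem qf_two_chpt (Λ : V → V → ℝ) (a b : V) :
    qf Λ (fun w => (if w = a then 1 else 0) - (if w = b then 1 else 0)) =
      Λ a a - Λ a b - Λ b a + Λ b b := by
  have h1 : ∀ f : V → ℝ, ∀ a : V, ∑ j, f j * (if j = a then (1 : ℝ) else 0) = f a := by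
    intro f a
    rw [Finset.sum_eq_single a]
    · rw [if_pos rfl, mul_one]
    · intro b _ hb
      rw [if_neg hb, mul_zero]
    · intro h
      exact absurd (Finset.mem_univ a) h
  unfold qf
  have h2 : ∀ i, ∑ j, ((if i = a then (1 : ℝ) else 0) - (if i = b then 1 else 0)) * Λ i j *
      ((if j = a then 1 else 0) - (if j = b then 1 else 0)) =
      (Λ i a - Λ i b) * (if i = a then (1 : ℝ) else 0) -
      (Λ i a - Λ i b) * (if i = b then (1 : ℝ) else 0) := by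
    intro i
    have h3 : ∀ j, ((if i = a then (1 : ℝ) else 0) - (if i = b then 1 else 0)) * Λ i j *
      ((if j = a then 1 else 0) - (if j = b then 1 else 0)) =
      (((if i = a then (1 : ℝ) else 0) - (if i = b then 1 else 0)) * Λ i j) *
        (if j = a then 1 else 0) -
      (((if i = a then (1 : ℝ) else 0) - (if i = b then 1 else 0)) * Λ i j) *
        (if j = b then 1 else 0) := fun j => by ring
    rw [Finset.sum_congr rfl (fun j _ => h3 j), Finset.sum_sub_distrib, h1, h1]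
    ring
  rw [Finset.sum_congr rfl (fun i _ => h2 i), Finset.sum_sub_distrib, h1, h1]
  ring

/-- numerical bound for the tails -/
theorem chain_num (K δ : ℝ) (hK : 0 < K) (hδ : 0 < δ) (i : ℕ) :
    0 ≤ 1000 * Real.sqrt K * (3 / 4) ^ i - 28 * Real.sqrt (12 * δ * K * (1 / 4) ^ i / δ) ∧
    260 * (9 / 4) ^ i / δ ≤ (1000 * Real.sqrt K * (3 / 4) ^ i -
      28 * Real.sqrt (12 * δ * K * (1 / 4) ^ i / δ)) ^ 2 / (80 * (12 * δ * K * (1 / 4) ^ i)) := by
  have e1 : 12 * δ * K * (1 / 4) ^ i / δ = 12 * K * (1 / 4) ^ i := by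
    field_simp
  have hs : 0 < Real.sqrt K := Real.sqrt_pos.2 hK
  have hss : Real.sqrt K ^ 2 = K := Real.sq_sqrt hK.le
  have e2 : Real.sqrt (12 * K * (1 / 4) ^ i) ≤ (97 / 28) * Real.sqrt K * (1 / 2) ^ i := by
    rw [Real.sqrt_le_left (by positivity)]
    have e3 : ((97 / 28) * Real.sqrt K * (1 / 2) ^ i) ^ 2 = (97 / 28) ^ 2 * K * (1 / 4) ^ i := by
      rw [mul_pow, mul_pow, hss, ← pow_mul, mul_comm i 2, pow_mul]
      norm_num
    rw [e3]
    have : 0 < K * (1 / 4 : ℝ) ^ i := by positivity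
    nlinarith
  have e4 : (1 / 2 : ℝ) ^ i ≤ (3 / 4) ^ i := pow_le_pow_left₀ (by norm_num) (by norm_num) i
  have e5 : 28 * Real.sqrt (12 * K * (1 / 4) ^ i) ≤ 97 * Real.sqrt K * (3 / 4) ^ i := by
    calc 28 * Real.sqrt (12 * K * (1 / 4) ^ i) ≤ 28 * ((97 / 28) * Real.sqrt K * (1 / 2) ^ i) := by
          linarith
      _ = 97 * Real.sqrt K * (1 / 2) ^ i := by ring
      _ ≤ 97 * Real.sqrt K * (3 / 4) ^ i := mul_le_mul_of_nonneg_left e4 (by positivity)
  rw [e1]
  have hp : 0 < Real.sqrt K * (3 / 4) ^ i := by positivity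
  have e6 : 903 * (Real.sqrt K * (3 / 4) ^ i) ≤ 1000 * Real.sqrt K * (3 / 4) ^ i -
      28 * Real.sqrt (12 * K * (1 / 4) ^ i) := by linarith
  refine ⟨by linarith, ?_⟩
  have e7 : (903 * (Real.sqrt K * (3 / 4) ^ i)) ^ 2 ≤ (1000 * Real.sqrt K * (3 / 4) ^ i -
      28 * Real.sqrt (12 * K * (1 / 4) ^ i)) ^ 2 := pow_le_pow_left₀ (by positivity) e6 2
  have e8 : (903 * (Real.sqrt K * (3 / 4) ^ i)) ^ 2 = 815409 * K * (9 / 16) ^ i := by
    rw [mul_pow, mul_pow, hss, ← pow_mul, mul_comm i 2, pow_mul]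
    norm_num
    ring
  rw [e8] at e7
  rw [le_div_iff₀ (by positivity)]
  refine le_trans ?_ e7
  have e9 : (9 / 4 : ℝ) ^ i * (1 / 4) ^ i = (9 / 16) ^ i := by
    rw [← mul_pow]; norm_num
  have e10 : 260 * (9 / 4) ^ i / δ * (80 * (12 * δ * K * (1 / 4) ^ i)) =
      249600 * K * ((9 / 4 : ℝ) ^ i * (1 / 4) ^ i) := by
    field_simp
    ring
  rw [e10, e9]
  have : 0 < K * (9 / 16 : ℝ) ^ i := by positivity
  nlinarith

/-- the field over the points which are hard to hit from `v` -/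
theorem chain_pt (h : Rev P π) (q q₁ : ℝ) (h0 : 1 / 2 ≤ q) (hqq : q ≤ q₁) (h1 : q₁ < 1)
    (θ : ℝ) (hθ1 : 1 ≤ θ) (hθ : q₁ / (1 - q₁) = θ * (q / (1 - q)))
    (hfp : ∀ v, fp θ (fun A => avk P q A v) ≤ 1 / 8)
    (μ₁ : Measure (V → ℝ)) (hμ₁ : IsG (gn P π q₁) μ₁) (v : V) (δ : ℝ) (hδ : 0 < δ)
    (hδ1 : δ ≤ 1) (hδθ : 1 ≤ δ * θ) (Y : Finset V) (hY : ∀ y ∈ Y, dl P π q₁ y ≤ 2 * δ)
    (hv : ∀ y ∈ Y, hit P q v y ≤ 2 / (δ * θ)) :
    μ₁ {x | ∃ y ∈ Y, 7000 * Real.sqrt (1 / (1 - q₁)) < |x y - ∑ w, π w * x w|}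
      ≤ ENNReal.ofReal (12 * Real.exp (-(130 / δ))) := by
  classical
  haveI : Nonempty V := ⟨v⟩
  have h0' : 0 < q := by linarith
  have hq1 : q < 1 := lt_of_le_of_lt hqq h1
  have h01 : 0 < q₁ := lt_of_lt_of_le h0' hqq
  have hs1 : 0 < 1 - q₁ := sub_pos.2 h1
  have hs0 : 0 < 1 - q := sub_pos.2 hq1
  have hlow : ∀ y x, 2 / θ ≤ hit P q x y := fun y x => hit_ge h q h0' hq1 θ hθ1 x (hfp x) y
  have hlow1 : ∀ y x, 2 / 3 ≤ hit P q₁ x y := fun y x =>
    hit_lower h q q₁ θ h0' hqq h1 hθ1 hθ y (hlow y) x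
  have hdl : ∀ y, dl P π q₁ y ≤ 1 / 3 := fun y => dl_le h q₁ h01 h1 y (hlow1 y)
  obtain ⟨K, hK⟩ : ∃ K : ℝ, K = 1 / (1 - q₁) := ⟨_, rfl⟩
  have hKpos : 0 < K := by rw [hK]; exact one_div_pos.2 hs1
  have hT : 2 / (1 - q) ≤ 4 * δ * K := by
    obtain ⟨T, hT⟩ : ∃ T : ℝ, T = 1 / (1 - q) := ⟨_, rfl⟩
    have e1 : q₁ / (1 - q₁) = K - 1 := by rw [hK]; field_simp; ring
    have e2 : q / (1 - q) = T - 1 := by rw [hT]; field_simp; ring
    rw [e1, e2] at hθ
    have hT2 : 2 ≤ T := by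
      rw [hT, le_div_iff₀ hs0]
      linarith
    have e3 : 2 / (1 - q) = 2 * T := by rw [hT]; ring
    rw [e3]
    have hθ0 : 0 < θ := by linarith
    have e4 : θ * T / 2 ≤ K := by nlinarith
    have e5 : 2 * T ≤ 2 * T * (δ * θ) := by nlinarith
    have e6 : 4 * δ * (θ * T / 2) ≤ 4 * δ * K := mul_le_mul_of_nonneg_left e4 (by positivity)
    nlinarith
  have hγpos : ∀ y, 0 < gn P π q y y := fun y => gn_diag_pos h q h0' hq1 y
  have hγ : ∀ y ∈ Y, gn P π q y y ≤ 12 * δ * K := by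
    intro y hy
    have e1 := gamma_le h q q₁ h0 hqq h1 y (hdl y)
    have e2 : 4 * dl P π q₁ y / (1 - q₁) = 4 * dl P π q₁ y * K := by rw [hK]; ring
    rw [e2] at e1
    have e3 : 4 * dl P π q₁ y * K ≤ 4 * (2 * δ) * K :=
      mul_le_mul_of_nonneg_right (by linarith [hY y hy]) hKpos.le
    linarith
  have hΓ : 0 < 12 * δ * K := by positivity
  -- levels
  have hlevex : ∀ y, ∃ i : ℕ, 12 * δ * K * (1 / 4) ^ (i + 1) < gn P π q y y := by
    intro y
    obtain ⟨n, hn⟩ := exists_pow_lt_of_lt_one (div_pos (hγpos y) hΓ)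
      (by norm_num : (1 / 4 : ℝ) < 1)
    refine ⟨n, ?_⟩
    rw [lt_div_iff₀ hΓ] at hn
    have : (0 : ℝ) < 12 * δ * K * (1 / 4) ^ n := by positivity
    rw [pow_succ]
    nlinarith
  have hlevex' : ∀ y, ∃ i : ℕ, 12 * δ * K * (1 / 4) ^ (i + 1) < gn P π q y y ∧
      (y ∈ Y → gn P π q y y ≤ 12 * δ * K * (1 / 4) ^ i) := by
    intro y
    refine ⟨Nat.find (hlevex y), Nat.find_spec (hlevex y), fun hy => ?_⟩
    rcases Nat.eq_zero_or_pos (Nat.find (hlevex y)) with h2 | h2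
    · rw [h2, pow_zero, mul_one]
      exact hγ y hy
    · obtain ⟨j, hj⟩ : ∃ j, Nat.find (hlevex y) = j + 1 := ⟨_, (Nat.succ_pred_eq_of_pos h2).symm⟩
      have h3 := Nat.find_min (hlevex y) (m := j) (by omega)
      rw [hj]
      exact not_lt.1 h3
  choose lev hlev1 hlev2 using hlevex'
  have hmono : ∀ i j : ℕ, i ≤ j → 12 * δ * K * (1 / 4 : ℝ) ^ j ≤ 12 * δ * K * (1 / 4) ^ i := by
    intro i j hij
    exact mul_le_mul_of_nonneg_left (pow_le_pow_of_le_one (by norm_num) (by norm_num) hij) hΓ.le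
  -- nets
  have hAex : ∀ i : ℕ, ∃ N ⊆ Y.filter (fun y => lev y = i),
      (∀ x ∈ N, ∀ y ∈ N, x ≠ y → ¬ (1 / 2 < hit P q x y ∨ 1 / 2 < hit P q y x)) ∧
      ∀ x ∈ Y.filter (fun y => lev y = i), ∃ y ∈ N, x = y ∨
        (1 / 2 < hit P q x y ∨ 1 / 2 < hit P q y x) := fun i =>
    max_sep _ (fun x y => 1 / 2 < hit P q x y ∨ 1 / 2 < hit P q y x) (fun x y h => h.symm)
  choose A hA1 hA2 hA3 using hAex
  have hNex : ∀ i : ℕ, ∃ N ⊆ Y.filter (fun y => i ≤ lev y),
      (∀ x ∈ N, ∀ y ∈ N, x ≠ y → ¬ (gn P π q₁ x x + gn P π q₁ y y - 2 * gn P π q₁ x y ≤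
        48 * δ * K * (1 / 4) ^ i)) ∧
      ∀ x ∈ Y.filter (fun y => i ≤ lev y), ∃ y ∈ N, x = y ∨
        (gn P π q₁ x x + gn P π q₁ y y - 2 * gn P π q₁ x y ≤ 48 * δ * K * (1 / 4) ^ i) := fun i =>
    max_sep _ (fun x y => gn P π q₁ x x + gn P π q₁ y y - 2 * gn P π q₁ x y ≤
        48 * δ * K * (1 / 4) ^ i) (fun x y h' => by
          rw [gn_symm h q₁ h01 h1 y x]
          linarith)
  choose N hN1 hN2 hN3 using hNex
  have hqf : ∀ a b, qf (gn P π q₁) (fun w => (if w = a then 1 else 0) - (if w = b then 1 else 0)) =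
      gn P π q₁ a a + gn P π q₁ b b - 2 * gn P π q₁ a b := by
    intro a b
    rw [qf_two_chpt, gn_symm h q₁ h01 h1 b a]
    ring
  -- centers
  have hctrex : ∀ y, ∃ a, y ∈ Y → a ∈ A (lev y) ∧ (y = a ∨
      (1 / 2 < hit P q y a ∨ 1 / 2 < hit P q a y)) := by
    intro y
    by_cases hy : y ∈ Y
    · obtain ⟨a, ha1, ha2⟩ := hA3 (lev y) y (Finset.mem_filter.2 ⟨hy, rfl⟩)
      exact ⟨a, fun _ => ⟨ha1, ha2⟩⟩
    · exact ⟨v, fun h => absurd h hy⟩
  choose ctr hctr using hctrex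
  have hnAex : ∀ (i : ℕ) (a : V), ∃ b, a ∈ Y.filter (fun y => i ≤ lev y) → b ∈ N i ∧
      gn P π q₁ a a + gn P π q₁ b b - 2 * gn P π q₁ a b ≤ 48 * δ * K * (1 / 4) ^ i := by
    intro i a
    by_cases ha : a ∈ Y.filter (fun y => i ≤ lev y)
    · obtain ⟨b, hb1, hb2⟩ := hN3 i a ha
      refine ⟨b, fun _ => ⟨hb1, ?_⟩⟩
      rcases hb2 with hb2 | hb2
      · rw [← hb2]
        have : 0 < 48 * δ * K * (1 / 4 : ℝ) ^ i := by positivity
        linarith
      · exact hb2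
    · exact ⟨v, fun h => absurd h ha⟩
  choose nA hnA using hnAex
  have hAY : ∀ i, ∀ a ∈ A i, a ∈ Y ∧ lev a = i := fun i a ha => Finset.mem_filter.1 (hA1 i ha)
  have hNY : ∀ i, ∀ a ∈ N i, a ∈ Y ∧ i ≤ lev a := fun i a ha => Finset.mem_filter.1 (hN1 i ha)
  have hAge : ∀ i, ∀ a ∈ A i, a ∈ Y.filter (fun y => i ≤ lev y) := fun i a ha =>
    Finset.mem_filter.2 ⟨(hAY i a ha).1, (hAY i a ha).2.ge⟩
  have hNge : ∀ i, ∀ a ∈ N (i + 1), a ∈ Y.filter (fun y => i ≤ lev y) := fun i a ha =>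
    Finset.mem_filter.2 ⟨(hNY _ a ha).1, (Nat.le_succ i).trans (hNY _ a ha).2⟩
  rw [← hK]
  refine chain_abs hμ₁ K δ hKpos hδ hδ1 π Y lev ctr A N
    (fun i a => (Y.filter (fun y => lev y = i)).filter (fun y => 1 / 8 ≤ hit P q y a))
    nA nA ?_ ?_ ?_ ?_ ?_ ?_ ?_ ?_ ?_ ?_
  · intro y hy
    exact (hctr y hy).1
  · intro y hy
    obtain ⟨ha, hr⟩ := hctr y hy
    rw [Finset.mem_filter, Finset.mem_filter]
    refine ⟨⟨hy, rfl⟩, ?_⟩
    rcases hr with hr | hr | hr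
    · rw [← hr, hit_self h q h0' hq1]
      norm_num
    · linarith
    · -- reversibility
      have e1 := gn_eq_hit h q h0' hq1 y (ctr y)
      have e2 := gn_eq_hit h q h0' hq1 (ctr y) y
      rw [gn_symm h q h0' hq1 (ctr y) y] at e2
      obtain ⟨hc1, hc2⟩ := hAY _ _ ha
      have e3 := hlev1 y
      have e4 := hlev2 (ctr y) hc1
      rw [hc2] at e4
      rw [pow_succ] at e3
      have hg := hγpos (ctr y)
      have hg' := hγpos y
      have e5 : hit P q y (ctr y) * gn P π q (ctr y) (ctr y) =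
          hit P q (ctr y) y * gn P π q y y := by rw [← e1, ← e2]
      have e6 : gn P π q (ctr y) (ctr y) / 4 < gn P π q y y := by linarith
      have e7 : 1 / 2 * (gn P π q (ctr y) (ctr y) / 4) ≤
          hit P q (ctr y) y * gn P π q y y :=
        mul_le_mul hr.le e6.le (by positivity) (by linarith)
      rw [← e5] at e7
      by_contra hcon
      rw [not_le] at hcon
      nlinarith
  · intro i
    refine net_card h q h0' hq1 θ hθ1 v (hfp v) δ hδ (A i) ?_ ?_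
    · intro a ha b hb hab
      have := hA2 i a ha b hb hab
      rw [not_or] at this
      exact not_lt.1 this.1
    · intro a ha
      exact hv a (hAY i a ha).1
  · intro i
    refine net_card h q h0' hq1 θ hθ1 v (hfp v) δ hδ (N i) ?_ ?_
    · intro a ha b hb hab
      have e1 := hN2 i a ha b hb hab
      rw [not_le] at e1
      have e2 := key_ineq h q q₁ h0' hqq h1 a b
      have e3 : 0 ≤ gn P π q a b := by
        rw [gn_eq_hit h q h0' hq1]
        exact mul_nonneg (hit_nonneg h q h0' hq1 _ _) (hγpos b).le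
      have e4 := (hlev2 a (hNY i a ha).1).trans (hmono i _ (hNY i a ha).2)
      have e5 := (hlev2 b (hNY i b hb).1).trans (hmono i _ (hNY i b hb).2)
      have e6 : 0 < 48 * δ * K * (1 / 4 : ℝ) ^ i := by positivity
      by_contra hcon
      rw [not_le] at hcon
      have e7 : (gn P π q₁ a a + gn P π q₁ b b - 2 * gn P π q₁ a b) * (1 / 2) ≤
          (gn P π q₁ a a + gn P π q₁ b b - 2 * gn P π q₁ a b) * hit P q a b :=
        mul_le_mul_of_nonneg_left hcon.le (e6.trans e1).le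
      linarith
    · intro a ha
      exact hv a (hNY i a ha).1
  · intro i a ha
    exact (hnA i a (hAge i a ha)).1
  · intro i a ha
    exact (hnA i a (hNge i a ha)).1
  · intro i a ha
    rw [hqf]
    exact (hnA i a (hAge i a ha)).2
  · intro i a ha
    rw [hqf]
    exact (hnA i a (hNge i a ha)).2
  · intro a ha
    have haY := (hNY 0 a ha).1
    refine (var_center_le h q₁ h01 h1 a (hdl a)).trans ?_
    have e2 : 2 * dl P π q₁ a / (1 - q₁) = 2 * dl P π q₁ a * K := by rw [hK]; ring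
    rw [e2]
    have := mul_le_mul_of_nonneg_right (hY a haY) hKpos.le
    linarith
  · intro i a ha
    obtain ⟨haY, hal⟩ := hAY i a ha
    obtain ⟨hr0, hr1⟩ := chain_num K δ hKpos hδ i
    have hct := cluster_tail h q q₁ h0' hqq h1 θ hθ1 v (hfp v) δ (12 * δ * K * (1 / 4) ^ i) hδ hδ1
      (by positivity) ((Y.filter (fun y => lev y = i)).filter (fun y => 1 / 8 ≤ hit P q y a))
      (by
        intro y hy
        rw [Finset.mem_filter, Finset.mem_filter] at hy
        have := hlev2 y hy.1.1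
        rwa [hy.1.2] at this)
      (by
        intro y hy
        rw [Finset.mem_filter, Finset.mem_filter] at hy
        exact hv y hy.1.1) a
      (by
        rw [Finset.mem_filter, Finset.mem_filter]
        refine ⟨⟨haY, hal⟩, ?_⟩
        rw [hit_self h q h0' hq1]
        norm_num)
      (by
        intro y hy
        exact (Finset.mem_filter.1 hy).2) μ₁ hμ₁ _ hr0
    rw [add_sub_cancel] at hct
    refine hct.trans (ENNReal.ofReal_le_ofReal ?_)
    rw [Real.exp_le_exp]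
    linarith

end assembly

end Pool.Agent.Helper41.CT
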