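import Mathlib

/-!
# Definitions for cover times of killed random walks and Gaussian fields
-/

set_option autoImplicit false

open scoped ENNReal NNReal Nat
open Finset MeasureTheory ProbabilityTheory

namespace Pool.Agent.Helper41.CT

/-- reversible chain with its stationary probability -/
structure Rev {V : Type} [Fintype V] (P : Matrix V V ℝ) (π : V → ℝ) : Prop where
  nn : ∀ x y, 0 ≤ P x y
  row : ∀ x, ∑ y, P x y = 1
  pos : ∀ x, 0 < π x
  tot : ∑ x, π x = 1
  rev : ∀ x y, π x * P x y = π y * P y x

/-- Green matrix of the walk which survives each step with probability `q` -/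
noncomputable def Gn {V : Type} [Fintype V] [DecidableEq V] (P : Matrix V V ℝ) (q : ℝ) :
    Matrix V V ℝ := (1 - q • P)⁻¹

/-- symmetric Green function -/
noncomputable def gn {V : Type} [Fintype V] [DecidableEq V] (P : Matrix V V ℝ) (π : V → ℝ)
    (q : ℝ) (x y : V) : ℝ := Gn P q x y / π y

/-- probability to hit `y` from `x` before being killed -/
noncomputable def hit {V : Type} [Fintype V] [DecidableEq V] (P : Matrix V V ℝ) (q : ℝ)
    (x y : V) : ℝ := Gn P q x y / Gn P q y y

/-- probability that the killed walk started from `π` misses `y` -/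
noncomputable def dl {V : Type} [Fintype V] [DecidableEq V] (P : Matrix V V ℝ) (π : V → ℝ)
    (q : ℝ) (y : V) : ℝ := ∑ x, π x * (1 - hit P q x y)

/-- quadratic form -/
noncomputable def qf {V : Type} [Fintype V] (Λ : V → V → ℝ) (t : V → ℝ) : ℝ :=
  ∑ i, ∑ j, t i * Λ i j * t j

/-- probability that the walk avoids `A` at times `0, …, n` -/
noncomputable def av {V : Type} [Fintype V] [DecidableEq V] (P : Matrix V V ℝ) :
    ℕ → Finset V → V → ℝ
  | 0, A, x => if x ∈ A then 0 else 1
  | n + 1, A, x => if x ∈ A then 0 else ∑ y, P x y * av P n A y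

/-- probability that the killed walk avoids `A` -/
noncomputable def avk {V : Type} [Fintype V] [DecidableEq V] (P : Matrix V V ℝ) (q : ℝ)
    (A : Finset V) (x : V) : ℝ := ∑' n : ℕ, (1 - q) * q ^ n * av P n A x

/-- probability laws on the finite sets -/
structure IsLaw {V : Type} [Fintype V] [DecidableEq V] (ρ : Finset V → ℝ) : Prop where
  nn : ∀ R, 0 ≤ ρ R
  tot : ∑ R, ρ R = 1

/-- avoidance function -/
noncomputable def avo {V : Type} [Fintype V] [DecidableEq V] (ρ : Finset V → ℝ)
    (A : Finset V) : ℝ := ∑ R, if Disjoint R A then ρ R else 0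

/-- probability that `n` independent sets of law `ρ` do not cover `S` -/
noncomputable def en {V : Type} [Fintype V] [DecidableEq V] (ρ : Finset V → ℝ) :
    ℕ → Finset V → ℝ
  | 0, S => if S = ∅ then 0 else 1
  | n + 1, S => ∑ R, ρ R * en ρ n (S \ R)

/-- probability that a Poisson number (mean `θ`) of independent sets with avoidance function `a`
does not cover `V` (inclusion-exclusion) -/
noncomputable def fp {V : Type} [Fintype V] [DecidableEq V] (θ : ℝ) (a : Finset V → ℝ) : ℝ :=
  ∑ A : Finset V, if A = ∅ then 0 else (-1 : ℝ) ^ (A.card + 1) * Real.exp (-(θ * (1 - a A)))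

/-- probability that `k` independent walks do not cover `V` in `t` steps (inclusion-exclusion) -/
noncomputable def fk {V : Type} [Fintype V] [DecidableEq V] (P : Matrix V V ℝ) (k t : ℕ)
    (w : V) : ℝ :=
  ∑ A : Finset V, if A = ∅ then 0 else (-1 : ℝ) ^ (A.card + 1) * (av P t A w) ^ k

/-- expectation of `F (S ∪ range, end point)` for the walk with `n` steps -/
noncomputable def ee {V : Type} [Fintype V] [DecidableEq V] (P : Matrix V V ℝ) :
    ℕ → (Finset V → V → ℝ) → Finset V → V → ℝ
  | 0, F, S, x => F (insert x S) x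
  | n + 1, F, S, x => ∑ y, P x y * ee P n F (insert x S) y

/-- expectation of `F (S ∪ range, end point)` for the killed walk -/
noncomputable def ke {V : Type} [Fintype V] [DecidableEq V] (P : Matrix V V ℝ) (q : ℝ)
    (F : Finset V → V → ℝ) (S : Finset V) (x : V) : ℝ := ∑' n : ℕ, (1 - q) * q ^ n * ee P n F S x

/-- law of the range of the walk with `n` steps -/
noncomputable def rl {V : Type} [Fintype V] [DecidableEq V] (P : Matrix V V ℝ) (n : ℕ) (x : V)
    (R : Finset V) : ℝ := ee P n (fun S _ => if S = R then 1 else 0) ∅ x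

/-- law of the range of the killed walk -/
noncomputable def kl {V : Type} [Fintype V] [DecidableEq V] (P : Matrix V V ℝ) (q : ℝ) (x : V)
    (R : Finset V) : ℝ := ke P q (fun S _ => if S = R then 1 else 0) ∅ x

/-- centered Gaussian laws with covariance `Λ` -/
def IsG {V : Type} [Fintype V] (Λ : V → V → ℝ) (μ : Measure (V → ℝ)) : Prop :=
  IsProbabilityMeasure μ ∧
    ∀ t : V → ℝ, μ.map (fun x => ∑ i, t i * x i) = gaussianReal 0 (Real.toNNReal (qf Λ t))

/-- maximum of the absolute values of linear functionals -/
noncomputable def ms {V ι : Type} [Fintype V] (s : Finset ι) (t : ι → V → ℝ) (x : V → ℝ) : ℝ :=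
  ((s.sup (fun i => ‖∑ w, t i w * x w‖₊) : ℝ≥0) : ℝ)

end Pool.Agent.Helper41.CT
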