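import Pool.Agent.Helper41.CT.Defs
import Pool.Agent.Helper41.CT.ChPt

/-!
# Definitions for cover times of killed random walks and Gaussian fields
-/

set_option autoImplicit false

open scoped ENNReal NNReal Nat
open Finset MeasureTheory ProbabilityTheory

namespace Pool.Agent.Helper41.CT


/-! ## TARGETS: prove these (statements must not be changed; helper lemmas are welcome) -/

section assembly

variable {V : Type} [Fintype V] [DecidableEq V] {P : Matrix V V ℝ} {π : V → ℝ}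

theorem fs_open (S : Finset V) (s : ℝ) (π : V → ℝ) :
    IsOpen {x : V → ℝ | ∃ y ∈ S, s < |x y - ∑ w, π w * x w|} := by
  have h1 : {x : V → ℝ | ∃ y ∈ S, s < |x y - ∑ w, π w * x w|} =
      ⋃ y ∈ S, {x : V → ℝ | s < |x y - ∑ w, π w * x w|} := by
    ext x
    simp
  rw [h1]
  refine isOpen_biUnion fun y _ => isOpen_lt continuous_const ?_
  fun_prop

theorem fs_exp_le (n : ℕ) : Real.exp (-(n : ℝ)) ≤ (1 / 2) ^ n := by
  have h1 : Real.exp (-1) ≤ 1 / 2 := by
    rw [Real.exp_neg, one_div, inv_le_inv₀ (Real.exp_pos _) (by norm_num)]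
    linarith [Real.exp_one_gt_d9]
  have h2 : Real.exp (-(n : ℝ)) = Real.exp (-1) ^ n := by
    rw [← Real.exp_nat_mul]
    congr 1
    ring
  rw [h2]
  exact pow_le_pow_left₀ (Real.exp_pos _).le h1 n

theorem fs_num (m : ℕ) : 24 * ((2 : ℝ) ^ (m + 1) * Real.exp (-(130 * (2 : ℝ) ^ (m + 1)))) ≤
    24 * (1 / 2) ^ 20 * ((1 / 2) ^ (m + 1)) := by
  set u : ℝ := (2 : ℝ) ^ (m + 1) with hu
  have h1 : u ≤ Real.exp u := by linarith [Real.add_one_le_exp u]
  have hu0 : 0 < u := by positivity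
  have hum : ((m + 1 : ℕ) : ℝ) ≤ u := by
    rw [hu]
    exact_mod_cast (Nat.lt_two_pow_self (n := m + 1)).le
  have hm0 : (0 : ℝ) ≤ (m : ℝ) := Nat.cast_nonneg m
  have h2 : u * Real.exp (-(130 * u)) ≤ Real.exp (-((20 + (m + 1) : ℕ) : ℝ)) := by
    calc u * Real.exp (-(130 * u)) ≤ Real.exp u * Real.exp (-(130 * u)) :=
          mul_le_mul_of_nonneg_right h1 (Real.exp_pos _).le
      _ = Real.exp (-(129 * u)) := by rw [← Real.exp_add]; congr 1; ring
      _ ≤ Real.exp (-((20 + (m + 1) : ℕ) : ℝ)) := by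
          refine Real.exp_le_exp.2 ?_
          push_cast at hum ⊢
          linarith
  have h3 := fs_exp_le (20 + (m + 1))
  rw [pow_add] at h3
  nlinarith

theorem fs_class (h : Rev P π) (q q₁ : ℝ) (h0 : 1 / 2 ≤ q) (hqq : q ≤ q₁) (h1 : q₁ < 1)
    (θ : ℝ) (hθ1 : 1 ≤ θ) (hθ : q₁ / (1 - q₁) = θ * (q / (1 - q)))
    (hfp : ∀ v, fp θ (fun A => avk P q A v) ≤ 1 / 8)
    (μ₁ : Measure (V → ℝ)) (hμ₁ : IsG (gn P π q₁) μ₁) (m : ℕ) (D : Finset V)
    (hD : ∀ y ∈ D, 2 / θ < dl P π q₁ y ∧ (1 / 2) ^ (m + 1) < dl P π q₁ y ∧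
      dl P π q₁ y ≤ (1 / 2) ^ m) :
    μ₁ {x | ∃ y ∈ D, 7000 * Real.sqrt (1 / (1 - q₁)) < |x y - ∑ w, π w * x w|} ≤
      ENNReal.ofReal (24 * (1 / 2) ^ 20 * ((1 / 2) ^ (m + 1))) := by
  classical
  have hq0 : 0 < q := by linarith
  have hθ0 : 0 < θ := by linarith
  rcases D.eq_empty_or_nonempty with hDe | ⟨y0, hy0⟩
  · subst hDe
    simp
  set δ : ℝ := (1 / 2) ^ (m + 1) with hδdef
  have hδ0 : 0 < δ := by positivity
  have hδ1 : δ ≤ 1 := pow_le_one₀ (by norm_num) (by norm_num)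
  have h2δ : ((1 : ℝ) / 2) ^ m = 2 * δ := by rw [hδdef, pow_succ]; ring
  have hδθ : 1 ≤ δ * θ := by
    have h2 := (hD y0 hy0).1.trans_le (hD y0 hy0).2.2
    rw [h2δ, div_lt_iff₀ hθ0] at h2
    nlinarith
  set s : ℝ := 7000 * Real.sqrt (1 / (1 - q₁)) with hs
  let Y : V → Finset V := fun v => D.filter fun y => hit P q v y ≤ 2 / (δ * θ)
  let E : Set (V → ℝ) := {x | ∃ y ∈ D, s < |x y - ∑ w, π w * x w|}
  let Ev : V → Set (V → ℝ) := fun v => {x | ∃ y ∈ Y v, s < |x y - ∑ w, π w * x w|}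
  have hE : MeasurableSet E := (fs_open D s π).measurableSet
  have hEv : ∀ v, MeasurableSet (Ev v) := fun v => (fs_open (Y v) s π).measurableSet
  have hμv : ∀ v, μ₁ (Ev v) ≤ ENNReal.ofReal (12 * Real.exp (-(130 / δ))) := by
    intro v
    refine chain_pt h q q₁ h0 hqq h1 θ hθ1 hθ hfp μ₁ hμ₁ v δ hδ0 hδ1 hδθ (Y v) ?_ ?_
    · intro y hy
      rw [← h2δ]
      exact (hD y (Finset.mem_filter.1 hy).1).2.2
    · intro y hy
      exact (Finset.mem_filter.1 hy).2
  have hpt : ∀ x ∈ E, ENNReal.ofReal (δ / 2) ≤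
      ∑ v, ENNReal.ofReal (π v) * (Ev v).indicator 1 x := by
    rintro x ⟨y, hy, hxy⟩
    have hdy := hD y hy
    have hdpos : 0 < dl P π q₁ y := hδ0.trans hdy.2.1
    have h2 := B_mass h q q₁ θ hq0 hqq h1 hθ1 hθ y hdpos
    have h3 : (∑ v, if hit P q v y ≤ 2 / (dl P π q₁ y * θ) then π v else 0) ≤
        ∑ v, if x ∈ Ev v then π v else 0 := by
      refine Finset.sum_le_sum fun v _ => ?_
      by_cases hv : hit P q v y ≤ 2 / (dl P π q₁ y * θ)
      · have h4 : x ∈ Ev v := by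
          refine ⟨y, Finset.mem_filter.2 ⟨hy, hv.trans ?_⟩, hxy⟩
          refine div_le_div_of_nonneg_left (by norm_num) (by positivity) ?_
          exact mul_le_mul_of_nonneg_right hdy.2.1.le hθ0.le
        rw [if_pos hv, if_pos h4]
      · rw [if_neg hv]
        split_ifs
        · exact (h.pos v).le
        · exact le_rfl
    have h5 : δ / 2 ≤ ∑ v, if x ∈ Ev v then π v else 0 := by
      refine le_trans ?_ (h2.trans h3)
      linarith [hdy.2.1]
    refine (ENNReal.ofReal_le_ofReal h5).trans (le_of_eq ?_)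
    rw [ENNReal.ofReal_sum_of_nonneg]
    · refine Finset.sum_congr rfl fun v _ => ?_
      by_cases hv : x ∈ Ev v
      · rw [if_pos hv, Set.indicator_of_mem hv]
        simp
      · rw [if_neg hv, Set.indicator_of_notMem hv]
        simp
    · intro v _
      split_ifs
      · exact (h.pos v).le
      · exact le_rfl
  have hint : ENNReal.ofReal (δ / 2) * μ₁ E ≤ ENNReal.ofReal (12 * Real.exp (-(130 / δ))) := by
    calc ENNReal.ofReal (δ / 2) * μ₁ E = ∫⁻ _ in E, ENNReal.ofReal (δ / 2) ∂μ₁ := by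
          rw [setLIntegral_const]
      _ ≤ ∫⁻ x in E, ∑ v, ENNReal.ofReal (π v) * (Ev v).indicator 1 x ∂μ₁ :=
          setLIntegral_mono' hE hpt
      _ ≤ ∫⁻ x, ∑ v, ENNReal.ofReal (π v) * (Ev v).indicator 1 x ∂μ₁ :=
          setLIntegral_le_lintegral _ _
      _ = ∑ v, ENNReal.ofReal (π v) * μ₁ (Ev v) := by
          rw [lintegral_finsetSum]
          · refine Finset.sum_congr rfl fun v _ => ?_
            rw [lintegral_const_mul, lintegral_indicator_one (hEv v)]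
            exact measurable_one.indicator (hEv v)
          · intro v _
            exact (measurable_one.indicator (hEv v)).const_mul _
      _ ≤ ∑ v, ENNReal.ofReal (π v) * ENNReal.ofReal (12 * Real.exp (-(130 / δ))) :=
          Finset.sum_le_sum fun v _ => mul_le_mul_right (hμv v) _
      _ = ENNReal.ofReal (12 * Real.exp (-(130 / δ))) := by
          rw [← Finset.sum_mul, ← ENNReal.ofReal_sum_of_nonneg (fun v _ => (h.pos v).le), h.tot]
          simp
  have hdiv : μ₁ E ≤ ENNReal.ofReal (24 * ((1 / δ) * Real.exp (-(130 / δ)))) := by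
    have h2 : ENNReal.ofReal (24 * ((1 / δ) * Real.exp (-(130 / δ)))) =
        ENNReal.ofReal (12 * Real.exp (-(130 / δ))) / ENNReal.ofReal (δ / 2) := by
      rw [← ENNReal.ofReal_div_of_pos (by positivity)]
      congr 1
      field_simp
      ring
    rw [h2, ENNReal.le_div_iff_mul_le]
    · rw [mul_comm]
      exact hint
    · left
      simpa using hδ0
    · left
      exact ENNReal.ofReal_ne_top
  refine hdiv.trans (ENNReal.ofReal_le_ofReal ?_)
  have h3 : 1 / δ = 2 ^ (m + 1) := by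
    rw [hδdef, one_div, ← inv_pow]
    norm_num
  have h4 : 130 / δ = 130 * 2 ^ (m + 1) := by rw [← h3]; ring
  rw [h3, h4]
  exact fs_num m

/-- the whole field -/
theorem field_small (h : Rev P π) (q q₁ : ℝ) (h0 : 1 / 2 ≤ q) (hqq : q ≤ q₁) (h1 : q₁ < 1)
    (θ : ℝ) (hθ1 : 1 ≤ θ) (hθ : q₁ / (1 - q₁) = θ * (q / (1 - q)))
    (hfp : ∀ v, fp θ (fun A => avk P q A v) ≤ 1 / 8)
    (μ₁ : Measure (V → ℝ)) (hμ₁ : IsG (gn P π q₁) μ₁) :
    (μ₁ {x | ∃ y, 8000 * Real.sqrt (1 / (1 - q₁)) ≤ |x y|}).toReal ≤ 1 / 16 := by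
  classical
  rcases isEmpty_or_nonempty V with hV | ⟨⟨v0⟩⟩
  · have h2 : {x : V → ℝ | ∃ y, 8000 * Real.sqrt (1 / (1 - q₁)) ≤ |x y|} = ∅ := by
      ext x
      simp
    rw [h2]
    simp
  have hq0 : 0 < q := by linarith
  have hq1 : q < 1 := hqq.trans_lt h1
  have hq10 : 0 < q₁ := hq0.trans_le hqq
  have hθ0 : 0 < θ := by linarith
  set K : ℝ := 1 / (1 - q₁) with hK
  have hK0 : 0 < K := by rw [hK]; exact one_div_pos.2 (by linarith)
  set s : ℝ := Real.sqrt K with hs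
  have hs0 : 0 < s := Real.sqrt_pos.2 hK0
  have hs2 : s ^ 2 = K := Real.sq_sqrt hK0.le
  -- the mean
  have hmean : μ₁ {x | 1000 * s ≤ |∑ w, π w * x w|} ≤ ENNReal.ofReal (2 * (1 / 2) ^ 20) := by
    have h2 := isG_tail hμ₁ π s (1000 * s) hs0 (by rw [var_mean h q₁ hq10 h1, hs2]) (by positivity)
    refine h2.trans (ENNReal.ofReal_le_ofReal ?_)
    have h3 : (1000 * s) ^ 2 / (2 * s ^ 2) = 500000 := by
      field_simp
      norm_num
    rw [h3]
    have h4 : Real.exp (-(500000 : ℝ)) ≤ Real.exp (-((20 : ℕ) : ℝ)) :=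
      Real.exp_le_exp.2 (by norm_num)
    exact mul_le_mul_of_nonneg_left (h4.trans (fs_exp_le 20)) (by norm_num)
  have hhit : ∀ v y, 2 / θ ≤ hit P q v y := fun v y =>
    hit_ge h q hq0 hq1 θ hθ1 v (hfp v) y
  have hdl0 : ∀ y, 0 ≤ dl P π q₁ y := fun y => dl_nonneg h q₁ hq10 h1 y
  have hdl1 : ∀ y, dl P π q₁ y ≤ 1 / 3 := fun y =>
    dl_le h q₁ hq10 h1 y fun x => hit_lower h q q₁ θ hq0 hqq h1 hθ1 hθ y (fun x => hhit x y) x
  -- the first class
  let D0 : Finset V := Finset.univ.filter fun y => dl P π q₁ y ≤ 2 / θ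
  let D : ℕ → Finset V := fun m => Finset.univ.filter fun y => 2 / θ < dl P π q₁ y ∧
    (1 / 2) ^ (m + 1) < dl P π q₁ y ∧ dl P π q₁ y ≤ (1 / 2) ^ m
  have hD0 : μ₁ {x | ∃ y ∈ D0, 7000 * s < |x y - ∑ w, π w * x w|} ≤
      ENNReal.ofReal (12 * (1 / 2) ^ 20) := by
    have h2 := chain_pt h q q₁ h0 hqq h1 θ hθ1 hθ hfp μ₁ hμ₁ v0 (1 / θ) (by positivity)
      (by rw [div_le_one hθ0]; exact hθ1) (by rw [one_div, inv_mul_cancel₀ hθ0.ne']) D0
      (fun y hy => by
        have := (Finset.mem_filter.1 hy).2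
        calc dl P π q₁ y ≤ 2 / θ := this
          _ = 2 * (1 / θ) := by ring)
      (fun y _ => by
        have h3 := hit_le_one h q hq0 hq1 v0 y
        have h4 : 2 / (1 / θ * θ) = 2 := by
          rw [one_div, inv_mul_cancel₀ hθ0.ne']
          norm_num
        rw [h4]
        linarith)
    refine h2.trans (ENNReal.ofReal_le_ofReal ?_)
    have h4 : Real.exp (-(130 / (1 / θ))) ≤ Real.exp (-((20 : ℕ) : ℝ)) := by
      refine Real.exp_le_exp.2 ?_
      have : 130 / (1 / θ) = 130 * θ := by field_simp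
      rw [this]
      push_cast
      linarith
    have h5 := fs_exp_le 20
    linarith
  have hDm : ∀ m, μ₁ {x | ∃ y ∈ D m, 7000 * s < |x y - ∑ w, π w * x w|} ≤
      ENNReal.ofReal (24 * (1 / 2) ^ 20 * ((1 / 2) ^ (m + 1))) := fun m =>
    fs_class h q q₁ h0 hqq h1 θ hθ1 hθ hfp μ₁ hμ₁ m (D m) fun y hy => (Finset.mem_filter.1 hy).2
  have hcover : ∀ y : V, y ∈ D0 ∨ ∃ m, y ∈ D m := by
    intro y
    by_cases hy : dl P π q₁ y ≤ 2 / θ
    · exact Or.inl (Finset.mem_filter.2 ⟨Finset.mem_univ _, hy⟩)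
    · right
      push Not at hy
      have hpos : 0 < dl P π q₁ y := lt_trans (by positivity) hy
      obtain ⟨m, hm1, hm2⟩ := exists_nat_pow_near_of_lt_one (x := dl P π q₁ y)
        (y := (1 / 2 : ℝ)) hpos (by linarith [hdl1 y]) (by norm_num) (by norm_num)
      exact ⟨m, Finset.mem_filter.2 ⟨Finset.mem_univ _, hy, hm1, hm2⟩⟩
  have hsub : {x : V → ℝ | ∃ y, 8000 * s ≤ |x y|} ⊆
      ({x | 1000 * s ≤ |∑ w, π w * x w|} ∪
        {x | ∃ y ∈ D0, 7000 * s < |x y - ∑ w, π w * x w|}) ∪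
        ⋃ m, {x | ∃ y ∈ D m, 7000 * s < |x y - ∑ w, π w * x w|} := by
    rintro x ⟨y, hy⟩
    by_cases h2 : 1000 * s ≤ |∑ w, π w * x w|
    · exact Or.inl (Or.inl h2)
    · push Not at h2
      have h3 : 7000 * s < |x y - ∑ w, π w * x w| := by
        have h4 := abs_sub_abs_le_abs_sub (x y) (∑ w, π w * x w)
        linarith
      rcases hcover y with h4 | ⟨m, h4⟩
      · exact Or.inl (Or.inr ⟨y, h4, h3⟩)
      · exact Or.inr (Set.mem_iUnion.2 ⟨m, y, h4, h3⟩)
  have hsumm : Summable fun m : ℕ => 24 * ((1 : ℝ) / 2) ^ 20 * ((1 / 2) ^ (m + 1)) := by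
    have h2 : Summable fun m : ℕ => ((1 : ℝ) / 2) ^ m :=
      summable_geometric_of_lt_one (by norm_num) (by norm_num)
    exact ((summable_nat_add_iff 1).2 h2).mul_left _
  have htsum : ∑' m : ℕ, 24 * ((1 : ℝ) / 2) ^ 20 * ((1 / 2) ^ (m + 1)) = 24 * (1 / 2) ^ 20 := by
    rw [tsum_mul_left]
    have h2 : ∑' m : ℕ, ((1 : ℝ) / 2) ^ (m + 1) = 1 := by
      simp only [pow_succ]
      rw [tsum_mul_right, tsum_geometric_of_lt_one (by norm_num) (by norm_num)]
      norm_num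
    rw [h2, mul_one]
  have htotal : μ₁ {x : V → ℝ | ∃ y, 8000 * s ≤ |x y|} ≤ ENNReal.ofReal (1 / 16) := by
    calc μ₁ {x : V → ℝ | ∃ y, 8000 * s ≤ |x y|}
        ≤ μ₁ (({x | 1000 * s ≤ |∑ w, π w * x w|} ∪
          {x | ∃ y ∈ D0, 7000 * s < |x y - ∑ w, π w * x w|}) ∪
          ⋃ m, {x | ∃ y ∈ D m, 7000 * s < |x y - ∑ w, π w * x w|}) := measure_mono hsub
      _ ≤ (ENNReal.ofReal (2 * (1 / 2) ^ 20) + ENNReal.ofReal (12 * (1 / 2) ^ 20)) +
          ENNReal.ofReal (24 * (1 / 2) ^ 20) := by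
          refine (measure_union_le _ _).trans (add_le_add ((measure_union_le _ _).trans
            (add_le_add hmean hD0)) ?_)
          refine (measure_iUnion_le _).trans ?_
          refine (ENNReal.tsum_le_tsum hDm).trans ?_
          rw [← ENNReal.ofReal_tsum_of_nonneg (fun m => by positivity) hsumm, htsum]
      _ ≤ ENNReal.ofReal (1 / 16) := by
          rw [← ENNReal.ofReal_add (by positivity) (by positivity),
            ← ENNReal.ofReal_add (by positivity) (by positivity)]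
          refine ENNReal.ofReal_le_ofReal ?_
          norm_num
  exact ENNReal.toReal_le_of_le_ofReal (by norm_num) htotal

end assembly

end Pool.Agent.Helper41.CT
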