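import Pool.Agent.Helper41.CT.Defs
import Pool.Agent.Helper41.CT.Net

/-!
# Definitions for cover times of killed random walks and Gaussian fields
-/

set_option autoImplicit false

open scoped ENNReal NNReal Nat
open Finset MeasureTheory ProbabilityTheory

namespace Pool.Agent.Helper41.CT


/-! ## TARGETS: prove these (statements must not be changed; helper lemmas are welcome) -/

section walks

variable {V : Type} [Fintype V] [DecidableEq V] {P : Matrix V V ℝ} {π : V → ℝ}

/-- failure indicator -/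
noncomputable def w18fl (S : Finset V) : ℝ := if S = univ then 0 else 1

theorem w18fl_nonneg (S : Finset V) : 0 ≤ w18fl S := by
  unfold w18fl; split_ifs <;> norm_num

theorem w18fl_le_one (S : Finset V) : w18fl S ≤ 1 := by
  unfold w18fl; split_ifs <;> norm_num

theorem w18fl_anti (S S' : Finset V) (hS : S ⊆ S') : w18fl S' ≤ w18fl S := by
  by_cases h : S = univ
  · have : S' = univ := univ_subset_iff.mp (h ▸ hS)
    rw [this, h]
  · have : w18fl S = 1 := by unfold w18fl; rw [if_neg h]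
    rw [this]
    exact w18fl_le_one S'

theorem w18ee_le (h : Rev P π) (n : ℕ) (F G : Finset V → V → ℝ) (S : Finset V) (x : V)
    (hFG : ∀ S', S ⊆ S' → ∀ y, F S' y ≤ G S' y) : ee P n F S x ≤ ee P n G S x := by
  induction n generalizing S x with
  | zero => exact hFG _ (subset_insert x S) x
  | succ n ih =>
    change ∑ y, P x y * ee P n F (insert x S) y ≤ ∑ y, P x y * ee P n G (insert x S) y
    refine sum_le_sum fun y _ => mul_le_mul_of_nonneg_left (ih _ _ ?_) (h.nn x y)
    intro S' hS' z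
    exact hFG S' ((subset_insert x S).trans hS') z

theorem w18ee_lin (h : Rev P π) (n : ℕ) (F : Finset V → V → ℝ) (c d : ℝ) (S : Finset V) (x : V) :
    ee P n (fun S' y => c * F S' y + d) S x = c * ee P n F S x + d := by
  induction n generalizing S x with
  | zero => rfl
  | succ n ih =>
    change ∑ y, P x y * ee P n (fun S' y => c * F S' y + d) (insert x S) y =
      c * ∑ y, P x y * ee P n F (insert x S) y + d
    simp only [ih]
    have h1 : ∑ y, P x y * (c * ee P n F (insert x S) y + d) =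
        c * (∑ y, P x y * ee P n F (insert x S) y) + (∑ y, P x y) * d := by
      rw [mul_sum, sum_mul, ← sum_add_distrib]
      refine sum_congr rfl fun y _ => ?_
      ring
    rw [h1, h.row, one_mul]

theorem w18ee_cst (h : Rev P π) (n : ℕ) (c : ℝ) (S : Finset V) (x : V) :
    ee P n (fun _ _ => c) S x = c := by
  have := w18ee_lin h n (fun _ _ => (0 : ℝ)) 0 c S x
  simpa using this

theorem w18ee_anti (h : Rev P π) (n : ℕ) (F : Finset V → V → ℝ)
    (hF : ∀ S S', S ⊆ S' → ∀ y, F S' y ≤ F S y) (S S' : Finset V) (hS : S ⊆ S') (x : V) :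
    ee P n F S' x ≤ ee P n F S x := by
  induction n generalizing S S' x with
  | zero => exact hF _ _ (insert_subset_insert x hS) x
  | succ n ih =>
    exact sum_le_sum fun y _ => mul_le_mul_of_nonneg_left
      (ih _ _ (insert_subset_insert x hS) y) (h.nn x y)

theorem w18ee_bd (h : Rev P π) (F : Finset V → V → ℝ) :
    ∃ B : ℝ, 0 ≤ B ∧ ∀ n S x, |ee P n F S x| ≤ B := by
  have hb : ∀ S y, |F S y| ≤ ∑ S, ∑ y, |F S y| := by
    intro S y
    exact (single_le_sum (f := fun y => |F S y|) (fun _ _ => abs_nonneg _) (mem_univ y)).trans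
      (single_le_sum (f := fun S => ∑ y, |F S y|)
        (fun _ _ => sum_nonneg fun _ _ => abs_nonneg _) (mem_univ S))
  refine ⟨∑ S, ∑ y, |F S y|, sum_nonneg fun _ _ => sum_nonneg fun _ _ => abs_nonneg _,
    fun n S x => ?_⟩
  rw [abs_le]
  constructor
  · have := w18ee_le h n (fun _ _ => -(∑ S, ∑ y, |F S y|)) F S x
      (fun S' _ y => (abs_le.mp (hb S' y)).1)
    rwa [w18ee_cst h] at this
  · have := w18ee_le h n F (fun _ _ => (∑ S, ∑ y, |F S y|)) S x
      (fun S' _ y => (abs_le.mp (hb S' y)).2)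
    rwa [w18ee_cst h] at this

theorem w18ke_sm (h : Rev P π) (q : ℝ) (h0 : 0 < q) (h1 : q < 1) (F : Finset V → V → ℝ)
    (S : Finset V) (x : V) : Summable (fun n : ℕ => (1 - q) * q ^ n * ee P n F S x) := by
  obtain ⟨B, hB0, hB⟩ := w18ee_bd h F
  refine Summable.of_norm_bounded (g := fun n : ℕ => (1 - q) * q ^ n * B) ?_ ?_
  · exact ((summable_geometric_of_lt_one h0.le h1).mul_left (1 - q)).mul_right B
  · intro n
    have hq : 0 ≤ (1 - q) * q ^ n := mul_nonneg (by linarith) (pow_nonneg h0.le n)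
    rw [norm_mul, Real.norm_of_nonneg hq]
    exact mul_le_mul_of_nonneg_left (hB n S x) hq

theorem w18ke_hs (h : Rev P π) (q : ℝ) (h0 : 0 < q) (h1 : q < 1) (F : Finset V → V → ℝ)
    (S : Finset V) (x : V) :
    HasSum (fun n : ℕ => (1 - q) * q ^ n * ee P n F S x) (ke P q F S x) :=
  (w18ke_sm h q h0 h1 F S x).hasSum

theorem w18ke_le (h : Rev P π) (q : ℝ) (h0 : 0 < q) (h1 : q < 1) (F G : Finset V → V → ℝ)
    (S : Finset V) (x : V) (hFG : ∀ S', S ⊆ S' → ∀ y, F S' y ≤ G S' y) :
    ke P q F S x ≤ ke P q G S x := by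
  refine hasSum_le (fun n => ?_) (w18ke_hs h q h0 h1 F S x) (w18ke_hs h q h0 h1 G S x)
  have hq : 0 ≤ (1 - q) * q ^ n := mul_nonneg (by linarith) (pow_nonneg h0.le n)
  exact mul_le_mul_of_nonneg_left (w18ee_le h n F G S x hFG) hq

theorem w18geo (q : ℝ) (h0 : 0 < q) (h1 : q < 1) :
    HasSum (fun n : ℕ => (1 - q) * q ^ n) 1 := by
  have := (hasSum_geometric_of_lt_one h0.le h1).mul_left (1 - q)
  rwa [mul_inv_cancel₀ (by linarith : (1 - q) ≠ 0)] at this

theorem w18ke_cst (h : Rev P π) (q : ℝ) (h0 : 0 < q) (h1 : q < 1) (c : ℝ) (S : Finset V)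
    (x : V) : ke P q (fun _ _ => c) S x = c := by
  have hs := w18ke_hs h q h0 h1 (fun _ _ => c) S x
  simp only [w18ee_cst h] at hs
  have h2 := (w18geo q h0 h1).mul_right c
  rw [one_mul] at h2
  exact hs.unique h2

theorem w18ke_anti (h : Rev P π) (q : ℝ) (h0 : 0 < q) (h1 : q < 1) (F : Finset V → V → ℝ)
    (hF : ∀ S S', S ⊆ S' → ∀ y, F S' y ≤ F S y) (S S' : Finset V) (hS : S ⊆ S') (x : V) :
    ke P q F S' x ≤ ke P q F S x := by
  refine hasSum_le (fun n => ?_) (w18ke_hs h q h0 h1 F S' x) (w18ke_hs h q h0 h1 F S x)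
  have hq : 0 ≤ (1 - q) * q ^ n := mul_nonneg (by linarith) (pow_nonneg h0.le n)
  exact mul_le_mul_of_nonneg_left (w18ee_anti h n F hF S S' hS x) hq

/-- failure after `i` killed segments -/
noncomputable def w18V (P : Matrix V V ℝ) (q : ℝ) : ℕ → Finset V → V → ℝ
  | 0, S, _ => w18fl S
  | i + 1, S, x => ke P q (w18V P q i) S x

theorem w18V_anti (h : Rev P π) (q : ℝ) (h0 : 0 < q) (h1 : q < 1) (i : ℕ) :
    ∀ S S', S ⊆ S' → ∀ y, w18V P q i S' y ≤ w18V P q i S y := by
  induction i with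
  | zero => intro S S' hS y; exact w18fl_anti S S' hS
  | succ i ih =>
    intro S S' hS y
    exact w18ke_anti h q h0 h1 _ ih S S' hS y

theorem w18V_nonneg (h : Rev P π) (q : ℝ) (h0 : 0 < q) (h1 : q < 1) (i : ℕ) :
    ∀ S y, 0 ≤ w18V P q i S y := by
  induction i with
  | zero => intro S y; exact w18fl_nonneg S
  | succ i ih =>
    intro S y
    have := w18ke_le h q h0 h1 (fun _ _ => (0 : ℝ)) (w18V P q i) S y (fun S' _ z => ih S' z)
    rwa [w18ke_cst h q h0 h1] at this

theorem w18V_le (h : Rev P π) (q : ℝ) (h0 : 0 < q) (h1 : q < 1) (i : ℕ) :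
    ∀ S y, w18V P q i S y ≤ w18fl S := by
  induction i with
  | zero => intro S y; exact le_refl _
  | succ i ih =>
    intro S y
    have := w18ke_le h q h0 h1 (w18V P q i) (fun _ _ => w18fl S) S y
      (fun S' hS' z => (ih S' z).trans (w18fl_anti S S' hS'))
    rwa [w18ke_cst h q h0 h1] at this

theorem w18ee_indep (n : ℕ) (H : V → ℝ) (S S' : Finset V) (x : V) :
    ee P n (fun _ y => H y) S x = ee P n (fun _ y => H y) S' x := by
  induction n generalizing S S' x with
  | zero => rfl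
  | succ n ih =>
    exact sum_congr rfl fun y _ => by
      change P x y * ee P n (fun _ y => H y) (insert x S) y =
        P x y * ee P n (fun _ y => H y) (insert x S') y
      rw [ih]

theorem w18ke_end (h : Rev P π) (q : ℝ) (h0 : 0 < q) (h1 : q < 1) (H : V → ℝ) (S : Finset V)
    (x : V) : ke P q (fun _ y => H y) S x ≤ (1 - q) * ∑ y, Gn P q x y * H y := by
  have hind : ∀ S S' : Finset V, ∀ x, ke P q (fun _ y => H y) S x =
      ke P q (fun _ y => H y) S' x := by
    intro S S' x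
    unfold ke
    refine tsum_congr fun n => ?_
    rw [w18ee_indep n H S S' x]
  set D : V → ℝ := fun x => ke P q (fun _ y => H y) S x - (1 - q) * ∑ y, Gn P q x y * H y
    with hD
  have hrec : ∀ x, D x = q * ∑ z, P x z * D z := by
    intro x
    have e1 : ke P q (fun _ y => H y) S x =
        (1 - q) * H x + q * ∑ z, P x z * ke P q (fun _ y => H y) S z := by
      rw [ke_rec h q h0 h1]
      congr 2
      refine sum_congr rfl fun z _ => ?_
      rw [hind (insert x S) S z]
    have e2 : ∑ y, Gn P q x y * H y = H x + q * ∑ z, P x z * ∑ y, Gn P q z y * H y := by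
      calc ∑ y, Gn P q x y * H y
          = ∑ y, ((if x = y then 1 else 0) * H y + q * ((∑ z, P x z * Gn P q z y) * H y)) := by
            refine sum_congr rfl fun y _ => ?_
            rw [Gn_left h q h0 h1 x y]
            ring
        _ = H x + q * ∑ y, (∑ z, P x z * Gn P q z y) * H y := by
            rw [sum_add_distrib, ← mul_sum]
            congr 1
            simp
        _ = _ := by
            congr 2
            simp only [sum_mul, mul_sum]
            rw [sum_comm]
            refine sum_congr rfl fun z _ => sum_congr rfl fun y _ => ?_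
            ring
    simp only [hD]
    rw [e1, e2]
    have e3 : ∑ z, P x z * (ke P q (fun _ y => H y) S z - (1 - q) * ∑ y, Gn P q z y * H y) =
        ∑ z, P x z * ke P q (fun _ y => H y) S z -
          (1 - q) * ∑ z, P x z * ∑ y, Gn P q z y * H y := by
      rw [mul_sum, ← sum_sub_distrib]
      refine sum_congr rfl fun z _ => ?_
      ring
    rw [e3]
    ring
  have := max_pr h q h0 h1 ∅ D (fun x _ => (hrec x).le) (by simp) x
  simp only [hD] at this
  linarith

/-- law of the stationary killed range -/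
noncomputable def w18ρ (P : Matrix V V ℝ) (π : V → ℝ) (q : ℝ) (R : Finset V) : ℝ :=
  ∑ x, π x * kl P q x R

theorem w18ρ_law (h : Rev P π) (q : ℝ) (h0 : 0 < q) (h1 : q < 1) : IsLaw (w18ρ P π q) := by
  constructor
  · intro R
    exact sum_nonneg fun x _ => mul_nonneg (h.pos x).le ((kl_law h q h0 h1 x).nn R)
  · unfold w18ρ
    rw [sum_comm]
    simp only [← mul_sum, (kl_law h q h0 h1 _).tot, mul_one]
    exact h.tot

theorem w18ρ_avo (h : Rev P π) (q : ℝ) (h0 : 0 < q) (h1 : q < 1) :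
    avo (w18ρ P π q) = fun A => ∑ x, π x * avk P q A x := by
  funext A
  have : ∀ x, avk P q A x = ∑ R, if Disjoint R A then kl P q x R else 0 := by
    intro x
    rw [← kl_avo h q h0 h1 A x]
    rfl
  simp only [this]
  unfold avo w18ρ
  simp only [mul_sum]
  rw [sum_comm (s := (univ : Finset V))]
  refine sum_congr rfl fun R _ => ?_
  split_ifs <;> simp

theorem w18C (h : Rev P π) (q : ℝ) (h0 : 0 < q) (h1 : q < 1)
    (hG : ∀ x y, π y / 2 ≤ (1 - q) * Gn P q x y) (i : ℕ) (F : Finset V → ℝ)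
    (hF : ∀ S S', S ⊆ S' → F S' ≤ F S) (hVF : ∀ S y, w18V P q i S y ≤ F S)
    (S : Finset V) (x : V) :
    w18V P q (i + 2) S x ≤ 1 / 2 * F S + 1 / 2 * ∑ R, w18ρ P π q R * F (S ∪ R) := by
  set H : V → ℝ := fun y => ke P q (fun S'' _ => F S'') S y with hH
  have s1 : ∀ S', S ⊆ S' → ∀ y, w18V P q (i + 1) S' y ≤ H y := by
    intro S' hS' y
    change ke P q (w18V P q i) S' y ≤ _
    refine (w18ke_le h q h0 h1 _ (fun S'' _ => F S'') S' y (fun S'' _ z => hVF S'' z)).trans ?_
    exact w18ke_anti h q h0 h1 (fun S'' _ => F S'') (fun S S' hS _ => hF S S' hS) S S' hS' y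
  have s2 : w18V P q (i + 2) S x ≤ (1 - q) * ∑ y, Gn P q x y * H y := by
    refine le_trans ?_ (w18ke_end h q h0 h1 H S x)
    change ke P q (w18V P q (i + 1)) S x ≤ _
    exact w18ke_le h q h0 h1 _ (fun _ y => H y) S x s1
  have s3 : ∀ y, H y ≤ F S := by
    intro y
    have := w18ke_le h q h0 h1 (fun S'' _ => F S'') (fun _ _ => F S) S y
      (fun S' hS' _ => hF S S' hS')
    rwa [w18ke_cst h q h0 h1] at this
  have s4 : ∑ y, π y * H y = ∑ R, w18ρ P π q R * F (S ∪ R) := by
    have : ∀ y, H y = ∑ R, kl P q y R * F (S ∪ R) := fun y => ke_law h q h0 h1 F S y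
    simp only [this]
    unfold w18ρ
    simp only [mul_sum, sum_mul]
    rw [sum_comm]
    refine sum_congr rfl fun R _ => sum_congr rfl fun y _ => ?_
    ring
  have s5 : (1 - q) * ∑ y, Gn P q x y * H y =
      1 / 2 * ∑ y, π y * H y + ∑ y, ((1 - q) * Gn P q x y - π y / 2) * H y := by
    rw [mul_sum, mul_sum, ← sum_add_distrib]
    refine sum_congr rfl fun y _ => ?_
    ring
  have s6 : ∑ y, ((1 - q) * Gn P q x y - π y / 2) * H y ≤
      ∑ y, ((1 - q) * Gn P q x y - π y / 2) * F S := by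
    refine sum_le_sum fun y _ => mul_le_mul_of_nonneg_left (s3 y) ?_
    linarith [hG x y]
  have s7 : ∑ y, ((1 - q) * Gn P q x y - π y / 2) * F S = 1 / 2 * F S := by
    rw [← sum_mul, sum_sub_distrib, ← mul_sum, Gn_row h q h0 h1, ← sum_div, h.tot]
    rw [mul_one_div_cancel (by linarith : (1 - q) ≠ 0)]
    ring
  linarith

theorem w18D (h : Rev P π) (q : ℝ) (h0 : 0 < q) (h1 : q < 1)
    (hG : ∀ x y, π y / 2 ≤ (1 - q) * Gn P q x y) (j : ℕ) :
    ∀ (m : ℕ) (S : Finset V) (x : V), w18V P q (2 * j) S x ≤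
      en (w18ρ P π q) m (univ \ S) + 2 ^ m * (3 / 4) ^ j := by
  have hρ := w18ρ_law h q h0 h1
  induction j with
  | zero =>
    intro m S x
    have a1 : w18V P q (2 * 0) S x ≤ 1 := (w18V_le h q h0 h1 _ S x).trans (w18fl_le_one S)
    have a2 : (1 : ℝ) ≤ 2 ^ m := one_le_pow₀ (by norm_num)
    have a3 := en_nonneg hρ m (univ \ S)
    rw [pow_zero, mul_one]
    linarith
  | succ j ih =>
    intro m
    cases m with
    | zero =>
      intro S x
      have a1 : w18V P q (2 * (j + 1)) S x ≤ w18fl S := w18V_le h q h0 h1 _ S x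
      have a2 : en (w18ρ P π q) 0 (univ \ S) = w18fl S := by
        change (if univ \ S = ∅ then (0 : ℝ) else 1) = if S = univ then 0 else 1
        have : (univ \ S = ∅) ↔ S = univ := by
          rw [sdiff_eq_empty_iff_subset, univ_subset_iff]
        simp only [this]
      rw [a2]
      have : (0 : ℝ) ≤ 2 ^ 0 * (3 / 4) ^ (j + 1) := by positivity
      linarith
    | succ m =>
      intro S x
      have hVF : ∀ S y, w18V P q (2 * j) S y ≤
          min (en (w18ρ P π q) (m + 1) (univ \ S) + 2 ^ (m + 1) * (3 / 4) ^ j)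
            (en (w18ρ P π q) m (univ \ S) + 2 ^ m * (3 / 4) ^ j) :=
        fun S y => le_min (ih (m + 1) S y) (ih m S y)
      have hF : ∀ S S' : Finset V, S ⊆ S' →
          min (en (w18ρ P π q) (m + 1) (univ \ S') + 2 ^ (m + 1) * (3 / 4) ^ j)
            (en (w18ρ P π q) m (univ \ S') + 2 ^ m * (3 / 4) ^ j) ≤
          min (en (w18ρ P π q) (m + 1) (univ \ S) + 2 ^ (m + 1) * (3 / 4) ^ j)
            (en (w18ρ P π q) m (univ \ S) + 2 ^ m * (3 / 4) ^ j) := by
        intro S S' hS
        have hs : univ \ S' ⊆ univ \ S := sdiff_subset_sdiff (le_refl _) hS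
        refine min_le_min ?_ ?_
        · have := en_mono hρ (m + 1) _ _ hs
          linarith
        · have := en_mono hρ m _ _ hs
          linarith
      have key := w18C h q h0 h1 hG (2 * j) (fun S =>
        min (en (w18ρ P π q) (m + 1) (univ \ S) + 2 ^ (m + 1) * (3 / 4) ^ j)
            (en (w18ρ P π q) m (univ \ S) + 2 ^ m * (3 / 4) ^ j)) hF hVF S x
      have k1 : min (en (w18ρ P π q) (m + 1) (univ \ S) + 2 ^ (m + 1) * (3 / 4) ^ j)
            (en (w18ρ P π q) m (univ \ S) + 2 ^ m * (3 / 4) ^ j) ≤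
          en (w18ρ P π q) (m + 1) (univ \ S) + 2 ^ (m + 1) * (3 / 4) ^ j := min_le_left _ _
      have k2 : ∑ R, w18ρ P π q R *
          min (en (w18ρ P π q) (m + 1) (univ \ (S ∪ R)) + 2 ^ (m + 1) * (3 / 4) ^ j)
            (en (w18ρ P π q) m (univ \ (S ∪ R)) + 2 ^ m * (3 / 4) ^ j) ≤
          ∑ R, w18ρ P π q R * (en (w18ρ P π q) m ((univ \ S) \ R) + 2 ^ m * (3 / 4) ^ j) := by
        refine sum_le_sum fun R _ => mul_le_mul_of_nonneg_left ?_ (hρ.nn R)
        refine (min_le_right _ _).trans ?_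
        rw [sdiff_sdiff_left]
        exact le_refl _
      have k3 : ∑ R, w18ρ P π q R * (en (w18ρ P π q) m ((univ \ S) \ R) + 2 ^ m * (3 / 4) ^ j) =
          en (w18ρ P π q) (m + 1) (univ \ S) + 2 ^ m * (3 / 4) ^ j := by
        have e1 : en (w18ρ P π q) (m + 1) (univ \ S) =
          ∑ R, w18ρ P π q R * en (w18ρ P π q) m ((univ \ S) \ R) := rfl
        rw [e1]
        simp only [mul_add, sum_add_distrib]
        rw [← sum_mul, hρ.tot, one_mul]
      have k4 : (2 : ℝ) ^ (m + 1) * (3 / 4) ^ (j + 1) =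
          1 / 2 * (2 ^ (m + 1) * (3 / 4) ^ j) + 1 / 2 * (2 ^ m * (3 / 4) ^ j) := by
        rw [pow_succ, pow_succ]
        ring
      rw [k3] at k2
      rw [k4]
      have k5 : w18V P q (2 * (j + 1)) S x = w18V P q (2 * j + 2) S x := rfl
      rw [k5]
      linarith

/-- Markov inequality for the total time -/
theorem w18E (h : Rev P π) (q : ℝ) (h0 : 0 < q) (h1 : q < 1) (i : ℕ) :
    ∀ (T : ℕ) (S : Finset V) (x : V),
      (T : ℝ) * ee P T (fun S' _ => w18fl S') S x ≤
        T * w18V P q i S x + i * (q / (1 - q)) := by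
  have hq : 0 < 1 - q := by linarith
  have hK : 0 ≤ q / (1 - q) := div_nonneg h0.le hq.le
  have ha1 : ∀ (T : ℕ) (S : Finset V) (x : V), ee P T (fun S' _ => w18fl S') S x ≤ w18fl S := by
    intro T S x
    have := w18ee_le h T (fun S' _ => w18fl S') (fun _ _ => w18fl S) S x
      (fun S' hS' _ => w18fl_anti S S' hS')
    rwa [w18ee_cst h] at this
  induction i with
  | zero =>
    intro T S x
    have := mul_le_mul_of_nonneg_left (ha1 T S x) (Nat.cast_nonneg (α := ℝ) T)
    simp only [Nat.cast_zero, zero_mul, add_zero]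
    exact this
  | succ i ih =>
    intro T S x
    have hpt : ∀ n : ℕ, (T : ℝ) * ee P T (fun S' _ => w18fl S') S x ≤
        T * ee P n (w18V P q i) S x + i * (q / (1 - q)) + n := by
      intro n
      have hV0 : 0 ≤ ee P n (w18V P q i) S x := by
        have := w18ee_le h n (fun _ _ => (0 : ℝ)) (w18V P q i) S x
          (fun S' _ z => w18V_nonneg h q h0 h1 i S' z)
        rwa [w18ee_cst h] at this
      have haT := (ha1 T S x).trans (w18fl_le_one S)
      have hi : 0 ≤ (i : ℝ) * (q / (1 - q)) := mul_nonneg (Nat.cast_nonneg i) hK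
      rcases le_or_gt n T with hn | hn
      · obtain ⟨d, rfl⟩ := Nat.exists_eq_add_of_le hn
        have e1 : ee P (n + d) (fun S' _ => w18fl S') S x =
            ee P n (fun S' y => ee P d (fun S' _ => w18fl S') S' y) S x :=
          ee_semi h n d _ S x
        have e2 := w18ee_le h n (fun S' y => (d : ℝ) * ee P d (fun S' _ => w18fl S') S' y + 0)
          (fun S' y => (d : ℝ) * w18V P q i S' y + i * (q / (1 - q))) S x
          (fun S' _ y => by simpa using ih d S' y)
        rw [w18ee_lin h, w18ee_lin h, ← e1] at e2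
        push_cast
        have e3 : (n : ℝ) * ee P (n + d) (fun S' _ => w18fl S') S x ≤ n * 1 :=
          mul_le_mul_of_nonneg_left haT (Nat.cast_nonneg n)
        have e4 : 0 ≤ (n : ℝ) * ee P n (w18V P q i) S x := mul_nonneg (Nat.cast_nonneg n) hV0
        nlinarith
      · have e3 : (T : ℝ) * ee P T (fun S' _ => w18fl S') S x ≤ T * 1 :=
          mul_le_mul_of_nonneg_left haT (Nat.cast_nonneg T)
        have e4 : 0 ≤ (T : ℝ) * ee P n (w18V P q i) S x := mul_nonneg (Nat.cast_nonneg T) hV0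
        have e5 : (T : ℝ) ≤ n := by exact_mod_cast hn.le
        linarith
    have hs1 := w18ke_hs h q h0 h1 (w18V P q i) S x
    have hs2 := w18geo q h0 h1
    have hs3 : HasSum (fun n : ℕ => (1 - q) * ((n : ℝ) * q ^ n)) (q / (1 - q)) := by
      have := (hasSum_coe_mul_geometric_of_norm_lt_one
        (r := q) (by rw [Real.norm_of_nonneg h0.le]; exact h1)).mul_left (1 - q)
      have e : (1 - q) * (q / (1 - q) ^ 2) = q / (1 - q) := by
        field_simp
      rwa [e] at this
    have hs4 := ((hs1.mul_left (T : ℝ)).add (hs2.mul_left (i * (q / (1 - q))))).add hs3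
    have hs5 := hs2.mul_left ((T : ℝ) * ee P T (fun S' _ => w18fl S') S x)
    have hle := hasSum_le (fun n => ?_) hs5 hs4
    · have e : w18V P q (i + 1) S x = ke P q (w18V P q i) S x := rfl
      rw [e]
      push_cast
      linarith
    · have hqn : 0 ≤ (1 - q) * q ^ n := mul_nonneg hq.le (pow_nonneg h0.le n)
      have := mul_le_mul_of_nonneg_right (hpt n) hqn
      calc (T : ℝ) * ee P T (fun S' _ => w18fl S') S x * ((1 - q) * q ^ n) ≤ _ := this
        _ = _ := by ring

theorem w18fk (h : Rev P π) (t : ℕ) (u : V) :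
    fk P 1 t u = ee P t (fun S' _ => w18fl S') ∅ u := by
  rw [fk_rl h, ee_law h t (w18fl) ∅ u]
  change ∑ R, rl P t u R * (if univ \ R = ∅ then (0 : ℝ) else 1) = _
  refine sum_congr rfl fun R _ => ?_
  congr 1
  rw [empty_union]
  unfold w18fl
  have : (univ \ R = ∅) ↔ R = univ := by
    rw [sdiff_eq_empty_iff_subset, univ_subset_iff]
  simp only [this]

theorem w18F (h : Rev P π) (L : ℕ) (hL : ∀ w : V, ee P L (fun S' _ => w18fl S') ∅ w ≤ 1 / 2)
    (u : V) (s : ℕ) : ee P (s + L) (fun S' _ => w18fl S') ∅ u ≤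
      1 / 2 * ee P s (fun S' _ => w18fl S') ∅ u := by
  rw [ee_semi h s L]
  have key : ∀ (S' : Finset V) (y : V), ee P L (fun S' _ => w18fl S') S' y ≤
      1 / 2 * w18fl S' + 0 := by
    intro S' y
    by_cases hS : S' = univ
    · have := w18ee_le h L (fun S' _ => w18fl S') (fun _ _ => w18fl S') S' y
        (fun S'' hS'' _ => w18fl_anti S' S'' hS'')
      rw [w18ee_cst h] at this
      have e : w18fl S' = 0 := by unfold w18fl; rw [if_pos hS]
      rw [e] at this ⊢
      linarith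
    · have e : w18fl S' = 1 := by unfold w18fl; rw [if_neg hS]
      have := w18ee_anti h L (fun S' _ => w18fl S') (fun S S' hS _ => w18fl_anti S S' hS) ∅ S'
        (empty_subset _) y
      rw [e]
      linarith [hL y]
  have := w18ee_le h s (fun S' y => ee P L (fun S' _ => w18fl S') S' y)
    (fun S' y => 1 / 2 * (fun S' _ => w18fl S') S' y + 0) ∅ u (fun S' _ y => key S' y)
  rw [w18ee_lin h] at this
  linarith

/-- cover time of a single walk from the stationary soup -/
theorem fin_walk : ∃ C : ℝ, 0 < C ∧ ∀ (V : Type) [Fintype V] [DecidableEq V]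
    (P : Matrix V V ℝ) (π : V → ℝ), Rev P π → ∀ q : ℝ, 0 < q → q < 1 →
    (∀ x y, π y / 2 ≤ (1 - q) * Gn P q x y) → ∀ θ : ℝ, 0 < θ →
    fp θ (fun A => ∑ x, π x * avk P q A x) ≤ 1 / 8 → ∀ u : V,
    Summable (fun t : ℕ => fk P 1 t u) ∧ ∑' t : ℕ, fk P 1 t u ≤ C * (θ + 1) / (1 - q) := by
  refine ⟨642, by norm_num, ?_⟩
  intro V _ _ P π h q h0 h1 hG θ hθ hfp u
  have hq : 0 < 1 - q := by linarith
  have hρ := w18ρ_law h q h0 h1
  set n : ℕ := ⌈2 * θ⌉₊ + 1 with hn
  have hn1 : 2 * θ ≤ ⌈2 * θ⌉₊ := Nat.le_ceil _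
  have hn2 : (⌈2 * θ⌉₊ : ℝ) < 2 * θ + 1 := Nat.ceil_lt_add_one (by linarith)
  have hnR : (n : ℝ) = ⌈2 * θ⌉₊ + 1 := by rw [hn]; push_cast; ring
  have hen : en (w18ρ P π q) n univ ≤ 1 / 4 := by
    have := depois hρ θ hθ.le n (by rw [hnR]; linarith)
    rw [w18ρ_avo h q h0 h1] at this
    linarith
  have hV : ∀ w : V, w18V P q (2 * (10 * n)) ∅ w ≤ 3 / 8 := by
    intro w
    have a1 := w18D h q h0 h1 hG (10 * n) n ∅ w
    rw [sdiff_empty] at a1
    have a2 : (2 : ℝ) ^ n * (3 / 4) ^ (10 * n) ≤ 1 / 8 := by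
      rw [pow_mul, ← mul_pow]
      have b1 : (2 : ℝ) * (3 / 4) ^ 10 ≤ 1 / 8 := by norm_num
      have b2 : (0 : ℝ) ≤ 2 * (3 / 4) ^ 10 := by norm_num
      calc ((2 : ℝ) * (3 / 4) ^ 10) ^ n ≤ (1 / 8) ^ n := pow_le_pow_left₀ b2 b1 n
        _ ≤ (1 / 8) ^ 1 := pow_le_pow_of_le_one (by norm_num) (by norm_num) (by rw [hn]; omega)
        _ = 1 / 8 := pow_one _
    linarith
  set L : ℕ := ⌈160 * n * (1 / (1 - q))⌉₊ with hLdef
  have hL1 : 160 * n * (1 / (1 - q)) ≤ (L : ℝ) := Nat.le_ceil _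
  have hK1 : 1 ≤ 1 / (1 - q) := by
    rw [le_div_iff₀ hq]; linarith
  have hn3 : (1 : ℝ) ≤ n := by rw [hnR]; linarith
  have hLpos : (0 : ℝ) < L := by
    have : (0 : ℝ) < 160 * n * (1 / (1 - q)) := by positivity
    linarith
  have hL2 : (L : ℝ) < 160 * n * (1 / (1 - q)) + 1 := Nat.ceil_lt_add_one (by positivity)
  have hL : ∀ w : V, ee P L (fun S' _ => w18fl S') ∅ w ≤ 1 / 2 := by
    intro w
    have a1 := w18E h q h0 h1 (2 * (10 * n)) L ∅ w
    have a2 := hV w
    have a3 : ((2 * (10 * n) : ℕ) : ℝ) * (q / (1 - q)) ≤ 1 / 8 * L := by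
      have : q / (1 - q) ≤ 1 / (1 - q) := div_le_div_of_nonneg_right h1.le hq.le
      push_cast
      have := mul_le_mul_of_nonneg_left this (by positivity : (0 : ℝ) ≤ 2 * (10 * n))
      nlinarith
    have a4 : (L : ℝ) * w18V P q (2 * (10 * n)) ∅ w ≤ L * (3 / 8) :=
      mul_le_mul_of_nonneg_left a2 hLpos.le
    have a5 : (L : ℝ) * ee P L (fun S' _ => w18fl S') ∅ w ≤ L * (1 / 2) := by linarith
    exact le_of_mul_le_mul_left a5 hLpos
  have hnn : ∀ t, 0 ≤ fk P 1 t u := by
    intro t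
    rw [w18fk h]
    have := w18ee_le h t (fun _ _ => (0 : ℝ)) (fun S' _ => w18fl S') ∅ u
      (fun S' _ z => w18fl_nonneg S')
    rwa [w18ee_cst h] at this
  have hle1 : ∀ t, fk P 1 t u ≤ 1 := by
    intro t
    rw [w18fk h]
    have := w18ee_le h t (fun S' _ => w18fl S') (fun _ _ => (1 : ℝ)) ∅ u
      (fun S' _ z => w18fl_le_one S')
    rwa [w18ee_cst h] at this
  have hstep : ∀ t, fk P 1 (t + L) u ≤ 1 / 2 * fk P 1 t u := by
    intro t
    rw [w18fk h, w18fk h]
    exact w18F h L hL u t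
  have hsum : ∀ N : ℕ, ∑ t ∈ range N, fk P 1 t u ≤ 2 * L := by
    intro N
    have e1 : ∑ t ∈ range (L + N), fk P 1 t u =
        ∑ t ∈ range L, fk P 1 t u + ∑ t ∈ range N, fk P 1 (L + t) u := sum_range_add _ _ _
    have e2 : ∑ t ∈ range L, fk P 1 t u ≤ L := by
      calc ∑ t ∈ range L, fk P 1 t u ≤ ∑ _t ∈ range L, (1 : ℝ) :=
            sum_le_sum fun t _ => hle1 t
        _ = L := by simp
    have e3 : ∑ t ∈ range N, fk P 1 (L + t) u ≤ 1 / 2 * ∑ t ∈ range N, fk P 1 t u := by
      rw [mul_sum]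
      refine sum_le_sum fun t _ => ?_
      rw [add_comm L t]
      exact hstep t
    have e4 : ∑ t ∈ range N, fk P 1 t u ≤ ∑ t ∈ range (L + N), fk P 1 t u :=
      sum_le_sum_of_subset_of_nonneg (by
        intro a ha
        rw [mem_range] at ha ⊢
        omega) (fun t _ _ => hnn t)
    linarith
  have hbound : 2 * (L : ℝ) ≤ 642 * (θ + 1) / (1 - q) := by
    have a1 : 160 * (n : ℝ) * (1 / (1 - q)) ≤ 160 * (2 * (θ + 1)) * (1 / (1 - q)) := by
      refine mul_le_mul_of_nonneg_right ?_ (by linarith)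
      rw [hnR]
      linarith
    have a2 : (1 : ℝ) ≤ (θ + 1) * (1 / (1 - q)) := by nlinarith
    have a3 : 642 * (θ + 1) / (1 - q) = 642 * ((θ + 1) * (1 / (1 - q))) := by ring
    rw [a3]
    nlinarith
  refine ⟨summable_of_sum_range_le hnn hsum, ?_⟩
  exact (Real.tsum_le_of_sum_range_le hnn hsum).trans hbound

end walks

end Pool.Agent.Helper41.CT
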