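import Pool.Agent.Helper41.CT.Defs
import Pool.Agent.Helper41.CT.Net

/-!
# Definitions for cover times of killed random walks and Gaussian fields
-/

set_option autoImplicit false

open scoped ENNReal NNReal Nat
open Finset MeasureTheory ProbabilityTheory

namespace Pool.Agent.Helper41.CT


/-! ## TARGETS: prove these (statements must not be changed; helper lemmas are welcome) -/

section walks

variable {V : Type} [Fintype V] [DecidableEq V] {P : Matrix V V ℝ} {π : V → ℝ}

/-- mixture with the empty set -/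
noncomputable def mixr (a : ℝ) (r : Finset V → ℝ) : Finset V → ℝ :=
  fun R => a * r R + (1 - a) * (if R = ∅ then 1 else 0)

theorem mixr_law {r : Finset V → ℝ} (hr : IsLaw r) (a : ℝ) (h0 : 0 ≤ a) (h1 : a ≤ 1) :
    IsLaw (mixr a r) where
  nn R := by
    unfold mixr
    have := hr.nn R
    have h2 : 0 ≤ 1 - a := by linarith
    split_ifs <;> positivity
  tot := by
    unfold mixr
    rw [Finset.sum_add_distrib, ← Finset.mul_sum, ← Finset.mul_sum, hr.tot]
    simp

theorem mixr_sum (r F : Finset V → ℝ) (a : ℝ) :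
    ∑ R, mixr a r R * F R = a * (∑ R, r R * F R) + (1 - a) * F ∅ := by
  unfold mixr
  have : ∀ R : Finset V, (a * r R + (1 - a) * (if R = ∅ then 1 else 0)) * F R =
      a * (r R * F R) + (if R = ∅ then (1 - a) * F R else 0) := by
    intro R
    split_ifs <;> ring
  simp_rw [this]
  rw [Finset.sum_add_distrib, ← Finset.mul_sum]
  simp

theorem mixr_avo (r : Finset V → ℝ) (a : ℝ) (A : Finset V) :
    avo (mixr a r) A = a * avo r A + (1 - a) := by
  have e1 : avo (mixr a r) A = ∑ R, mixr a r R * (if Disjoint R A then 1 else 0) := by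
    unfold avo
    refine Finset.sum_congr rfl fun R _ => ?_
    split_ifs <;> simp
  have e2 : avo r A = ∑ R, r R * (if Disjoint R A then 1 else 0) := by
    unfold avo
    refine Finset.sum_congr rfl fun R _ => ?_
    split_ifs <;> simp
  rw [e1, e2, mixr_sum]
  simp

theorem cmp (h : Rev P π) (q : ℝ) (h0 : 0 < q) (h1 : q < 1) (L : ℕ) (v : V) (F : Finset V → ℝ)
    (hF : ∀ S S', S ⊆ S' → F S' ≤ F S) :
    ∑ R, kl P q v R * F R ≤ ∑ R, mixr (q ^ L) (rl P L v) R * F R := by
  rw [mixr_sum]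
  set b := ∑ R, rl P L v R * F R with hb
  have hs : HasSum (fun n : ℕ => ∑ R, (1 - q) * q ^ n * rl P n v R * F R)
      (∑ R, kl P q v R * F R) :=
    hasSum_sum fun R _ => (kl_eq h q h0 h1 v R).mul_right (F R)
  have hg : HasSum (fun n : ℕ => (1 - q) * q ^ n * b) b := by
    have := ((hasSum_geometric_of_lt_one h0.le h1).mul_left (1 - q)).mul_right b
    rw [mul_inv_cancel₀ (by linarith), one_mul] at this
    exact this
  have hf : HasSum (fun n : ℕ => if n < L then (1 - q) * q ^ n * (F ∅ - b) else 0)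
      ((1 - q ^ L) * (F ∅ - b)) := by
    have h2 : HasSum (fun n : ℕ => if n < L then (1 - q) * q ^ n * (F ∅ - b) else 0)
        (∑ n ∈ Finset.range L, if n < L then (1 - q) * q ^ n * (F ∅ - b) else 0) := by
      apply hasSum_sum_of_ne_finset_zero
      intro n hn
      rw [Finset.mem_range] at hn
      rw [if_neg hn]
    have h3 : (∑ n ∈ Finset.range L, if n < L then (1 - q) * q ^ n * (F ∅ - b) else 0) =
        (1 - q ^ L) * (F ∅ - b) := by
      rw [Finset.sum_congr rfl (fun n hn => if_pos (Finset.mem_range.1 hn))]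
      rw [← Finset.sum_mul, ← Finset.mul_sum]
      congr 1
      exact mul_neg_geom_sum q L
    rwa [h3] at h2
  have ht := hg.add hf
  have key := hasSum_le (fun n => ?_) hs ht
  · refine key.trans (le_of_eq ?_)
    ring
  · have e1 : ∑ R, (1 - q) * q ^ n * rl P n v R * F R =
        (1 - q) * q ^ n * ∑ R, rl P n v R * F R := by
      rw [Finset.mul_sum]
      refine Finset.sum_congr rfl fun R _ => ?_
      ring
    rw [e1]
    have hc : 0 ≤ (1 - q) * q ^ n := by
      have : 0 ≤ 1 - q := by linarith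
      positivity
    by_cases hn : n < L
    · rw [if_pos hn]
      have h4 : ∑ R, rl P n v R * F R ≤ F ∅ := by
        have hl := rl_law h n v
        calc ∑ R, rl P n v R * F R ≤ ∑ R, rl P n v R * F ∅ := by
              refine Finset.sum_le_sum fun R _ => ?_
              exact mul_le_mul_of_nonneg_left (hF ∅ R (Finset.empty_subset R)) (hl.nn R)
          _ = F ∅ := by rw [← Finset.sum_mul, hl.tot, one_mul]
      calc (1 - q) * q ^ n * ∑ R, rl P n v R * F R ≤ (1 - q) * q ^ n * F ∅ :=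
            mul_le_mul_of_nonneg_left h4 hc
        _ = _ := by ring
    · rw [if_neg hn, add_zero]
      exact mul_le_mul_of_nonneg_left (rl_mono h L n (by omega) v F hF) hc

theorem en_cmp (h : Rev P π) (q : ℝ) (h0 : 0 < q) (h1 : q < 1) (L : ℕ) (v : V) (n : ℕ) :
    ∀ S : Finset V, en (kl P q v) n S ≤ en (mixr (q ^ L) (rl P L v)) n S := by
  have hlaw : IsLaw (mixr (q ^ L) (rl P L v)) :=
    mixr_law (rl_law h L v) _ (by positivity) (pow_le_one₀ h0.le h1.le)
  induction n with
  | zero => intro S; exact le_rfl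
  | succ n ih =>
    intro S
    have hk := kl_law h q h0 h1 v
    calc en (kl P q v) (n + 1) S = ∑ R, kl P q v R * en (kl P q v) n (S \ R) := rfl
      _ ≤ ∑ R, kl P q v R * en (mixr (q ^ L) (rl P L v)) n (S \ R) :=
          Finset.sum_le_sum fun R _ => mul_le_mul_of_nonneg_left (ih _) (hk.nn R)
      _ ≤ ∑ R, mixr (q ^ L) (rl P L v) R * en (mixr (q ^ L) (rl P L v)) n (S \ R) := by
          apply cmp h q h0 h1 L v (fun R => en (mixr (q ^ L) (rl P L v)) n (S \ R))
          intro R R' hR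
          exact en_mono hlaw n _ _ (Finset.sdiff_subset_sdiff le_rfl hR)
      _ = en (mixr (q ^ L) (rl P L v)) (n + 1) S := rfl

theorem quarter (L : ℕ) (hL : 2 ≤ L) : (1 / 4 : ℝ) ≤ (1 - 1 / (L : ℝ)) ^ L := by
  have hL' : (2 : ℝ) ≤ L := by exact_mod_cast hL
  have hpos : 0 < (L : ℝ) := by linarith
  have h1L : 1 / (L : ℝ) ≤ 1 / 2 := by
    apply one_div_le_one_div_of_le <;> linarith
  have h1 := one_add_mul_self_le_rpow_one_add (s := -(1 / (L : ℝ))) (by linarith)
    (p := (L : ℝ) / 2) (by linarith)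
  have e1 : 1 + (L : ℝ) / 2 * -(1 / (L : ℝ)) = 1 / 2 := by
    field_simp
    ring
  rw [e1] at h1
  have h0 : 0 ≤ 1 + -(1 / (L : ℝ)) := by linarith
  have e2 : ((1 + -(1 / (L : ℝ))) ^ ((L : ℝ) / 2)) ^ 2 = (1 - 1 / (L : ℝ)) ^ L := by
    rw [← Real.rpow_natCast, ← Real.rpow_mul h0]
    rw [← Real.rpow_natCast]
    congr 1
    push_cast
    ring
  rw [← e2]
  calc (1 / 4 : ℝ) = (1 / 2) ^ 2 := by norm_num
    _ ≤ _ := by gcongr

theorem exp8 : 4 * Real.exp (-8) ≤ 1 / 16 := by
  have h1 : Real.exp (-8) = (Real.exp 1 ^ 8)⁻¹ := by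
    rw [← Real.exp_nat_mul, ← Real.exp_neg]
    norm_num
  have h2 : (2 : ℝ) ≤ Real.exp 1 := by
    have := Real.exp_one_gt_d9
    linarith
  have h3 : (2 : ℝ) ^ 8 ≤ Real.exp 1 ^ 8 := by gcongr
  rw [h1]
  have h4 : (Real.exp 1 ^ 8)⁻¹ ≤ ((2 : ℝ) ^ 8)⁻¹ := by
    apply inv_anti₀ (by positivity) h3
  norm_num at h4 ⊢
  linarith

theorem pois (lam : ℝ) (k : ℕ) (hk : 1 ≤ k) (hl : 16 * (k : ℝ) ≤ lam) :
    ∑ m ∈ Finset.range (2 * k), Real.exp (-lam) * lam ^ m / (m ! : ℝ) ≤ 1 / 16 := by
  have hk' : (1 : ℝ) ≤ k := by exact_mod_cast hk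
  have hl0 : 0 ≤ lam := by linarith
  have h1 : ∀ m ∈ Finset.range (2 * k), Real.exp (-lam) * lam ^ m / (m ! : ℝ) ≤
      (2 : ℝ) ^ (2 * k) * Real.exp (-lam) * ((lam / 2) ^ m / (m ! : ℝ)) := by
    intro m hm
    rw [Finset.mem_range] at hm
    have e : Real.exp (-lam) * lam ^ m / (m ! : ℝ) =
        (2 : ℝ) ^ m * Real.exp (-lam) * ((lam / 2) ^ m / (m ! : ℝ)) := by
      rw [div_pow]
      field_simp
    rw [e]
    gcongr
    · norm_num
  calc ∑ m ∈ Finset.range (2 * k), Real.exp (-lam) * lam ^ m / (m ! : ℝ)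
      ≤ ∑ m ∈ Finset.range (2 * k), (2 : ℝ) ^ (2 * k) * Real.exp (-lam) * ((lam / 2) ^ m / (m ! : ℝ)) :=
        Finset.sum_le_sum h1
    _ = (2 : ℝ) ^ (2 * k) * Real.exp (-lam) * ∑ m ∈ Finset.range (2 * k), ((lam / 2) ^ m / (m ! : ℝ)) := by
        rw [Finset.mul_sum]
    _ ≤ (2 : ℝ) ^ (2 * k) * Real.exp (-lam) * Real.exp (lam / 2) := by
        gcongr
        exact Real.sum_le_exp_of_nonneg (by linarith) _
    _ = (2 : ℝ) ^ (2 * k) * Real.exp (-(lam / 2)) := by
        rw [mul_assoc, ← Real.exp_add]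
        congr 2
        ring
    _ ≤ (2 : ℝ) ^ (2 * k) * Real.exp (k * (-8)) := by
        gcongr
        linarith
    _ = (4 * Real.exp (-8)) ^ k := by
        rw [Real.exp_nat_mul, pow_mul, mul_pow]
        norm_num
    _ ≤ 4 * Real.exp (-8) := by
        apply pow_le_of_le_one (by positivity) (exp8.trans (by norm_num)) (by omega)
    _ ≤ 1 / 16 := exp8

/-- from `k` walks with `L` steps to a Poisson number of killed walks -/
theorem hyp_conv (h : Rev P π) (k L : ℕ) (hk : 1 ≤ k) (hL : 2 ≤ L) (v : V)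
    (hf : fk P k L v ≤ 1 / 4) :
    fp (64 * k) (fun A => avk P (1 - 1 / L) A v) ≤ 1 / 8 := by
  have hL' : (2 : ℝ) ≤ L := by exact_mod_cast hL
  have hk' : (1 : ℝ) ≤ k := by exact_mod_cast hk
  set q : ℝ := 1 - 1 / (L : ℝ) with hq
  have h1L : 1 / (L : ℝ) ≤ 1 / 2 := by
    apply one_div_le_one_div_of_le <;> linarith
  have h1L' : 0 < 1 / (L : ℝ) := by positivity
  have h0 : 0 < q := by rw [hq]; linarith
  have h1 : q < 1 := by rw [hq]; linarith
  have hqL : 1 / 4 ≤ q ^ L := quarter L hL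
  have e1 : (fun A => avk P q A v) = avo (kl P q v) := by
    funext A
    rw [kl_avo h q h0 h1]
  rw [e1]
  have hlaw : IsLaw (mixr (q ^ L) (rl P L v)) :=
    mixr_law (rl_law h L v) _ (by positivity) (pow_le_one₀ h0.le h1.le)
  have s1 := fp_series (kl_law h q h0 h1 v) (64 * (k : ℝ))
  have s2 := fp_series hlaw (64 * (k : ℝ))
  have step2 : fp (64 * (k : ℝ)) (avo (kl P q v)) ≤
      fp (64 * (k : ℝ)) (avo (mixr (q ^ L) (rl P L v))) := by
    refine hasSum_le (fun n => ?_) s1 s2
    exact mul_le_mul_of_nonneg_left (en_cmp h q h0 h1 L v n univ) (by positivity)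
  refine step2.trans ?_
  set lam : ℝ := 64 * (k : ℝ) * q ^ L with hlam
  have hlam16 : 16 * (k : ℝ) ≤ lam := by
    rw [hlam]
    nlinarith
  have hlam0 : 0 ≤ lam := by linarith
  have e2 : fp (64 * (k : ℝ)) (avo (mixr (q ^ L) (rl P L v))) = fp lam (avo (rl P L v)) := by
    unfold fp
    refine Finset.sum_congr rfl fun A _ => ?_
    rw [mixr_avo]
    have : 64 * (k : ℝ) * (1 - (q ^ L * avo (rl P L v) A + (1 - q ^ L))) =
        lam * (1 - avo (rl P L v) A) := by
      rw [hlam]; ring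
    rw [this]
  rw [e2]
  have hr := rl_law h L v
  have s3 := fp_series hr lam
  have hen : en (rl P L v) k univ ≤ 1 / 4 := by
    rw [← fk_rl h]; exact hf
  have hen2 : en (rl P L v) (2 * k) univ ≤ 1 / 16 := by
    rw [two_mul]
    refine (en_mul hr k k univ).trans ?_
    have := en_nonneg hr k univ
    nlinarith
  have hexp : HasSum (fun n : ℕ => Real.exp (-lam) * lam ^ n / (n ! : ℝ) * (1 / 16)) (1 / 16) := by
    have h5 : HasSum (fun n : ℕ => lam ^ n / (n ! : ℝ)) (Real.exp lam) := by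
      rw [Real.exp_eq_exp_ℝ]
      exact NormedSpace.expSeries_div_hasSum_exp lam
    have h6 := (h5.mul_left (Real.exp (-lam))).mul_right (1 / 16)
    rw [← Real.exp_add, neg_add_cancel, Real.exp_zero, one_mul] at h6
    have e9 : (fun n : ℕ => Real.exp (-lam) * lam ^ n / (n ! : ℝ) * (1 / 16)) =
        fun n : ℕ => Real.exp (-lam) * (lam ^ n / (n ! : ℝ)) * (1 / 16) := by
      funext n
      rw [mul_div_assoc]
    rw [e9]
    exact h6
  have hfin : HasSum (fun n : ℕ => if n < 2 * k then Real.exp (-lam) * lam ^ n / (n ! : ℝ) else 0)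
      (∑ m ∈ Finset.range (2 * k), Real.exp (-lam) * lam ^ m / (m ! : ℝ)) := by
    have h2 : HasSum (fun n : ℕ => if n < 2 * k then Real.exp (-lam) * lam ^ n / (n ! : ℝ) else 0)
        (∑ n ∈ Finset.range (2 * k), if n < 2 * k then Real.exp (-lam) * lam ^ n / (n ! : ℝ) else 0) := by
      apply hasSum_sum_of_ne_finset_zero
      intro n hn
      rw [Finset.mem_range] at hn
      rw [if_neg hn]
    rw [Finset.sum_congr rfl (fun n hn => if_pos (Finset.mem_range.1 hn))] at h2
    exact h2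
  have hb := hfin.add hexp
  have key := hasSum_le (fun n => ?_) s3 hb
  · have := pois lam k hk hlam16
    linarith
  · have hpos : 0 ≤ Real.exp (-lam) * lam ^ n / (n ! : ℝ) := by positivity
    by_cases hn : n < 2 * k
    · rw [if_pos hn]
      have h7 := en_le_one hr n univ
      have h8 : Real.exp (-lam) * lam ^ n / (n ! : ℝ) * en (rl P L v) n univ ≤
          Real.exp (-lam) * lam ^ n / (n ! : ℝ) * 1 := mul_le_mul_of_nonneg_left h7 hpos
      linarith
    · rw [if_neg hn, zero_add]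
      have h7 := (en_anti hr (2 * k) n (by omega) univ).trans hen2
      exact mul_le_mul_of_nonneg_left h7 hpos

end walks

end Pool.Agent.Helper41.CT
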