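import Pool.Agent.Helper41.CT.Defs
import Pool.Agent.Helper41.CT.Field
import Pool.Agent.Helper41.CT.FinW

/-!
# Definitions for cover times of killed random walks and Gaussian fields
-/

set_option autoImplicit false

open scoped ENNReal NNReal Nat
open Finset MeasureTheory ProbabilityTheory

namespace Pool.Agent.Helper41.CT


/-! ## TARGETS: prove these (statements must not be changed; helper lemmas are welcome) -/

section assembly

variable {V : Type} [Fintype V] [DecidableEq V] {P : Matrix V V ℝ} {π : V → ℝ}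

/-- main result for killed walks -/
theorem main_killed : ∃ C : ℝ, 0 < C ∧ ∀ (V : Type) [Fintype V] [DecidableEq V]
    (P : Matrix V V ℝ) (π : V → ℝ), Rev P π → ∀ q θ : ℝ, 1 / 2 ≤ q → q < 1 → 1 ≤ θ →
    (∀ v, fp θ (fun A => avk P q A v) ≤ 1 / 8) → ∀ u : V,
    Summable (fun t : ℕ => fk P 1 t u) ∧ ∑' t : ℕ, fk P 1 t u ≤ C * θ / (1 - q) := by
  obtain ⟨C₀, hC₀, hfin⟩ := fin_walk
  refine ⟨C₀ * 128000001, by positivity, ?_⟩
  intro V _ _ P π h q θ hq hq1 hθ1 hfp u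
  have hq0 : 0 < q := by linarith
  have hq1' : 0 < 1 - q := by linarith
  have hD : 0 < 1 - q + θ * q := by positivity
  obtain ⟨q₁, hq₁⟩ : ∃ q₁ : ℝ, q₁ = θ * q / (1 - q + θ * q) := ⟨_, rfl⟩
  have h1q : 1 - q₁ = (1 - q) / (1 - q + θ * q) := by
    rw [hq₁]; field_simp; ring
  have h1q0 : 0 < 1 - q₁ := by rw [h1q]; positivity
  have hlt : q₁ < 1 := by linarith
  have hq₁0 : 0 < q₁ := by rw [hq₁]; positivity
  have hqq : q ≤ q₁ := by
    rw [hq₁, le_div_iff₀ hD]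
    nlinarith [mul_nonneg (mul_nonneg hq0.le hq1'.le) (sub_nonneg.mpr hθ1)]
  have hθ : q₁ / (1 - q₁) = θ * (q / (1 - q)) := by
    rw [h1q, hq₁]; field_simp
  have hKle : 1 / (1 - q₁) ≤ θ / (1 - q) := by
    rw [h1q, one_div_div]
    apply div_le_div_of_nonneg_right _ hq1'.le
    nlinarith [mul_nonneg hq1'.le (sub_nonneg.mpr hθ1)]
  obtain ⟨μ₁, hμ₁⟩ := isG_exists (gn P π q₁) (fun x y => gn_symm h q₁ hq₁0 hlt x y)
    (fun t => qf_gn_nonneg h q₁ hq₁0 hlt t)
  have hfs := field_small h q q₁ hq hqq hlt θ hθ1 hθ hfp μ₁ hμ₁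
  have hK : 0 < 1 / (1 - q₁) := by positivity
  have hsK : 0 < Real.sqrt (1 / (1 - q₁)) := Real.sqrt_pos.mpr hK
  have hiso := iso_mod h q₁ hq₁0 hlt (16000 * Real.sqrt (1 / (1 - q₁))) (by positivity) μ₁ hμ₁
  have hb : (16000 * Real.sqrt (1 / (1 - q₁))) ^ 2 * (1 - q₁) / 2 = 128000000 := by
    rw [mul_pow, Real.sq_sqrt hK.le]
    field_simp
    norm_num
  have hb2 : 16000 * Real.sqrt (1 / (1 - q₁)) / 2 = 8000 * Real.sqrt (1 / (1 - q₁)) := by ring
  rw [hb, hb2] at hiso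
  have hfp' : fp 128000000 (fun A => ∑ x, π x * avk P q₁ A x) ≤ 1 / 8 := by linarith
  have hGn : ∀ x y, π y / 2 ≤ (1 - q₁) * Gn P q₁ x y := by
    intro x y
    have hdiag := Gn_diag h q₁ hq₁0 hlt y
    have hlow : 2 / 3 ≤ hit P q₁ x y :=
      hit_lower h q q₁ θ hq0 hqq hlt hθ1 hθ y
        (fun x => hit_ge h q hq0 hq1 θ hθ1 x (hfp x) y) x
    have hGe : Gn P q₁ x y = hit P q₁ x y * Gn P q₁ y y := by
      unfold hit
      rw [div_mul_cancel₀ _ (by linarith)]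
    have hdl := Gn_dl h q₁ hq₁0 hlt y
    have hdn := dl_nonneg h q₁ hq₁0 hlt y
    have hπ := h.pos y
    have hA : 0 < (1 - q₁) * Gn P q₁ y y := by
      apply mul_pos h1q0; linarith
    have hπle : π y ≤ (1 - q₁) * Gn P q₁ y y := by
      nlinarith [mul_nonneg hA.le hdn]
    rw [hGe]
    have : (1 - q₁) * (hit P q₁ x y * Gn P q₁ y y) = hit P q₁ x y * ((1 - q₁) * Gn P q₁ y y) := by
      ring
    rw [this]
    nlinarith [mul_nonneg (sub_nonneg.mpr hlow) hA.le]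
  obtain ⟨hs, hle⟩ := hfin V P π h q₁ hq₁0 hlt hGn 128000000 (by norm_num) hfp' u
  refine ⟨hs, hle.trans ?_⟩
  have e1 : C₀ * (128000000 + 1) / (1 - q₁) = (C₀ * 128000001) * (1 / (1 - q₁)) := by
    field_simp; norm_num
  have e2 : C₀ * 128000001 * θ / (1 - q) = (C₀ * 128000001) * (θ / (1 - q)) := by
    field_simp
  rw [e1, e2]
  exact mul_le_mul_of_nonneg_left hKle (by positivity)

end assembly

end Pool.Agent.Helper41.CT
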