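import Pool.Agent.Helper41.CT.Defs
import Pool.Agent.Helper41.CT.MainK
import Pool.Agent.Helper41.CT.Hyp

/-!
# Definitions for cover times of killed random walks and Gaussian fields
-/

set_option autoImplicit false

open scoped ENNReal NNReal Nat
open Finset MeasureTheory ProbabilityTheory

namespace Pool.Agent.Helper41.CT


/-! ## TARGETS: prove these (statements must not be changed; helper lemmas are welcome) -/

section assembly

variable {V : Type} [Fintype V] [DecidableEq V] {P : Matrix V V ℝ} {π : V → ℝ}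

theorem en_mono' {V : Type} [Fintype V] [DecidableEq V] {ρ : Finset V → ℝ} (hρ : IsLaw ρ)
    (n : ℕ) : ∀ S S' : Finset V, S ⊆ S' → en ρ n S ≤ en ρ n S' := by
  induction n with
  | zero =>
    intro S S' h
    unfold en
    by_cases hS : S = ∅
    · rw [if_pos hS]; split_ifs <;> norm_num
    · have hS' : S' ≠ ∅ := by
        rintro rfl
        exact hS (Finset.subset_empty.1 h)
      rw [if_neg hS, if_neg hS']
  | succ n ih =>
    intro S S' h
    simp only [en]
    exact Finset.sum_le_sum fun R _ =>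
      mul_le_mul_of_nonneg_left (ih _ _ (Finset.sdiff_subset_sdiff h (Finset.Subset.refl _)))
        (hρ.nn R)

theorem en_anti' {V : Type} [Fintype V] [DecidableEq V] {P : Matrix V V ℝ} {π : V → ℝ}
    (h : Rev P π) {m n : ℕ} (hmn : m ≤ n) (w : V) (k : ℕ) :
    ∀ S : Finset V, en (rl P n w) k S ≤ en (rl P m w) k S := by
  induction k with
  | zero => intro S; exact le_rfl
  | succ k ih =>
    intro S
    simp only [en]
    calc ∑ R, rl P n w R * en (rl P n w) k (S \ R)
        ≤ ∑ R, rl P n w R * en (rl P m w) k (S \ R) :=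
          Finset.sum_le_sum fun R _ => mul_le_mul_of_nonneg_left (ih _) ((rl_law h n w).nn R)
      _ ≤ ∑ R, rl P m w R * en (rl P m w) k (S \ R) :=
          rl_mono h m n hmn w (fun R => en (rl P m w) k (S \ R)) fun A A' hA =>
            en_mono' (rl_law h m w) k _ _ (Finset.sdiff_subset_sdiff (Finset.Subset.refl _) hA)

theorem en_zero' {V : Type} [Fintype V] [DecidableEq V] (P : Matrix V V ℝ) (w : V) (k : ℕ) :
    ∀ S : Finset V, (∃ x ∈ S, x ≠ w) → en (rl P 0 w) k S = 1 := by
  induction k with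
  | zero =>
    rintro S ⟨x, hx, -⟩
    unfold en
    rw [if_neg]
    rintro rfl
    exact absurd hx (Finset.notMem_empty x)
  | succ k ih =>
    rintro S ⟨x, hx, hxw⟩
    simp only [en]
    rw [Finset.sum_eq_single (insert w ∅)]
    · have h1 : rl P 0 w (insert w ∅) = 1 := by simp [rl, ee]
      rw [h1, one_mul]
      exact ih _ ⟨x, by simp [hx, hxw], hxw⟩
    · intro R _ hR
      have h1 : rl P 0 w R = 0 := by
        simp only [rl, ee]
        rw [if_neg]
        exact fun h => hR h.symm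
      rw [h1, zero_mul]
    · intro h; exact absurd (Finset.mem_univ _) h

/-- the theorem in terms of the failure probabilities -/
theorem main_fk : ∃ C : ℝ, 0 < C ∧ ∀ (V : Type) [Fintype V] [DecidableEq V]
    (P : Matrix V V ℝ) (π : V → ℝ), Rev P π → 2 ≤ Fintype.card V → ∀ k : ℕ, 1 ≤ k →
    ∀ T : ℝ, (∀ w, Summable (fun t : ℕ => fk P k t w) ∧ ∑' t : ℕ, fk P k t w ≤ T) → ∀ u : V,
    Summable (fun t : ℕ => fk P 1 t u) ∧ ∑' t : ℕ, fk P 1 t u ≤ C * k * T := by
  obtain ⟨C₀, hC₀, hmain⟩ := main_killed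
  refine ⟨320 * C₀, by positivity, ?_⟩
  intro V _ _ P π h hcard k hk T hT u
  have hnn : ∀ t w, 0 ≤ fk P k t w := fun t w => by
    rw [fk_rl h]; exact en_nonneg (rl_law h t w) k _
  have hanti : ∀ m n w, m ≤ n → fk P k n w ≤ fk P k m w := fun m n w hmn => by
    rw [fk_rl h, fk_rl h]; exact en_anti' h hmn w k _
  have h0 : ∀ w, fk P k 0 w = 1 := fun w => by
    rw [fk_rl h]
    refine en_zero' P w k _ ?_
    have : Nontrivial V := Fintype.one_lt_card_iff_nontrivial.1 (by omega)
    obtain ⟨x, hx⟩ := exists_ne w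
    exact ⟨x, Finset.mem_univ _, hx⟩
  have hT1 : 1 ≤ T := by
    obtain ⟨h1, h2⟩ := hT u
    have h3 := h1.le_tsum 0 fun t _ => hnn t u
    rw [h0] at h3
    exact h3.trans h2
  set L := ⌈4 * T⌉₊ with hL
  have hL4 : (4 : ℝ) * T ≤ L := Nat.le_ceil _
  have hLub : (L : ℝ) < 4 * T + 1 := Nat.ceil_lt_add_one (by linarith)
  have hL2 : 2 ≤ L := by
    have : (2 : ℝ) ≤ L := by linarith
    exact_mod_cast this
  have hLpos : (0 : ℝ) < L := by linarith
  have hf : ∀ v, fk P k L v ≤ 1 / 4 := by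
    intro v
    obtain ⟨h1, h2⟩ := hT v
    have h3 : ∑ t ∈ Finset.range (L + 1), fk P k t v ≤ T :=
      (h1.sum_le_tsum _ fun t _ => hnn t v).trans h2
    have h4 : ∑ _t ∈ Finset.range (L + 1), fk P k L v ≤ ∑ t ∈ Finset.range (L + 1), fk P k t v :=
      Finset.sum_le_sum fun t ht => hanti t L v (by
        have := Finset.mem_range.1 ht
        omega)
    rw [Finset.sum_const, Finset.card_range, nsmul_eq_mul] at h4
    push_cast at h4
    have h5 := hnn L v
    by_contra hcon
    push Not at hcon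
    nlinarith
  have hq1 : (1 : ℝ) / 2 ≤ 1 - 1 / L := by
    have h1 : (1 : ℝ) / L ≤ 1 / 2 := by
      rw [div_le_div_iff₀ hLpos (by norm_num)]
      have : (2 : ℝ) ≤ L := by exact_mod_cast hL2
      linarith
    linarith
  have hq2 : (1 : ℝ) - 1 / L < 1 := by
    have : (0 : ℝ) < 1 / L := by positivity
    linarith
  have hk1 : (1 : ℝ) ≤ k := by exact_mod_cast hk
  obtain ⟨h1, h2⟩ := hmain V P π h (1 - 1 / L) (64 * k) hq1 hq2 (by linarith)
    (fun v => hyp_conv h k L hk hL2 v (hf v)) u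
  refine ⟨h1, h2.trans ?_⟩
  have e1 : (1 : ℝ) - (1 - 1 / L) = 1 / L := by ring
  rw [e1, div_div_eq_mul_div, div_one]
  have e2 : (L : ℝ) ≤ 5 * T := by linarith
  have e3 : 0 ≤ C₀ * (64 * (k : ℝ)) := by positivity
  calc C₀ * (64 * (k : ℝ)) * L ≤ C₀ * (64 * (k : ℝ)) * (5 * T) := mul_le_mul_of_nonneg_left e2 e3
    _ = 320 * C₀ * k * T := by ring

end assembly

end Pool.Agent.Helper41.CT
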