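import Pool.Agent.Helper41.CT.Defs
import Pool.Agent.Helper41.CT.WalkA

/-!
# Definitions for cover times of killed random walks and Gaussian fields
-/

set_option autoImplicit false

open scoped ENNReal NNReal Nat
open Finset MeasureTheory ProbabilityTheory

namespace Pool.Agent.Helper41.CT


section walks

variable {V : Type} [Fintype V] [DecidableEq V] {P : Matrix V V ℝ} {π : V → ℝ}

theorem ie_aux (B : Finset V) : (if B.Nonempty then (1:ℝ) else 0)
    = ∑ A : Finset V, if A = ∅ then 0 else (-1 : ℝ) ^ (A.card + 1) * (if A ⊆ B then 1 else 0) := by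
  have h1 : ∑ A : Finset V, (if A ⊆ B then (-1 : ℝ) ^ A.card else 0) = if B = ∅ then 1 else 0 := by
    rw [← Finset.sum_filter]
    have : (Finset.univ.filter (fun A : Finset V => A ⊆ B)) = B.powerset := by
      ext A; simp
    rw [this]
    have h2 := Finset.sum_powerset_neg_one_pow_card (x := B)
    have h3 : ((∑ m ∈ B.powerset, (-1:ℤ) ^ m.card : ℤ) : ℝ) = ((if B = ∅ then 1 else 0 : ℤ) : ℝ) := by
      rw [h2]
    push_cast at h3
    exact h3
  have h4 : ∑ A : Finset V, (if A = ∅ then 0 else (-1 : ℝ) ^ (A.card + 1) * (if A ⊆ B then 1 else 0))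
      = ∑ A : Finset V, ((if A = ∅ then 1 else 0) - (if A ⊆ B then (-1 : ℝ) ^ A.card else 0)) := by
    apply Finset.sum_congr rfl
    intro A _
    by_cases hA : A = ∅
    · subst hA; simp
    · by_cases hB : A ⊆ B
      · simp [hA, hB, pow_succ]
      · simp [hA, hB]
  rw [h4, Finset.sum_sub_distrib, h1]
  simp only [Finset.sum_ite_eq', Finset.mem_univ, if_true]
  by_cases hB : B = ∅
  · subst hB; simp
  · simp [hB, Finset.nonempty_iff_ne_empty]

/-- weight of one path -/
noncomputable def wt (P : Matrix V V ℝ) (t : ℕ) (A : Finset V) (w : V) (η : Fin (t + 1) → V) : ℝ :=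
  if η 0 = w ∧ (∀ j, η j ∉ A) then ∏ j : Fin t, P (η j.castSucc) (η j.succ) else 0

theorem sum_wt (t : ℕ) (A : Finset V) (w : V) : ∑ η, wt P t A w η = av P t A w := by
  induction t generalizing w with
  | zero =>
    have e : ∑ η : Fin 1 → V, wt P 0 A w η = ∑ x : V, (if x = w ∧ x ∉ A then (1:ℝ) else 0) := by
      rw [← (Equiv.funUnique (Fin 1) V).symm.sum_comp]
      apply Finset.sum_congr rfl
      intro x _
      show wt P 0 A w (fun _ => x) = _
      unfold wt
      by_cases h : x = w ∧ x ∉ A
      · rw [if_pos h, if_pos ⟨h.1, fun _ => h.2⟩]; simp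
      · rw [if_neg h, if_neg]
        rintro ⟨a, b⟩
        exact h ⟨a, b 0⟩
    rw [e, av]
    rw [Finset.sum_eq_single w]
    · by_cases hw : w ∈ A <;> simp [hw]
    · intro b _ hb; simp [hb]
    · intro h; exact absurd (Finset.mem_univ _) h
  | succ t ih =>
    rw [av]
    have e : ∑ η : Fin (t + 2) → V, wt P (t + 1) A w η
        = ∑ x : V, ∑ η' : Fin (t + 1) → V, (if x = w ∧ x ∉ A then
          (P x (η' 0) * (if (∀ j, η' j ∉ A) then ∏ j : Fin t, P (η' j.castSucc) (η' j.succ) else 0)) else 0) := by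
      rw [← (Fin.consEquiv (fun _ : Fin (t + 2) => V)).sum_comp, Fintype.sum_prod_type]
      apply Finset.sum_congr rfl
      intro x _
      apply Finset.sum_congr rfl
      intro η' _
      show wt P (t + 1) A w (Fin.cons x η') = _
      unfold wt
      have hall : (∀ j : Fin (t + 2), (Fin.cons x η' : Fin (t + 2) → V) j ∉ A)
          ↔ x ∉ A ∧ ∀ j, η' j ∉ A := by
        rw [Fin.forall_fin_succ]; simp
      by_cases h1 : x = w
      · by_cases h2 : x ∉ A
        · by_cases h3 : ∀ j, η' j ∉ A
          · rw [if_pos ⟨h1, hall.mpr ⟨h2, h3⟩⟩, if_pos ⟨h1, h2⟩, if_pos h3, Fin.prod_univ_succ]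
            rfl
          · rw [if_neg (fun h => h3 (hall.mp h.2).2), if_pos ⟨h1, h2⟩, if_neg h3, mul_zero]
        · rw [if_neg (fun h => h2 (hall.mp h.2).1), if_neg (fun h => h2 h.2)]
      · rw [if_neg (fun h => h1 h.1), if_neg (fun h => h1 h.1)]
    rw [e, Finset.sum_eq_single w]
    · by_cases hw : w ∈ A
      · simp [hw]
      · rw [if_neg hw]
        simp only [hw, not_false_eq_true, and_self, if_true]
        have e2 : ∑ y, P w y * av P t A y = ∑ η' : Fin (t + 1) → V, ∑ y, P w y * wt P t A y η' := by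
          rw [Finset.sum_comm]
          apply Finset.sum_congr rfl
          intro y _
          rw [← ih y, Finset.mul_sum]
        rw [e2]
        apply Finset.sum_congr rfl
        intro η' _
        rw [Finset.sum_eq_single (η' 0)]
        · unfold wt
          congr 1
          by_cases h3 : ∀ j, η' j ∉ A
          · rw [if_pos h3, if_pos ⟨rfl, h3⟩]
          · rw [if_neg h3, if_neg (fun h => h3 h.2)]
        · intro b _ hb
          unfold wt
          rw [if_neg (fun h => hb h.1.symm), mul_zero]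
        · intro h; exact absurd (Finset.mem_univ _) h
    · intro b _ hb
      simp [hb]
    · intro h; exact absurd (Finset.mem_univ _) h

/-- the path sums of the problem -/
theorem path_sum (h : Rev P π) (k t : ℕ) (w : V) :
    (∑ ω : Fin k → Fin (t + 1) → V,
      if (∀ i, ω i 0 = w) ∧ (∃ v : V, ∀ i j, ω i j ≠ v) then
        ∏ i, ∏ j : Fin t, P (ω i j.castSucc) (ω i j.succ)
      else 0) = fk P k t w := by
  classical
  have key : ∀ ω : Fin k → Fin (t + 1) → V,
      (if (∀ i, ω i 0 = w) ∧ (∃ v : V, ∀ i j, ω i j ≠ v) then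
        ∏ i, ∏ j : Fin t, P (ω i j.castSucc) (ω i j.succ) else 0)
      = ∑ A : Finset V, if A = ∅ then 0 else (-1 : ℝ) ^ (A.card + 1) * ∏ i, wt P t A w (ω i) := by
    intro ω
    have hp : ∀ A : Finset V, ∏ i, wt P t A w (ω i)
        = (if A ⊆ Finset.univ.filter (fun v => ∀ i j, ω i j ≠ v) then 1 else 0) *
          (if (∀ i, ω i 0 = w) then ∏ i, ∏ j : Fin t, P (ω i j.castSucc) (ω i j.succ) else 0) := by
      intro A
      unfold wt
      rw [Finset.prod_ite_zero]
      by_cases h1 : ∀ i, ω i 0 = w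
      · by_cases h2 : A ⊆ Finset.univ.filter (fun v => ∀ i j, ω i j ≠ v)
        · rw [if_pos h1, if_pos h2, if_pos, one_mul]
          intro i _
          refine ⟨h1 i, fun j hj => ?_⟩
          exact (Finset.mem_filter.mp (h2 hj)).2 i j rfl
        · rw [if_neg h2, zero_mul, if_neg]
          intro hall
          apply h2
          intro v hv
          rw [Finset.mem_filter]
          refine ⟨Finset.mem_univ _, fun i j hij => ?_⟩
          exact (hall i (Finset.mem_univ _)).2 j (hij ▸ hv)
      · rw [if_neg h1, mul_zero, if_neg]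
        intro hall
        exact h1 (fun i => (hall i (Finset.mem_univ _)).1)
    simp only [hp]
    have hie := ie_aux (Finset.univ.filter (fun v => ∀ i j, ω i j ≠ v))
    have e1 : ∑ A : Finset V, (if A = ∅ then 0 else (-1 : ℝ) ^ (A.card + 1) *
        ((if A ⊆ Finset.univ.filter (fun v => ∀ i j, ω i j ≠ v) then 1 else 0) *
          (if (∀ i, ω i 0 = w) then ∏ i, ∏ j : Fin t, P (ω i j.castSucc) (ω i j.succ) else 0)))
        = (∑ A : Finset V, (if A = ∅ then 0 else (-1 : ℝ) ^ (A.card + 1) *
        (if A ⊆ Finset.univ.filter (fun v => ∀ i j, ω i j ≠ v) then 1 else 0))) *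
          (if (∀ i, ω i 0 = w) then ∏ i, ∏ j : Fin t, P (ω i j.castSucc) (ω i j.succ) else 0) := by
      rw [Finset.sum_mul]
      apply Finset.sum_congr rfl
      intro A _
      by_cases hA : A = ∅
      · rw [if_pos hA, if_pos hA, zero_mul]
      · rw [if_neg hA, if_neg hA, mul_assoc]
    rw [e1, ← hie]
    by_cases h1 : ∀ i, ω i 0 = w
    · by_cases h2 : ∃ v : V, ∀ i j, ω i j ≠ v
      · rw [if_pos ⟨h1, h2⟩, if_pos h1, if_pos, one_mul]
        obtain ⟨v, hv⟩ := h2
        exact ⟨v, Finset.mem_filter.mpr ⟨Finset.mem_univ _, hv⟩⟩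
      · rw [if_neg (fun h => h2 h.2), if_neg, zero_mul]
        rintro ⟨v, hv⟩
        exact h2 ⟨v, (Finset.mem_filter.mp hv).2⟩
    · rw [if_neg (fun h => h1 h.1), if_neg h1, mul_zero]
  rw [Finset.sum_congr rfl (fun ω _ => key ω), Finset.sum_comm]
  unfold fk
  apply Finset.sum_congr rfl
  intro A _
  by_cases hA : A = ∅
  · simp [hA]
  · simp only [if_neg hA]
    rw [← Finset.mul_sum, ← sum_wt, Fintype.sum_pow]

end walks

end Pool.Agent.Helper41.CT
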